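import Pool.Agent.Bub4.Vol
import Pool.Agent.Bubble.Paths

/-!
# The nearest-neighbour walk on `ℤ^(m + 2)`
-/

set_option autoImplicit false

namespace Pool.Agent.Bub4

open Finset Pool.Agent.SubBall

namespace BridgeAux

variable {S V : Type} [Fintype S] [Inhabited S] [AddCommGroup V] (Y : Sys S V)

theorem sm_take (l : List S) : ∀ i, i ≤ l.length →
    Y.sm (l.take i) = ∑ a ∈ range i, Y.vec (l.getD a default) := by
  induction l with
  | nil =>
    intro i hi
    have : i = 0 := by simpa using hi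
    subst this
    simp
  | cons s l ih =>
    intro i hi
    cases i with
    | zero => simp
    | succ k =>
      rw [List.take_succ_cons, Y.sm_cons, ih k (by simpa using hi), Finset.sum_range_succ']
      simp only [List.getD_cons_succ, List.getD_cons_zero]
      abel

omit [Fintype S] in
theorem getD_ofFn {n : ℕ} (w : Fin n → S) :
    (fun a => (List.ofFn w).getD a default) = ext0 n w := by
  funext a
  unfold ext0
  rw [List.getD_eq_getElem?_getD, List.getElem?_ofFn]
  split_ifs <;> rfl

theorem sm_take_ofFn {n : ℕ} (w : Fin n → S) {i : ℕ} (hi : i ≤ n) :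
    Y.sm ((List.ofFn w).take i) = pos Y.vec (ext0 n w) i := by
  rw [sm_take Y _ i (by simpa using hi), ← getD_ofFn]
  rfl

theorem sm_ofFn {n : ℕ} (w : Fin n → S) :
    Y.sm (List.ofFn w) = pos Y.vec (ext0 n w) n := by
  rw [← sm_take_ofFn Y w le_rfl]
  congr 1
  rw [List.take_of_length_le]
  simp

theorem saw_ofFn {n : ℕ} (w : Fin n → S) :
    Y.Saw (List.ofFn w) ↔ SubBall.Saw Y.vec n (ext0 n w) := by
  constructor
  · intro h i j hij hj heq
    have h1 : (List.ofFn w).take j = (List.ofFn w).take i ++ ((List.ofFn w).take j).drop i := by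
      have h2 := List.take_append_drop i ((List.ofFn w).take j)
      rw [List.take_take, min_eq_left hij.le] at h2
      exact h2.symm
    have h3 : Y.sm ((List.ofFn w).take j) =
        Y.sm ((List.ofFn w).take i) + Y.sm (((List.ofFn w).take j).drop i) := by
      conv_lhs => rw [h1]
      rw [Y.sm_append]
    rw [sm_take_ofFn Y w hj, sm_take_ofFn Y w (hij.le.trans hj), heq] at h3
    refine h (((List.ofFn w).take j).drop i) ?_ ?_ (by simpa using h3)
    · exact (List.drop_suffix _ _).isInfix.trans (List.take_prefix _ _).isInfix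
    · intro h4
      have h5 := congrArg List.length h4
      simp only [List.length_drop, List.length_take, List.length_ofFn, List.length_nil] at h5
      omega
  · intro h b hb hb' hsm
    obtain ⟨s, t, hst⟩ := hb
    have hlen : s.length + b.length + t.length = n := by
      have := congrArg List.length hst
      simp only [List.length_append, List.length_ofFn] at this
      omega
    have hbpos : 0 < b.length := List.length_pos_iff.2 hb'
    refine h s.length (s.length + b.length) (by omega) (by omega) ?_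
    rw [← sm_take_ofFn Y w (by omega : s.length ≤ n),
      ← sm_take_ofFn Y w (by omega : s.length + b.length ≤ n), ← hst]
    have e1 : (s ++ b ++ t).take s.length = s := by
      rw [List.append_assoc, List.take_left']
      rfl
    have e2 : (s ++ b ++ t).take (s.length + b.length) = s ++ b := by
      rw [List.take_left']
      simp
    rw [e1, e2, Y.sm_append, hsm, add_zero]

omit [Fintype S] in
theorem ext0_injective (n : ℕ) : Function.Injective (ext0 n : (Fin n → S) → ℕ → S) := by
  intro f g h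
  funext i
  have := congrFun h i
  simpa [ext0] using this

theorem E_saws (n : ℕ) (G : V → ℝ) :
    (Y.E n fun w => Y.sv w * G (Y.sm w)) =
      Y.z ^ n * ∑ w ∈ saws Y.vec n, G (pos Y.vec w n) := by
  classical
  rw [Y.E_eq, Finset.mul_sum]
  unfold saws words
  rw [Finset.sum_filter, Finset.sum_image (fun x _ y _ h => ext0_injective n h)]
  refine Finset.sum_congr rfl fun w _ => ?_
  by_cases h : Y.Saw (List.ofFn w)
  · rw [Y.sv_of h, if_pos ((saw_ofFn Y w).1 h), sm_ofFn]
    ring
  · rw [Y.sv_of_not h, if_neg (fun h' => h ((saw_ofFn Y w).2 h'))]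
    ring

end BridgeAux

/-- the system of the nearest-neighbour walk on `ℤ^(m + 2)` -/
noncomputable def lat (m : ℕ) {μ : ℝ} (hμ : 0 < μ) : Sys (St m) (Vt m) where
  vec := stv m
  neg := fun s => (s.1, !s.2)
  vec_neg := by
    rintro ⟨i, b⟩
    cases b <;> simp [stv]
  neg_neg := by
    rintro ⟨i, b⟩
    simp
  z := μ⁻¹
  z_pos := inv_pos.2 hμ

theorem lat_E (m : ℕ) {μ : ℝ} (hμ : 0 < μ) (n : ℕ) (G : Vt m → ℝ) :
    ((lat m hμ).E n fun w => (lat m hμ).sv w * G ((lat m hμ).sm w)) =
      (∑ w ∈ saws (stv m) n, G (pos (stv m) w n)) / μ ^ n := by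
  have h := BridgeAux.E_saws (lat m hμ) n G
  rw [h]
  show (μ⁻¹) ^ n * (∑ w ∈ saws (stv m) n, G (pos (stv m) w n)) = _
  rw [inv_pow, div_eq_inv_mul]

theorem lat_a (m : ℕ) {μ : ℝ} (hμ : 0 < μ) (n : ℕ) :
    (lat m hμ).a n = Bubble.an (stv m) μ n := by
  have h := lat_E m hμ n (fun _ => 1)
  simp only [mul_one] at h
  show (lat m hμ).E n (lat m hμ).sv = _
  unfold Bubble.an
  refine h.trans ?_
  simp

theorem lat_b (m : ℕ) {μ : ℝ} (hμ : 0 < μ) (s t : ℕ) :
    (lat m hμ).b s t = Bubble.W (stv m) μ (s, t) := by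
  rw [(lat m hμ).b_eq_sub]
  have h1 : ∀ u : List (St m), ((lat m hμ).E t fun w =>
      (lat m hμ).sv u * (lat m hμ).sv w * dl ((lat m hμ).sm u - (lat m hμ).sm w)) =
      (lat m hμ).sv u * ((∑ w ∈ saws (stv m) t, dl ((lat m hμ).sm u - pos (stv m) w t)) / μ ^ t) := by
    intro u
    rw [← lat_E m hμ t (fun x => dl ((lat m hμ).sm u - x)), ← Sys.E_mul_left]
    refine Sys.E_congr _ fun w _ => ?_
    ring
  simp only [h1]
  rw [lat_E m hμ s (fun x => (∑ w ∈ saws (stv m) t, dl (x - pos (stv m) w t)) / μ ^ t),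
    ← Finset.sum_div, div_div]
  unfold Bubble.W
  simp only
  rw [pow_add, mul_comm (μ ^ t)]
  congr 1
  unfold Bubble.wc
  rw [← Finset.sum_product', Finset.card_filter]
  push_cast
  refine Finset.sum_congr rfl fun p _ => ?_
  by_cases h : pos (stv m) p.1 s = pos (stv m) p.2 t
  · rw [if_pos h, dl_of_eq (sub_eq_zero.2 h)]
  · rw [if_neg h, dl_of_ne (sub_ne_zero.2 h)]

theorem lat_M (m : ℕ) {μ : ℝ} (hμ : 0 < μ) (i : Fin (m + 2)) (n : ℕ) :
    (lat m hμ).M (Sys.coord i) n =
      (∑ w ∈ saws (stv m) n, ((pos (stv m) w n i : ℤ) : ℝ) ^ 2) / μ ^ n := by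
  have h := lat_E m hμ n (fun x => ((x i : ℤ) : ℝ) ^ 2)
  rw [← h]
  rfl

theorem lat_crit (m : ℕ) {μ K : ℝ} (h : Bubble.Cr (stv m) μ K) :
    ∃ B : ℝ, (lat m h.mpos).Crit K B := by
  refine ⟨∑' p : ℕ × ℕ, Bubble.W (stv m) μ p, ?_, ?_, ?_⟩
  · intro n
    rw [lat_a]
    exact h.one_le n
  · intro n
    rw [lat_a]
    exact h.le n
  · intro N
    have h1 : (∑ s ∈ range N, ∑ t ∈ range N, (lat m h.mpos).b s t) =
        ∑ p ∈ range N ×ˢ range N, Bubble.W (stv m) μ p := by
      rw [Finset.sum_product]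
      refine Finset.sum_congr rfl fun s _ => Finset.sum_congr rfl fun t _ => ?_
      rw [lat_b]
    rw [h1]
    exact h.sum.sum_le_tsum _ fun p _ => Bubble.W_nonneg _ h.mpos p

end Pool.Agent.Bub4
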