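import Pool.Agent.Bub4.Words

/-!
# The laws of the gaps
-/

set_option autoImplicit false

namespace Pool.Agent.Bub4

open Finset

namespace Law

/-- symmetric about `c / 2` -/
def Symm (p : Law) (c : ℕ) : Prop :=
  p.Le c ∧ ∀ f : ℕ → ℝ, p.ex f = p.ex fun m => f (c - m)

/-- equality in distribution -/
def Eqv (p q : Law) : Prop := ∀ f : ℕ → ℝ, p.ex f = q.ex f

theorem Eqv.refl (p : Law) : Eqv p p := fun _ => rfl

theorem Eqv.symm {p q : Law} (h : Eqv p q) : Eqv q p := fun f => (h f).symm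

theorem Eqv.trans {p q r : Law} (h : Eqv p q) (h' : Eqv q r) : Eqv p r := fun f =>
  (h f).trans (h' f)

theorem Eqv.conv {p p' q q' : Law} (h : Eqv p p') (h' : Eqv q q') :
    Eqv (p.conv q) (p'.conv q') := by
  intro f
  rw [ex_conv, ex_conv, h]
  exact p'.ex_congr fun m => h' _

theorem conv_comm (p q : Law) : Eqv (p.conv q) (q.conv p) := by
  intro f
  rw [ex_conv, ex_conv, ex_comm]
  exact q.ex_congr fun m => p.ex_congr fun n => by rw [Nat.add_comm]

theorem conv_assoc (p q r : Law) : Eqv ((p.conv q).conv r) (p.conv (q.conv r)) := by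
  intro f
  rw [ex_conv, ex_conv, ex_conv]
  refine p.ex_congr fun m => ?_
  rw [ex_conv]
  exact q.ex_congr fun n => r.ex_congr fun l => by rw [Nat.add_assoc]

theorem dirac_conv (m n : ℕ) : Eqv ((dirac m).conv (dirac n)) (dirac (m + n)) := by
  intro f
  rw [ex_conv, ex_dirac, ex_dirac, ex_dirac]

theorem conv_dirac_zero (p : Law) : Eqv (p.conv (dirac 0)) p := by
  intro f
  rw [ex_conv]
  exact p.ex_congr fun m => by rw [ex_dirac, Nat.add_zero]

theorem Symm.conv {p q : Law} {c d : ℕ} (hp : p.Symm c) (hq : q.Symm d) :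
    (p.conv q).Symm (c + d) := by
  refine ⟨hp.1.conv hq.1, ?_⟩
  intro f
  rw [ex_conv, ex_conv, hp.2]
  refine p.ex_congr' fun i => ?_
  rw [hq.2]
  refine q.ex_congr' fun j => ?_
  have h1 := hp.1 i
  have h2 := hq.1 j
  congr 1
  omega

theorem symm_dirac (n : ℕ) : (dirac n).Symm (2 * n) := by
  refine ⟨le_dirac (by omega), ?_⟩
  intro f
  rw [ex_dirac, ex_dirac]
  congr 1
  omega

theorem symm_unif (x y : ℕ) : (unif x y).Symm (2 * x + y) := by
  refine ⟨le_unif (by omega), ?_⟩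
  intro f
  rw [ex_unif, ex_unif]
  congr 1
  rw [← Finset.sum_range_reflect]
  refine Finset.sum_congr rfl fun i hi => ?_
  rw [Finset.mem_range] at hi
  congr 1
  omega

end Law

namespace Sys

open Law

theorem P_le (v : ℕ) : (P v).Le (16 * v) := le_unif (by omega)

theorem P_symm (v : ℕ) : (P v).Symm (22 * v) := by
  have := symm_unif (6 * v) (10 * v)
  have h : 2 * (6 * v) + 10 * v = 22 * v := by ring
  rwa [h] at this

theorem P_dens {v : ℕ} (hv : 1 ≤ v) : (P v).Dens ((v : ℝ)⁻¹) := by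
  refine (dens_unif (6 * v) (10 * v)).mono ?_
  have hv' : (1 : ℝ) ≤ v := by exact_mod_cast hv
  refine inv_anti₀ (by linarith) ?_
  push_cast
  linarith

theorem cl_le {p : Law} {m : ℕ} (h : p.Le m) (v : ℕ) : ∀ n, (cl v n p).Le (m + 17 * n * v)
  | 0 => h.mono (by simp)
  | n + 1 => by
    have h1 : (cl v (n + 1) p).Le ((m + 17 * n * v) + (v + 16 * v)) :=
      (cl_le h v n).conv ((le_dirac le_rfl).conv (P_le v))
    refine h1.mono ?_
    have : 17 * (n + 1) * v = 17 * n * v + 17 * v := by ring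
    omega

theorem cl_dens {p : Law} {D : ℝ} (hD : 0 ≤ D) (h : p.Dens D) (v : ℕ) :
    ∀ n, (cl v n p).Dens D
  | 0 => h
  | n + 1 => (cl_dens hD h v n).conv_left hD

theorem cl_dens' (p : Law) {v n : ℕ} (hv : 1 ≤ v) (hn : 1 ≤ n) :
    (cl v n p).Dens ((v : ℝ)⁻¹) := by
  obtain ⟨n, rfl⟩ : ∃ k, n = k + 1 := ⟨n - 1, by omega⟩
  have hv' : (0 : ℝ) ≤ (v : ℝ)⁻¹ := by positivity
  exact ((P_dens hv).conv_right hv').conv_right hv'

theorem cl_symm {p : Law} {c : ℕ} (h : p.Symm c) (v : ℕ) :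
    ∀ n, (cl v n p).Symm (c + 24 * n * v)
  | 0 => by simpa [cl] using h
  | n + 1 => by
    have h1 : (cl v (n + 1) p).Symm ((c + 24 * n * v) + (2 * v + 22 * v)) :=
      (cl_symm h v n).conv ((symm_dirac v).conv (P_symm v))
    have h2 : (c + 24 * n * v) + (2 * v + 22 * v) = c + 24 * (n + 1) * v := by ring
    rwa [h2] at h1

theorem cl_dec (p : Law) (v : ℕ) : ∀ n, ∃ r : Law, Eqv (cl v n p) (p.conv r)
  | 0 => ⟨dirac 0, (conv_dirac_zero p).symm⟩
  | n + 1 => by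
    obtain ⟨r, hr⟩ := cl_dec p v n
    refine ⟨r.conv ((dirac v).conv (P v)), ?_⟩
    exact (hr.conv (Eqv.refl _)).trans (conv_assoc _ _ _)

/-- the law of the gap at the scale `Λ ^ k` -/
def pk (Λ J : ℕ) : ℕ → Law
  | 0 => dirac 0
  | k + 1 => cl (Λ ^ k) J (pk Λ J k)

/-- twice the mean of `pk` -/
def ck (Λ J : ℕ) : ℕ → ℕ
  | 0 => 0
  | k + 1 => ck Λ J k + 24 * J * Λ ^ k

theorem pk_symm (Λ J : ℕ) : ∀ k, (pk Λ J k).Symm (ck Λ J k)
  | 0 => symm_dirac 0
  | k + 1 => cl_symm (pk_symm Λ J k) _ _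

theorem pk_le {Λ J : ℕ} (h : 17 * J + 1 ≤ Λ) : ∀ k, (pk Λ J k).Le (Λ ^ k)
  | 0 => le_dirac (by simp)
  | k + 1 => by
    refine (cl_le (pk_le h k) (Λ ^ k) J).mono ?_
    have h1 : (17 * J + 1) * Λ ^ k ≤ Λ * Λ ^ k := Nat.mul_le_mul_right _ h
    calc Λ ^ k + 17 * J * Λ ^ k = (17 * J + 1) * Λ ^ k := by ring
      _ ≤ Λ * Λ ^ k := h1
      _ = Λ ^ (k + 1) := by ring

theorem ck_le {Λ J : ℕ} (h : 17 * J + 1 ≤ Λ) : ∀ k, ck Λ J k ≤ 2 * Λ ^ k
  | 0 => by simp [ck]
  | k + 1 => by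
    have h0 := ck_le h k
    have h1 : (17 * J + 1) * Λ ^ k ≤ Λ * Λ ^ k := Nat.mul_le_mul_right _ h
    have h2 : ck Λ J (k + 1) = ck Λ J k + 24 * J * Λ ^ k := rfl
    rw [h2]
    calc ck Λ J k + 24 * J * Λ ^ k ≤ 2 * Λ ^ k + 24 * J * Λ ^ k := by omega
      _ ≤ 2 * ((17 * J + 1) * Λ ^ k) := by nlinarith [Nat.zero_le (J * Λ ^ k)]
      _ ≤ 2 * (Λ * Λ ^ k) := by omega
      _ = 2 * Λ ^ (k + 1) := by ring

theorem pk_dens {Λ J : ℕ} (hΛ : 1 ≤ Λ) (hJ : 1 ≤ J) :
    ∀ k, (pk Λ J k).Dens ((Λ : ℝ) / (Λ : ℝ) ^ k)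
  | 0 => by
    have : (1 : ℝ) ≤ Λ := by exact_mod_cast hΛ
    refine (dens_dirac 0).mono ?_
    simpa using this
  | k + 1 => by
    have h0 : 1 ≤ Λ ^ k := Nat.one_le_pow _ _ hΛ
    have h1 : (cl (Λ ^ k) J (pk Λ J k)).Dens (((Λ ^ k : ℕ) : ℝ)⁻¹) := cl_dens' _ h0 hJ
    have h2 : (((Λ ^ k : ℕ) : ℝ)⁻¹) = (Λ : ℝ) / (Λ : ℝ) ^ (k + 1) := by
      have : (0 : ℝ) < Λ := by exact_mod_cast hΛ
      push_cast
      rw [pow_succ]
      field_simp
    rwa [h2] at h1

theorem pk_dec (Λ J k : ℕ) : ∃ r : Law, Eqv (pk Λ J (k + 1)) ((pk Λ J k).conv r) :=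
  cl_dec _ _ _

/-- the law of the gap in the additivity estimates is symmetric -/
theorem mu_symm {p : Law} {c : ℕ} (h : p.Symm c) (v : ℕ) : (mu v p).Symm (4 * c + 4 * v) := by
  have h1 : (mu v p).Symm (((c + c) + 2 * v) + (2 * v + (c + c))) :=
    ((h.conv h).conv (symm_dirac v)).conv ((symm_dirac v).conv (h.conv h))
  have h2 : ((c + c) + 2 * v) + (2 * v + (c + c)) = 4 * c + 4 * v := by ring
  rwa [h2] at h1

/-- normal form of `mu` -/
theorem mu_eqv (v : ℕ) (p : Law) :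
    Eqv (mu v p) (((p.conv p).conv (p.conv p)).conv (dirac (2 * v))) := by
  intro f
  simp only [mu, ex_conv, ex_dirac]
  refine p.ex_congr fun a => p.ex_congr fun b => p.ex_congr fun c => p.ex_congr fun d => ?_
  congr 1
  ring

theorem mu_dec {p q r : Law} (h : Eqv q (p.conv r)) {v w : ℕ} (hvw : v ≤ w) :
    ∃ s : Law, Eqv (mu w q) ((mu v p).conv s) := by
  refine ⟨((r.conv r).conv (r.conv r)).conv (dirac (2 * (w - v))), ?_⟩
  refine (mu_eqv w q).trans ?_
  refine Eqv.trans ?_ ((mu_eqv v p).symm.conv (Eqv.refl _))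
  intro f
  have h' : ∀ g : ℕ → ℝ, q.ex g = p.ex fun m => r.ex fun n => g (m + n) := fun g => by
    rw [h, ex_conv]
  simp only [ex_conv, ex_dirac, h']
  refine p.ex_congr fun a => ?_
  -- move the sums over `r` to the right
  have e1 : ∀ a : ℕ, (r.ex fun a' => p.ex fun b => r.ex fun b' => p.ex fun c => r.ex fun c' =>
      p.ex fun d => r.ex fun d' => f (a + a' + (b + b') + (c + c' + (d + d')) + 2 * w)) =
      p.ex fun b => p.ex fun c => p.ex fun d => r.ex fun a' => r.ex fun b' => r.ex fun c' =>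
        r.ex fun d' => f (a + a' + (b + b') + (c + c' + (d + d')) + 2 * w) := by
    intro a
    rw [ex_comm]
    refine p.ex_congr fun b => ?_
    have e2 : ∀ a', (r.ex fun b' => p.ex fun c => r.ex fun c' =>
        p.ex fun d => r.ex fun d' => f (a + a' + (b + b') + (c + c' + (d + d')) + 2 * w)) =
        p.ex fun c => p.ex fun d => r.ex fun b' => r.ex fun c' => r.ex fun d' =>
          f (a + a' + (b + b') + (c + c' + (d + d')) + 2 * w) := by
      intro a'
      rw [ex_comm]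
      refine p.ex_congr fun c => ?_
      have e3 : ∀ b', (r.ex fun c' => p.ex fun d => r.ex fun d' =>
          f (a + a' + (b + b') + (c + c' + (d + d')) + 2 * w)) =
          p.ex fun d => r.ex fun c' => r.ex fun d' =>
            f (a + a' + (b + b') + (c + c' + (d + d')) + 2 * w) := fun b' => ex_comm _ _ _
      simp only [e3]
      rw [ex_comm]
    simp only [e2]
    rw [ex_comm]
    refine p.ex_congr fun c => ?_
    rw [ex_comm]
  rw [e1]
  refine p.ex_congr fun b => p.ex_congr fun c => p.ex_congr fun d => r.ex_congr fun a' =>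
    r.ex_congr fun b' => r.ex_congr fun c' => r.ex_congr fun d' => ?_
  congr 1
  omega

end Sys

end Pool.Agent.Bub4
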