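import Pool.Agent.Bub4.Words

/-!
# Second moments
-/

set_option autoImplicit false

namespace Pool.Agent.Bub4

open Finset

namespace Sys

variable {S V : Type} [Fintype S] [AddCommGroup V] (Y : Sys S V)

theorem X2_nonneg (xs : V →+ ℝ) (w : List S) : 0 ≤ Y.X2 xs w := sq_nonneg _

theorem X2_append_le (xs : V →+ ℝ) (u w : List S) :
    Y.X2 xs (u ++ w) ≤ 2 * Y.X2 xs u + 2 * Y.X2 xs w := by
  unfold X2
  rw [sm_append, map_add]
  nlinarith [sq_nonneg (xs (Y.sm u) - xs (Y.sm w))]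

@[simp] theorem X2_nil (xs : V →+ ℝ) : Y.X2 xs [] = 0 := by simp [X2]

@[simp] theorem X2_reverse (xs : V →+ ℝ) (w : List S) : Y.X2 xs w.reverse = Y.X2 xs w := by
  simp [X2]

theorem M_nonneg (xs : V →+ ℝ) (n : ℕ) : 0 ≤ Y.M xs n :=
  Y.E_nonneg' fun w => mul_nonneg (Y.sv_nonneg w) (Y.X2_nonneg xs w)

theorem M_zero (xs : V →+ ℝ) : Y.M xs 0 = 0 := by
  simp [M]

theorem M_add_le {K B : ℝ} (hY : Y.Crit K B) (xs : V →+ ℝ) (p q : ℕ) :
    Y.M xs (p + q) ≤ 2 * K * (Y.M xs p + Y.M xs q) := by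
  have h1 : Y.M xs (p + q) ≤ Y.E p fun u => Y.E q fun w =>
      (2 * (Y.sv u * Y.X2 xs u)) * Y.sv w + (2 * Y.sv u) * (Y.sv w * Y.X2 xs w) := by
    unfold M
    rw [E_add]
    refine Y.E_mono fun u _ => Y.E_mono fun w _ => ?_
    have e1 := Y.sv_append_le u w
    have e2 := Y.X2_append_le xs u w
    have e3 := Y.X2_nonneg xs (u ++ w)
    have e4 : 0 ≤ Y.sv u * Y.sv w := mul_nonneg (Y.sv_nonneg u) (Y.sv_nonneg w)
    calc Y.sv (u ++ w) * Y.X2 xs (u ++ w) ≤ (Y.sv u * Y.sv w) * Y.X2 xs (u ++ w) :=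
          mul_le_mul_of_nonneg_right e1 e3
      _ ≤ (Y.sv u * Y.sv w) * (2 * Y.X2 xs u + 2 * Y.X2 xs w) :=
          mul_le_mul_of_nonneg_left e2 e4
      _ = _ := by ring
  have h2 : (Y.E p fun u => Y.E q fun w =>
      (2 * (Y.sv u * Y.X2 xs u)) * Y.sv w + (2 * Y.sv u) * (Y.sv w * Y.X2 xs w)) =
      2 * (Y.M xs p * Y.a q) + 2 * (Y.a p * Y.M xs q) := by
    simp only [E_fadd, E_mul_left, E_mul_right]
    unfold M a
    ring
  rw [h2] at h1
  have h3 := hY.a_le p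
  have h4 := hY.a_le q
  have h5 := Y.M_nonneg xs p
  have h6 := Y.M_nonneg xs q
  have h7 : Y.M xs p * Y.a q ≤ Y.M xs p * K := mul_le_mul_of_nonneg_left h4 h5
  have h8 : Y.a p * Y.M xs q ≤ K * Y.M xs q := mul_le_mul_of_nonneg_right h3 h6
  linarith

theorem M_mul_le {K B : ℝ} (hY : Y.Crit K B) (xs : V →+ ℝ) {n : ℕ} {y : ℝ} (hn : 1 ≤ n)
    (h : ∀ t, t ≤ n → Y.M xs t ≤ y * t) (c : ℕ) :
    ∀ t, t ≤ c * n → Y.M xs t ≤ (2 * K) ^ c * y * t := by
  have hK := hY.one_le_K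
  have hy : 0 ≤ y := by
    have := (Y.M_nonneg xs 1).trans (h 1 hn)
    simpa using this
  induction c with
  | zero =>
    intro t ht
    have : t = 0 := by omega
    subst this
    simp [M_zero]
  | succ c ih =>
    intro t ht
    have hp : (1 : ℝ) ≤ (2 * K) ^ c := one_le_pow₀ (by linarith)
    rcases Nat.lt_or_ge t (c * n) with h1 | h1
    · have h2 := ih t h1.le
      have h3 : (0 : ℝ) ≤ y * t := by positivity
      have h4 : (2 * K) ^ (c + 1) = (2 * K) ^ c * (2 * K) := pow_succ _ _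
      rw [h4]
      have h5 : (2 * K) ^ c * (y * t) ≤ (2 * K) ^ c * (y * t) * (2 * K) := by
        have : 0 ≤ (2 * K) ^ c * (y * t) := by positivity
        nlinarith
      nlinarith
    · obtain ⟨r, rfl⟩ := Nat.exists_eq_add_of_le h1
      have hr : r ≤ n := by
        have : (c + 1) * n = c * n + n := by ring
        omega
      have h2 := Y.M_add_le hY xs (c * n) r
      have h3 := ih (c * n) le_rfl
      have h4 := h r hr
      have h5 : y * (r : ℝ) ≤ (2 * K) ^ c * (y * r) := by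
        have : 0 ≤ y * (r : ℝ) := by positivity
        nlinarith
      have h6 : Y.M xs (c * n) + Y.M xs r ≤ (2 * K) ^ c * y * ((c * n + r : ℕ) : ℝ) := by
        push_cast at h3 ⊢
        nlinarith
      have h7 : (2 * K) ^ (c + 1) * y * ((c * n + r : ℕ) : ℝ) =
          2 * K * ((2 * K) ^ c * y * ((c * n + r : ℕ) : ℝ)) := by
        rw [pow_succ]; ring
      rw [h7]
      exact h2.trans (mul_le_mul_of_nonneg_left h6 (by linarith))

end Sys

end Pool.Agent.Bub4
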