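import Pool.Agent.Bub4.Words

/-!
# Summability of the errors
-/

set_option autoImplicit false

namespace Pool.Agent.Bub4

open Finset

namespace Sys

variable {S V : Type} [Fintype S] [AddCommGroup V] (Y : Sys S V)

theorem H_nonneg (w N : ℕ) : 0 ≤ Y.H w N :=
  Finset.sum_nonneg fun s _ => Finset.sum_nonneg fun t _ => by
    split_ifs
    · exact Y.b_nonneg s t
    · exact le_rfl

theorem H_mono (w : ℕ) {M N : ℕ} (h : M ≤ N) : Y.H w M ≤ Y.H w N := by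
  have hsub : range (M + 1) ⊆ range (N + 1) := Finset.range_mono (by omega)
  have h0 : ∀ s t, 0 ≤ (if w ≤ max s t then Y.b s t else 0) := fun s t => by
    split_ifs
    · exact Y.b_nonneg s t
    · exact le_rfl
  unfold H
  calc (∑ s ∈ range (M + 1), ∑ t ∈ range (M + 1), if w ≤ max s t then Y.b s t else 0) ≤
      ∑ s ∈ range (M + 1), ∑ t ∈ range (N + 1), if w ≤ max s t then Y.b s t else 0 :=
        Finset.sum_le_sum fun s _ => Finset.sum_le_sum_of_subset_of_nonneg hsub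
          fun t _ _ => h0 s t
    _ ≤ _ := Finset.sum_le_sum_of_subset_of_nonneg hsub
          fun s _ _ => Finset.sum_nonneg fun t _ => h0 s t

theorem gb_nonneg (r : ℕ) : 0 ≤ Y.gb r :=
  Finset.sum_nonneg fun s _ => Finset.sum_nonneg fun t _ => Y.b_nonneg s t

/-- the coefficients of `Sb` -/
theorem sbc_nonneg (r : ℕ) : (0 : ℝ) ≤ if r < 2 then 1 else Y.gb (r - 2) + Y.gb (r - 1) + Y.gb r := by
  split_ifs
  · exact zero_le_one
  · have h1 := Y.gb_nonneg (r - 2)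
    have h2 := Y.gb_nonneg (r - 1)
    have h3 := Y.gb_nonneg r
    linarith

theorem Sb_term_nonneg (N r : ℕ) : (0 : ℝ) ≤ if 2 ^ r ≤ N then
    (2 : ℝ) ^ r * (if r < 2 then 1 else Y.gb (r - 2) + Y.gb (r - 1) + Y.gb r) else 0 := by
  split_ifs with h1 h2
  · positivity
  · have h1 := Y.gb_nonneg (r - 2)
    have h2 := Y.gb_nonneg (r - 1)
    have h3 := Y.gb_nonneg r
    positivity
  · exact le_rfl

theorem Sb_nonneg (N : ℕ) : 0 ≤ Y.Sb N :=
  Finset.sum_nonneg fun r _ => Y.Sb_term_nonneg N r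

theorem Sb_mono {M N : ℕ} (h : M ≤ N) : Y.Sb M ≤ Y.Sb N := by
  unfold Sb
  refine (Finset.sum_le_sum fun r _ => ?_).trans
    (Finset.sum_le_sum_of_subset_of_nonneg (Finset.range_mono (by omega : M + 1 ≤ N + 1))
      fun r _ _ => Y.Sb_term_nonneg N r)
  by_cases h1 : 2 ^ r ≤ M
  · rw [if_pos h1, if_pos (h1.trans h)]
  · rw [if_neg h1]
    exact Y.Sb_term_nonneg N r

theorem er_nonneg (v N : ℕ) : 0 ≤ Y.er v N :=
  add_nonneg (mul_nonneg (Nat.cast_nonneg N) (Y.H_nonneg v N)) (Y.Sb_nonneg N)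

theorem er_mono (v : ℕ) {M N : ℕ} (h : M ≤ N) : Y.er v M ≤ Y.er v N := by
  unfold er
  have h1 : (M : ℝ) ≤ N := by exact_mod_cast h
  have h2 := Y.H_mono v h
  have h3 := Y.Sb_mono h
  have h4 := Y.H_nonneg v M
  have h5 : (0 : ℝ) ≤ N := Nat.cast_nonneg N
  have h6 : (M : ℝ) * Y.H v M ≤ N * Y.H v N := mul_le_mul h1 h2 h4 h5
  linarith

theorem gb_sum_le_sq (n : ℕ) : ∑ r ∈ range n, Y.gb r ≤
    ∑ s ∈ range (2 ^ n), ∑ t ∈ range (2 ^ n), Y.b s t := by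
  induction n with
  | zero =>
    simp only [Finset.range_zero, Finset.sum_empty]
    exact Finset.sum_nonneg fun s _ => Finset.sum_nonneg fun t _ => Y.b_nonneg s t
  | succ n ih =>
    rw [Finset.sum_range_succ]
    have hle : 2 ^ n ≤ 2 ^ (n + 1) := Nat.pow_le_pow_right (by norm_num) (by omega)
    have e1 : ∀ f : ℕ → ℝ, ∑ s ∈ range (2 ^ (n + 1)), f s =
        ∑ s ∈ range (2 ^ n), f s + ∑ s ∈ Ico (2 ^ n) (2 ^ (n + 1)), f s := fun f =>
      (Finset.sum_range_add_sum_Ico f hle).symm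
    rw [e1]
    have h1 : ∑ s ∈ range (2 ^ n), ∑ t ∈ range (2 ^ n), Y.b s t ≤
        ∑ s ∈ range (2 ^ n), ∑ t ∈ range (2 ^ (n + 1)), Y.b s t :=
      Finset.sum_le_sum fun s _ => by
        rw [e1]
        have : 0 ≤ ∑ t ∈ Ico (2 ^ n) (2 ^ (n + 1)), Y.b s t :=
          Finset.sum_nonneg fun t _ => Y.b_nonneg s t
        linarith
    have h2 : Y.gb n ≤ ∑ s ∈ Ico (2 ^ n) (2 ^ (n + 1)), ∑ t ∈ range (2 ^ (n + 1)), Y.b s t :=
      Finset.sum_le_sum fun s _ => by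
        rw [e1]
        have : 0 ≤ ∑ t ∈ range (2 ^ n), Y.b s t :=
          Finset.sum_nonneg fun t _ => Y.b_nonneg s t
        linarith
    linarith

theorem gb_sum_le {K B : ℝ} (hY : Y.Crit K B) (n : ℕ) : ∑ r ∈ range n, Y.gb r ≤ B :=
  (Y.gb_sum_le_sq n).trans (hY.b_le _)

/-- the number of scales at which a given length is macroscopic -/
theorem card_scales {Λ A m : ℕ} (hΛ : 2 ≤ Λ) (n : ℕ) :
    ((range n).filter fun k => Λ ^ k ≤ m ∧ m ≤ A * Λ ^ k).card ≤ A := by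
  set F := (range n).filter fun k => Λ ^ k ≤ m ∧ m ≤ A * Λ ^ k with hF
  rcases F.eq_empty_or_nonempty with h0 | h0
  · rw [h0]; simp
  · obtain ⟨k0, hk0, hmin⟩ : ∃ k0 ∈ F, ∀ k ∈ F, k0 ≤ k :=
      ⟨F.min' h0, F.min'_mem h0, fun k hk => F.min'_le k hk⟩
    have hsub : F ⊆ Ico k0 (k0 + A) := by
      intro k hk
      rw [Finset.mem_Ico]
      refine ⟨hmin k hk, ?_⟩
      by_contra hcon
      push Not at hcon
      rw [hF, Finset.mem_filter] at hk hk0
      have h1 : Λ ^ k ≤ A * Λ ^ k0 := hk.2.1.trans hk0.2.2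
      have h2 : Λ ^ (k0 + A) ≤ Λ ^ k := Nat.pow_le_pow_right (by omega) hcon
      have h3 : Λ ^ (k0 + A) = Λ ^ A * Λ ^ k0 := by rw [pow_add, mul_comm]
      have h4 : Λ ^ A * Λ ^ k0 ≤ A * Λ ^ k0 := by rw [← h3]; exact h2.trans h1
      have h5 : Λ ^ A ≤ A := Nat.le_of_mul_le_mul_right h4 (Nat.pow_pos (by omega))
      have h6 : A < 2 ^ A := Nat.lt_two_pow_self
      have h7 : 2 ^ A ≤ Λ ^ A := Nat.pow_le_pow_left hΛ A
      omega
    calc F.card ≤ (Ico k0 (k0 + A)).card := Finset.card_le_card hsub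
      _ = A := by simp

/-- a geometric sum over the scales which see the dyadic block `r` -/
theorem geom_scales {Λ A r : ℕ} (hΛ : 2 ≤ Λ) (n : ℕ) :
    ∑ k ∈ range n, (if 2 ^ r ≤ A * Λ ^ k then ((Λ : ℝ) ^ k)⁻¹ else 0) ≤ 2 * A / 2 ^ r := by
  rw [← Finset.sum_filter]
  set F := (range n).filter fun k => 2 ^ r ≤ A * Λ ^ k with hF
  rcases F.eq_empty_or_nonempty with h0 | h0
  · rw [h0]; simp; positivity
  · obtain ⟨k0, hk0, hmin⟩ : ∃ k0 ∈ F, ∀ k ∈ F, k0 ≤ k :=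
      ⟨F.min' h0, F.min'_mem h0, fun k hk => F.min'_le k hk⟩
    have hsub : F ⊆ Ico k0 (k0 + n) := by
      intro k hk
      rw [Finset.mem_Ico]
      refine ⟨hmin k hk, ?_⟩
      rw [hF, Finset.mem_filter, Finset.mem_range] at hk
      omega
    have hΛ' : (2 : ℝ) ≤ Λ := by exact_mod_cast hΛ
    have h1 : ∑ k ∈ F, ((Λ : ℝ) ^ k)⁻¹ ≤ ∑ k ∈ Ico k0 (k0 + n), ((Λ : ℝ) ^ k)⁻¹ :=
      Finset.sum_le_sum_of_subset_of_nonneg hsub fun k _ _ => by positivity
    have h2 : ∑ k ∈ Ico k0 (k0 + n), ((Λ : ℝ) ^ k)⁻¹ =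
        ((Λ : ℝ) ^ k0)⁻¹ * ∑ j ∈ range n, ((Λ : ℝ) ^ j)⁻¹ := by
      rw [Finset.sum_Ico_eq_sum_range, Nat.add_sub_cancel_left, Finset.mul_sum]
      refine Finset.sum_congr rfl fun j _ => ?_
      rw [pow_add, mul_inv]
    have h3 : ∀ n : ℕ, ∑ j ∈ range n, ((Λ : ℝ) ^ j)⁻¹ ≤ 2 - ((2 : ℝ) ^ n)⁻¹ * 2 := by
      intro n
      induction n with
      | zero => simp
      | succ n ih =>
        rw [Finset.sum_range_succ]
        have h4 : ((Λ : ℝ) ^ n)⁻¹ ≤ ((2 : ℝ) ^ n)⁻¹ :=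
          inv_anti₀ (by positivity) (pow_le_pow_left₀ (by norm_num) hΛ' n)
        have h5 : ((2 : ℝ) ^ (n + 1))⁻¹ * 2 = ((2 : ℝ) ^ n)⁻¹ := by
          rw [pow_succ, mul_inv]; ring
        rw [h5]
        linarith
    have h4 : ∑ j ∈ range n, ((Λ : ℝ) ^ j)⁻¹ ≤ 2 := by
      refine (h3 n).trans ?_
      have : 0 ≤ ((2 : ℝ) ^ n)⁻¹ * 2 := by positivity
      linarith
    have hk0' : 2 ^ r ≤ A * Λ ^ k0 := by
      rw [hF, Finset.mem_filter] at hk0
      exact hk0.2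
    have h5 : (2 : ℝ) ^ r ≤ A * (Λ : ℝ) ^ k0 := by exact_mod_cast hk0'
    have hpos : (0 : ℝ) < (Λ : ℝ) ^ k0 := by positivity
    have h6 : ((Λ : ℝ) ^ k0)⁻¹ ≤ A / 2 ^ r := by
      rw [le_div_iff₀ (by positivity), inv_mul_le_iff₀ hpos]
      linarith
    calc ∑ k ∈ F, ((Λ : ℝ) ^ k)⁻¹ ≤ ((Λ : ℝ) ^ k0)⁻¹ * ∑ j ∈ range n, ((Λ : ℝ) ^ j)⁻¹ := by
          rw [← h2]; exact h1
      _ ≤ (A / 2 ^ r) * 2 := by
          refine mul_le_mul h6 h4 (Finset.sum_nonneg fun j _ => by positivity) (by positivity)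
      _ = _ := by ring

theorem summ_H {K B : ℝ} (hY : Y.Crit K B) {Λ : ℕ} (hΛ : 2 ≤ Λ) {A : ℕ} (hA : 1 ≤ A) (n : ℕ) :
    ∑ k ∈ range n, Y.H (Λ ^ k) (A * Λ ^ k) ≤ A * B := by
  set M := A * Λ ^ n + 1 with hM
  have h1 : ∀ k ∈ range n, Y.H (Λ ^ k) (A * Λ ^ k) ≤ ∑ s ∈ range M, ∑ t ∈ range M,
      if Λ ^ k ≤ max s t ∧ max s t ≤ A * Λ ^ k then Y.b s t else 0 := by
    intro k hk
    rw [Finset.mem_range] at hk
    have hsub : range (A * Λ ^ k + 1) ⊆ range M := by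
      apply Finset.range_mono
      have : Λ ^ k ≤ Λ ^ n := Nat.pow_le_pow_right (by omega) hk.le
      have := Nat.mul_le_mul_left A this
      omega
    have h0 : ∀ s t, 0 ≤ (if Λ ^ k ≤ max s t ∧ max s t ≤ A * Λ ^ k then Y.b s t else 0) :=
      fun s t => by
        split_ifs
        · exact Y.b_nonneg s t
        · exact le_rfl
    unfold H
    calc (∑ s ∈ range (A * Λ ^ k + 1), ∑ t ∈ range (A * Λ ^ k + 1),
        if Λ ^ k ≤ max s t then Y.b s t else 0) =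
        ∑ s ∈ range (A * Λ ^ k + 1), ∑ t ∈ range (A * Λ ^ k + 1),
        if Λ ^ k ≤ max s t ∧ max s t ≤ A * Λ ^ k then Y.b s t else 0 := by
          refine Finset.sum_congr rfl fun s hs => Finset.sum_congr rfl fun t ht => ?_
          rw [Finset.mem_range] at hs ht
          have : max s t ≤ A * Λ ^ k := by omega
          simp only [this, and_true]
      _ ≤ ∑ s ∈ range (A * Λ ^ k + 1), ∑ t ∈ range M,
        if Λ ^ k ≤ max s t ∧ max s t ≤ A * Λ ^ k then Y.b s t else 0 :=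
          Finset.sum_le_sum fun s _ => Finset.sum_le_sum_of_subset_of_nonneg hsub
            fun t _ _ => h0 s t
      _ ≤ _ := Finset.sum_le_sum_of_subset_of_nonneg hsub
            fun s _ _ => Finset.sum_nonneg fun t _ => h0 s t
  refine (Finset.sum_le_sum h1).trans ?_
  rw [Finset.sum_comm]
  have h2 : ∀ s ∈ range M, (∑ k ∈ range n, ∑ t ∈ range M,
      if Λ ^ k ≤ max s t ∧ max s t ≤ A * Λ ^ k then Y.b s t else 0) ≤
      ∑ t ∈ range M, A * Y.b s t := by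
    intro s _
    rw [Finset.sum_comm]
    refine Finset.sum_le_sum fun t _ => ?_
    rw [← Finset.sum_filter, Finset.sum_const, nsmul_eq_mul]
    refine mul_le_mul_of_nonneg_right ?_ (Y.b_nonneg s t)
    exact_mod_cast card_scales hΛ n
  refine (Finset.sum_le_sum h2).trans ?_
  simp only [← Finset.mul_sum]
  exact mul_le_mul_of_nonneg_left (hY.b_le M) (Nat.cast_nonneg A)

theorem summ_Sb {K B : ℝ} (hY : Y.Crit K B) {Λ : ℕ} (hΛ : 2 ≤ Λ) {A : ℕ} (n : ℕ) :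
    ∑ k ∈ range n, Y.Sb (A * Λ ^ k) / (Λ : ℝ) ^ k ≤ 2 * A * (2 + 3 * B) := by
  set M := A * Λ ^ n + 1 with hM
  set g : ℕ → ℝ := fun r => if r < 2 then 1 else Y.gb (r - 2) + Y.gb (r - 1) + Y.gb r with hg
  have hg0 : ∀ r, 0 ≤ g r := fun r => Y.sbc_nonneg r
  have h1 : ∀ k ∈ range n, Y.Sb (A * Λ ^ k) / (Λ : ℝ) ^ k ≤ ∑ r ∈ range M,
      (2 ^ r * g r) * (if 2 ^ r ≤ A * Λ ^ k then ((Λ : ℝ) ^ k)⁻¹ else 0) := by
    intro k hk
    rw [Finset.mem_range] at hk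
    have hsub : range (A * Λ ^ k + 1) ⊆ range M := by
      apply Finset.range_mono
      have : Λ ^ k ≤ Λ ^ n := Nat.pow_le_pow_right (by omega) hk.le
      have := Nat.mul_le_mul_left A this
      omega
    have h0 : ∀ r, 0 ≤ (2 ^ r * g r) * (if 2 ^ r ≤ A * Λ ^ k then ((Λ : ℝ) ^ k)⁻¹ else 0) := by
      intro r
      refine mul_nonneg (mul_nonneg (by positivity) (hg0 r)) ?_
      split_ifs
      · positivity
      · exact le_rfl
    unfold Sb
    rw [div_eq_mul_inv, Finset.sum_mul]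
    refine le_trans (le_of_eq ?_) (Finset.sum_le_sum_of_subset_of_nonneg hsub
            fun r _ _ => h0 r)
    refine Finset.sum_congr rfl fun r _ => ?_
    split_ifs <;> simp_all
  refine (Finset.sum_le_sum h1).trans ?_
  rw [Finset.sum_comm]
  have h2 : ∀ r ∈ range M, (∑ k ∈ range n,
      (2 ^ r * g r) * (if 2 ^ r ≤ A * Λ ^ k then ((Λ : ℝ) ^ k)⁻¹ else 0)) ≤ 2 * A * g r := by
    intro r _
    rw [← Finset.mul_sum]
    have h3 := geom_scales (A := A) (r := r) hΛ n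
    have h4 : 0 ≤ 2 ^ r * g r := mul_nonneg (by positivity) (hg0 r)
    refine (mul_le_mul_of_nonneg_left h3 h4).trans (le_of_eq ?_)
    have : (2 : ℝ) ^ r ≠ 0 := by positivity
    field_simp
  refine (Finset.sum_le_sum h2).trans ?_
  rw [← Finset.mul_sum]
  refine mul_le_mul_of_nonneg_left ?_ (by positivity)
  -- the sum of the coefficients
  have h5 : ∑ r ∈ range M, g r ≤ ∑ r ∈ range (M + 2), g r :=
    Finset.sum_le_sum_of_subset_of_nonneg (Finset.range_mono (by omega)) fun r _ _ => hg0 r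
  refine h5.trans ?_
  rw [Finset.sum_range_succ', Finset.sum_range_succ']
  have h6 : ∀ r, g (r + 1 + 1) = Y.gb r + Y.gb (r + 1) + Y.gb (r + 2) := by
    intro r
    simp [hg]
  simp only [h6]
  have h7 : g 0 = 1 := by simp [hg]
  have h8 : g (0 + 1) = 1 := by simp [hg]
  rw [h7, h8, Finset.sum_add_distrib, Finset.sum_add_distrib]
  have h9 := Y.gb_sum_le hY M
  have h10 := Y.gb_sum_le hY (M + 1)
  have h11 := Y.gb_sum_le hY (M + 2)
  rw [Finset.sum_range_succ'] at h10 h11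
  rw [Finset.sum_range_succ'] at h11
  have h12 := Y.gb_nonneg 0
  have h13 := Y.gb_nonneg (0 + 1)
  have h14 : ∀ r, Y.gb (r + 1 + 1) = Y.gb (r + 2) := fun r => rfl
  simp only [h14] at h11
  linarith

theorem summ_er {K B : ℝ} (hY : Y.Crit K B) {Λ : ℕ} (hΛ : 2 ≤ Λ) {A : ℕ} (hA : 1 ≤ A) :
    Summable fun k : ℕ => Y.er (Λ ^ k) (A * Λ ^ k) / (Λ : ℝ) ^ k := by
  refine summable_of_sum_range_le (c := A * (A * B) + 2 * A * (2 + 3 * B)) ?_ ?_
  · intro k
    have := Y.er_nonneg (Λ ^ k) (A * Λ ^ k)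
    positivity
  · intro n
    have h1 : ∀ k ∈ range n, Y.er (Λ ^ k) (A * Λ ^ k) / (Λ : ℝ) ^ k =
        A * Y.H (Λ ^ k) (A * Λ ^ k) + Y.Sb (A * Λ ^ k) / (Λ : ℝ) ^ k := by
      intro k _
      have : (Λ : ℝ) ^ k ≠ 0 := by
        have : (0 : ℝ) < Λ := by exact_mod_cast (by omega : 0 < Λ)
        positivity
      unfold er
      push_cast
      field_simp
    rw [Finset.sum_congr rfl h1, Finset.sum_add_distrib, ← Finset.mul_sum]
    have h2 := Y.summ_H hY hΛ hA n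
    have h3 := Y.summ_Sb hY hΛ (A := A) n
    have h4 : (0 : ℝ) ≤ A := Nat.cast_nonneg A
    have h5 := mul_le_mul_of_nonneg_left h2 h4
    linarith

end Sys

end Pool.Agent.Bub4
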