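import Pool.Agent.Bub4.Words

/-!
# Elementary properties of the sums of minors
-/

set_option autoImplicit false

namespace Pool.Agent.Bub4

open Finset

namespace Sys

variable {S V : Type} [Fintype S] [AddCommGroup V] (Y : Sys S V)

theorem W_nonneg {p : Law} {ω ρ ρ' : List S → ℝ} (hω : ∀ w, 0 ≤ ω w) (hρ : ∀ w, 0 ≤ ρ w)
    (hρ' : ∀ w, 0 ≤ ρ' w) (i i' j j' : ℕ) : 0 ≤ Y.W p ω ρ ρ' i i' j j' :=
  Y.E_nonneg' fun _ => Y.E_nonneg' fun _ => Y.E_nonneg' fun _ => Y.E_nonneg' fun _ =>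
    mul_nonneg (mul_nonneg (mul_nonneg (hω _) (abs_nonneg _)) (hρ _)) (hρ' _)

theorem mn_congr {p q : Law} (h : ∀ f : ℕ → ℝ, p.ex f = q.ex f) (ξ ξ' η η' : List S) :
    Y.mn p ξ ξ' η η' = Y.mn q ξ ξ' η η' := by
  unfold mn
  rw [Y.kk_congr h, Y.kk_congr h, Y.kk_congr h, Y.kk_congr h]

theorem W_congr {p q : Law} (h : ∀ f : ℕ → ℝ, p.ex f = q.ex f) (ω ρ ρ' : List S → ℝ)
    (i i' j j' : ℕ) : Y.W p ω ρ ρ' i i' j j' = Y.W q ω ρ ρ' i i' j j' := by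
  unfold W
  simp only [Y.mn_congr h]

theorem abs_mn_le_sv {K B : ℝ} (hY : Y.Crit K B) (p : Law) (ξ ξ' η η' : List S) :
    |Y.mn p ξ ξ' η η'| ≤ 2 * K ^ 2 * (Y.sv ξ * Y.sv ξ' * Y.sv η * Y.sv η') := by
  refine (abs_mn_le (Y := Y) p ξ ξ' η η').trans ?_
  have hK := hY.K_pos
  have key : ∀ x y z w : List S, Y.kk p x z * Y.kk p y w ≤
      K ^ 2 * (Y.sv x * Y.sv y * Y.sv z * Y.sv w) := by
    intro x y z w
    have h1 := hY.kk_le p x z
    have h2 := hY.kk_le p y w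
    have h3 := Y.kk_nonneg p x z
    have h4 : 0 ≤ K * Y.sv y * Y.sv w :=
      mul_nonneg (mul_nonneg hK.le (Y.sv_nonneg y)) (Y.sv_nonneg w)
    calc Y.kk p x z * Y.kk p y w ≤ Y.kk p x z * (K * Y.sv y * Y.sv w) :=
          mul_le_mul_of_nonneg_left h2 h3
      _ ≤ (K * Y.sv x * Y.sv z) * (K * Y.sv y * Y.sv w) := mul_le_mul_of_nonneg_right h1 h4
      _ = _ := by ring
  have h1 := key ξ ξ' η η'
  have h2 := key ξ ξ' η' η
  linarith

/-- the trivial bound -/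
theorem W_le {K B : ℝ} (hY : Y.Crit K B) {p : Law} {ω : List S → ℝ} (hω : ∀ w, 0 ≤ ω w)
    (i i' j j' : ℕ) : Y.W p ω (fun _ => 1) (fun _ => 1) i i' j j' ≤
      2 * K ^ 5 * Y.E i fun w => ω w * Y.sv w := by
  have hK := hY.K_pos
  have h1 : Y.W p ω (fun _ => 1) (fun _ => 1) i i' j j' ≤
      Y.E i fun ξ => Y.E i' fun ξ' => Y.E j fun η => Y.E j' fun η' =>
        (2 * K ^ 2 * (ω ξ * Y.sv ξ)) * Y.sv ξ' * Y.sv η * Y.sv η' := by
    unfold W
    refine Y.E_mono fun ξ _ => Y.E_mono fun ξ' _ => Y.E_mono fun η _ => Y.E_mono fun η' _ => ?_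
    have h2 := mul_le_mul_of_nonneg_left (Y.abs_mn_le_sv hY p ξ ξ' η η') (hω ξ)
    calc ω ξ * |Y.mn p ξ ξ' η η'| * 1 * 1 = ω ξ * |Y.mn p ξ ξ' η η'| := by ring
      _ ≤ _ := h2
      _ = _ := by ring
  refine h1.trans ?_
  simp only [E_mul_left, E_mul_right]
  have h2 : Y.E i' Y.sv ≤ K := hY.a_le i'
  have h3 : Y.E j Y.sv ≤ K := hY.a_le j
  have h4 : Y.E j' Y.sv ≤ K := hY.a_le j'
  have h2' : 0 ≤ Y.E i' Y.sv := Y.a_nonneg i'
  have h3' : 0 ≤ Y.E j Y.sv := Y.a_nonneg j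
  have h4' : 0 ≤ Y.E j' Y.sv := Y.a_nonneg j'
  have h5 : 0 ≤ Y.E i fun w => ω w * Y.sv w :=
    Y.E_nonneg' fun w => mul_nonneg (hω w) (Y.sv_nonneg w)
  have h6 : Y.E i' Y.sv * Y.E j Y.sv * Y.E j' Y.sv ≤ K * K * K := by
    gcongr
  calc _ = (2 * K ^ 2 * Y.E i fun w => ω w * Y.sv w) *
        (Y.E i' Y.sv * Y.E j Y.sv * Y.E j' Y.sv) := by ring
    _ ≤ (2 * K ^ 2 * Y.E i fun w => ω w * Y.sv w) * (K * K * K) := by gcongr
    _ = _ := by ring

/-- minors of a gap one part of which is moved to the columns -/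
theorem mn_conv (p r : Law) (ξ ξ' η η' : List S) :
    Y.mn (p.conv r) ξ ξ' η η' = r.ex fun m => r.ex fun m' => Y.E m fun γ => Y.E m' fun γ' =>
      Y.mn p ξ ξ' (γ ++ η) (γ' ++ η') := by
  unfold mn
  simp only [kk_conv, Law.mul_ex]
  have h1 : ∀ (f g : ℕ → ℕ → ℝ), (r.ex fun m => r.ex fun m' => f m m') -
      (r.ex fun m => r.ex fun m' => g m m') = r.ex fun m => r.ex fun m' => f m m' - g m m' := by
    intro f g
    simp only [Law.ex_sub]
  have h2 : (r.ex fun m => r.ex fun m' => (Y.E m fun γ => Y.kk p ξ (γ ++ η')) *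
      (Y.E m' fun γ => Y.kk p ξ' (γ ++ η))) = r.ex fun m => r.ex fun m' =>
      (Y.E m' fun γ => Y.kk p ξ (γ ++ η')) * (Y.E m fun γ => Y.kk p ξ' (γ ++ η)) := by
    rw [Law.ex_comm]
  rw [h2, h1]
  refine r.ex_congr fun m => r.ex_congr fun m' => ?_
  simp only [E_fsub, E_mul_left, E_mul_right]

/-- part of the gap moved to the columns -/
theorem W_conv (p r : Law) {ω : List S → ℝ} (hω : ∀ w, 0 ≤ ω w) (i i' j j' : ℕ) :
    Y.W (p.conv r) ω (fun _ => 1) (fun _ => 1) i i' j j' ≤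
      r.ex fun m => r.ex fun m' => Y.W p ω (fun _ => 1) (fun _ => 1) i i' (m + j) (m' + j') := by
  have h1 : (r.ex fun m => r.ex fun m' =>
      Y.W p ω (fun _ => 1) (fun _ => 1) i i' (m + j) (m' + j')) =
      Y.E i fun ξ => Y.E i' fun ξ' => Y.E j fun η => Y.E j' fun η' =>
        ω ξ * r.ex fun m => r.ex fun m' => Y.E m fun γ => Y.E m' fun γ' =>
          |Y.mn p ξ ξ' (γ ++ η) (γ' ++ η')| := by
    unfold W
    simp only [← Law.ex_mul_left, ← E_mul_left, E_ex, mul_one]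
    refine r.ex_congr fun m => r.ex_congr fun m' => Y.E_congr fun ξ _ => Y.E_congr fun ξ' _ => ?_
    rw [E_add, Y.E_comm m j]
    refine Y.E_congr fun η _ => ?_
    rw [Y.E_comm j' m]
    refine Y.E_congr fun γ _ => ?_
    rw [E_add, Y.E_comm m' j']
  rw [h1]
  unfold W
  refine Y.E_mono fun ξ _ => Y.E_mono fun ξ' _ => Y.E_mono fun η _ => Y.E_mono fun η' _ => ?_
  rw [mul_one, mul_one]
  refine mul_le_mul_of_nonneg_left ?_ (hω ξ)
  rw [mn_conv]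
  refine (Law.abs_ex _ _).trans (Law.ex_mono _ fun m => ?_)
  refine (Law.abs_ex _ _).trans (Law.ex_mono _ fun m' => ?_)
  refine (Y.E_abs _ _).trans (Y.E_mono fun γ _ => ?_)
  exact Y.E_abs _ _

theorem W_swap_cols (p : Law) (ω : List S → ℝ) (i i' j j' : ℕ) :
    Y.W p ω (fun _ => 1) (fun _ => 1) i i' j' j = Y.W p ω (fun _ => 1) (fun _ => 1) i i' j j' := by
  unfold W
  refine Y.E_congr fun ξ _ => Y.E_congr fun ξ' _ => ?_
  rw [E_comm]
  refine Y.E_congr fun η _ => Y.E_congr fun η' _ => ?_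
  rw [mn_swap_cols, abs_neg]

/-- the weight on the second row -/
theorem W_swap_rows (p : Law) (ω : List S → ℝ) (i i' j j' : ℕ) :
    (Y.E i fun ξ => Y.E i' fun ξ' => Y.E j fun η => Y.E j' fun η' =>
      ω ξ' * |Y.mn p ξ ξ' η η'|) = Y.W p ω (fun _ => 1) (fun _ => 1) i' i j j' := by
  unfold W
  rw [E_comm]
  refine Y.E_congr fun ξ _ => Y.E_congr fun ξ' _ => Y.E_congr fun η _ => Y.E_congr fun η' _ => ?_
  rw [mn_swap_rows, abs_neg, mul_one, mul_one]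

/-- Fubini for two pairs of words -/
theorem E_comm22 (i i' j j' : ℕ) (G : List S → List S → List S → List S → ℝ) :
    (Y.E i fun ξ => Y.E i' fun ξ' => Y.E j fun η => Y.E j' fun η' => G ξ ξ' η η') =
      Y.E j fun η => Y.E j' fun η' => Y.E i fun ξ => Y.E i' fun ξ' => G ξ ξ' η η' := by
  calc (Y.E i fun ξ => Y.E i' fun ξ' => Y.E j fun η => Y.E j' fun η' => G ξ ξ' η η') =
      Y.E i fun ξ => Y.E j fun η => Y.E i' fun ξ' => Y.E j' fun η' => G ξ ξ' η η' :=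
        Y.E_congr fun ξ _ => Y.E_comm _ _ _
    _ = Y.E j fun η => Y.E i fun ξ => Y.E i' fun ξ' => Y.E j' fun η' => G ξ ξ' η η' :=
        Y.E_comm _ _ _
    _ = Y.E j fun η => Y.E i fun ξ => Y.E j' fun η' => Y.E i' fun ξ' => G ξ ξ' η η' :=
        Y.E_congr fun η _ => Y.E_congr fun ξ _ => Y.E_comm _ _ _
    _ = Y.E j fun η => Y.E j' fun η' => Y.E i fun ξ => Y.E i' fun ξ' => G ξ ξ' η η' :=
        Y.E_congr fun η _ => Y.E_comm _ _ _

/-- the weight on the first column -/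
theorem W_reverse (p : Law) {ω : List S → ℝ} (hω : ∀ w, ω w.reverse = ω w) (i i' j j' : ℕ) :
    (Y.E i fun ξ => Y.E i' fun ξ' => Y.E j fun η => Y.E j' fun η' =>
      ω η * |Y.mn p ξ ξ' η η'|) = Y.W p ω (fun _ => 1) (fun _ => 1) j j' i i' := by
  have h1 : (Y.E i fun ξ => Y.E i' fun ξ' => Y.E j fun η => Y.E j' fun η' =>
      ω η * |Y.mn p ξ ξ' η η'|) = Y.E i fun ξ => Y.E i' fun ξ' => Y.E j fun η => Y.E j' fun η' =>
      ω η * |Y.mn p η η' ξ ξ'| := by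
    rw [← Y.E_reverse i]
    refine Y.E_congr fun ξ _ => ?_
    rw [← Y.E_reverse i']
    refine Y.E_congr fun ξ' _ => ?_
    rw [← Y.E_reverse j]
    refine Y.E_congr fun η _ => ?_
    rw [← Y.E_reverse j']
    refine Y.E_congr fun η' _ => ?_
    rw [hω, mn_reverse]
    simp only [List.reverse_reverse]
  rw [h1]
  unfold W
  simp only [mul_one]
  exact Y.E_comm22 i i' j j' fun ξ ξ' η η' => ω η * |Y.mn p η η' ξ ξ'|

end Sys

end Pool.Agent.Bub4
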