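import Pool.Agent.Bub4.Far
import Pool.Agent.Bub4.Ext
import Pool.Agent.Bub4.Summ
import Pool.Agent.Bub4.Mom

/-!
# Truncation of the rows
-/

set_option autoImplicit false

namespace Pool.Agent.Bub4

open Finset

namespace Sys

variable {S V : Type} [Fintype S] [AddCommGroup V] (Y : Sys S V)

namespace TruncAux

/-- the defect of the connection kernel after truncation of the row -/
noncomputable def D (p : Law) (ξ0 ξ1 η : List S) : ℝ :=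
  Y.sv (ξ0 ++ ξ1) * Y.kk p ξ1 η - Y.kk p (ξ0 ++ ξ1) η

theorem D_eq (p : Law) (ξ0 ξ1 η : List S) :
    D Y p ξ0 ξ1 η = p.ex fun m => Y.E m fun γ =>
      (Y.sv (ξ0 ++ ξ1) * Y.sv (ξ1 ++ (γ ++ η)) - Y.sv (ξ0 ++ ξ1 ++ (γ ++ η))) := by
  unfold D kk k
  rw [← Law.ex_mul_left, ← Law.ex_sub]
  refine p.ex_congr fun m => ?_
  rw [← E_mul_left, ← E_fsub]
  refine Y.E_congr fun γ _ => ?_
  simp only [List.append_assoc]

theorem D_nonneg (p : Law) (ξ0 ξ1 η : List S) : 0 ≤ D Y p ξ0 ξ1 η := by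
  rw [D_eq]
  refine p.ex_nonneg fun m => Y.E_nonneg' fun γ => ?_
  have h1 : Y.sv (ξ0 ++ ξ1 ++ (γ ++ η)) ≤ Y.sv (ξ0 ++ ξ1) * Y.sv (ξ1 ++ (γ ++ η)) := by
    by_cases h : Y.Saw (ξ0 ++ ξ1 ++ (γ ++ η))
    · have h2 : Y.Saw (ξ0 ++ ξ1) := h.fac (List.prefix_append _ _).isInfix
      have h3 : Y.Saw (ξ1 ++ (γ ++ η)) := by
        refine h.fac ?_
        rw [List.append_assoc ξ0]
        exact (List.suffix_append _ _).isInfix
      rw [Y.sv_of h, Y.sv_of h2, Y.sv_of h3]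
      norm_num
    · rw [Y.sv_of_not h]
      exact mul_nonneg (Y.sv_nonneg _) (Y.sv_nonneg _)
  linarith

theorem D_le {v : ℕ} (p : Law) (ξ0 ξ1 η : List S) (h : v ≤ ξ1.length) :
    D Y p ξ0 ξ1 η ≤ p.ex fun m => Y.E m fun γ =>
      Y.sv (ξ0 ++ ξ1) * Y.sv (γ ++ η) * Y.ht v (ξ0 ++ ξ1) (γ ++ η) := by
  rw [D_eq]
  exact p.ex_mono fun m => Y.E_mono fun γ _ => Y.hit_right v ξ0 ξ1 (γ ++ η) h

/-- summed defects, with a weight on the row -/
theorem sum_D {v m0 N : ℕ} {p : Law} {C : ℝ} (ω : List S → ℝ) (hω : ∀ w, 0 ≤ ω w)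
    (hp : p.Le m0) (i0 I j : ℕ) (hI : v ≤ I) (hj : m0 + j ≤ N)
    (h : ∀ n, n ≤ N → (Y.E (i0 + I) fun l => Y.E n fun r =>
      ω l * (Y.sv l * Y.sv r * Y.ht v l r)) ≤ C) :
    (Y.E i0 fun ξ0 => Y.E I fun ξ1 => Y.E j fun η => ω (ξ0 ++ ξ1) * D Y p ξ0 ξ1 η) ≤ C := by
  have h1 : (Y.E i0 fun ξ0 => Y.E I fun ξ1 => Y.E j fun η => ω (ξ0 ++ ξ1) * D Y p ξ0 ξ1 η) ≤
      Y.E i0 fun ξ0 => Y.E I fun ξ1 => Y.E j fun η => p.ex fun m => Y.E m fun γ =>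
        ω (ξ0 ++ ξ1) * (Y.sv (ξ0 ++ ξ1) * Y.sv (γ ++ η) * Y.ht v (ξ0 ++ ξ1) (γ ++ η)) := by
    refine Y.E_mono fun ξ0 _ => Y.E_mono fun ξ1 h1 => Y.E_mono fun η _ => ?_
    have := mul_le_mul_of_nonneg_left (D_le Y p ξ0 ξ1 η (h1.symm ▸ hI)) (hω (ξ0 ++ ξ1))
    refine this.trans (le_of_eq ?_)
    rw [← Law.ex_mul_left]
    refine p.ex_congr fun m => ?_
    rw [← E_mul_left]
  refine h1.trans ?_
  have h2 : (Y.E i0 fun ξ0 => Y.E I fun ξ1 => Y.E j fun η => p.ex fun m => Y.E m fun γ =>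
        ω (ξ0 ++ ξ1) * (Y.sv (ξ0 ++ ξ1) * Y.sv (γ ++ η) * Y.ht v (ξ0 ++ ξ1) (γ ++ η))) =
      p.ex fun m => Y.E (i0 + I) fun l => Y.E (m + j) fun r =>
        ω l * (Y.sv l * Y.sv r * Y.ht v l r) := by
    simp only [E_ex]
    refine p.ex_congr fun m => ?_
    rw [Y.E_add i0 I]
    refine Y.E_congr fun ξ0 _ => Y.E_congr fun ξ1 _ => ?_
    rw [Y.E_add m j, Y.E_comm m j]
  rw [h2]
  refine Law.ex_le' _ fun a => h _ ?_
  have := hp a
  omega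

/-- the total weight of the connections of two words of given lengths -/
theorem E_E_kk_le {K B : ℝ} (hY : Y.Crit K B) (p : Law) (i j : ℕ) :
    (Y.E i fun ξ => Y.E j fun η => Y.kk p ξ η) ≤ K := by
  unfold kk
  simp only [E_ex]
  refine Law.ex_le _ fun m => ?_
  have h1 : (Y.E i fun ξ => Y.E j fun η => Y.k m ξ η) = Y.a (i + (m + j)) := by
    have h2 : ∀ ξ : List S, (Y.E j fun η => Y.k m ξ η) = Y.k (m + j) ξ [] :=
      fun ξ => Y.E_k_col m j ξ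
    simp only [h2]
    rw [Y.E_k_row, k_nil_nil]
  rw [h1]
  exact hY.a_le _

/-- weighted version -/
theorem E_X_kk_le {K B : ℝ} (hY : Y.Crit K B) (xs : V →+ ℝ) (p : Law) (i j : ℕ) :
    (Y.E i fun ξ => Y.E j fun η => Y.X2 xs ξ * Y.kk p ξ η) ≤ K * Y.M xs i := by
  unfold M
  rw [← E_mul_left]
  refine Y.E_mono fun ξ _ => ?_
  rw [E_mul_left]
  have h1 : (Y.E j fun η => Y.kk p ξ η) ≤ K * Y.sv ξ := by
    unfold kk
    rw [E_ex]
    refine Law.ex_le _ fun m => ?_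
    have h2 : (Y.E j fun η => Y.k m ξ η) = Y.k (m + j) ξ [] := Y.E_k_col m j ξ
    rw [h2]
    refine (hY.k_le _ _ _).trans (le_of_eq ?_)
    simp
  have h3 : 0 ≤ Y.X2 xs ξ := sq_nonneg _
  have h4 := mul_le_mul_of_nonneg_left h1 h3
  calc _ ≤ _ := h4
    _ = _ := by ring

theorem X2_append_le (xs : V →+ ℝ) (u w : List S) :
    Y.X2 xs (u ++ w) ≤ 2 * Y.X2 xs u + 2 * Y.X2 xs w := by
  unfold X2
  rw [sm_append, map_add]
  nlinarith [sq_nonneg (xs (Y.sm u) - xs (Y.sm w))]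

/-- a minor after truncation of the first row -/
theorem mn_le (p : Law) (ξ0 ξ1 ξ' η η' : List S) :
    |Y.mn p (ξ0 ++ ξ1) ξ' η η'| ≤ Y.sv (ξ0 ++ ξ1) * |Y.mn p ξ1 ξ' η η'| +
      D Y p ξ0 ξ1 η * Y.kk p ξ' η' + D Y p ξ0 ξ1 η' * Y.kk p ξ' η := by
  have h1 : Y.mn p (ξ0 ++ ξ1) ξ' η η' = Y.sv (ξ0 ++ ξ1) * Y.mn p ξ1 ξ' η η' -
      D Y p ξ0 ξ1 η * Y.kk p ξ' η' + D Y p ξ0 ξ1 η' * Y.kk p ξ' η := by
    unfold D mn
    ring
  have h2 := mul_nonneg (D_nonneg Y p ξ0 ξ1 η) (Y.kk_nonneg p ξ' η')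
  have h3 := mul_nonneg (D_nonneg Y p ξ0 ξ1 η') (Y.kk_nonneg p ξ' η)
  have h4 : |Y.sv (ξ0 ++ ξ1) * Y.mn p ξ1 ξ' η η'| = Y.sv (ξ0 ++ ξ1) * |Y.mn p ξ1 ξ' η η'| := by
    rw [abs_mul, abs_of_nonneg (Y.sv_nonneg _)]
  rw [h1]
  have h5 := abs_le.1 (le_refl |Y.sv (ξ0 ++ ξ1) * Y.mn p ξ1 ξ' η η'|)
  rw [h4] at h5
  rw [abs_le]
  constructor <;> linarith [h5.1, h5.2]

/-- products of nested sums -/
theorem E_prod (i i' j j' : ℕ) (F : List S → List S → ℝ) (G : List S → List S → ℝ) :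
    (Y.E i fun ξ => Y.E i' fun ξ' => Y.E j fun η => Y.E j' fun η' => F ξ η * G ξ' η') =
      (Y.E i fun ξ => Y.E j fun η => F ξ η) * (Y.E i' fun ξ' => Y.E j' fun η' => G ξ' η') := by
  rw [← E_mul_right]
  refine Y.E_congr fun ξ _ => ?_
  rw [← E_mul_left]
  refine Y.E_congr fun ξ' _ => ?_
  rw [← E_mul_right]
  refine Y.E_congr fun η _ => ?_
  rw [← E_mul_left]

theorem E_prod' (i i' j j' : ℕ) (F : List S → List S → ℝ) (G : List S → List S → ℝ) :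
    (Y.E i fun ξ => Y.E i' fun ξ' => Y.E j fun η => Y.E j' fun η' => F ξ η' * G ξ' η) =
      (Y.E i fun ξ => Y.E j' fun η' => F ξ η') * (Y.E i' fun ξ' => Y.E j fun η => G ξ' η) := by
  rw [← E_prod]
  refine Y.E_congr fun ξ _ => Y.E_congr fun ξ' _ => ?_
  rw [Y.E_comm]

theorem E4_add (i i' j j' : ℕ) (F G : List S → List S → List S → List S → ℝ) :
    (Y.E i fun ξ => Y.E i' fun ξ' => Y.E j fun η => Y.E j' fun η' => F ξ ξ' η η' + G ξ ξ' η η') =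
      (Y.E i fun ξ => Y.E i' fun ξ' => Y.E j fun η => Y.E j' fun η' => F ξ ξ' η η') +
      (Y.E i fun ξ => Y.E i' fun ξ' => Y.E j fun η => Y.E j' fun η' => G ξ ξ' η η') := by
  simp only [E_fadd]

theorem E4_mul (i i' j j' : ℕ) (c : ℝ) (F : List S → List S → List S → List S → ℝ) :
    (Y.E i fun ξ => Y.E i' fun ξ' => Y.E j fun η => Y.E j' fun η' => c * F ξ ξ' η η') =
      c * (Y.E i fun ξ => Y.E i' fun ξ' => Y.E j fun η => Y.E j' fun η' => F ξ ξ' η η') := by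
  simp only [E_mul_left]

/-- truncation of the first row, weight one -/
theorem row_one {K B : ℝ} (hY : Y.Crit K B) {v N m0 I i i' j j' : ℕ} {p : Law} (hI : v ≤ I)
    (hp : p.Le m0) (hj : m0 + j ≤ N) (hj' : m0 + j' ≤ N) (hi : i ≤ N) :
    Y.W p (fun _ => 1) (fun _ => 1) (fun _ => 1) i i' j j' ≤
      K * Y.W p (fun _ => 1) (fun _ => 1) (fun _ => 1) (min i I) i' j j' +
      2 * K ^ 3 * Y.H v N := by
  have hK := hY.one_le_K
  have hH := Y.H_nonneg v N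
  have hW := Y.W_nonneg (p := p) (fun _ : List S => zero_le_one (α := ℝ))
    (fun _ : List S => zero_le_one (α := ℝ)) (fun _ : List S => zero_le_one (α := ℝ))
    (min i I) i' j j'
  have hK3 : 0 ≤ K ^ 3 := by positivity
  rcases le_or_gt i I with h | h
  · rw [min_eq_left h] at hW ⊢
    nlinarith [mul_nonneg hK3 hH]
  rw [min_eq_right h.le] at hW ⊢
  obtain ⟨i0, rfl⟩ : ∃ i0, i = i0 + I := ⟨i - I, by omega⟩
  have hfar : ∀ n, n ≤ N → (Y.E (i0 + I) fun l => Y.E n fun r =>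
      (fun _ : List S => (1 : ℝ)) l * (Y.sv l * Y.sv r * Y.ht v l r)) ≤ K ^ 2 * Y.H v N := by
    intro n hn
    simp only [one_mul]
    exact Y.far_one hY hi hn
  have hD := sum_D Y (fun _ => 1) (fun _ => zero_le_one) hp i0 I j hI hj hfar
  have hD' := sum_D Y (fun _ => 1) (fun _ => zero_le_one) hp i0 I j' hI hj' hfar
  simp only [one_mul] at hD hD'
  have hk := E_E_kk_le Y hY p i' j'
  have hk' := E_E_kk_le Y hY p i' j
  have hk0 : 0 ≤ Y.E i' fun ξ' => Y.E j' fun η' => Y.kk p ξ' η' :=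
    Y.E_nonneg' fun _ => Y.E_nonneg' fun _ => Y.kk_nonneg _ _ _
  have hk0' : 0 ≤ Y.E i' fun ξ' => Y.E j fun η => Y.kk p ξ' η :=
    Y.E_nonneg' fun _ => Y.E_nonneg' fun _ => Y.kk_nonneg _ _ _
  have hK2 : 0 ≤ K ^ 2 * Y.H v N := by positivity
  -- the three contributions
  have main : Y.W p (fun _ => 1) (fun _ => 1) (fun _ => 1) (i0 + I) i' j j' ≤
      (Y.E i0 fun ξ0 => Y.sv ξ0) *
        Y.W p (fun _ => 1) (fun _ => 1) (fun _ => 1) I i' j j' +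
      (Y.E i0 fun ξ0 => Y.E I fun ξ1 => Y.E j fun η => D Y p ξ0 ξ1 η) *
        (Y.E i' fun ξ' => Y.E j' fun η' => Y.kk p ξ' η') +
      (Y.E i0 fun ξ0 => Y.E I fun ξ1 => Y.E j' fun η' => D Y p ξ0 ξ1 η') *
        (Y.E i' fun ξ' => Y.E j fun η => Y.kk p ξ' η) := by
    have e1 : Y.W p (fun _ => 1) (fun _ => 1) (fun _ => 1) (i0 + I) i' j j' =
        Y.E i0 fun ξ0 => Y.E I fun ξ1 => Y.E i' fun ξ' => Y.E j fun η => Y.E j' fun η' =>
          |Y.mn p (ξ0 ++ ξ1) ξ' η η'| := by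
      unfold W
      rw [E_add]
      simp only [one_mul, mul_one]
    have e2 : (Y.E i0 fun ξ0 => Y.sv ξ0) *
        Y.W p (fun _ => 1) (fun _ => 1) (fun _ => 1) I i' j j' =
        Y.E i0 fun ξ0 => Y.E I fun ξ1 => Y.E i' fun ξ' => Y.E j fun η => Y.E j' fun η' =>
          Y.sv ξ0 * |Y.mn p ξ1 ξ' η η'| := by
      unfold W
      rw [← E_mul_right]
      refine Y.E_congr fun ξ0 _ => ?_
      simp only [one_mul, mul_one]
      rw [E4_mul]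
    have e3 : (Y.E i0 fun ξ0 => Y.E I fun ξ1 => Y.E j fun η => D Y p ξ0 ξ1 η) *
        (Y.E i' fun ξ' => Y.E j' fun η' => Y.kk p ξ' η') =
        Y.E i0 fun ξ0 => Y.E I fun ξ1 => Y.E i' fun ξ' => Y.E j fun η => Y.E j' fun η' =>
          D Y p ξ0 ξ1 η * Y.kk p ξ' η' := by
      rw [← E_mul_right]
      refine Y.E_congr fun ξ0 _ => ?_
      rw [← E_prod]
    have e4 : (Y.E i0 fun ξ0 => Y.E I fun ξ1 => Y.E j' fun η' => D Y p ξ0 ξ1 η') *
        (Y.E i' fun ξ' => Y.E j fun η => Y.kk p ξ' η) =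
        Y.E i0 fun ξ0 => Y.E I fun ξ1 => Y.E i' fun ξ' => Y.E j fun η => Y.E j' fun η' =>
          D Y p ξ0 ξ1 η' * Y.kk p ξ' η := by
      rw [← E_mul_right]
      refine Y.E_congr fun ξ0 _ => ?_
      rw [← E_prod']
    rw [e1, e2, e3, e4, ← E_fadd, ← E_fadd]
    refine Y.E_mono fun ξ0 _ => ?_
    rw [← E4_add, ← E4_add]
    refine Y.E_mono fun ξ1 _ => Y.E_mono fun ξ' _ => Y.E_mono fun η _ => Y.E_mono fun η' _ => ?_
    refine (mn_le Y p ξ0 ξ1 ξ' η η').trans ?_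
    have := mul_le_mul_of_nonneg_right (Y.sv_append_left ξ0 ξ1) (abs_nonneg (Y.mn p ξ1 ξ' η η'))
    linarith
  have ha : (Y.E i0 fun ξ0 => Y.sv ξ0) ≤ K := hY.a_le i0
  have t1 := mul_le_mul_of_nonneg_right ha hW
  have hDn : 0 ≤ Y.E i0 fun ξ0 => Y.E I fun ξ1 => Y.E j fun η => D Y p ξ0 ξ1 η :=
    Y.E_nonneg' fun _ => Y.E_nonneg' fun _ => Y.E_nonneg' fun _ => D_nonneg Y _ _ _ _
  have hDn' : 0 ≤ Y.E i0 fun ξ0 => Y.E I fun ξ1 => Y.E j' fun η => D Y p ξ0 ξ1 η :=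
    Y.E_nonneg' fun _ => Y.E_nonneg' fun _ => Y.E_nonneg' fun _ => D_nonneg Y _ _ _ _
  have t2 := mul_le_mul hD hk hk0 hK2
  have t3 := mul_le_mul hD' hk' hk0' hK2
  calc _ ≤ _ := main
    _ ≤ K * Y.W p (fun _ => 1) (fun _ => 1) (fun _ => 1) I i' j j' +
        K ^ 2 * Y.H v N * K + K ^ 2 * Y.H v N * K := by linarith
    _ = _ := by ring

end TruncAux

theorem trunc_one {K B : ℝ} (hY : Y.Crit K B) : ∃ C : ℝ, 0 ≤ C ∧
    ∀ (v N m0 I i i' j j' : ℕ) (p : Law), v ≤ I → p.Le m0 → m0 + j ≤ N → m0 + j' ≤ N →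
      i ≤ N → i' ≤ N →
      Y.W p (fun _ => 1) (fun _ => 1) (fun _ => 1) i i' j j' ≤
        K ^ 2 * Y.W p (fun _ => 1) (fun _ => 1) (fun _ => 1) (min i I) (min i' I) j j' +
        C * Y.H v N := by
  have hK := hY.one_le_K
  refine ⟨2 * K ^ 4 + 2 * K ^ 3, by positivity, ?_⟩
  intro v N m0 I i i' j j' p hI hp hj hj' hi hi'
  have hswap : ∀ a b : ℕ, Y.W p (fun _ => 1) (fun _ => 1) (fun _ => 1) a b j j' =
      Y.W p (fun _ => 1) (fun _ => 1) (fun _ => 1) b a j j' := by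
    intro a b
    rw [← Y.W_swap_rows p (fun _ => 1) b a j j']
    unfold W
    refine Y.E_congr fun _ _ => Y.E_congr fun _ _ => Y.E_congr fun _ _ => Y.E_congr fun _ _ => ?_
    ring
  have h1 := TruncAux.row_one Y hY (i' := i') hI hp hj hj' hi
  have h2 := TruncAux.row_one Y hY (i' := min i I) hI hp hj hj' hi'
  rw [hswap (min i I) i'] at h1
  rw [hswap (min i I) (min i' I)]
  have h3 := mul_le_mul_of_nonneg_left h2 (by linarith : (0 : ℝ) ≤ K)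
  calc _ ≤ _ := h1
    _ ≤ K * (K * Y.W p (fun _ => 1) (fun _ => 1) (fun _ => 1) (min i' I) (min i I) j j' +
        2 * K ^ 3 * Y.H v N) + 2 * K ^ 3 * Y.H v N := by linarith
    _ = _ := by ring

theorem trunc_X2 {K B : ℝ} (hY : Y.Crit K B) (xs : V →+ ℝ) : ∃ C : ℝ, 0 ≤ C ∧
    ∀ (v N m0 I i i' j j' : ℕ) (p : Law) (y : ℝ), 1 ≤ N → 1 ≤ y →
      (∀ t, t ≤ 2 * N → Y.M xs t ≤ y * t) → v ≤ I → p.Le m0 → m0 + j ≤ N → m0 + j' ≤ N →
      i ≤ N → i' ≤ N →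
      Y.W p (Y.X2 xs) (fun _ => 1) (fun _ => 1) i i' j j' ≤
        2 * K ^ 2 * Y.W p (Y.X2 xs) (fun _ => 1) (fun _ => 1) (min i I) (min i' I) j j' +
        2 * K * (y * N) *
          Y.W p (fun _ => 1) (fun _ => 1) (fun _ => 1) (min i I) (min i' I) j j' +
        C * y * Y.er v N := by
  have hK := hY.one_le_K
  refine ⟨20000 * K ^ 4 + 2 * K ^ 3, by positivity, ?_⟩
  intro v N m0 I i i' j j' p y hN hy hM hI hp hj hj' hi hi'
  have hX : ∀ w : List S, 0 ≤ Y.X2 xs w := fun w => sq_nonneg _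
  have h01 : ∀ _ : List S, (0 : ℝ) ≤ 1 := fun _ => zero_le_one
  have hH := Y.H_nonneg v N
  have her := Y.er_nonneg v N
  have hSb := Y.Sb_nonneg N
  have hN' : (1 : ℝ) ≤ N := by exact_mod_cast hN
  have hHer : (N : ℝ) * Y.H v N ≤ Y.er v N := by
    unfold er; linarith
  -- truncation of the first row
  have r1 : ∀ b : ℕ, Y.W p (Y.X2 xs) (fun _ => 1) (fun _ => 1) i b j j' ≤
      2 * K * Y.W p (Y.X2 xs) (fun _ => 1) (fun _ => 1) (min i I) b j j' +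
      2 * (y * N) * Y.W p (fun _ => 1) (fun _ => 1) (fun _ => 1) (min i I) b j j' +
      20000 * K ^ 3 * y * Y.er v N := by
    intro b
    have hWX := Y.W_nonneg (p := p) hX h01 h01 (min i I) b j j'
    have hW1 := Y.W_nonneg (p := p) h01 h01 h01 (min i I) b j j'
    rcases le_or_gt i I with h | h
    · rw [min_eq_left h] at hWX hW1 ⊢
      have q1 : 0 ≤ 2 * (y * N) * Y.W p (fun _ => 1) (fun _ => 1) (fun _ => 1) i b j j' := by
        positivity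
      have q2 : 0 ≤ 20000 * K ^ 3 * y * Y.er v N := by positivity
      nlinarith
    rw [min_eq_right h.le] at hWX hW1 ⊢
    obtain ⟨i0, rfl⟩ : ∃ i0, i = i0 + I := ⟨i - I, by omega⟩
    have hfar : ∀ n, n ≤ N → (Y.E (i0 + I) fun l => Y.E n fun r =>
        Y.X2 xs l * (Y.sv l * Y.sv r * Y.ht v l r)) ≤ 10000 * K ^ 2 * y * Y.er v N := by
      intro n hn
      refine le_trans (le_of_eq ?_) (Y.far_left hY xs hN hy hM hi hn)
      refine Y.E_congr fun l _ => Y.E_congr fun r _ => ?_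
      ring
    have hD := TruncAux.sum_D Y (Y.X2 xs) hX hp i0 I j hI hj hfar
    have hD' := TruncAux.sum_D Y (Y.X2 xs) hX hp i0 I j' hI hj' hfar
    have hk := TruncAux.E_E_kk_le Y hY p b j'
    have hk' := TruncAux.E_E_kk_le Y hY p b j
    have hk0 : 0 ≤ Y.E b fun ξ' => Y.E j' fun η' => Y.kk p ξ' η' :=
      Y.E_nonneg' fun _ => Y.E_nonneg' fun _ => Y.kk_nonneg _ _ _
    have hk0' : 0 ≤ Y.E b fun ξ' => Y.E j fun η => Y.kk p ξ' η :=
      Y.E_nonneg' fun _ => Y.E_nonneg' fun _ => Y.kk_nonneg _ _ _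
    have hc : 0 ≤ 10000 * K ^ 2 * y * Y.er v N := by positivity
    have main : Y.W p (Y.X2 xs) (fun _ => 1) (fun _ => 1) (i0 + I) b j j' ≤
        2 * (Y.E i0 fun ξ0 => Y.sv ξ0 * Y.X2 xs ξ0) *
          Y.W p (fun _ => 1) (fun _ => 1) (fun _ => 1) I b j j' +
        2 * (Y.E i0 fun ξ0 => Y.sv ξ0) *
          Y.W p (Y.X2 xs) (fun _ => 1) (fun _ => 1) I b j j' +
        (Y.E i0 fun ξ0 => Y.E I fun ξ1 => Y.E j fun η =>
          Y.X2 xs (ξ0 ++ ξ1) * TruncAux.D Y p ξ0 ξ1 η) *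
          (Y.E b fun ξ' => Y.E j' fun η' => Y.kk p ξ' η') +
        (Y.E i0 fun ξ0 => Y.E I fun ξ1 => Y.E j' fun η' =>
          Y.X2 xs (ξ0 ++ ξ1) * TruncAux.D Y p ξ0 ξ1 η') *
          (Y.E b fun ξ' => Y.E j fun η => Y.kk p ξ' η) := by
      have e1 : Y.W p (Y.X2 xs) (fun _ => 1) (fun _ => 1) (i0 + I) b j j' =
          Y.E i0 fun ξ0 => Y.E I fun ξ1 => Y.E b fun ξ' => Y.E j fun η => Y.E j' fun η' =>
            Y.X2 xs (ξ0 ++ ξ1) * |Y.mn p (ξ0 ++ ξ1) ξ' η η'| := by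
        unfold W
        rw [E_add]
        simp only [mul_one]
      have e2 : 2 * (Y.E i0 fun ξ0 => Y.sv ξ0 * Y.X2 xs ξ0) *
          Y.W p (fun _ => 1) (fun _ => 1) (fun _ => 1) I b j j' =
          Y.E i0 fun ξ0 => Y.E I fun ξ1 => Y.E b fun ξ' => Y.E j fun η => Y.E j' fun η' =>
            (2 * (Y.sv ξ0 * Y.X2 xs ξ0)) * |Y.mn p ξ1 ξ' η η'| := by
        unfold W
        rw [← Y.E_mul_left i0 2, ← Y.E_mul_right i0]
        refine Y.E_congr fun ξ0 _ => ?_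
        simp only [one_mul, mul_one]
        rw [TruncAux.E4_mul]
      have e2' : 2 * (Y.E i0 fun ξ0 => Y.sv ξ0) *
          Y.W p (Y.X2 xs) (fun _ => 1) (fun _ => 1) I b j j' =
          Y.E i0 fun ξ0 => Y.E I fun ξ1 => Y.E b fun ξ' => Y.E j fun η => Y.E j' fun η' =>
            (2 * Y.sv ξ0) * (Y.X2 xs ξ1 * |Y.mn p ξ1 ξ' η η'|) := by
        unfold W
        rw [← Y.E_mul_left i0 2, ← Y.E_mul_right i0]
        refine Y.E_congr fun ξ0 _ => ?_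
        simp only [mul_one]
        rw [TruncAux.E4_mul]
      have e3 : (Y.E i0 fun ξ0 => Y.E I fun ξ1 => Y.E j fun η =>
          Y.X2 xs (ξ0 ++ ξ1) * TruncAux.D Y p ξ0 ξ1 η) *
          (Y.E b fun ξ' => Y.E j' fun η' => Y.kk p ξ' η') =
          Y.E i0 fun ξ0 => Y.E I fun ξ1 => Y.E b fun ξ' => Y.E j fun η => Y.E j' fun η' =>
            (Y.X2 xs (ξ0 ++ ξ1) * TruncAux.D Y p ξ0 ξ1 η) * Y.kk p ξ' η' := by
        rw [← E_mul_right]
        refine Y.E_congr fun ξ0 _ => ?_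
        rw [← TruncAux.E_prod]
      have e4 : (Y.E i0 fun ξ0 => Y.E I fun ξ1 => Y.E j' fun η' =>
          Y.X2 xs (ξ0 ++ ξ1) * TruncAux.D Y p ξ0 ξ1 η') *
          (Y.E b fun ξ' => Y.E j fun η => Y.kk p ξ' η) =
          Y.E i0 fun ξ0 => Y.E I fun ξ1 => Y.E b fun ξ' => Y.E j fun η => Y.E j' fun η' =>
            (Y.X2 xs (ξ0 ++ ξ1) * TruncAux.D Y p ξ0 ξ1 η') * Y.kk p ξ' η := by
        rw [← E_mul_right]
        refine Y.E_congr fun ξ0 _ => ?_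
        rw [← TruncAux.E_prod']
      rw [e1, e2, e2', e3, e4, ← E_fadd, ← E_fadd, ← E_fadd]
      refine Y.E_mono fun ξ0 _ => ?_
      rw [← TruncAux.E4_add, ← TruncAux.E4_add, ← TruncAux.E4_add]
      refine Y.E_mono fun ξ1 _ => Y.E_mono fun ξ' _ => Y.E_mono fun η _ => Y.E_mono fun η' _ => ?_
      have q1 := mul_le_mul_of_nonneg_left (TruncAux.mn_le Y p ξ0 ξ1 ξ' η η') (hX (ξ0 ++ ξ1))
      have q2 : Y.X2 xs (ξ0 ++ ξ1) * (Y.sv (ξ0 ++ ξ1) * |Y.mn p ξ1 ξ' η η'|) ≤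
          (2 * Y.X2 xs ξ0 + 2 * Y.X2 xs ξ1) * (Y.sv ξ0 * |Y.mn p ξ1 ξ' η η'|) := by
        refine mul_le_mul (TruncAux.X2_append_le Y xs ξ0 ξ1) ?_
          (mul_nonneg (Y.sv_nonneg _) (abs_nonneg _)) ?_
        · exact mul_le_mul_of_nonneg_right (Y.sv_append_left ξ0 ξ1) (abs_nonneg _)
        · have := hX ξ0
          have := hX ξ1
          linarith
      calc _ ≤ _ := q1
        _ = Y.X2 xs (ξ0 ++ ξ1) * (Y.sv (ξ0 ++ ξ1) * |Y.mn p ξ1 ξ' η η'|) +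
            Y.X2 xs (ξ0 ++ ξ1) * TruncAux.D Y p ξ0 ξ1 η * Y.kk p ξ' η' +
            Y.X2 xs (ξ0 ++ ξ1) * TruncAux.D Y p ξ0 ξ1 η' * Y.kk p ξ' η := by ring
        _ ≤ (2 * Y.X2 xs ξ0 + 2 * Y.X2 xs ξ1) * (Y.sv ξ0 * |Y.mn p ξ1 ξ' η η'|) +
            Y.X2 xs (ξ0 ++ ξ1) * TruncAux.D Y p ξ0 ξ1 η * Y.kk p ξ' η' +
            Y.X2 xs (ξ0 ++ ξ1) * TruncAux.D Y p ξ0 ξ1 η' * Y.kk p ξ' η := by linarith
        _ = _ := by ring
    have ha : (Y.E i0 fun ξ0 => Y.sv ξ0) ≤ K := hY.a_le i0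
    have hMi : (Y.E i0 fun ξ0 => Y.sv ξ0 * Y.X2 xs ξ0) ≤ y * N := by
      have h1 := hM i0 (by omega)
      have h2 : (i0 : ℝ) ≤ N := by exact_mod_cast (by omega : i0 ≤ N)
      have h3 : y * (i0 : ℝ) ≤ y * N := mul_le_mul_of_nonneg_left h2 (by linarith)
      exact h1.trans h3
    have t1 := mul_le_mul_of_nonneg_right ha hWX
    have t0 := mul_le_mul_of_nonneg_right hMi hW1
    have t2 := mul_le_mul hD hk hk0 hc
    have t3 := mul_le_mul hD' hk' hk0' hc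
    calc _ ≤ _ := main
      _ ≤ 2 * (y * N * Y.W p (fun _ => 1) (fun _ => 1) (fun _ => 1) I b j j') +
          2 * (K * Y.W p (Y.X2 xs) (fun _ => 1) (fun _ => 1) I b j j') +
          10000 * K ^ 2 * y * Y.er v N * K + 10000 * K ^ 2 * y * Y.er v N * K := by linarith
      _ = _ := by ring
  -- truncation of the second row
  have r2 : ∀ a : ℕ, a ≤ N → Y.W p (Y.X2 xs) (fun _ => 1) (fun _ => 1) a i' j j' ≤
      K * Y.W p (Y.X2 xs) (fun _ => 1) (fun _ => 1) a (min i' I) j j' +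
      2 * K ^ 3 * y * Y.er v N := by
    intro a ha
    have hWX := Y.W_nonneg (p := p) hX h01 h01 a (min i' I) j j'
    rcases le_or_gt i' I with h | h
    · rw [min_eq_left h] at hWX ⊢
      have q2 : 0 ≤ 2 * K ^ 3 * y * Y.er v N := by positivity
      nlinarith
    rw [min_eq_right h.le] at hWX ⊢
    obtain ⟨i0, rfl⟩ : ∃ i0, i' = i0 + I := ⟨i' - I, by omega⟩
    have hfar : ∀ n, n ≤ N → (Y.E (i0 + I) fun l => Y.E n fun r =>
        (fun _ : List S => (1 : ℝ)) l * (Y.sv l * Y.sv r * Y.ht v l r)) ≤ K ^ 2 * Y.H v N := by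
      intro n hn
      simp only [one_mul]
      exact Y.far_one hY hi' hn
    have hD := TruncAux.sum_D Y (fun _ => 1) h01 hp i0 I j hI hj hfar
    have hD' := TruncAux.sum_D Y (fun _ => 1) h01 hp i0 I j' hI hj' hfar
    simp only [one_mul] at hD hD'
    have hk := TruncAux.E_X_kk_le Y hY xs p a j'
    have hk' := TruncAux.E_X_kk_le Y hY xs p a j
    have hMa : K * Y.M xs a ≤ K * (y * N) := by
      have h1 := hM a (by omega)
      have h2 : (a : ℝ) ≤ N := by exact_mod_cast ha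
      have h3 : y * (a : ℝ) ≤ y * N := mul_le_mul_of_nonneg_left h2 (by linarith)
      exact mul_le_mul_of_nonneg_left (h1.trans h3) (by linarith)
    have hD0 : 0 ≤ Y.E i0 fun ξ0 => Y.E I fun ξ1 => Y.E j fun η => TruncAux.D Y p ξ0 ξ1 η :=
      Y.E_nonneg' fun _ => Y.E_nonneg' fun _ => Y.E_nonneg' fun _ => TruncAux.D_nonneg Y _ _ _ _
    have hD0' : 0 ≤ Y.E i0 fun ξ0 => Y.E I fun ξ1 => Y.E j' fun η => TruncAux.D Y p ξ0 ξ1 η :=
      Y.E_nonneg' fun _ => Y.E_nonneg' fun _ => Y.E_nonneg' fun _ => TruncAux.D_nonneg Y _ _ _ _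
    have main : Y.W p (Y.X2 xs) (fun _ => 1) (fun _ => 1) a (i0 + I) j j' ≤
        (Y.E i0 fun ξ0 => Y.sv ξ0) *
          Y.W p (Y.X2 xs) (fun _ => 1) (fun _ => 1) a I j j' +
        (Y.E a fun ξ => Y.E j' fun η' => Y.X2 xs ξ * Y.kk p ξ η') *
          (Y.E i0 fun ξ0 => Y.E I fun ξ1 => Y.E j fun η => TruncAux.D Y p ξ0 ξ1 η) +
        (Y.E a fun ξ => Y.E j fun η => Y.X2 xs ξ * Y.kk p ξ η) *
          (Y.E i0 fun ξ0 => Y.E I fun ξ1 => Y.E j' fun η' => TruncAux.D Y p ξ0 ξ1 η') := by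
      have e1 : Y.W p (Y.X2 xs) (fun _ => 1) (fun _ => 1) a (i0 + I) j j' =
          Y.E i0 fun ξ0 => Y.E a fun ξ => Y.E I fun ξ1 => Y.E j fun η => Y.E j' fun η' =>
            Y.X2 xs ξ * |Y.mn p (ξ0 ++ ξ1) ξ η η'| := by
        unfold W
        simp only [E_add, mul_one]
        rw [Y.E_comm a i0]
        refine Y.E_congr fun _ _ => Y.E_congr fun _ _ => Y.E_congr fun _ _ => Y.E_congr fun _ _ =>
          Y.E_congr fun _ _ => ?_
        rw [Y.mn_swap_rows, abs_neg]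
      have e2 : (Y.E i0 fun ξ0 => Y.sv ξ0) *
          Y.W p (Y.X2 xs) (fun _ => 1) (fun _ => 1) a I j j' =
          Y.E i0 fun ξ0 => Y.E a fun ξ => Y.E I fun ξ1 => Y.E j fun η => Y.E j' fun η' =>
            Y.sv ξ0 * (Y.X2 xs ξ * |Y.mn p ξ1 ξ η η'|) := by
        unfold W
        rw [← E_mul_right]
        refine Y.E_congr fun ξ0 _ => ?_
        simp only [mul_one]
        rw [TruncAux.E4_mul]
        congr 1
        refine Y.E_congr fun _ _ => Y.E_congr fun _ _ => Y.E_congr fun _ _ => Y.E_congr fun _ _ => ?_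
        rw [Y.mn_swap_rows, abs_neg]
      have e3 : (Y.E a fun ξ => Y.E j' fun η' => Y.X2 xs ξ * Y.kk p ξ η') *
          (Y.E i0 fun ξ0 => Y.E I fun ξ1 => Y.E j fun η => TruncAux.D Y p ξ0 ξ1 η) =
          Y.E i0 fun ξ0 => Y.E a fun ξ => Y.E I fun ξ1 => Y.E j fun η => Y.E j' fun η' =>
            (Y.X2 xs ξ * Y.kk p ξ η') * TruncAux.D Y p ξ0 ξ1 η := by
        rw [← E_mul_left]
        refine Y.E_congr fun ξ0 _ => ?_
        rw [← TruncAux.E_prod']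
      have e4 : (Y.E a fun ξ => Y.E j fun η => Y.X2 xs ξ * Y.kk p ξ η) *
          (Y.E i0 fun ξ0 => Y.E I fun ξ1 => Y.E j' fun η' => TruncAux.D Y p ξ0 ξ1 η') =
          Y.E i0 fun ξ0 => Y.E a fun ξ => Y.E I fun ξ1 => Y.E j fun η => Y.E j' fun η' =>
            (Y.X2 xs ξ * Y.kk p ξ η) * TruncAux.D Y p ξ0 ξ1 η' := by
        rw [← E_mul_left]
        refine Y.E_congr fun ξ0 _ => ?_
        rw [← TruncAux.E_prod]
      rw [e1, e2, e3, e4, ← E_fadd, ← E_fadd]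
      refine Y.E_mono fun ξ0 _ => ?_
      rw [← TruncAux.E4_add, ← TruncAux.E4_add]
      refine Y.E_mono fun ξ _ => Y.E_mono fun ξ1 _ => Y.E_mono fun η _ => Y.E_mono fun η' _ => ?_
      have q1 := mul_le_mul_of_nonneg_left (TruncAux.mn_le Y p ξ0 ξ1 ξ η η') (hX ξ)
      have q2 : Y.X2 xs ξ * (Y.sv (ξ0 ++ ξ1) * |Y.mn p ξ1 ξ η η'|) ≤
          Y.X2 xs ξ * (Y.sv ξ0 * |Y.mn p ξ1 ξ η η'|) :=
        mul_le_mul_of_nonneg_left
          (mul_le_mul_of_nonneg_right (Y.sv_append_left ξ0 ξ1) (abs_nonneg _)) (hX ξ)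
      calc _ ≤ _ := q1
        _ = Y.X2 xs ξ * (Y.sv (ξ0 ++ ξ1) * |Y.mn p ξ1 ξ η η'|) +
            Y.X2 xs ξ * Y.kk p ξ η' * TruncAux.D Y p ξ0 ξ1 η +
            Y.X2 xs ξ * Y.kk p ξ η * TruncAux.D Y p ξ0 ξ1 η' := by ring
        _ ≤ Y.X2 xs ξ * (Y.sv ξ0 * |Y.mn p ξ1 ξ η η'|) +
            Y.X2 xs ξ * Y.kk p ξ η' * TruncAux.D Y p ξ0 ξ1 η +
            Y.X2 xs ξ * Y.kk p ξ η * TruncAux.D Y p ξ0 ξ1 η' := by linarith
        _ = _ := by ring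
    have ha' : (Y.E i0 fun ξ0 => Y.sv ξ0) ≤ K := hY.a_le i0
    have hyN : 0 ≤ K * (y * N) := by positivity
    have t1 := mul_le_mul_of_nonneg_right ha' hWX
    have t2 := mul_le_mul (hk.trans hMa) hD hD0 hyN
    have t3 := mul_le_mul (hk'.trans hMa) hD' hD0' hyN
    have t4 : 2 * K ^ 3 * y * (N * Y.H v N) ≤ 2 * K ^ 3 * y * Y.er v N :=
      mul_le_mul_of_nonneg_left hHer (by positivity)
    calc _ ≤ _ := main
      _ ≤ K * Y.W p (Y.X2 xs) (fun _ => 1) (fun _ => 1) a I j j' +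
          K * (y * N) * (K ^ 2 * Y.H v N) + K * (y * N) * (K ^ 2 * Y.H v N) := by linarith
      _ = K * Y.W p (Y.X2 xs) (fun _ => 1) (fun _ => 1) a I j j' +
          2 * K ^ 3 * y * (N * Y.H v N) := by ring
      _ ≤ _ := by linarith
  have h1 := r2 i hi
  have h2 := mul_le_mul_of_nonneg_left (r1 (min i' I)) (by linarith : (0 : ℝ) ≤ K)
  calc _ ≤ _ := h1
    _ ≤ K * (2 * K * Y.W p (Y.X2 xs) (fun _ => 1) (fun _ => 1) (min i I) (min i' I) j j' +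
      2 * (y * N) * Y.W p (fun _ => 1) (fun _ => 1) (fun _ => 1) (min i I) (min i' I) j j' +
      20000 * K ^ 3 * y * Y.er v N) + 2 * K ^ 3 * y * Y.er v N := by linarith
    _ = _ := by ring

end Sys

end Pool.Agent.Bub4
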