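import Pool.Agent.Bub4.Chain
import Pool.Agent.Bub4.Trunc
import Pool.Agent.Bub4.Mom
import Pool.Agent.Bub4.Summ
import Pool.Agent.Bub4.Laws

/-!
# The recursion over the scales
-/

set_option autoImplicit false

namespace Pool.Agent.Bub4

open Finset

theorem summ_rec {x g : ℕ → ℝ} (hx0 : 0 ≤ x 0) (hg : ∀ k, 0 ≤ g k) (hs : Summable g)
    (h : ∀ k, x (k + 1) = x k / 2 + g k) : (∀ k, 0 ≤ x k) ∧ Summable x := by
  have hx : ∀ k, 0 ≤ x k := by
    intro k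
    induction k with
    | zero => exact hx0
    | succ k ih => rw [h]; linarith [hg k]
  refine ⟨hx, ?_⟩
  have h1 : ∀ n, ∑ k ∈ range (n + 1), x k ≤ x 0 + (∑ k ∈ range n, x k) / 2 + ∑ k ∈ range n, g k := by
    intro n
    rw [Finset.sum_range_succ']
    simp only [h, Finset.sum_add_distrib, ← Finset.sum_div]
    linarith
  have h2 : ∀ n, ∑ k ∈ range n, x k ≤ 2 * (x 0 + ∑' k, g k) := by
    intro n
    have h3 := h1 n
    have h4 : ∑ k ∈ range n, x k ≤ ∑ k ∈ range (n + 1), x k := by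
      rw [Finset.sum_range_succ]
      linarith [hx n]
    have h5 : ∑ k ∈ range n, g k ≤ ∑' k, g k := hs.sum_le_tsum _ fun k _ => hg k
    linarith
  exact summable_of_sum_range_le hx h2

namespace Sys

variable {S V : Type} [Fintype S] [AddCommGroup V] (Y : Sys S V)

theorem kap_pos {K B : ℝ} (hK : 1 ≤ K) (hB : 1 ≤ B) : 0 < kap K B := by
  unfold kap
  have : 0 < K := by linarith
  have : 0 < B := by linarith
  positivity

theorem kap_lt_one {K B : ℝ} (hK : 1 ≤ K) (hB : 1 ≤ B) : kap K B < 1 := by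
  unfold kap
  have hB2 : 1 ≤ B ^ 2 := one_le_pow₀ hB
  have hKB : 1 ≤ K * B := by
    calc (1 : ℝ) = 1 * 1 := by ring
      _ ≤ K * B := mul_le_mul hK hB zero_le_one (by linarith)
  have hKB2 : 1 ≤ (K * B) ^ 2 := one_le_pow₀ hKB
  have h1 : 9 * 1 * 1 ≤ 9 * B ^ 2 * (K * B) ^ 2 :=
    mul_le_mul (mul_le_mul_of_nonneg_left hB2 (by norm_num)) hKB2 zero_le_one (by positivity)
  exact inv_lt_one_of_one_lt₀ (by linarith)

/-- the number of steps of the chain -/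
theorem exists_J {K B : ℝ} (hK : 1 ≤ K) (hB : 1 ≤ B) :
    ∃ J : ℕ, 1 ≤ J ∧ (1 - kap K B) ^ J * (4 * K ^ 4) ≤ 1 := by
  have h1 := kap_pos hK hB
  have h2 := kap_lt_one hK hB
  have hK0 : 0 < K := by linarith
  have h3 : (0 : ℝ) < (4 * K ^ 4)⁻¹ := by positivity
  obtain ⟨n, hn⟩ := exists_pow_lt_of_lt_one h3 (show 1 - kap K B < 1 by linarith)
  refine ⟨n + 1, by omega, ?_⟩
  have h4 : (1 - kap K B) ^ (n + 1) ≤ (1 - kap K B) ^ n :=
    pow_le_pow_of_le_one (by linarith) (by linarith) (by omega)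
  have h5 : (0 : ℝ) < 4 * K ^ 4 := by positivity
  calc (1 - kap K B) ^ (n + 1) * (4 * K ^ 4) ≤ (4 * K ^ 4)⁻¹ * (4 * K ^ 4) :=
        mul_le_mul_of_nonneg_right (h4.trans hn.le) h5.le
    _ = 1 := inv_mul_cancel₀ h5.ne'

/-- lengths -/
theorem len_bounds {Λ J v : ℕ} (hΛ : Λ = 17 * J + 1) (hJ : 1 ≤ J) {i l : ℕ}
    (hi : i ≤ 120 * Λ * (Λ * v)) (hl : l ≤ J) :
    i + v + 17 * l * v + v ≤ 200 * Λ ^ 2 * v ∧ 25 * v + 17 * l * v + i ≤ 200 * Λ ^ 2 * v := by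
  have h1 : 17 * l * v ≤ 17 * J * v := Nat.mul_le_mul_right _ (by omega)
  have h2 : 17 * J * v + v = Λ * v := by rw [hΛ]; ring
  have h3 : Λ * v ≤ Λ ^ 2 * v := by
    refine Nat.mul_le_mul_right _ ?_
    nlinarith
  have h4 : 18 * v ≤ Λ * v := Nat.mul_le_mul_right _ (by omega)
  have h5 : 120 * Λ * (Λ * v) = 120 * (Λ ^ 2 * v) := by ring
  have h6 : 200 * Λ ^ 2 * v = 200 * (Λ ^ 2 * v) := by ring
  rw [h5] at hi
  rw [h6]
  constructor <;> omega

/-- one scale, without weight -/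
theorem rec_one {K B : ℝ} (hY : Y.Crit K B) {J Λ : ℕ} (hJ : 1 ≤ J)
    (hJK : (1 - kap K B) ^ J * (4 * K ^ 4) ≤ 1) (hΛ : Λ = 17 * J + 1) :
    ∃ C : ℝ, 0 ≤ C ∧ ∀ (v : ℕ) (p : Law) (x : ℝ), 1 ≤ v → p.Le v →
      (∀ i i' j j', i ≤ 120 * Λ * v → i' ≤ 120 * Λ * v → j ≤ 120 * Λ * v → j' ≤ 120 * Λ * v →
        Y.W p (fun _ => 1) (fun _ => 1) (fun _ => 1) i i' j j' ≤ x) →
      ∀ i i' j j', i ≤ 120 * Λ * (Λ * v) → i' ≤ 120 * Λ * (Λ * v) → j ≤ 120 * Λ * (Λ * v) →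
        j' ≤ 120 * Λ * (Λ * v) →
        Y.W (cl v J p) (fun _ => 1) (fun _ => 1) (fun _ => 1) i i' j j' ≤
          x / 2 + C * Y.H v (200 * Λ ^ 2 * v) := by
  obtain ⟨Cc, hCc, hchain⟩ := Y.chain hY
  obtain ⟨Ct, hCt, htr⟩ := Y.trunc_one hY
  have hK := hY.one_le_K
  have hK0 := hY.K_pos
  have hB := hY.one_le_B
  have hκ1 := kap_lt_one hK hB
  have hκ0 := kap_pos hK hB
  refine ⟨K ^ 2 * Ct + J * Cc * (K + K ^ 2), by positivity, ?_⟩
  intro v p x hv hp hx i i' j j' hi hi' hj hj'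
  set N := 200 * Λ ^ 2 * v with hN
  have hH : 0 ≤ Y.H v N := Y.H_nonneg v N
  have hx0 : 0 ≤ x := by
    refine le_trans ?_ (hx 0 0 0 0 (Nat.zero_le _) (Nat.zero_le _) (Nat.zero_le _)
      (Nat.zero_le _))
    exact Y.W_nonneg (fun _ => zero_le_one) (fun _ => zero_le_one) (fun _ => zero_le_one) _ _ _ _
  have Li := len_bounds hΛ hJ hi (le_refl J)
  have Li' := len_bounds hΛ hJ hi' (le_refl J)
  have Lj := len_bounds hΛ hJ hj (le_refl J)
  have Lj' := len_bounds hΛ hJ hj' (le_refl J)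
  have hΛv : v ≤ 120 * Λ * v := Nat.le_mul_of_pos_left _ (by omega)
  have h1 := hchain J v N v i i' j j' p (fun _ => 1) K (K ^ 2 * Y.H v N) hJ hv
    (fun _ => zero_le_one) hp Li.1 Li'.1 Lj.2 Lj'.2 hK0.le
    (by simpa using hY.E_sv_le i) (by
      intro l hl
      have Lil := len_bounds hΛ hJ hi hl.le
      have hle := cl_le hp v l
      refine ⟨Y.ce_one hY hle (by omega) (by omega), Y.ce_one hY hle (by omega) (by omega),
        Y.ce_one hY hle (by omega) (by omega)⟩)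
  have h2 := htr v N v (120 * Λ * v) i i' v v p hΛv hp (by omega) (by omega) (by omega)
    (by omega)
  have h3 := hx (min i (120 * Λ * v)) (min i' (120 * Λ * v)) v v (min_le_right _ _)
    (min_le_right _ _) hΛv hΛv
  have hr : (1 - kap K B) ^ J * K ^ 4 ≤ 1 / 2 := by
    have : (1 - kap K B) ^ J * (4 * K ^ 4) = 4 * ((1 - kap K B) ^ J * K ^ 4) := by ring
    rw [this] at hJK
    have : 0 ≤ (1 - kap K B) ^ J * K ^ 4 := by
      have : 0 ≤ 1 - kap K B := by linarith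
      positivity
    linarith
  have hr0 : 0 ≤ (1 - kap K B) ^ J := pow_nonneg (by linarith) _
  have hr1 : (1 - kap K B) ^ J ≤ 1 := pow_le_one₀ (by linarith) (by linarith)
  have h4 : (1 - kap K B) ^ J * K ^ 2 *
      Y.W p (fun _ => 1) (fun _ => 1) (fun _ => 1) i i' v v ≤
      (1 - kap K B) ^ J * K ^ 2 * (K ^ 2 * x + Ct * Y.H v N) := by
    refine mul_le_mul_of_nonneg_left ?_ (by positivity)
    refine h2.trans ?_
    have := mul_le_mul_of_nonneg_left h3 (by positivity : (0 : ℝ) ≤ K ^ 2)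
    linarith
  have h5 : (1 - kap K B) ^ J * K ^ 4 * x ≤ 1 / 2 * x := mul_le_mul_of_nonneg_right hr hx0
  have h6 : (1 - kap K B) ^ J * (K ^ 2 * Ct * Y.H v N) ≤ 1 * (K ^ 2 * Ct * Y.H v N) :=
    mul_le_mul_of_nonneg_right hr1 (by positivity)
  have h7 : (1 - kap K B) ^ J * K ^ 2 * (K ^ 2 * x + Ct * Y.H v N) =
      (1 - kap K B) ^ J * K ^ 4 * x + (1 - kap K B) ^ J * (K ^ 2 * Ct * Y.H v N) := by ring
  have h8 : (J : ℝ) * Cc * (K * Y.H v N + K ^ 2 * Y.H v N) =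
      J * Cc * (K + K ^ 2) * Y.H v N := by ring
  rw [h8] at h1
  rw [h7] at h4
  have h9 : (K ^ 2 * Ct + J * Cc * (K + K ^ 2)) * Y.H v N =
      K ^ 2 * Ct * Y.H v N + J * Cc * (K + K ^ 2) * Y.H v N := by ring
  rw [h9]
  linarith

theorem E_X2_sv (xs : V →+ ℝ) (n : ℕ) :
    (Y.E n fun w => Y.X2 xs w * Y.sv w) = Y.M xs n := by
  unfold M
  exact Y.E_congr fun w _ => mul_comm _ _

/-- one scale, with the weight -/
theorem rec_X2 {K B : ℝ} (hY : Y.Crit K B) (xs : V →+ ℝ) {J Λ : ℕ} (hJ : 1 ≤ J)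
    (hJK : (1 - kap K B) ^ J * (4 * K ^ 4) ≤ 1) (hΛ : Λ = 17 * J + 1) :
    ∃ C : ℝ, 0 ≤ C ∧ ∀ (v : ℕ) (p : Law) (x x' y : ℝ), 1 ≤ v → p.Le v →
      p.Dens ((Λ : ℝ) / v) → 1 ≤ y → 0 ≤ x' →
      (∀ t, t ≤ v → Y.M xs t ≤ y * t) →
      (∀ i i' j j', i ≤ 120 * Λ * v → i' ≤ 120 * Λ * v → j ≤ 120 * Λ * v → j' ≤ 120 * Λ * v →
        Y.W p (fun _ => 1) (fun _ => 1) (fun _ => 1) i i' j j' ≤ x) →
      (∀ i i' j j', i ≤ 120 * Λ * v → i' ≤ 120 * Λ * v → j ≤ 120 * Λ * v → j' ≤ 120 * Λ * v →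
        Y.W p (Y.X2 xs) (fun _ => 1) (fun _ => 1) i i' j j' ≤ y * v * x') →
      ∀ i i' j j', i ≤ 120 * Λ * (Λ * v) → i' ≤ 120 * Λ * (Λ * v) → j ≤ 120 * Λ * (Λ * v) →
        j' ≤ 120 * Λ * (Λ * v) →
        Y.W (cl v J p) (Y.X2 xs) (fun _ => 1) (fun _ => 1) i i' j j' ≤
          y * v * (x' / 2 + C * x + C * (Y.er v (200 * Λ ^ 2 * v) / v)) := by
  obtain ⟨Cc, hCc, hchain⟩ := Y.chain hY
  obtain ⟨Ct, hCt, htr⟩ := Y.trunc_X2 hY xs
  have hK := hY.one_le_K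
  have hK0 := hY.K_pos
  have hB := hY.one_le_B
  have hκ1 := kap_lt_one hK hB
  have hκ0 := kap_pos hK hB
  set A : ℕ := 200 * Λ ^ 2 with hA
  set G : ℝ := (2 * K) ^ (2 * A) with hG
  have hG1 : 1 ≤ G := one_le_pow₀ (by linarith)
  have hG0 : 0 < G := by linarith
  set C1 : ℝ := 2 * K ^ 3 * G * A with hC1
  set C2 : ℝ := K ^ 2 * Ct * G + J * Cc * (G + 5000 * K ^ 3 * (1 + Λ * A) * G) with hC2
  have hC10 : 0 ≤ C1 := by positivity
  have hC20 : 0 ≤ C2 := by positivity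
  refine ⟨C1 + C2, by positivity, ?_⟩
  intro v p x x' y hv hp hD hy hx'0 hMv hx hx' i i' j j' hi hi' hj hj'
  have hv' : (0 : ℝ) < v := by exact_mod_cast hv
  set N := 200 * Λ ^ 2 * v with hN
  have hNA : N = A * v := rfl
  have hΛ18 : 18 ≤ Λ := by omega
  have hN1 : 1 ≤ N := by
    have : 1 ≤ Λ ^ 2 := Nat.one_le_pow _ _ (by omega)
    have : 1 * 1 ≤ Λ ^ 2 * v := Nat.mul_le_mul this hv
    have h : N = 200 * (Λ ^ 2 * v) := by rw [hN]; ring
    omega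
  have hH : 0 ≤ Y.H v N := Y.H_nonneg v N
  have hSb : 0 ≤ Y.Sb N := Y.Sb_nonneg N
  have her : 0 ≤ Y.er v N := Y.er_nonneg v N
  have hx0 : 0 ≤ x := by
    refine le_trans ?_ (hx 0 0 0 0 (Nat.zero_le _) (Nat.zero_le _) (Nat.zero_le _)
      (Nat.zero_le _))
    exact Y.W_nonneg (fun _ => zero_le_one) (fun _ => zero_le_one) (fun _ => zero_le_one) _ _ _ _
  -- the extended linear bound
  have hM2 : ∀ t, t ≤ 2 * N → Y.M xs t ≤ (G * y) * t := by
    intro t ht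
    have := Y.M_mul_le hY xs hv hMv (2 * A) t (by rw [hNA] at ht; linarith)
    rw [← hG] at this
    linarith
  have hGy : 1 ≤ G * y := by
    calc (1 : ℝ) = 1 * 1 := by ring
      _ ≤ G * y := mul_le_mul hG1 hy zero_le_one hG0.le
  have Li := len_bounds hΛ hJ hi (le_refl J)
  have Li' := len_bounds hΛ hJ hi' (le_refl J)
  have Lj := len_bounds hΛ hJ hj (le_refl J)
  have Lj' := len_bounds hΛ hJ hj' (le_refl J)
  have hΛv : v ≤ 120 * Λ * v := Nat.le_mul_of_pos_left _ (by omega)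
  have hΛ0 : (0 : ℝ) < Λ := by
    have : 0 < Λ := by omega
    exact_mod_cast this
  have hMi : (Y.E i fun w => Y.X2 xs w * Y.sv w) ≤ G * y * N := by
    rw [E_X2_sv]
    have hiN : i ≤ N := by omega
    refine (hM2 i (by omega)).trans ?_
    refine mul_le_mul_of_nonneg_left ?_ (by linarith)
    exact_mod_cast hiN
  set F : ℝ := 5000 * K ^ 3 * (1 + Λ * A) * (G * y) * Y.er v N with hF
  have hDn : (Λ : ℝ) / v * (N : ℝ) ≤ Λ * A := by
    rw [hNA]
    push_cast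
    have : (Λ : ℝ) / v * ((A : ℝ) * v) = Λ * A := by field_simp
    rw [this]
  have h1 := hchain J v N v i i' j j' p (Y.X2 xs) (G * y * N) F hJ hv
    (fun w => Y.X2_nonneg xs w) hp Li.1 Li'.1 Lj.2 Lj'.2 (by positivity) hMi (by
      intro l hl
      have Lil := len_bounds hΛ hJ hi hl.le
      have hle := cl_le hp v l
      have hde := cl_dens (by positivity : (0 : ℝ) ≤ (Λ : ℝ) / v) hD v l
      refine ⟨Y.ce_X2 hY xs hN1 hGy hM2 hle (by positivity) hde hDn (by omega) (by omega),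
        Y.ce_X2 hY xs hN1 hGy hM2 hle (by positivity) hde hDn (by omega) (by omega),
        Y.ce_X2 hY xs hN1 hGy hM2 hle (by positivity) hde hDn (by omega) (by omega)⟩)
  have h2 := htr v N v (120 * Λ * v) i i' v v p (G * y) hN1 hGy hM2 hΛv hp (by omega)
    (by omega) (by omega) (by omega)
  have h3 := hx (min i (120 * Λ * v)) (min i' (120 * Λ * v)) v v (min_le_right _ _)
    (min_le_right _ _) hΛv hΛv
  have h3' := hx' (min i (120 * Λ * v)) (min i' (120 * Λ * v)) v v (min_le_right _ _)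
    (min_le_right _ _) hΛv hΛv
  have hr : (1 - kap K B) ^ J * (2 * K ^ 4) ≤ 1 / 2 := by
    have : (1 - kap K B) ^ J * (4 * K ^ 4) = 2 * ((1 - kap K B) ^ J * (2 * K ^ 4)) := by ring
    rw [this] at hJK
    linarith
  have hr0 : 0 ≤ (1 - kap K B) ^ J := pow_nonneg (by linarith) _
  have hr1 : (1 - kap K B) ^ J ≤ 1 := pow_le_one₀ (by linarith) (by linarith)
  have hK2 : (0 : ℝ) ≤ K ^ 2 := by positivity
  have h4 : (1 - kap K B) ^ J * K ^ 2 *
      Y.W p (Y.X2 xs) (fun _ => 1) (fun _ => 1) i i' v v ≤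
      (1 - kap K B) ^ J * K ^ 2 * (2 * K ^ 2 * (y * v * x') + 2 * K * (G * y * N) * x +
        Ct * (G * y) * Y.er v N) := by
    refine mul_le_mul_of_nonneg_left ?_ (by positivity)
    refine h2.trans ?_
    have e1 := mul_le_mul_of_nonneg_left h3 (by positivity : (0 : ℝ) ≤ 2 * K * (G * y * N))
    have e2 := mul_le_mul_of_nonneg_left h3' (by positivity : (0 : ℝ) ≤ 2 * K ^ 2)
    linarith
  have h5 : (1 - kap K B) ^ J * (2 * K ^ 4) * (y * v * x') ≤ 1 / 2 * (y * v * x') :=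
    mul_le_mul_of_nonneg_right hr (by positivity)
  have h6 : (1 - kap K B) ^ J * (K ^ 2 * (2 * K * (G * y * N) * x + Ct * (G * y) * Y.er v N)) ≤
      1 * (K ^ 2 * (2 * K * (G * y * N) * x + Ct * (G * y) * Y.er v N)) :=
    mul_le_mul_of_nonneg_right hr1 (by positivity)
  have h7 : (1 - kap K B) ^ J * K ^ 2 * (2 * K ^ 2 * (y * v * x') + 2 * K * (G * y * N) * x +
        Ct * (G * y) * Y.er v N) =
      (1 - kap K B) ^ J * (2 * K ^ 4) * (y * v * x') +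
      (1 - kap K B) ^ J * (K ^ 2 * (2 * K * (G * y * N) * x + Ct * (G * y) * Y.er v N)) := by
    ring
  rw [h7] at h4
  -- the macroscopic hits
  have h8 : G * y * N * Y.H v N ≤ G * y * Y.er v N := by
    have e1 : (N : ℝ) * Y.H v N ≤ Y.er v N := by
      unfold er
      linarith
    have e2 := mul_le_mul_of_nonneg_left e1 (by positivity : (0 : ℝ) ≤ G * y)
    linarith
  have h9 : (J : ℝ) * Cc * (G * y * N * Y.H v N + F) ≤
      J * Cc * (G * y * Y.er v N + F) :=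
    mul_le_mul_of_nonneg_left (by linarith) (by positivity)
  have hvN : (N : ℝ) = A * v := by rw [hNA]; push_cast; ring
  have h10 : (C1 + C2) * x = C1 * x + C2 * x := by ring
  have h11 : 0 ≤ C2 * x := mul_nonneg hC20 hx0
  have h12 : 0 ≤ C1 * (Y.er v N / v) := by positivity
  have h13 : y * v * (C2 * (Y.er v N / v)) = C2 * y * Y.er v N := by
    field_simp
  have h14 : y * v * (C1 * x) = 2 * K ^ 3 * (G * y * N) * x := by
    rw [hC1, hvN]; ring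
  have h15 : C2 * y * Y.er v N = K ^ 2 * (Ct * (G * y) * Y.er v N) +
      J * Cc * (G * y * Y.er v N + F) := by
    rw [hC2, hF]; ring
  have h16 : 0 ≤ y * v * (C2 * x + C1 * (Y.er v N / v)) := by positivity
  have h17 : y * v * (x' / 2 + (C1 + C2) * x + (C1 + C2) * (Y.er v N / v)) =
      1 / 2 * (y * v * x') + y * v * (C1 * x) + y * v * (C2 * (Y.er v N / v)) +
        y * v * (C2 * x + C1 * (Y.er v N / v)) := by ring
  rw [h17, h13, h14, h15]
  have h18 : 1 * (K ^ 2 * (2 * K * (G * y * N) * x + Ct * (G * y) * Y.er v N)) =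
      2 * K ^ 3 * (G * y * N) * x + K ^ 2 * (Ct * (G * y) * Y.er v N) := by ring
  rw [h18] at h6
  linarith

theorem rec_main {K B : ℝ} (hY : Y.Crit K B) (xs : V →+ ℝ) :
    ∃ Λ : ℕ, 2 ≤ Λ ∧ ∃ (p : ℕ → Law) (c : ℕ → ℕ) (ε : ℕ → ℝ),
      (∀ k, 0 ≤ ε k) ∧ Summable ε ∧ (∀ k, (p k).Le (Λ ^ k)) ∧ (∀ k, (p k).Le (c k)) ∧
      (∀ k, c k ≤ 2 * Λ ^ k) ∧
      (∀ k (f : ℕ → ℝ), (p k).ex f = (p k).ex fun m => f (c k - m)) ∧
      (∀ k, ∃ r : Law, ∀ f : ℕ → ℝ, (p (k + 1)).ex f = ((p k).conv r).ex f) ∧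
      (∀ k, Y.er (Λ ^ k) (120 * Λ * Λ ^ k) ≤ Λ ^ k * ε k) ∧
      (∀ k i i' j j', i ≤ 120 * Λ * Λ ^ k → i' ≤ 120 * Λ * Λ ^ k → j ≤ 120 * Λ * Λ ^ k →
        j' ≤ 120 * Λ * Λ ^ k →
        Y.W (p k) (fun _ => 1) (fun _ => 1) (fun _ => 1) i i' j j' ≤ ε k) ∧
      (∀ k (y : ℝ), 1 ≤ y → (∀ t, t ≤ Λ ^ k → Y.M xs t ≤ y * t) →
        ∀ i i' j j', i ≤ 120 * Λ * Λ ^ k → i' ≤ 120 * Λ * Λ ^ k → j ≤ 120 * Λ * Λ ^ k →
        j' ≤ 120 * Λ * Λ ^ k →
        Y.W (p k) (Y.X2 xs) (fun _ => 1) (fun _ => 1) i i' j j' ≤ y * Λ ^ k * ε k) := by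
  have hK := hY.one_le_K
  have hK0 := hY.K_pos
  have hB := hY.one_le_B
  obtain ⟨J, hJ, hJK⟩ := exists_J hK hB
  obtain ⟨Λ, hΛ⟩ : ∃ Λ : ℕ, Λ = 17 * J + 1 := ⟨_, rfl⟩
  obtain ⟨C1, hC1, h1⟩ := Y.rec_one hY hJ hJK hΛ
  obtain ⟨C2, hC2, h2⟩ := Y.rec_X2 hY xs hJ hJK hΛ
  have hΛ18 : 18 ≤ Λ := by omega
  have hΛ1 : 1 ≤ Λ := by omega
  have hΛR : (1 : ℝ) ≤ Λ := by exact_mod_cast hΛ1
  set A : ℕ := 200 * Λ ^ 2 with hA
  have hA1 : 1 ≤ A := by
    have : 1 ≤ Λ ^ 2 := Nat.one_le_pow _ _ hΛ1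
    omega
  have hAΛ : 120 * Λ ≤ A := by
    rw [hA]
    nlinarith
  set e : ℕ → ℝ := fun k => Y.er (Λ ^ k) (A * Λ ^ k) / (Λ : ℝ) ^ k with he
  have hes : Summable e := Y.summ_er hY (by omega) hA1
  have he0 : ∀ k, 0 ≤ e k := fun k => div_nonneg (Y.er_nonneg _ _) (by positivity)
  have hHe : ∀ k, Y.H (Λ ^ k) (A * Λ ^ k) ≤ e k := by
    intro k
    have hp : (0 : ℝ) < (Λ : ℝ) ^ k := by positivity
    rw [he]
    simp only
    rw [le_div_iff₀ hp]
    unfold er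
    have h3 := Y.Sb_nonneg (A * Λ ^ k)
    have h4 := Y.H_nonneg (Λ ^ k) (A * Λ ^ k)
    have h5 : (Λ : ℝ) ^ k ≤ ((A * Λ ^ k : ℕ) : ℝ) := by
      push_cast
      have : (1 : ℝ) ≤ (A : ℝ) := by exact_mod_cast hA1
      nlinarith
    have h6 := mul_le_mul_of_nonneg_right h5 h4
    linarith
  -- the sequences
  set G : ℝ := (2 * K) ^ (120 * Λ) with hG
  have hG1 : 1 ≤ G := one_le_pow₀ (by linarith)
  set x : ℕ → ℝ := fun k => Nat.rec (2 * K ^ 6) (fun k t => t / 2 + C1 * e k) k with hx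
  have hxs : ∀ k, x (k + 1) = x k / 2 + C1 * e k := fun k => rfl
  have hx0 : x 0 = 2 * K ^ 6 := rfl
  obtain ⟨hxn, hxsum⟩ := summ_rec (x := x) (g := fun k => C1 * e k)
    (by rw [hx0]; positivity) (fun k => mul_nonneg hC1 (he0 k)) (hes.mul_left C1) hxs
  set x' : ℕ → ℝ := fun k => Nat.rec (2 * K ^ 5 * G * (120 * Λ))
    (fun k t => t / 2 + (C2 * x k + C2 * e k)) k with hx'
  have hxs' : ∀ k, x' (k + 1) = x' k / 2 + (C2 * x k + C2 * e k) := fun k => rfl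
  have hx0' : x' 0 = 2 * K ^ 5 * G * (120 * Λ) := rfl
  obtain ⟨hxn', hxsum'⟩ := summ_rec (x := x') (g := fun k => C2 * x k + C2 * e k)
    (by rw [hx0']; positivity)
    (fun k => add_nonneg (mul_nonneg hC2 (hxn k)) (mul_nonneg hC2 (he0 k)))
    ((hxsum.mul_left C2).add (hes.mul_left C2)) hxs'
  -- the two recursions
  have hv1 : ∀ k, 1 ≤ Λ ^ k := fun k => Nat.one_le_pow _ _ hΛ1
  have hple : ∀ k, (pk Λ J k).Le (Λ ^ k) := pk_le (by omega)
  have hpow : ∀ k, 120 * Λ * Λ ^ (k + 1) = 120 * Λ * (Λ * Λ ^ k) := fun k => by ring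
  have hW1 : ∀ k i i' j j', i ≤ 120 * Λ * Λ ^ k → i' ≤ 120 * Λ * Λ ^ k →
      j ≤ 120 * Λ * Λ ^ k → j' ≤ 120 * Λ * Λ ^ k →
      Y.W (pk Λ J k) (fun _ => 1) (fun _ => 1) (fun _ => 1) i i' j j' ≤ x k := by
    intro k
    induction k with
    | zero =>
      intro i i' j j' _ _ _ _
      refine (Y.W_le hY (fun _ => zero_le_one) i i' j j').trans ?_
      rw [hx0]
      have h3 : (Y.E i fun w => 1 * Y.sv w) ≤ K := by simpa using hY.E_sv_le i
      calc _ ≤ 2 * K ^ 5 * K := mul_le_mul_of_nonneg_left h3 (by positivity)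
        _ = _ := by ring
    | succ k ih =>
      intro i i' j j' hi hi' hj hj'
      rw [hpow] at hi hi' hj hj'
      have h3 := h1 (Λ ^ k) (pk Λ J k) (x k) (hv1 k) (hple k) ih i i' j j' hi hi' hj hj'
      refine h3.trans ?_
      rw [hxs]
      have := mul_le_mul_of_nonneg_left (hHe k) hC1
      linarith
  have hW2 : ∀ k (y : ℝ), 1 ≤ y → (∀ t, t ≤ Λ ^ k → Y.M xs t ≤ y * t) →
      ∀ i i' j j', i ≤ 120 * Λ * Λ ^ k → i' ≤ 120 * Λ * Λ ^ k →
      j ≤ 120 * Λ * Λ ^ k → j' ≤ 120 * Λ * Λ ^ k →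
      Y.W (pk Λ J k) (Y.X2 xs) (fun _ => 1) (fun _ => 1) i i' j j' ≤ y * Λ ^ k * x' k := by
    intro k
    induction k with
    | zero =>
      intro y hy hMy i i' j j' hi _ _ _
      refine (Y.W_le hY (fun w => Y.X2_nonneg xs w) i i' j j').trans ?_
      rw [hx0', E_X2_sv]
      have h3 : Y.M xs i ≤ G * y * i := by
        have := Y.M_mul_le hY xs (n := 1) le_rfl (by simpa using hMy) (120 * Λ) i (by simpa using hi)
        rwa [← hG] at this
      have h4 : (i : ℝ) ≤ 120 * Λ := by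
        have : i ≤ 120 * Λ := by simpa using hi
        exact_mod_cast this
      have h5 : G * y * i ≤ G * y * (120 * Λ) := mul_le_mul_of_nonneg_left h4 (by positivity)
      have h6 := mul_le_mul_of_nonneg_left (h3.trans h5) (by positivity : (0 : ℝ) ≤ 2 * K ^ 5)
      calc _ ≤ _ := h6
        _ = _ := by rw [pow_zero]; ring
    | succ k ih =>
      intro y hy hMy i i' j j' hi hi' hj hj'
      rw [hpow] at hi hi' hj hj'
      have hle : Λ ^ k ≤ Λ ^ (k + 1) := Nat.pow_le_pow_right hΛ1 (by omega)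
      have hMy' : ∀ t, t ≤ Λ ^ k → Y.M xs t ≤ y * t := fun t ht => hMy t (ht.trans hle)
      have hd : (pk Λ J k).Dens ((Λ : ℝ) / ((Λ ^ k : ℕ) : ℝ)) := by
        have := pk_dens hΛ1 hJ k
        push_cast
        exact this
      have ih' := ih y hy hMy'
      have h3 := h2 (Λ ^ k) (pk Λ J k) (x k) (x' k) y (hv1 k) (hple k) hd hy (hxn' k) hMy'
        (hW1 k) (by
          intro i i' j j' hi hi' hj hj'
          have := ih' i i' j j' hi hi' hj hj'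
          push_cast
          exact this) i i' j j' hi hi' hj hj'
      refine h3.trans ?_
      rw [hxs']
      have h4 : x' k / 2 + C2 * x k + C2 * (Y.er (Λ ^ k) (A * Λ ^ k) / ((Λ ^ k : ℕ) : ℝ)) =
          x' k / 2 + (C2 * x k + C2 * e k) := by
        rw [he]
        push_cast
        ring
      rw [h4]
      have h5 : 0 ≤ x' k / 2 + (C2 * x k + C2 * e k) := by
        rw [← hxs']
        exact hxn' (k + 1)
      refine mul_le_mul_of_nonneg_right ?_ h5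
      refine mul_le_mul_of_nonneg_left ?_ (by linarith)
      push_cast
      rw [pow_succ]
      have : (0 : ℝ) < (Λ : ℝ) ^ k := by positivity
      nlinarith
  -- conclusion
  refine ⟨Λ, by omega, pk Λ J, ck Λ J, fun k => x k + x' k + e k, ?_, ?_, hple,
    fun k => (pk_symm Λ J k).1, ck_le (by omega), fun k => (pk_symm Λ J k).2,
    pk_dec Λ J, ?_, ?_, ?_⟩
  · intro k
    have := hxn k
    have := hxn' k
    have := he0 k
    positivity
  · exact (hxsum.add hxsum').add hes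
  · intro k
    have hp : (0 : ℝ) < (Λ : ℝ) ^ k := by positivity
    have h3 : Y.er (Λ ^ k) (120 * Λ * Λ ^ k) ≤ Y.er (Λ ^ k) (A * Λ ^ k) :=
      Y.er_mono _ (Nat.mul_le_mul_right _ hAΛ)
    have h4 : Y.er (Λ ^ k) (A * Λ ^ k) = Λ ^ k * e k := by
      rw [he]
      simp only
      field_simp
    have h5 : (Λ : ℝ) ^ k * e k ≤ Λ ^ k * (x k + x' k + e k) :=
      mul_le_mul_of_nonneg_left (by linarith [hxn k, hxn' k]) hp.le
    linarith
  · intro k i i' j j' hi hi' hj hj'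
    have := hW1 k i i' j j' hi hi' hj hj'
    linarith [hxn' k, he0 k]
  · intro k y hy hMy i i' j j' hi hi' hj hj'
    have h3 := hW2 k y hy hMy i i' j j' hi hi' hj hj'
    refine h3.trans ?_
    refine mul_le_mul_of_nonneg_left ?_ (by positivity)
    linarith [hxn k, he0 k]

end Sys

end Pool.Agent.Bub4
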