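import Pool.Agent.Bub4.AddC
import Pool.Agent.Bub4.Rec

/-!
# Additivity of the averaged second moments
-/

set_option autoImplicit false

namespace Pool.Agent.Bub4

open Finset

namespace Sys

variable {S V : Type} [Fintype S] [AddCommGroup V] (Y : Sys S V)

namespace AddAux

theorem cut_add (v : ℕ) (p : Law) (F G : List S → List S → ℝ) (i j : ℕ) :
    Y.cut v p (fun l r => F l r + G l r) i j = Y.cut v p F i j + Y.cut v p G i j := by
  unfold cut
  rw [← Law.ex_add]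
  refine Law.ex_congr _ fun m => ?_
  rw [← Law.ex_add]
  refine Law.ex_congr _ fun n => ?_
  rw [← E_fadd]
  refine Y.E_congr fun l _ => ?_
  rw [← E_fadd]
  refine Y.E_congr fun r _ => ?_
  ring

theorem cut_mul (v : ℕ) (p : Law) (c : ℝ) (F : List S → List S → ℝ) (i j : ℕ) :
    Y.cut v p (fun l r => c * F l r) i j = c * Y.cut v p F i j := by
  unfold cut
  rw [← Law.ex_mul_left]
  refine Law.ex_congr _ fun m => ?_
  rw [← Law.ex_mul_left]
  refine Law.ex_congr _ fun n => ?_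
  rw [← E_mul_left]
  refine Y.E_congr fun l _ => ?_
  rw [← E_mul_left]
  refine Y.E_congr fun r _ => ?_
  ring

theorem cut_X2 (xs : V →+ ℝ) (v : ℕ) (p : Law) (i j : ℕ) :
    Y.cut v p (fun l r => Y.X2 xs (l ++ r)) i j =
      (mu v p).ex fun m => Y.M xs (m + (i + j)) := by
  unfold cut mu
  rw [Law.ex_conv ((p.conv p).conv (Law.dirac v)) ((Law.dirac v).conv (p.conv p))
    (fun m => Y.M xs (m + (i + j)))]
  refine Law.ex_congr _ fun m => ?_
  refine Law.ex_congr _ fun n => ?_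
  have h1 : m + n + (i + j) = (i + m) + (n + j) := by omega
  rw [h1]
  unfold M
  rw [E_add Y (i + m) (n + j)]
  refine Y.E_congr fun l _ => Y.E_congr fun r _ => ?_
  ring

theorem X2_append (xs : V →+ ℝ) (l r : List S) :
    Y.X2 xs (l ++ r) = (Y.X2 xs l + Y.X2 xs r) + 2 * (xs (Y.sm l) * xs (Y.sm r)) := by
  unfold X2
  rw [sm_append, map_add]
  ring

theorem M_eq (xs : V →+ ℝ) (v : ℕ) (p : Law) (i j : ℕ) :
    ((mu v p).ex fun m => Y.M xs (m + (i + j))) =
      Y.cut v p (fun l _ => Y.X2 xs l) i j + Y.cut v p (fun l _ => Y.X2 xs l) j i +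
        2 * Y.cut v p (fun l r => xs (Y.sm l) * xs (Y.sm r)) i j := by
  rw [← cut_X2]
  simp only [X2_append]
  rw [cut_add, cut_add, cut_mul, cut_right]

end AddAux

open AddAux in
theorem add_X2 {K B : ℝ} (hY : Y.Crit K B) (xs : V →+ ℝ) : ∃ C : ℝ, 0 ≤ C ∧
    ∀ (v N : ℕ) (p : Law) (e y : ℝ), 1 ≤ v → 1 ≤ N → p.Le v → 1 ≤ y → 0 ≤ e →
      (∀ t, t ≤ 2 * N → Y.M xs t ≤ y * t) →
      (∀ i i' j j', i ≤ N → i' ≤ N → j ≤ N → j' ≤ N →
        Y.W p (fun _ => 1) (fun _ => 1) (fun _ => 1) i i' j j' ≤ e) →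
      (∀ i i' j j', i ≤ N → i' ≤ N → j ≤ N → j' ≤ N →
        Y.W p (Y.X2 xs) (fun _ => 1) (fun _ => 1) i i' j j' ≤ y * N * e) →
      ∀ i j : ℕ, i + j + 8 * v ≤ N →
      |((mu v p).ex fun m => Y.M xs (m + (i + j))) * ((mu v p).ex fun m => Y.a m) +
        ((mu v p).ex fun m => Y.a (m + (i + j))) * ((mu v p).ex fun m => Y.M xs m) -
        ((mu v p).ex fun m => Y.M xs (m + i)) * ((mu v p).ex fun m => Y.a (m + j)) -
        ((mu v p).ex fun m => Y.a (m + i)) * ((mu v p).ex fun m => Y.M xs (m + j))| ≤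
        C * (y * N * e + y * Y.er v N) := by
  obtain ⟨C, hC, h⟩ := Y.add_cross hY xs
  refine ⟨4 + 2 * C, by linarith, ?_⟩
  intro v N p e y hv hN hp hy he hM hW hW2 i j hij
  have h1 := h v N p e y hv hN hp hy he hM hW hW2 i j hij
  have h2 := Y.add_left xs hp hW2 hij
  have h3 := Y.add_left xs hp hW2 (i := j) (j := i) (by omega)
  have herr := Y.er_nonneg v N
  have hM0 : ∀ i j : ℕ, ((mu v p).ex fun m => Y.M xs (m + (i + j))) =
      Y.cut v p (fun l _ => Y.X2 xs l) i j + Y.cut v p (fun l _ => Y.X2 xs l) j i +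
        2 * Y.cut v p (fun l r => xs (Y.sm l) * xs (Y.sm r)) i j := AddAux.M_eq Y xs v p
  have hA0 : ∀ i j : ℕ, ((mu v p).ex fun m => Y.a (m + (i + j))) =
      Y.cut v p (fun _ _ => 1) i j := fun i j => (Y.cut_one v p i j).symm
  have hA0s : ∀ i j : ℕ, Y.cut v p (fun _ _ => 1) i j = Y.cut v p (fun _ _ => 1) j i := by
    intro i j
    rw [← hA0, ← hA0, Nat.add_comm i j]
  have e1 := hM0 i j
  have e2 := hA0 i j
  have e3 := hM0 0 0
  have e4 := hA0 0 0
  have e5 := hM0 i 0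
  have e6 := hA0 i 0
  have e7 := hM0 0 j
  have e8 := hA0 0 j
  simp only [Nat.add_zero, Nat.zero_add] at e3 e4 e5 e6 e7 e8
  rw [e1, e2, e3, e4, e5, e6, e7, e8]
  rw [hA0s j i, hA0s j 0, hA0s 0 i] at h3
  rw [abs_le] at h1 h2 h3 ⊢
  have hyN : 0 ≤ y * N * e := by positivity
  have hyer : 0 ≤ y * Y.er v N := by positivity
  constructor
  · nlinarith [h1.1, h2.1, h3.1, hyN, hyer]
  · nlinarith [h1.2, h2.2, h3.2, hyN, hyer]

end Sys

end Pool.Agent.Bub4
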