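import Pool.Agent.Bub4.Mom
import Pool.Agent.Bub4.Summ

/-!
# The `ℓ²` estimate with the weight `X²`
-/

set_option autoImplicit false

namespace Pool.Agent.Bub4

open Finset

namespace Sys

variable {S V : Type} [Fintype S] [AddCommGroup V] (Y : Sys S V)

/-! ### Sums over words with lengths in a finite set -/

/-- the sum of `z ^ |w| f w` over the words `w` with length in `J` -/
noncomputable def L (J : Finset ℕ) (f : List S → ℝ) : ℝ := ∑ j ∈ J, Y.E j f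

theorem L_mono {J : Finset ℕ} {f g : List S → ℝ} (h : ∀ w, w.length ∈ J → f w ≤ g w) :
    Y.L J f ≤ Y.L J g :=
  Finset.sum_le_sum fun _ hj => Y.E_mono fun w hw => h w (by rw [hw]; exact hj)

theorem L_congr {J : Finset ℕ} {f g : List S → ℝ} (h : ∀ w, w.length ∈ J → f w = g w) :
    Y.L J f = Y.L J g :=
  Finset.sum_congr rfl fun _ hj => Y.E_congr fun w hw => h w (by rw [hw]; exact hj)

theorem L_nonneg {J : Finset ℕ} {f : List S → ℝ} (h : ∀ w, 0 ≤ f w) : 0 ≤ Y.L J f :=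
  Finset.sum_nonneg fun _ _ => Y.E_nonneg' h

theorem L_fadd (J : Finset ℕ) (f g : List S → ℝ) :
    (Y.L J fun w => f w + g w) = Y.L J f + Y.L J g := by
  simp only [L, E_fadd, Finset.sum_add_distrib]

theorem L_mul_left (J : Finset ℕ) (c : ℝ) (f : List S → ℝ) :
    (Y.L J fun w => c * f w) = c * Y.L J f := by
  simp only [L, E_mul_left, Finset.mul_sum]

theorem L_mul_right (J : Finset ℕ) (c : ℝ) (f : List S → ℝ) :
    (Y.L J fun w => f w * c) = Y.L J f * c := by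
  simp only [L, E_mul_right, Finset.sum_mul]

theorem E_xsum {ι : Type} (n : ℕ) (s : Finset ι) (F : ι → List S → ℝ) :
    Y.E n (fun w => ∑ i ∈ s, F i w) = ∑ i ∈ s, Y.E n (F i) := Y.E_fsum n s F

theorem L_fsum {ι : Type} (J : Finset ℕ) (s : Finset ι) (F : ι → List S → ℝ) :
    (Y.L J fun w => ∑ i ∈ s, F i w) = ∑ i ∈ s, Y.L J (F i) := by
  simp only [L, E_fsum]
  exact Finset.sum_comm

theorem L_union {a b c : ℕ} (hab : a ≤ b) (hbc : b ≤ c) (f : List S → ℝ) :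
    Y.L (Ico a c) f = Y.L (Ico a b) f + Y.L (Ico b c) f :=
  (Finset.sum_Ico_consecutive (fun j => Y.E j f) hab hbc).symm

theorem L_mul_L (J J' : Finset ℕ) (f g : List S → ℝ) :
    Y.L J f * Y.L J' g = Y.L J fun u => Y.L J' fun w => f u * g w := by
  simp only [L_mul_left, L_mul_right]

/-- Cauchy-Schwarz -/
theorem L_cs (J : Finset ℕ) {h : List S → ℝ} (hh : ∀ w, 0 ≤ h w) (f : List S → ℝ) :
    (Y.L J fun w => h w * f w) ^ 2 ≤ Y.L J h * Y.L J fun w => h w * f w ^ 2 := by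
  have key : ∀ x : ℝ, 0 ≤ Y.L J h * (x * x) + (2 * Y.L J fun w => h w * f w) * x +
      Y.L J fun w => h w * f w ^ 2 := by
    intro x
    have h1 : 0 ≤ Y.L J fun w => h w * (f w + x) ^ 2 :=
      Y.L_nonneg fun w => mul_nonneg (hh w) (sq_nonneg _)
    have h2 : (Y.L J fun w => h w * (f w + x) ^ 2) = Y.L J fun w =>
        h w * (x * x) + (h w * f w) * (2 * x) + h w * f w ^ 2 :=
      Y.L_congr fun w _ => by ring
    rw [h2, L_fadd, L_fadd, L_mul_right, L_mul_right] at h1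
    linarith
  have h3 := discrim_le_zero key
  unfold discrim at h3
  nlinarith

/-! ### Point masses -/

theorem sum_dl_le (Ω : Finset V) (a : V) {g : V → ℝ} (hg : 0 ≤ g a) :
    ∑ x ∈ Ω, dl (a - x) * g x ≤ g a := by
  classical
  by_cases ha : a ∈ Ω
  · rw [Finset.sum_eq_single_of_mem a ha]
    · simp
    · intro x _ hx
      rw [dl_of_ne (sub_ne_zero.2 hx.symm), zero_mul]
  · rw [Finset.sum_eq_zero]
    · exact hg
    · intro x hx
      have : a ≠ x := fun h => ha (h ▸ hx)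
      rw [dl_of_ne (sub_ne_zero.2 this), zero_mul]

theorem sum_dl_eq {Ω : Finset V} {a : V} (ha : a ∈ Ω) (g : V → ℝ) :
    ∑ x ∈ Ω, dl (a - x) * g x = g a := by
  classical
  rw [Finset.sum_eq_single_of_mem a ha]
  · simp
  · intro x _ hx
    rw [dl_of_ne (sub_ne_zero.2 hx.symm), zero_mul]

open Classical in
/-- the end points of the words of length at most `n` -/
noncomputable def Om (n : ℕ) : Finset V :=
  (range (n + 1)).biUnion fun m => Finset.univ.image fun w : Fin m → S => Y.sm (List.ofFn w)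

theorem mem_Om {n : ℕ} {w : List S} (h : w.length ≤ n) : Y.sm w ∈ Y.Om n := by
  classical
  unfold Om
  rw [Finset.mem_biUnion]
  refine ⟨w.length, Finset.mem_range.2 (by omega), ?_⟩
  rw [Finset.mem_image]
  exact ⟨w.get, Finset.mem_univ _, by rw [List.ofFn_get]⟩

/-- the square of the density of the self-avoiding words -/
theorem gam (Ω : Finset V) (J : Finset ℕ) (z : V) :
    ∑ x ∈ Ω, (Y.L J fun w => Y.sv w * dl (Y.sm w + z - x)) ^ 2 ≤
      ∑ s ∈ J, ∑ t ∈ J, Y.b s t := by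
  have h1 : ∑ s ∈ J, ∑ t ∈ J, Y.b s t = Y.L J fun u => Y.L J fun w =>
      Y.sv u * Y.sv w * dl (Y.sm u - Y.sm w) := by
    unfold L
    refine Finset.sum_congr rfl fun s _ => ?_
    rw [E_fsum]
    exact Finset.sum_congr rfl fun t _ => Y.b_eq_sub s t
  have h2 : ∀ x, (Y.L J fun w => Y.sv w * dl (Y.sm w + z - x)) ^ 2 =
      Y.L J fun u => Y.L J fun w =>
        (Y.sv u * Y.sv w) * (dl (Y.sm u + z - x) * dl (Y.sm w + z - x)) := by
    intro x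
    rw [sq, L_mul_L]
    exact Y.L_congr fun u _ => Y.L_congr fun w _ => by ring
  simp only [h2]
  rw [h1, ← L_fsum]
  refine Y.L_mono fun u _ => ?_
  rw [← L_fsum]
  refine Y.L_mono fun w _ => ?_
  rw [← Finset.mul_sum]
  refine mul_le_mul_of_nonneg_left ?_ (mul_nonneg (Y.sv_nonneg u) (Y.sv_nonneg w))
  refine (sum_dl_le Ω (Y.sm u + z) (g := fun x => dl (Y.sm w + z - x)) (dl_nonneg _)).trans ?_
  have : Y.sm w + z - (Y.sm u + z) = Y.sm w - Y.sm u := by abel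
  show dl (Y.sm w + z - (Y.sm u + z)) ≤ _
  rw [this, dl_sub_comm]

/-- the same for a union of two intervals -/
theorem gam2 (Ω : Finset V) {a b c : ℕ} (hab : a ≤ b) (hbc : b ≤ c) (z : V) :
    ∑ x ∈ Ω, (Y.L (Ico a c) fun w => Y.sv w * dl (Y.sm w + z - x)) ^ 2 ≤
      2 * (∑ s ∈ Ico a b, ∑ t ∈ Ico a b, Y.b s t) +
      2 * ∑ s ∈ Ico b c, ∑ t ∈ Ico b c, Y.b s t := by
  have h1 := Y.gam Ω (Ico a b) z
  have h2 := Y.gam Ω (Ico b c) z
  have h3 : ∑ x ∈ Ω, (Y.L (Ico a c) fun w => Y.sv w * dl (Y.sm w + z - x)) ^ 2 ≤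
      ∑ x ∈ Ω, (2 * (Y.L (Ico a b) fun w => Y.sv w * dl (Y.sm w + z - x)) ^ 2 +
        2 * (Y.L (Ico b c) fun w => Y.sv w * dl (Y.sm w + z - x)) ^ 2) := by
    refine Finset.sum_le_sum fun x _ => ?_
    rw [Y.L_union hab hbc]
    nlinarith [sq_nonneg ((Y.L (Ico a b) fun w => Y.sv w * dl (Y.sm w + z - x)) -
      (Y.L (Ico b c) fun w => Y.sv w * dl (Y.sm w + z - x)))]
  rw [Finset.sum_add_distrib, ← Finset.mul_sum, ← Finset.mul_sum] at h3
  linarith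

/-- Young -/
theorem young (Ω : Finset V) (J1 J2 : Finset ℕ) {h : List S → ℝ} (hh : ∀ w, 0 ≤ h w) {C : ℝ}
    (hC : ∀ z, ∑ x ∈ Ω, (Y.L J2 fun w => Y.sv w * dl (Y.sm w + z - x)) ^ 2 ≤ C) :
    ∑ x ∈ Ω, (Y.L J1 fun u => h u * Y.L J2 fun w => Y.sv w * dl (Y.sm w + Y.sm u - x)) ^ 2 ≤
      (Y.L J1 h) ^ 2 * C := by
  have h0 : 0 ≤ Y.L J1 h := Y.L_nonneg hh
  calc _ ≤ ∑ x ∈ Ω, Y.L J1 h * Y.L J1 fun u => h u *
        (Y.L J2 fun w => Y.sv w * dl (Y.sm w + Y.sm u - x)) ^ 2 :=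
        Finset.sum_le_sum fun x _ => Y.L_cs J1 hh _
    _ = Y.L J1 h * Y.L J1 fun u => h u *
        ∑ x ∈ Ω, (Y.L J2 fun w => Y.sv w * dl (Y.sm w + Y.sm u - x)) ^ 2 := by
        rw [← Finset.mul_sum, ← L_fsum]
        simp only [Finset.mul_sum]
    _ ≤ Y.L J1 h * Y.L J1 fun u => h u * C := by
        refine mul_le_mul_of_nonneg_left (Y.L_mono fun u _ => ?_) h0
        exact mul_le_mul_of_nonneg_left (hC _) (hh u)
    _ = (Y.L J1 h) ^ 2 * C := by rw [L_mul_right]; ring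

section

variable (xs : V →+ ℝ)

/-- the weight `X² sv` -/
noncomputable def hx (w : List S) : ℝ := Y.X2 xs w * Y.sv w

theorem hx_nonneg (w : List S) : 0 ≤ Y.hx xs w := mul_nonneg (Y.X2_nonneg xs w) (Y.sv_nonneg w)

theorem E_hx (n : ℕ) : Y.E n (Y.hx xs) = Y.M xs n :=
  Y.E_congr fun w _ => mul_comm _ _

/-- the density of the weight `X² sv` -/
noncomputable def dn (J : Finset ℕ) (x : V) : ℝ := Y.L J fun w => Y.hx xs w * dl (Y.sm w - x)

theorem dn_nonneg (J : Finset ℕ) (x : V) : 0 ≤ Y.dn xs J x :=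
  Y.L_nonneg fun w => mul_nonneg (Y.hx_nonneg xs w) (dl_nonneg _)

theorem L_hx_le {y : ℝ} (hy : 0 ≤ y) {a b : ℕ}
    (hM : ∀ t, t < b → Y.M xs t ≤ y * t) : Y.L (Ico a b) (Y.hx xs) ≤ ((b - a : ℕ) : ℝ) * (y * b) := by
  unfold L
  calc ∑ j ∈ Ico a b, Y.E j (Y.hx xs) ≤ ∑ j ∈ Ico a b, y * b := by
        refine Finset.sum_le_sum fun j hj => ?_
        rw [Finset.mem_Ico] at hj
        rw [E_hx]
        refine (hM j hj.2).trans (mul_le_mul_of_nonneg_left ?_ hy)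
        exact_mod_cast hj.2.le
    _ = _ := by rw [Finset.sum_const, Nat.card_Ico, nsmul_eq_mul]

/-- the `ℓ¹` bound for a block -/
theorem dn_l1 (Ω : Finset V) (J : Finset ℕ) :
    ∑ x ∈ Ω, Y.dn xs J x ^ 2 ≤ (Y.L J (Y.hx xs)) ^ 2 := by
  have h1 : ∑ x ∈ Ω, Y.dn xs J x ≤ Y.L J (Y.hx xs) := by
    unfold dn
    rw [← L_fsum]
    refine Y.L_mono fun w _ => ?_
    have := sum_dl_le Ω (Y.sm w) (g := fun _ => Y.hx xs w) (Y.hx_nonneg xs w)
    refine le_trans (le_of_eq ?_) this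
    exact Finset.sum_congr rfl fun x _ => mul_comm _ _
  have h2 : ∑ x ∈ Ω, Y.dn xs J x ^ 2 ≤ (∑ x ∈ Ω, Y.dn xs J x) ^ 2 := by
    rw [sq, Finset.sum_mul]
    refine Finset.sum_le_sum fun x hx => ?_
    rw [sq]
    exact mul_le_mul_of_nonneg_left
      (Finset.single_le_sum (f := fun x => Y.dn xs J x) (fun i _ => Y.dn_nonneg xs J i) hx)
      (Y.dn_nonneg xs J x)
  refine h2.trans (pow_le_pow_left₀ (Finset.sum_nonneg fun x _ => Y.dn_nonneg xs J x) h1 2)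

/-- splitting the words of a dyadic block -/
theorem dn_split (q : ℕ) (x : V) :
    (2 : ℝ) ^ q * Y.dn xs (Ico (2 ^ (q + 2)) (2 ^ (q + 3))) x ≤
      2 * (Y.L (Ico (2 ^ q) (2 ^ (q + 1))) fun u => Y.hx xs u *
        Y.L (Ico (2 ^ (q + 1)) (2 ^ (q + 3))) fun w => Y.sv w * dl (Y.sm w + Y.sm u - x)) +
      2 * (Y.L (Ico (2 ^ (q + 1)) (2 ^ (q + 3))) fun w => Y.hx xs w *
        Y.L (Ico (2 ^ q) (2 ^ (q + 1))) fun u => Y.sv u * dl (Y.sm u + Y.sm w - x)) := by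
  set J0 := Ico (2 ^ q) (2 ^ (q + 1)) with hJ0
  set J := Ico (2 ^ (q + 1)) (2 ^ (q + 3)) with hJ
  set I := Ico (2 ^ (q + 2)) (2 ^ (q + 3)) with hI
  set φ : ℕ → ℕ → ℝ := fun j t => Y.E j fun u => Y.E t fun w =>
    (2 * (Y.hx xs u * (Y.sv w * dl (Y.sm w + Y.sm u - x))) +
      2 * (Y.hx xs w * (Y.sv u * dl (Y.sm u + Y.sm w - x)))) with hφ
  have hφ0 : ∀ j t, 0 ≤ φ j t := fun j t => Y.E_nonneg' fun u => Y.E_nonneg' fun w => by
    have h1 := Y.hx_nonneg xs u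
    have h2 := Y.hx_nonneg xs w
    have h3 := Y.sv_nonneg u
    have h4 := Y.sv_nonneg w
    have h5 := dl_nonneg (Y.sm w + Y.sm u - x)
    have h6 := dl_nonneg (Y.sm u + Y.sm w - x)
    positivity
  have hcard : (J0.card : ℝ) = 2 ^ q := by
    rw [hJ0, Nat.card_Ico, pow_succ]
    have : 2 ^ q * 2 - 2 ^ q = 2 ^ q := by omega
    rw [this]
    push_cast
    rfl
  have hsplit : ∀ j ∈ J0, ∀ t ∈ I, (Y.E t fun w => Y.hx xs w * dl (Y.sm w - x)) ≤ φ j (t - j) := by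
    intro j hj t ht
    rw [hJ0, Finset.mem_Ico] at hj
    rw [hI, Finset.mem_Ico] at ht
    have hle : j ≤ t := by
      have : 2 ^ (q + 1) ≤ 2 ^ (q + 2) := Nat.pow_le_pow_right (by norm_num) (by omega)
      omega
    have e1 : (Y.E t fun w => Y.hx xs w * dl (Y.sm w - x)) =
        Y.E (j + (t - j)) fun w => Y.hx xs w * dl (Y.sm w - x) := by
      rw [Nat.add_sub_cancel' hle]
    rw [e1, E_add]
    refine Y.E_mono fun u _ => Y.E_mono fun w _ => ?_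
    have h1 := Y.sv_append_le u w
    have h2 := Y.X2_append_le xs u w
    have h3 := Y.X2_nonneg xs (u ++ w)
    have h4 : 0 ≤ Y.sv u * Y.sv w := mul_nonneg (Y.sv_nonneg u) (Y.sv_nonneg w)
    have h5 : Y.hx xs (u ++ w) ≤ (2 * Y.X2 xs u + 2 * Y.X2 xs w) * (Y.sv u * Y.sv w) := by
      unfold hx
      calc Y.X2 xs (u ++ w) * Y.sv (u ++ w) ≤ Y.X2 xs (u ++ w) * (Y.sv u * Y.sv w) :=
            mul_le_mul_of_nonneg_left h1 h3
        _ ≤ _ := mul_le_mul_of_nonneg_right h2 h4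
    rw [sm_append]
    have h6 := mul_le_mul_of_nonneg_right h5 (dl_nonneg (Y.sm u + Y.sm w - x))
    refine h6.trans (le_of_eq ?_)
    rw [add_comm (Y.sm w) (Y.sm u)]
    unfold hx
    ring
  have hstep : (2 : ℝ) ^ q * Y.dn xs I x ≤ ∑ j ∈ J0, ∑ t ∈ J, φ j t := by
    have e1 : (2 : ℝ) ^ q * Y.dn xs I x = ∑ j ∈ J0, ∑ t ∈ I,
        Y.E t fun w => Y.hx xs w * dl (Y.sm w - x) := by
      rw [Finset.sum_const, nsmul_eq_mul, hcard]
      rfl
    rw [e1]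
    refine Finset.sum_le_sum fun j hj => ?_
    calc (∑ t ∈ I, Y.E t fun w => Y.hx xs w * dl (Y.sm w - x)) ≤ ∑ t ∈ I, φ j (t - j) :=
          Finset.sum_le_sum fun t ht => hsplit j hj t ht
      _ = ∑ t ∈ I.image (fun t => t - j), φ j t := by
          rw [Finset.sum_image]
          intro a ha b hb hab
          rw [hJ0, Finset.mem_Ico] at hj
          have ha' : a ∈ I := ha
          have hb' : b ∈ I := hb
          rw [hI, Finset.mem_Ico] at ha' hb'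
          have : 2 ^ (q + 1) ≤ 2 ^ (q + 2) := Nat.pow_le_pow_right (by norm_num) (by omega)
          have hab' : a - j = b - j := hab
          omega
      _ ≤ ∑ t ∈ J, φ j t := by
          refine Finset.sum_le_sum_of_subset_of_nonneg ?_ fun t _ _ => hφ0 j t
          intro t ht
          rw [Finset.mem_image] at ht
          obtain ⟨s, hs, rfl⟩ := ht
          rw [hJ0, Finset.mem_Ico] at hj
          rw [hI, Finset.mem_Ico] at hs
          rw [hJ, Finset.mem_Ico]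
          have h1 : 2 ^ (q + 2) = 2 * 2 ^ (q + 1) := by ring
          omega
  refine hstep.trans (le_of_eq ?_)
  have e2 : ∑ j ∈ J0, ∑ t ∈ J, φ j t = Y.L J0 fun u => Y.L J fun w =>
    (2 * (Y.hx xs u * (Y.sv w * dl (Y.sm w + Y.sm u - x))) +
      2 * (Y.hx xs w * (Y.sv u * dl (Y.sm u + Y.sm w - x)))) := by
    unfold L
    refine Finset.sum_congr rfl fun j _ => ?_
    rw [E_fsum]
  have e3 : (Y.L J0 fun u => Y.L J fun w => Y.hx xs w * (Y.sv u * dl (Y.sm u + Y.sm w - x))) =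
      Y.L J fun w => Y.L J0 fun u => Y.hx xs w * (Y.sv u * dl (Y.sm u + Y.sm w - x)) := by
    unfold L
    simp only [E_fsum]
    rw [Finset.sum_comm]
    exact Finset.sum_congr rfl fun t _ => Finset.sum_congr rfl fun j _ => Y.E_comm _ _ _
  rw [e2]
  simp only [L_fadd, L_mul_left]
  rw [e3]
  simp only [L_mul_left]

/-- the `ℓ²` bound for a dyadic block -/
theorem dn_block (Ω : Finset V) {y : ℝ} (hy : 1 ≤ y) (q : ℕ)
    (hM : ∀ t, t < 2 ^ (q + 3) → Y.M xs t ≤ y * t) :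
    ∑ x ∈ Ω, Y.dn xs (Ico (2 ^ (q + 2)) (2 ^ (q + 3))) x ^ 2 ≤
      1152 * y ^ 2 * ((2 : ℝ) ^ (q + 2)) ^ 2 * (Y.gb q + Y.gb (q + 1) + Y.gb (q + 2)) := by
  have hle : ∀ a b : ℕ, a ≤ b → 2 ^ a ≤ 2 ^ b := fun a b h => Nat.pow_le_pow_right (by norm_num) h
  set c : ℝ := (2 : ℝ) ^ q with hc
  have hc0 : 0 < c := by positivity
  have hy0 : 0 ≤ y := by linarith
  -- first part
  have hP := Y.young Ω (Ico (2 ^ q) (2 ^ (q + 1))) (Ico (2 ^ (q + 1)) (2 ^ (q + 3)))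
    (Y.hx_nonneg xs) (C := 2 * Y.gb (q + 1) + 2 * Y.gb (q + 2)) fun z => by
      have := Y.gam2 Ω (hle (q + 1) (q + 2) (by omega)) (hle (q + 2) (q + 3) (by omega)) z
      exact this
  have hQ := Y.young Ω (Ico (2 ^ (q + 1)) (2 ^ (q + 3))) (Ico (2 ^ q) (2 ^ (q + 1)))
    (Y.hx_nonneg xs) (C := Y.gb q) fun z => Y.gam Ω _ z
  have hP1 : Y.L (Ico (2 ^ q) (2 ^ (q + 1))) (Y.hx xs) ≤ 2 * c ^ 2 * y := by
    have h1 := Y.L_hx_le xs hy0 (a := 2 ^ q) (b := 2 ^ (q + 1)) fun t ht =>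
      hM t (lt_of_lt_of_le ht (hle _ _ (by omega)))
    have h2 : 2 ^ (q + 1) - 2 ^ q = 2 ^ q := by rw [pow_succ]; omega
    rw [h2] at h1
    push_cast at h1
    have e3 : (2 : ℝ) ^ (q + 1) = 2 * c := by rw [hc]; ring
    rw [e3, ← hc] at h1
    linarith
  have hQ1 : Y.L (Ico (2 ^ (q + 1)) (2 ^ (q + 3))) (Y.hx xs) ≤ 48 * c ^ 2 * y := by
    have h1 := Y.L_hx_le xs hy0 (a := 2 ^ (q + 1)) (b := 2 ^ (q + 3)) fun t ht =>
      hM t (lt_of_lt_of_le ht (hle _ _ (by omega)))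
    have h2 : 2 ^ (q + 3) - 2 ^ (q + 1) = 6 * 2 ^ q := by
      have e1 : 2 ^ (q + 3) = 8 * 2 ^ q := by ring
      have e2 : 2 ^ (q + 1) = 2 * 2 ^ q := by ring
      omega
    rw [h2] at h1
    push_cast at h1
    have e3 : (2 : ℝ) ^ (q + 3) = 8 * c := by rw [hc]; ring
    rw [e3, ← hc] at h1
    linarith
  have hP0 : 0 ≤ Y.L (Ico (2 ^ q) (2 ^ (q + 1))) (Y.hx xs) := Y.L_nonneg (Y.hx_nonneg xs)
  have hQ0 : 0 ≤ Y.L (Ico (2 ^ (q + 1)) (2 ^ (q + 3))) (Y.hx xs) := Y.L_nonneg (Y.hx_nonneg xs)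
  have g0 := Y.gb_nonneg q
  have g1 := Y.gb_nonneg (q + 1)
  have g2 := Y.gb_nonneg (q + 2)
  have hP2 : (Y.L (Ico (2 ^ q) (2 ^ (q + 1))) (Y.hx xs)) ^ 2 ≤ (2 * c ^ 2 * y) ^ 2 :=
    pow_le_pow_left₀ hP0 hP1 2
  have hQ2 : (Y.L (Ico (2 ^ (q + 1)) (2 ^ (q + 3))) (Y.hx xs)) ^ 2 ≤ (48 * c ^ 2 * y) ^ 2 :=
    pow_le_pow_left₀ hQ0 hQ1 2
  have hP3 := hP.trans (mul_le_mul_of_nonneg_right hP2
    (by linarith : 0 ≤ 2 * Y.gb (q + 1) + 2 * Y.gb (q + 2)))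
  have hQ3 := hQ.trans (mul_le_mul_of_nonneg_right hQ2 g0)
  have hsum : c ^ 2 * ∑ x ∈ Ω, Y.dn xs (Ico (2 ^ (q + 2)) (2 ^ (q + 3))) x ^ 2 ≤
      8 * ((2 * c ^ 2 * y) ^ 2 * (2 * Y.gb (q + 1) + 2 * Y.gb (q + 2))) +
      8 * ((48 * c ^ 2 * y) ^ 2 * Y.gb q) := by
    have h1 : c ^ 2 * ∑ x ∈ Ω, Y.dn xs (Ico (2 ^ (q + 2)) (2 ^ (q + 3))) x ^ 2 ≤
        8 * (∑ x ∈ Ω, (Y.L (Ico (2 ^ q) (2 ^ (q + 1))) fun u => Y.hx xs u *
          Y.L (Ico (2 ^ (q + 1)) (2 ^ (q + 3))) fun w =>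
            Y.sv w * dl (Y.sm w + Y.sm u - x)) ^ 2) +
        8 * (∑ x ∈ Ω, (Y.L (Ico (2 ^ (q + 1)) (2 ^ (q + 3))) fun w => Y.hx xs w *
          Y.L (Ico (2 ^ q) (2 ^ (q + 1))) fun u =>
            Y.sv u * dl (Y.sm u + Y.sm w - x)) ^ 2) := by
      rw [Finset.mul_sum, Finset.mul_sum, Finset.mul_sum, ← Finset.sum_add_distrib]
      refine Finset.sum_le_sum fun x _ => ?_
      have h2 := Y.dn_split xs q x
      have h3 : 0 ≤ c * Y.dn xs (Ico (2 ^ (q + 2)) (2 ^ (q + 3))) x :=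
        mul_nonneg hc0.le (Y.dn_nonneg xs _ x)
      have h4 := pow_le_pow_left₀ h3 h2 2
      rw [mul_pow] at h4
      refine h4.trans ?_
      set P := Y.L (Ico (2 ^ q) (2 ^ (q + 1))) fun u => Y.hx xs u *
          Y.L (Ico (2 ^ (q + 1)) (2 ^ (q + 3))) fun w => Y.sv w * dl (Y.sm w + Y.sm u - x)
      set Q := Y.L (Ico (2 ^ (q + 1)) (2 ^ (q + 3))) fun w => Y.hx xs w *
          Y.L (Ico (2 ^ q) (2 ^ (q + 1))) fun u => Y.sv u * dl (Y.sm u + Y.sm w - x)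
      nlinarith [sq_nonneg (P - Q)]
    linarith
  have e4 : (2 : ℝ) ^ (q + 2) = 4 * c := by rw [hc]; ring
  rw [e4]
  have h5 : c ^ 2 * ∑ x ∈ Ω, Y.dn xs (Ico (2 ^ (q + 2)) (2 ^ (q + 3))) x ^ 2 ≤
      c ^ 2 * (1152 * y ^ 2 * (4 * c) ^ 2 * (Y.gb q + Y.gb (q + 1) + Y.gb (q + 2))) := by
    refine hsum.trans ?_
    have h6 : 0 ≤ c ^ 4 * y ^ 2 * Y.gb (q + 1) := by positivity
    have h7 : 0 ≤ c ^ 4 * y ^ 2 * Y.gb (q + 2) := by positivity
    nlinarith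
  exact le_of_mul_le_mul_left h5 (by positivity)

/-- the coefficients of `Sb` -/
noncomputable def gg (r : ℕ) : ℝ := if r < 2 then 1 else Y.gb (r - 2) + Y.gb (r - 1) + Y.gb r

theorem gg_nonneg (r : ℕ) : 0 ≤ Y.gg r := Y.sbc_nonneg r

/-- the bound for all dyadic blocks -/
theorem dn_block' (Ω : Finset V) {y : ℝ} (hy : 1 ≤ y) (r : ℕ)
    (hM : ∀ t, t < 2 ^ (r + 1) → Y.M xs t ≤ y * t) :
    ∑ x ∈ Ω, Y.dn xs (Ico (2 ^ r) (2 ^ (r + 1))) x ^ 2 ≤
      1152 * y ^ 2 * ((2 : ℝ) ^ r) ^ 2 * Y.gg r := by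
  rcases Nat.lt_or_ge r 2 with hr | hr
  · have h1 := Y.dn_l1 xs Ω (Ico (2 ^ r) (2 ^ (r + 1)))
    have h2 := Y.L_hx_le xs (by linarith : 0 ≤ y) (a := 2 ^ r) hM
    have h3 : 0 ≤ Y.L (Ico (2 ^ r) (2 ^ (r + 1))) (Y.hx xs) := Y.L_nonneg (Y.hx_nonneg xs)
    have h4 := pow_le_pow_left₀ h3 h2 2
    have h5 : Y.gg r = 1 := by simp [gg, hr]
    rw [h5]
    refine h1.trans (h4.trans ?_)
    have h6 : 2 ^ (r + 1) - 2 ^ r = 2 ^ r := by rw [pow_succ]; omega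
    rw [h6]
    push_cast
    have h7 : (2 : ℝ) ^ r ≤ 2 := by
      calc (2 : ℝ) ^ r ≤ 2 ^ 1 := pow_le_pow_right₀ (by norm_num) (by omega)
        _ = 2 := by norm_num
    have h8 : (0 : ℝ) < 2 ^ r := by positivity
    have h9 : ((2 : ℝ) ^ r * (y * 2 ^ (r + 1))) ^ 2 = (y ^ 2 * ((2 : ℝ) ^ r) ^ 2) *
        (4 * ((2 : ℝ) ^ r) ^ 2) := by rw [pow_succ]; ring
    rw [h9]
    have h10 : 4 * ((2 : ℝ) ^ r) ^ 2 ≤ 1152 := by nlinarith
    have h11 : 0 ≤ y ^ 2 * ((2 : ℝ) ^ r) ^ 2 := by positivity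
    nlinarith
  · obtain ⟨q, rfl⟩ := Nat.exists_eq_add_of_le' hr
    have h1 := Y.dn_block xs Ω hy q hM
    have h2 : Y.gg (q + 2) = Y.gb q + Y.gb (q + 1) + Y.gb (q + 2) := by simp [gg]
    rw [h2]
    exact h1

theorem geom_le (N : ℕ) : ∑ r ∈ (range (N + 1)).filter (fun r => 2 ^ r ≤ N), (2 : ℝ) ^ r ≤ 2 * N := by
  rcases Nat.eq_zero_or_pos N with h0 | h0
  · subst h0
    rw [Finset.sum_eq_zero]
    · simp
    · intro r hr
      rw [Finset.mem_filter] at hr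
      have : 0 < 2 ^ r := by positivity
      omega
  · have hsub : (range (N + 1)).filter (fun r => 2 ^ r ≤ N) ⊆ range (Nat.log 2 N + 1) := by
      intro r hr
      rw [Finset.mem_filter] at hr
      rw [Finset.mem_range]
      have := Nat.le_log_of_pow_le (by norm_num : 1 < 2) hr.2
      omega
    calc _ ≤ ∑ r ∈ range (Nat.log 2 N + 1), (2 : ℝ) ^ r :=
          Finset.sum_le_sum_of_subset_of_nonneg hsub fun r _ _ => by positivity
      _ ≤ 2 ^ (Nat.log 2 N + 1) := by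
          rw [geom_sum_eq (by norm_num)]
          norm_num
      _ = 2 * 2 ^ Nat.log 2 N := by ring
      _ ≤ 2 * N := by
          have : 2 ^ Nat.log 2 N ≤ N := Nat.pow_log_le_self 2 (by omega)
          have : (2 : ℝ) ^ Nat.log 2 N ≤ N := by exact_mod_cast this
          linarith

theorem Sb_eq (N : ℕ) : Y.Sb N =
    ∑ r ∈ (range (N + 1)).filter (fun r => 2 ^ r ≤ N), (2 : ℝ) ^ r * Y.gg r := by
  rw [Finset.sum_filter]
  rfl

/-- the `ℓ²` norm of the density of `X² sv` -/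
theorem dn_all (Ω : Finset V) {y : ℝ} {N : ℕ} (hy : 1 ≤ y)
    (hM : ∀ t, t ≤ 2 * N → Y.M xs t ≤ y * t) :
    ∑ x ∈ Ω, Y.dn xs (Icc 1 N) x ^ 2 ≤ 2304 * N * y ^ 2 * Y.Sb N := by
  set R := (range (N + 1)).filter (fun r => 2 ^ r ≤ N) with hR
  have hlog : ∀ s ∈ Icc 1 N, Nat.log 2 s ∈ R := by
    intro s hs
    rw [Finset.mem_Icc] at hs
    rw [hR, Finset.mem_filter, Finset.mem_range]
    have h1 : 2 ^ Nat.log 2 s ≤ s := Nat.pow_log_le_self 2 (by omega)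
    have h2 : Nat.log 2 s < 2 ^ Nat.log 2 s := Nat.lt_two_pow_self
    omega
  have hpt : ∀ x, Y.dn xs (Icc 1 N) x ≤ ∑ r ∈ R, Y.dn xs (Ico (2 ^ r) (2 ^ (r + 1))) x := by
    intro x
    unfold dn L
    rw [← Finset.sum_fiberwise_of_maps_to hlog]
    refine Finset.sum_le_sum fun r _ => ?_
    refine Finset.sum_le_sum_of_subset_of_nonneg ?_ fun s _ _ =>
      Y.E_nonneg' fun w => mul_nonneg (Y.hx_nonneg xs w) (dl_nonneg _)
    intro s hs
    rw [Finset.mem_filter, Finset.mem_Icc] at hs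
    rw [Finset.mem_Ico, ← hs.2]
    exact ⟨Nat.pow_log_le_self 2 (by omega), Nat.lt_pow_succ_log_self (by norm_num) s⟩
  have hcs : ∀ x, Y.dn xs (Icc 1 N) x ^ 2 ≤ (∑ r ∈ R, (2 : ℝ) ^ r) *
      ∑ r ∈ R, Y.dn xs (Ico (2 ^ r) (2 ^ (r + 1))) x ^ 2 / 2 ^ r := by
    intro x
    have h1 := pow_le_pow_left₀ (Y.dn_nonneg xs (Icc 1 N) x) (hpt x) 2
    refine h1.trans ?_
    refine Finset.sum_sq_le_sum_mul_sum_of_sq_le_mul R (fun r _ => by positivity)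
      (fun r _ => by positivity) fun r _ => ?_
    have : (2 : ℝ) ^ r ≠ 0 := by positivity
    refine le_of_eq ?_
    field_simp
  have hg : 0 ≤ ∑ r ∈ R, (2 : ℝ) ^ r := Finset.sum_nonneg fun r _ => by positivity
  calc ∑ x ∈ Ω, Y.dn xs (Icc 1 N) x ^ 2 ≤ ∑ x ∈ Ω, (∑ r ∈ R, (2 : ℝ) ^ r) *
        ∑ r ∈ R, Y.dn xs (Ico (2 ^ r) (2 ^ (r + 1))) x ^ 2 / 2 ^ r :=
        Finset.sum_le_sum fun x _ => hcs x
    _ = (∑ r ∈ R, (2 : ℝ) ^ r) *
        ∑ r ∈ R, (∑ x ∈ Ω, Y.dn xs (Ico (2 ^ r) (2 ^ (r + 1))) x ^ 2) / 2 ^ r := by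
        rw [← Finset.mul_sum, Finset.sum_comm]
        simp only [Finset.sum_div]
    _ ≤ (∑ r ∈ R, (2 : ℝ) ^ r) * ∑ r ∈ R, (1152 * y ^ 2) * ((2 : ℝ) ^ r * Y.gg r) := by
        refine mul_le_mul_of_nonneg_left (Finset.sum_le_sum fun r hr => ?_) hg
        rw [hR, Finset.mem_filter] at hr
        have h1 := Y.dn_block' xs Ω hy r fun t ht => hM t (by
          have : 2 ^ (r + 1) = 2 * 2 ^ r := by ring
          omega)
        rw [div_le_iff₀ (by positivity)]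
        refine h1.trans (le_of_eq ?_)
        ring
    _ = (∑ r ∈ R, (2 : ℝ) ^ r) * ((1152 * y ^ 2) * Y.Sb N) := by
        rw [← Finset.mul_sum, Y.Sb_eq]
    _ ≤ (2 * N) * ((1152 * y ^ 2) * Y.Sb N) := by
        refine mul_le_mul_of_nonneg_right (geom_le N) ?_
        have := Y.Sb_nonneg N
        positivity
    _ = _ := by ring

end

theorem l2_main {K B : ℝ} (hY : Y.Crit K B) (xs : V →+ ℝ) {v N : ℕ} {y : ℝ} (hN : 1 ≤ N)
    (hy : 1 ≤ y) (hM : ∀ t, t ≤ 2 * N → Y.M xs t ≤ y * t) (d : V) :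
    (∑ s ∈ Icc 1 N, ∑ t ∈ Icc v N, Y.E s fun u => Y.E t fun w =>
      Y.X2 xs u * Y.sv u * Y.sv w * dl (Y.sm u + Y.sm w + d)) ≤ 2048 * y * Y.er v N := by
  set Ω := Y.Om N with hΩ
  set G : V → ℝ := fun x => Y.L (Icc v N) fun w => Y.sv w * dl (Y.sm w + -d - x) with hG
  have e1 : (∑ s ∈ Icc 1 N, ∑ t ∈ Icc v N, Y.E s fun u => Y.E t fun w =>
      Y.X2 xs u * Y.sv u * Y.sv w * dl (Y.sm u + Y.sm w + d)) =
      Y.L (Icc 1 N) fun u => Y.hx xs u * G (Y.sm u) := by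
    have : ∀ u : List S, Y.hx xs u * G (Y.sm u) = ∑ t ∈ Icc v N, Y.E t fun w =>
        Y.X2 xs u * Y.sv u * Y.sv w * dl (Y.sm u + Y.sm w + d) := by
      intro u
      rw [hG]
      simp only [L]
      rw [Finset.mul_sum]
      refine Finset.sum_congr rfl fun t _ => ?_
      rw [← E_mul_left, ← Y.E_neg t]
      refine Y.E_congr fun w _ => ?_
      rw [sv_neg, sm_neg]
      have : -Y.sm w + -d - Y.sm u = -(Y.sm u + Y.sm w + d) := by abel
      rw [this, dl_neg]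
      unfold hx
      ring
    simp only [this]
    unfold L
    refine Finset.sum_congr rfl fun s _ => ?_
    rw [E_fsum]
  have e2 : (Y.L (Icc 1 N) fun u => Y.hx xs u * G (Y.sm u)) =
      ∑ x ∈ Ω, Y.dn xs (Icc 1 N) x * G x := by
    unfold dn
    simp only [← L_mul_right]
    rw [← L_fsum]
    refine Y.L_congr fun u hu => ?_
    rw [Finset.mem_Icc] at hu
    have hmem : Y.sm u ∈ Ω := Y.mem_Om hu.2
    have := sum_dl_eq hmem fun x => Y.hx xs u * G x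
    rw [← this]
    exact Finset.sum_congr rfl fun x _ => by ring
  rw [e1, e2]
  have hNpos : (0 : ℝ) < N := by exact_mod_cast hN
  have hyN : 0 < y * N := by positivity
  have h1 := Y.dn_all xs Ω hy hM
  have h2 : ∑ x ∈ Ω, G x ^ 2 ≤ Y.H v N := by
    refine (Y.gam Ω (Icc v N) (-d)).trans ?_
    unfold H
    have hsub : Icc v N ⊆ range (N + 1) := fun s hs => by
      rw [Finset.mem_Icc] at hs
      rw [Finset.mem_range]
      omega
    have h0 : ∀ s t, 0 ≤ (if v ≤ max s t then Y.b s t else 0) := fun s t => by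
      split_ifs
      · exact Y.b_nonneg s t
      · exact le_rfl
    calc ∑ s ∈ Icc v N, ∑ t ∈ Icc v N, Y.b s t = ∑ s ∈ Icc v N, ∑ t ∈ Icc v N,
          (if v ≤ max s t then Y.b s t else 0) := by
          refine Finset.sum_congr rfl fun s hs => Finset.sum_congr rfl fun t _ => ?_
          rw [Finset.mem_Icc] at hs
          rw [if_pos (le_trans hs.1 (le_max_left _ _))]
      _ ≤ ∑ s ∈ Icc v N, ∑ t ∈ range (N + 1), (if v ≤ max s t then Y.b s t else 0) :=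
          Finset.sum_le_sum fun s _ => Finset.sum_le_sum_of_subset_of_nonneg hsub
            fun t _ _ => h0 s t
      _ ≤ _ := Finset.sum_le_sum_of_subset_of_nonneg hsub
            fun s _ _ => Finset.sum_nonneg fun t _ => h0 s t
  have h3 : 2 * (y * N) * ∑ x ∈ Ω, Y.dn xs (Icc 1 N) x * G x ≤
      (y * N) ^ 2 * (∑ x ∈ Ω, G x ^ 2) + ∑ x ∈ Ω, Y.dn xs (Icc 1 N) x ^ 2 := by
    rw [Finset.mul_sum, Finset.mul_sum, ← Finset.sum_add_distrib]
    refine Finset.sum_le_sum fun x _ => ?_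
    nlinarith [sq_nonneg ((y * N) * G x - Y.dn xs (Icc 1 N) x)]
  have h4 : 2 * (y * N) * ∑ x ∈ Ω, Y.dn xs (Icc 1 N) x * G x ≤
      (2 * (y * N)) * (2048 * y * Y.er v N) := by
    refine h3.trans ?_
    have h5 := mul_le_mul_of_nonneg_left h2 (sq_nonneg (y * N))
    have h6 := Y.H_nonneg v N
    have h7 := Y.Sb_nonneg N
    unfold er
    have h8 : 0 ≤ (y * N) ^ 2 * Y.H v N := by positivity
    have h9 : 0 ≤ N * y ^ 2 * Y.Sb N := by positivity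
    nlinarith
  exact le_of_mul_le_mul_left h4 (by positivity)

end Sys

end Pool.Agent.Bub4
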