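import Pool.Agent.Bub4.Hits
import Pool.Agent.Bub4.L2

/-!
# Weighted far hits
-/

set_option autoImplicit false

namespace Pool.Agent.Bub4

open Finset

namespace Sys

variable {S V : Type} [Fintype S] [AddCommGroup V] (Y : Sys S V)

namespace FarAux

/-- weight of the loops `β σ κ` with the weight `X2 β` -/
noncomputable def g (xs : V →+ ℝ) (s c t : ℕ) : ℝ :=
  Y.E s fun β => Y.E c fun σ => Y.E t fun κ =>
    Y.X2 xs β * Y.sv β * Y.sv σ * Y.sv κ * dl (Y.sm β + Y.sm σ + Y.sm κ)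

theorem X2nn (xs : V →+ ℝ) (w : List S) : 0 ≤ Y.X2 xs w := sq_nonneg _

theorem g_nonneg (xs : V →+ ℝ) (s c t : ℕ) : 0 ≤ g Y xs s c t :=
  Y.E_nonneg' fun _ => Y.E_nonneg' fun _ => Y.E_nonneg' fun _ =>
    mul_nonneg (mul_nonneg (mul_nonneg (mul_nonneg (X2nn Y xs _) (Y.sv_nonneg _))
      (Y.sv_nonneg _)) (Y.sv_nonneg _)) (dl_nonneg _)

theorem Mnn (xs : V →+ ℝ) (n : ℕ) : 0 ≤ Y.M xs n :=
  Y.E_nonneg' fun _ => mul_nonneg (Y.sv_nonneg _) (X2nn Y xs _)

theorem Hnn (v N : ℕ) : 0 ≤ Y.H v N :=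
  Finset.sum_nonneg fun s _ => Finset.sum_nonneg fun t _ => by
    split_ifs
    · exact Y.b_nonneg s t
    · exact le_rfl

theorem Sbnn (N : ℕ) : 0 ≤ Y.Sb N := by
  have hg : ∀ r, 0 ≤ Y.gb r := fun r => Finset.sum_nonneg fun s _ =>
    Finset.sum_nonneg fun t _ => Y.b_nonneg s t
  refine Finset.sum_nonneg fun r _ => ?_
  split_ifs
  · positivity
  · have h1 := hg (r - 2)
    have h2 := hg (r - 1)
    have h3 := hg r
    positivity
  · exact le_rfl

theorem er_ge (v N : ℕ) : N * Y.H v N ≤ Y.er v N := by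
  unfold er
  have := Sbnn Y N
  linarith

theorem ernn (v N : ℕ) : 0 ≤ Y.er v N :=
  (mul_nonneg (Nat.cast_nonneg N) (Hnn Y v N)).trans (er_ge Y v N)

/-- `X2 (u ++ w) ≤ 2 X2 u + 2 X2 w` -/
theorem X2_app (xs : V →+ ℝ) (u w : List S) :
    Y.X2 xs (u ++ w) ≤ 2 * Y.X2 xs u + 2 * Y.X2 xs w := by
  unfold X2
  rw [sm_append, map_add]
  nlinarith [sq_nonneg (xs (Y.sm u) - xs (Y.sm w))]

variable {Y} in
theorem termA {K B : ℝ} (hY : Y.Crit K B) (xs : V →+ ℝ) {i c n s t : ℕ} (hs : s ≤ c) :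
    (Y.E (i + c - s) fun α => Y.E s fun β => Y.E t fun κ => Y.E (n - t) fun δ =>
      (Y.X2 xs ((α ++ β).take i) * Y.sv (α ++ β) * Y.sv (κ ++ δ)) * dl (Y.sm β + Y.sm κ)) ≤
    K ^ 2 * Y.M xs i * Y.b s t := by
  have hK := hY.K_pos
  have e1 : i + c - s = i + (c - s) := by omega
  rw [e1, E_add]
  have h1 : (Y.E i fun α1 => Y.E (c - s) fun α2 => Y.E s fun β => Y.E t fun κ =>
      Y.E (n - t) fun δ => (Y.X2 xs (((α1 ++ α2) ++ β).take i) * Y.sv ((α1 ++ α2) ++ β) *
        Y.sv (κ ++ δ)) * dl (Y.sm β + Y.sm κ)) ≤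
      Y.E i fun α1 => Y.E (c - s) fun α2 => Y.E s fun β => Y.E t fun κ => Y.E (n - t) fun δ =>
        (Y.sv α1 * Y.X2 xs α1) *
          (Y.sv α2 * ((Y.sv β * Y.sv κ * dl (Y.sm β + Y.sm κ)) * Y.sv δ)) := by
    refine Y.E_mono fun α1 hα1 => Y.E_mono fun α2 _ => Y.E_mono fun β _ => Y.E_mono fun κ _ =>
      Y.E_mono fun δ _ => ?_
    have htake : ((α1 ++ α2) ++ β).take i = α1 := by
      rw [List.append_assoc, List.take_left' hα1]
    rw [htake]
    have h2 : Y.sv ((α1 ++ α2) ++ β) ≤ Y.sv α1 * Y.sv α2 * Y.sv β :=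
      (Y.sv_append_le _ _).trans
        (mul_le_mul_of_nonneg_right (Y.sv_append_le _ _) (Y.sv_nonneg _))
    have h3 := Y.sv_append_le κ δ
    have h4 := Y.sv_nonneg (κ ++ δ)
    have h5 : 0 ≤ Y.sv α1 * Y.sv α2 * Y.sv β :=
      mul_nonneg (mul_nonneg (Y.sv_nonneg _) (Y.sv_nonneg _)) (Y.sv_nonneg _)
    have h6 := dl_nonneg (Y.sm β + Y.sm κ)
    have h7 := X2nn Y xs α1
    calc Y.X2 xs α1 * Y.sv ((α1 ++ α2) ++ β) * Y.sv (κ ++ δ) * dl (Y.sm β + Y.sm κ)
        = Y.X2 xs α1 * (Y.sv ((α1 ++ α2) ++ β) * Y.sv (κ ++ δ)) * dl (Y.sm β + Y.sm κ) := by ring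
      _ ≤ Y.X2 xs α1 * ((Y.sv α1 * Y.sv α2 * Y.sv β) * (Y.sv κ * Y.sv δ)) *
          dl (Y.sm β + Y.sm κ) :=
          mul_le_mul_of_nonneg_right (mul_le_mul_of_nonneg_left (mul_le_mul h2 h3 h4 h5) h7) h6
      _ = _ := by ring
  refine h1.trans ?_
  simp only [E_mul_left, E_mul_right]
  have h7 := Y.b_nonneg s t
  have h8 := hY.a_le (c - s)
  have h9 := hY.a_le (n - t)
  have h10 := Y.a_nonneg (c - s)
  have h11 := Y.a_nonneg (n - t)
  have hM := Mnn Y xs i
  have h12 : Y.M xs i * (Y.a (c - s) * (Y.b s t * Y.a (n - t))) ≤ K ^ 2 * Y.M xs i * Y.b s t := by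
    calc Y.M xs i * (Y.a (c - s) * (Y.b s t * Y.a (n - t))) ≤ Y.M xs i * (K * (Y.b s t * K)) :=
          mul_le_mul_of_nonneg_left
            (mul_le_mul h8 (mul_le_mul_of_nonneg_left h9 h7) (mul_nonneg h7 h11) hK.le) hM
      _ = _ := by ring
  exact h12

variable {Y} in
theorem termB {K B : ℝ} (hY : Y.Crit K B) (xs : V →+ ℝ) {i c n s t : ℕ} (hs : s ≤ i) :
    (Y.E (i + c - (s + c)) fun α => Y.E (s + c) fun β => Y.E t fun κ => Y.E (n - t) fun δ =>
      (Y.X2 xs ((α ++ β).take i) * Y.sv (α ++ β) * Y.sv (κ ++ δ)) * dl (Y.sm β + Y.sm κ)) ≤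
    2 * K * Y.M xs (i - s) * Y.b (s + c) t + 2 * K ^ 2 * g Y xs s c t := by
  have hK := hY.K_pos
  have e1 : i + c - (s + c) = i - s := by omega
  rw [e1]
  have h1 : (Y.E (i - s) fun α => Y.E (s + c) fun β => Y.E t fun κ => Y.E (n - t) fun δ =>
      (Y.X2 xs ((α ++ β).take i) * Y.sv (α ++ β) * Y.sv (κ ++ δ)) * dl (Y.sm β + Y.sm κ)) ≤
      Y.E (i - s) fun α => Y.E (s + c) fun β => Y.E t fun κ => Y.E (n - t) fun δ =>
      2 * ((Y.sv α * Y.X2 xs α) * ((Y.sv β * Y.sv κ * dl (Y.sm β + Y.sm κ)) * Y.sv δ)) +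
      2 * (Y.sv α * ((Y.X2 xs (β.take s) * Y.sv (β.take s) * Y.sv (β.drop s) * Y.sv κ *
        dl (Y.sm (β.take s) + Y.sm (β.drop s) + Y.sm κ)) * Y.sv δ)) := by
    refine Y.E_mono fun α hα => Y.E_mono fun β hβ => Y.E_mono fun κ _ => Y.E_mono fun δ _ => ?_
    have htake : (α ++ β).take i = α ++ β.take s := by
      rw [List.take_append, hα, List.take_of_length_le (by omega)]
      congr 2
      omega
    have hsm : Y.sm (β.take s) + Y.sm (β.drop s) = Y.sm β := by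
      rw [← sm_append, List.take_append_drop]
    have hsv : Y.sv β ≤ Y.sv (β.take s) * Y.sv (β.drop s) := by
      have := Y.sv_append_le (β.take s) (β.drop s)
      rwa [List.take_append_drop] at this
    rw [htake, hsm]
    have h2 : Y.sv (α ++ β) ≤ Y.sv α * Y.sv β := Y.sv_append_le _ _
    have h3 := Y.sv_append_le κ δ
    have h4 := Y.sv_nonneg (κ ++ δ)
    have h5 : 0 ≤ Y.sv α * Y.sv β := mul_nonneg (Y.sv_nonneg _) (Y.sv_nonneg _)
    have h6 := dl_nonneg (Y.sm β + Y.sm κ)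
    have h7 := X2nn Y xs (α ++ β.take s)
    have h8 := X2_app Y xs α (β.take s)
    have h9 : 0 ≤ (Y.sv α * Y.sv β) * (Y.sv κ * Y.sv δ) :=
      mul_nonneg h5 (mul_nonneg (Y.sv_nonneg _) (Y.sv_nonneg _))
    have h10 := X2nn Y xs (β.take s)
    have h11 : 0 ≤ Y.sv α * (Y.X2 xs (β.take s) * Y.sv κ * dl (Y.sm β + Y.sm κ)) * Y.sv δ :=
      mul_nonneg (mul_nonneg (Y.sv_nonneg _) (mul_nonneg (mul_nonneg h10 (Y.sv_nonneg _)) h6))
        (Y.sv_nonneg _)
    calc Y.X2 xs (α ++ β.take s) * Y.sv (α ++ β) * Y.sv (κ ++ δ) * dl (Y.sm β + Y.sm κ)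
        = Y.X2 xs (α ++ β.take s) * (Y.sv (α ++ β) * Y.sv (κ ++ δ)) * dl (Y.sm β + Y.sm κ) := by
          ring
      _ ≤ Y.X2 xs (α ++ β.take s) * ((Y.sv α * Y.sv β) * (Y.sv κ * Y.sv δ)) *
          dl (Y.sm β + Y.sm κ) :=
          mul_le_mul_of_nonneg_right (mul_le_mul_of_nonneg_left (mul_le_mul h2 h3 h4 h5) h7) h6
      _ ≤ (2 * Y.X2 xs α + 2 * Y.X2 xs (β.take s)) * ((Y.sv α * Y.sv β) * (Y.sv κ * Y.sv δ)) *
          dl (Y.sm β + Y.sm κ) :=
          mul_le_mul_of_nonneg_right (mul_le_mul_of_nonneg_right h8 h9) h6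
      _ = 2 * ((Y.sv α * Y.X2 xs α) * ((Y.sv β * Y.sv κ * dl (Y.sm β + Y.sm κ)) * Y.sv δ)) +
          2 * (Y.sv β * (Y.sv α * (Y.X2 xs (β.take s) * Y.sv κ * dl (Y.sm β + Y.sm κ)) *
            Y.sv δ)) := by ring
      _ ≤ 2 * ((Y.sv α * Y.X2 xs α) * ((Y.sv β * Y.sv κ * dl (Y.sm β + Y.sm κ)) * Y.sv δ)) +
          2 * ((Y.sv (β.take s) * Y.sv (β.drop s)) *
            (Y.sv α * (Y.X2 xs (β.take s) * Y.sv κ * dl (Y.sm β + Y.sm κ)) * Y.sv δ)) := by
          have := mul_le_mul_of_nonneg_right hsv h11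
          linarith
      _ = _ := by ring
  refine h1.trans ?_
  simp only [E_fadd]
  refine add_le_add ?_ ?_
  · simp only [E_mul_left, E_mul_right]
    have h7 := Y.b_nonneg (s + c) t
    have h9 := hY.a_le (n - t)
    have hM := Mnn Y xs (i - s)
    have h12 : 2 * (Y.M xs (i - s) * (Y.b (s + c) t * Y.a (n - t))) ≤
        2 * K * Y.M xs (i - s) * Y.b (s + c) t := by
      have := mul_le_mul_of_nonneg_left (mul_le_mul_of_nonneg_left h9 h7) hM
      linarith
    exact h12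
  · have h13 : (Y.E (i - s) fun α => Y.E (s + c) fun β => Y.E t fun κ => Y.E (n - t) fun δ =>
        2 * (Y.sv α * ((Y.X2 xs (β.take s) * Y.sv (β.take s) * Y.sv (β.drop s) * Y.sv κ *
        dl (Y.sm (β.take s) + Y.sm (β.drop s) + Y.sm κ)) * Y.sv δ))) =
        2 * (Y.a (i - s) * (g Y xs s c t * Y.a (n - t))) := by
      simp only [E_mul_left, E_mul_right]
      have h14 : (Y.E (s + c) fun β => Y.E t fun κ =>
          Y.X2 xs (β.take s) * Y.sv (β.take s) * Y.sv (β.drop s) * Y.sv κ *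
            dl (Y.sm (β.take s) + Y.sm (β.drop s) + Y.sm κ)) = g Y xs s c t := by
        rw [E_add]
        unfold g
        refine Y.E_congr fun β hβ => Y.E_congr fun σ _ => ?_
        rw [List.take_left' hβ, List.drop_left' hβ]
      rw [h14]
      rfl
    rw [h13]
    have hg := g_nonneg Y xs s c t
    have h15 : Y.a (i - s) * (g Y xs s c t * Y.a (n - t)) ≤ K * (g Y xs s c t * K) :=
      mul_le_mul (hY.a_le _) (mul_le_mul_of_nonneg_left (hY.a_le _) hg)
        (mul_nonneg hg (Y.a_nonneg _)) hK.le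
    linarith

variable {Y} in
/-- far hits with the weight of an initial factor -/
theorem far_take {K B : ℝ} (hY : Y.Crit K B) (xs : V →+ ℝ) {v i c n N : ℕ} {y : ℝ}
    (hy : 1 ≤ y) (hM : ∀ t, t ≤ 2 * N → Y.M xs t ≤ y * t) (hi : i + c ≤ N) (hn : n ≤ N) :
    (Y.E i fun ξ => Y.E c fun κ => Y.E n fun r =>
      Y.X2 xs ξ * Y.sv (ξ ++ κ) * Y.sv r * Y.ht v (ξ ++ κ) r) ≤
      2 * K ^ 2 * y * (N * Y.H v N) +
        2 * K ^ 2 * ∑ s ∈ Icc 1 i, ∑ t ∈ Icc 1 n, if v < max (s + c) t then g Y xs s c t else 0 := by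
  have hK := hY.K_pos
  have hK1 := hY.one_le_K
  have hMN : ∀ t, t ≤ N → Y.M xs t ≤ y * N := by
    intro t ht
    refine (hM t (by omega)).trans ?_
    have : (t : ℝ) ≤ N := by exact_mod_cast ht
    exact mul_le_mul_of_nonneg_left this (by linarith)
  have h0 : (Y.E i fun ξ => Y.E c fun κ => Y.E n fun r =>
      Y.X2 xs ξ * Y.sv (ξ ++ κ) * Y.sv r * Y.ht v (ξ ++ κ) r) =
      Y.E (i + c) fun l => Y.E n fun r =>
        (Y.X2 xs (l.take i) * Y.sv l * Y.sv r) * Y.ht v l r := by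
    rw [E_add]
    refine Y.E_congr fun ξ hξ => Y.E_congr fun κ _ => ?_
    rw [List.take_left' hξ]
  rw [h0, Y.ht_expand v (i + c) n (fun l r => Y.X2 xs (l.take i) * Y.sv l * Y.sv r)]
  have hNy : (0 : ℝ) ≤ y * N := mul_nonneg (by linarith) (Nat.cast_nonneg N)
  have hKK : K ≤ K ^ 2 := by nlinarith
  -- termwise bound
  have hterm : ∀ s ∈ Icc 1 (i + c), ∀ t ∈ Icc 1 n,
      (if v < max s t then
        Y.E (i + c - s) fun α => Y.E s fun β => Y.E t fun κ => Y.E (n - t) fun δ =>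
          (Y.X2 xs ((α ++ β).take i) * Y.sv (α ++ β) * Y.sv (κ ++ δ)) * dl (Y.sm β + Y.sm κ)
        else 0) ≤ 2 * K ^ 2 * (y * N) * (if v ≤ max s t then Y.b s t else 0) +
        (if c < s then (if v < max s t then 2 * K ^ 2 * g Y xs (s - c) c t else 0) else 0) := by
    intro s hs t _
    rw [Finset.mem_Icc] at hs
    have hb := Y.b_nonneg s t
    by_cases hv : v < max s t
    · rw [if_pos hv, if_pos hv, if_pos hv.le]
      by_cases hc : c < s
      · rw [if_pos hc]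
        obtain ⟨s', rfl⟩ : ∃ s', s = s' + c := ⟨s - c, by omega⟩
        have h1 := termB hY xs (i := i) (c := c) (n := n) (s := s') (t := t) (by omega)
        rw [show s' + c - c = s' by omega]
        refine h1.trans ?_
        have h2 := hMN (i - s') (by omega)
        have h3 : 2 * K * Y.M xs (i - s') * Y.b (s' + c) t ≤
            2 * K ^ 2 * (y * N) * Y.b (s' + c) t := by
          refine mul_le_mul_of_nonneg_right ?_ hb
          have h4 : K * Y.M xs (i - s') ≤ K ^ 2 * (y * N) :=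
            mul_le_mul hKK h2 (Mnn Y xs _) (by positivity)
          linarith
        linarith
      · rw [if_neg hc, add_zero]
        have h1 := termA hY xs (i := i) (c := c) (n := n) (s := s) (t := t) (by omega)
        refine h1.trans ?_
        refine mul_le_mul_of_nonneg_right ?_ hb
        have h2 := hMN i (by omega)
        have h4 : K ^ 2 * Y.M xs i ≤ K ^ 2 * (y * N) :=
          mul_le_mul_of_nonneg_left h2 (by positivity)
        have h5 : 0 ≤ K ^ 2 * (y * N) := by positivity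
        linarith
    · rw [if_neg hv, if_neg hv]
      have h1 : 0 ≤ 2 * K ^ 2 * (y * N) * (if v ≤ max s t then Y.b s t else 0) := by
        refine mul_nonneg (by positivity) ?_
        split_ifs
        · exact hb
        · exact le_rfl
      simpa using h1
  refine (Finset.sum_le_sum fun s hs => Finset.sum_le_sum fun t ht => hterm s hs t ht).trans ?_
  simp only [Finset.sum_add_distrib]
  refine add_le_add ?_ ?_
  · simp only [← Finset.mul_sum]
    have h1 : ∑ s ∈ Icc 1 (i + c), ∑ t ∈ Icc 1 n, (if v ≤ max s t then Y.b s t else 0) ≤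
        Y.H v N := by
      unfold H
      have hnn : ∀ s t, 0 ≤ (if v ≤ max s t then Y.b s t else 0) := by
        intro s t
        split_ifs
        · exact Y.b_nonneg s t
        · exact le_rfl
      refine le_trans (Finset.sum_le_sum (g := fun s => ∑ t ∈ range (N + 1),
        if v ≤ max s t then Y.b s t else 0) fun s _ => ?_)
        (Finset.sum_le_sum_of_subset_of_nonneg ?_ fun s _ _ =>
          Finset.sum_nonneg fun t _ => hnn s t)
      · refine Finset.sum_le_sum_of_subset_of_nonneg ?_ fun t _ _ => hnn s t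
        intro t ht
        rw [Finset.mem_Icc] at ht
        exact Finset.mem_range.2 (by omega)
      · intro s hs
        rw [Finset.mem_Icc] at hs
        exact Finset.mem_range.2 (by omega)
    have h2 := mul_le_mul_of_nonneg_left h1 (show (0 : ℝ) ≤ 2 * K ^ 2 * (y * N) by positivity)
    linarith
  · -- reindex
    have h1 : ∑ s ∈ Icc 1 (i + c), ∑ t ∈ Icc 1 n,
        (if c < s then (if v < max s t then 2 * K ^ 2 * g Y xs (s - c) c t else 0) else 0) =
        ∑ s ∈ (Icc 1 i).map (addRightEmbedding c), ∑ t ∈ Icc 1 n,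
          (if c < s then (if v < max s t then 2 * K ^ 2 * g Y xs (s - c) c t else 0) else 0) := by
      symm
      refine Finset.sum_subset ?_ ?_
      · intro s hs
        rw [Finset.mem_map] at hs
        obtain ⟨s', hs', rfl⟩ := hs
        rw [Finset.mem_Icc] at hs' ⊢
        simp only [addRightEmbedding_apply]
        omega
      · intro s hs hs2
        have hcs : ¬ c < s := by
          intro hcs
          apply hs2
          rw [Finset.mem_map]
          rw [Finset.mem_Icc] at hs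
          exact ⟨s - c, Finset.mem_Icc.2 (by omega), by simp only [addRightEmbedding_apply]; omega⟩
        simp only [if_neg hcs, Finset.sum_const_zero]
    rw [h1, Finset.sum_map, Finset.mul_sum]
    refine le_of_eq (Finset.sum_congr rfl fun s hs => ?_)
    rw [Finset.mul_sum]
    refine Finset.sum_congr rfl fun t _ => ?_
    rw [Finset.mem_Icc] at hs
    simp only [addRightEmbedding_apply]
    rw [if_pos (by omega), show s + c - c = s by omega]
    split_ifs
    · rfl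
    · simp

theorem g_zero (xs : V →+ ℝ) (s t : ℕ) :
    g Y xs s 0 t = Y.E s fun u => Y.E t fun w =>
      Y.X2 xs u * Y.sv u * Y.sv w * dl (Y.sm u + Y.sm w + 0) := by
  unfold g
  refine Y.E_congr fun u _ => ?_
  rw [E_zero]
  refine Y.E_congr fun w _ => ?_
  simp

theorem g_zero_symm (xs : V →+ ℝ) (s t : ℕ) :
    g Y xs s 0 t = Y.E t fun u => Y.E s fun w =>
      Y.X2 xs u * Y.sv u * Y.sv w * dl (Y.sm u + Y.sm w + 0) := by
  rw [g_zero, E_comm]
  refine Y.E_congr fun u _ => Y.E_congr fun w _ => ?_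
  rw [add_zero, add_zero, add_comm (Y.sm w)]
  unfold X2
  have h1 := dl_subst (fun x : V => (xs x) ^ 2) (Y.sm w) (Y.sm u)
  simp only [map_neg, even_two, Even.neg_pow] at h1
  rw [add_comm (Y.sm w)] at h1
  calc xs (Y.sm w) ^ 2 * Y.sv w * Y.sv u * dl (Y.sm u + Y.sm w)
      = (xs (Y.sm w) ^ 2 * dl (Y.sm u + Y.sm w)) * (Y.sv w * Y.sv u) := by ring
    _ = (xs (Y.sm u) ^ 2 * dl (Y.sm u + Y.sm w)) * (Y.sv w * Y.sv u) := by rw [h1]
    _ = _ := by ring

end FarAux

open FarAux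

theorem far_left {K B : ℝ} (hY : Y.Crit K B) (xs : V →+ ℝ) {v m n N : ℕ} {y : ℝ} (hN : 1 ≤ N)
    (hy : 1 ≤ y) (hM : ∀ t, t ≤ 2 * N → Y.M xs t ≤ y * t) (hm : m ≤ N) (hn : n ≤ N) :
    (Y.E m fun l => Y.E n fun r => Y.X2 xs l * Y.sv l * Y.sv r * Y.ht v l r) ≤
      10000 * K ^ 2 * y * Y.er v N := by
  have hK := hY.K_pos
  have h0 : (Y.E m fun l => Y.E n fun r => Y.X2 xs l * Y.sv l * Y.sv r * Y.ht v l r) =
      Y.E m fun ξ => Y.E 0 fun κ => Y.E n fun r =>
        Y.X2 xs ξ * Y.sv (ξ ++ κ) * Y.sv r * Y.ht v (ξ ++ κ) r := by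
    refine Y.E_congr fun l _ => ?_
    rw [E_zero, List.append_nil]
  rw [h0]
  refine (far_take hY xs hy hM (c := 0) (by omega) hn).trans ?_
  have hnn : ∀ s t, 0 ≤ g Y xs s 0 t := fun s t => g_nonneg Y xs s 0 t
  have h1 : ∑ s ∈ Icc 1 m, ∑ t ∈ Icc 1 n, (if v < max (s + 0) t then g Y xs s 0 t else 0) ≤
      (∑ s ∈ Icc 1 N, ∑ t ∈ Icc v N, g Y xs s 0 t) +
      ∑ s ∈ Icc v N, ∑ t ∈ Icc 1 N, g Y xs s 0 t := by
    have h2 : ∑ s ∈ Icc 1 m, ∑ t ∈ Icc 1 n, (if v < max (s + 0) t then g Y xs s 0 t else 0) ≤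
        ∑ s ∈ Icc 1 m, ∑ t ∈ Icc 1 n, ((if v ≤ t then g Y xs s 0 t else 0) +
          (if v ≤ s then g Y xs s 0 t else 0)) := by
      refine Finset.sum_le_sum fun s _ => Finset.sum_le_sum fun t _ => ?_
      have h3 := hnn s t
      by_cases hv : v < max (s + 0) t
      · rw [if_pos hv]
        rcases lt_max_iff.1 hv with h | h
        · rw [if_pos (show v ≤ s by omega)]
          split_ifs <;> linarith
        · rw [if_pos h.le]
          split_ifs <;> linarith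
      · rw [if_neg hv]
        split_ifs <;> linarith
    refine h2.trans ?_
    simp only [Finset.sum_add_distrib]
    refine add_le_add ?_ ?_
    · simp only [← Finset.sum_filter]
      refine le_trans (Finset.sum_le_sum (g := fun s => ∑ t ∈ Icc v N, g Y xs s 0 t)
        fun s _ => ?_) (Finset.sum_le_sum_of_subset_of_nonneg ?_ fun s _ _ =>
          Finset.sum_nonneg fun t _ => hnn s t)
      · refine Finset.sum_le_sum_of_subset_of_nonneg ?_ fun t _ _ => hnn s t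
        intro t ht
        rw [Finset.mem_filter, Finset.mem_Icc] at ht
        exact Finset.mem_Icc.2 (by omega)
      · exact Finset.Icc_subset_Icc le_rfl hm
    · have h4 : ∀ s, ∑ t ∈ Icc 1 n, (if v ≤ s then g Y xs s 0 t else 0) =
          if v ≤ s then ∑ t ∈ Icc 1 n, g Y xs s 0 t else 0 := by
        intro s
        split_ifs
        · rfl
        · simp
      simp only [h4]
      rw [← Finset.sum_filter]
      refine le_trans (Finset.sum_le_sum (g := fun s => ∑ t ∈ Icc 1 N, g Y xs s 0 t)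
        fun s _ => ?_) (Finset.sum_le_sum_of_subset_of_nonneg ?_ fun s _ _ =>
          Finset.sum_nonneg fun t _ => hnn s t)
      · exact Finset.sum_le_sum_of_subset_of_nonneg (Finset.Icc_subset_Icc le_rfl hn)
          fun t _ _ => hnn s t
      · intro s hs
        rw [Finset.mem_filter, Finset.mem_Icc] at hs
        exact Finset.mem_Icc.2 (by omega)
  have h5 : ∑ s ∈ Icc 1 N, ∑ t ∈ Icc v N, g Y xs s 0 t ≤ 2048 * y * Y.er v N := by
    have := Y.l2_main hY xs hN hy hM (v := v) 0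
    simp only [g_zero]
    exact this
  have h6 : ∑ s ∈ Icc v N, ∑ t ∈ Icc 1 N, g Y xs s 0 t ≤ 2048 * y * Y.er v N := by
    have := Y.l2_main hY xs hN hy hM (v := v) 0
    rw [Finset.sum_comm]
    simp only [g_zero_symm]
    exact this
  have h7 : 2 * K ^ 2 * y * (N * Y.H v N) ≤ 2 * K ^ 2 * y * Y.er v N :=
    mul_le_mul_of_nonneg_left (er_ge Y v N) (by positivity)
  have h8 := mul_le_mul_of_nonneg_left (h1.trans (add_le_add h5 h6))
    (show (0 : ℝ) ≤ 2 * K ^ 2 by positivity)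
  have h9 : 0 ≤ K ^ 2 * y * Y.er v N := by
    have := ernn Y v N
    positivity
  nlinarith [h7, h8, h9]

theorem far_right {K B : ℝ} (hY : Y.Crit K B) (xs : V →+ ℝ) {v m n N : ℕ} {y : ℝ} (hN : 1 ≤ N)
    (hy : 1 ≤ y) (hM : ∀ t, t ≤ 2 * N → Y.M xs t ≤ y * t) (hm : m ≤ N) (hn : n ≤ N) :
    (Y.E m fun l => Y.E n fun r => Y.X2 xs r * Y.sv l * Y.sv r * Y.ht v l r) ≤
      10000 * K ^ 2 * y * Y.er v N := by
  have hrev : ∀ w : List S, Y.X2 xs w.reverse = Y.X2 xs w := by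
    intro w
    unfold X2
    rw [sm_reverse]
  have h0 : (Y.E m fun l => Y.E n fun r => Y.X2 xs r * Y.sv l * Y.sv r * Y.ht v l r) =
      Y.E n fun l => Y.E m fun r => Y.X2 xs l * Y.sv l * Y.sv r * Y.ht v l r := by
    rw [E_comm]
    rw [← Y.E_reverse n (fun l => Y.E m fun r => Y.X2 xs l * Y.sv l * Y.sv r * Y.ht v l r)]
    refine Y.E_congr fun r _ => ?_
    rw [← Y.E_reverse m
      (fun r' => Y.X2 xs r.reverse * Y.sv r.reverse * Y.sv r' * Y.ht v r.reverse r')]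
    refine Y.E_congr fun l _ => ?_
    rw [hrev, sv_reverse, sv_reverse, ht_reverse]
    ring
  rw [h0]
  exact Y.far_left hY xs hN hy hM hn hm

theorem ce_one {K B : ℝ} (hY : Y.Crit K B) {p : Law} {i v j m0 N : ℕ} (hp : p.Le m0)
    (h1 : i + m0 + v ≤ N) (h2 : 16 * v + j ≤ N) :
    Y.ce (fun _ => 1) p i v j ≤ K ^ 2 * Y.H v N := by
  have h3 : Y.ce (fun _ => 1) p i v j ≤ Y.E i fun ξ => p.ex fun m => Y.E m fun γ =>
      Y.E v fun σ => (P v).ex fun m' => Y.E m' fun γ' => Y.E j fun η =>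
        Y.sv (ξ ++ γ ++ σ) * Y.sv (γ' ++ η) * Y.ht v (ξ ++ γ ++ σ) (γ' ++ η) := by
    unfold ce
    refine Y.E_mono fun ξ _ => p.ex_mono fun m => Y.E_mono fun γ _ => Y.E_mono fun σ hσ =>
      (P v).ex_mono fun m' => Y.E_mono fun γ' _ => Y.E_mono fun η _ => ?_
    have := Y.hit_right v (ξ ++ γ) σ (γ' ++ η) (by rw [hσ])
    simp only [List.append_assoc] at this ⊢
    linarith
  refine h3.trans ?_
  rw [E_ex]
  refine p.ex_le' fun a => ?_
  have ha : p.len a ≤ m0 := hp a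
  have h4 : (Y.E i fun ξ => Y.E (p.len a) fun γ =>
      Y.E v fun σ => (P v).ex fun m' => Y.E m' fun γ' => Y.E j fun η =>
        Y.sv (ξ ++ γ ++ σ) * Y.sv (γ' ++ η) * Y.ht v (ξ ++ γ ++ σ) (γ' ++ η)) =
      (P v).ex fun m' => Y.E (i + p.len a + v) fun l => Y.E (m' + j) fun r =>
        Y.sv l * Y.sv r * Y.ht v l r := by
    rw [← E_ex, E_add, E_add]
    refine Y.E_congr fun ξ _ => Y.E_congr fun γ _ => Y.E_congr fun σ _ =>
      (P v).ex_congr fun m' => ?_
    rw [E_add]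
  rw [h4]
  refine (P v).ex_le' fun c => ?_
  have hc : (P v).len c ≤ 16 * v := by
    have := Law.le_unif (x := 6 * v) (y := 10 * v) (N := 16 * v) (by omega) c
    exact this
  exact Y.far_one hY (by omega) (by omega)

theorem ce_X2 {K B : ℝ} (hY : Y.Crit K B) (xs : V →+ ℝ) {p : Law} {i v j m0 N : ℕ} {y Dn D : ℝ}
    (hN : 1 ≤ N) (hy : 1 ≤ y) (hM : ∀ t, t ≤ 2 * N → Y.M xs t ≤ y * t) (hp : p.Le m0)
    (hDn : 0 ≤ Dn) (hpD : p.Dens Dn) (hD : Dn * N ≤ D)
    (h1 : i + m0 + v ≤ N) (h2 : 16 * v + j ≤ N) :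
    Y.ce (Y.X2 xs) p i v j ≤ 5000 * K ^ 3 * (1 + D) * y * Y.er v N := by
  have hK := hY.K_pos
  have hK1 := hY.one_le_K
  have hernn := ernn Y v N
  have h3 : Y.ce (Y.X2 xs) p i v j ≤ Y.E i fun ξ => p.ex fun m => Y.E m fun γ =>
      Y.E v fun σ => (P v).ex fun m' => Y.E m' fun γ' => Y.E j fun η =>
        Y.X2 xs ξ * Y.sv (ξ ++ (γ ++ σ)) * Y.sv (γ' ++ η) * Y.ht v (ξ ++ (γ ++ σ)) (γ' ++ η) := by
    unfold ce
    refine Y.E_mono fun ξ _ => p.ex_mono fun m => Y.E_mono fun γ _ => Y.E_mono fun σ hσ =>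
      (P v).ex_mono fun m' => Y.E_mono fun γ' _ => Y.E_mono fun η _ => ?_
    have h4 := Y.hit_right v (ξ ++ γ) σ (γ' ++ η) (by rw [hσ])
    have h5 := mul_le_mul_of_nonneg_left h4 (X2nn Y xs ξ)
    simp only [List.append_assoc] at h5 ⊢
    linarith
  refine h3.trans ?_
  rw [E_ex]
  -- the bound for each `m`
  have h6 : (p.ex fun m => Y.E i fun ξ => Y.E m fun γ =>
      Y.E v fun σ => (P v).ex fun m' => Y.E m' fun γ' => Y.E j fun η =>
        Y.X2 xs ξ * Y.sv (ξ ++ (γ ++ σ)) * Y.sv (γ' ++ η) *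
          Y.ht v (ξ ++ (γ ++ σ)) (γ' ++ η)) ≤
      p.ex fun m => 2 * K ^ 2 * y * (N * Y.H v N) +
        2 * K ^ 2 * ∑ t ∈ Icc 1 N, ∑ s ∈ Icc 1 N, g Y xs s (m + v) t := by
    refine p.ex_mono' fun a => ?_
    have ha : p.len a ≤ m0 := hp a
    have h4 : (Y.E i fun ξ => Y.E (p.len a) fun γ =>
        Y.E v fun σ => (P v).ex fun m' => Y.E m' fun γ' => Y.E j fun η =>
          Y.X2 xs ξ * Y.sv (ξ ++ (γ ++ σ)) * Y.sv (γ' ++ η) *
            Y.ht v (ξ ++ (γ ++ σ)) (γ' ++ η)) =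
        (P v).ex fun m' => Y.E i fun ξ => Y.E (p.len a + v) fun κ => Y.E (m' + j) fun r =>
          Y.X2 xs ξ * Y.sv (ξ ++ κ) * Y.sv r * Y.ht v (ξ ++ κ) r := by
      rw [← E_ex]
      refine Y.E_congr fun ξ _ => ?_
      rw [← E_ex, E_add]
      refine Y.E_congr fun γ _ => Y.E_congr fun σ _ => (P v).ex_congr fun m' => ?_
      rw [E_add]
    rw [h4]
    refine (P v).ex_le' fun c => ?_
    have hc : (P v).len c ≤ 16 * v := by
      have := Law.le_unif (x := 6 * v) (y := 10 * v) (N := 16 * v) (by omega) c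
      exact this
    refine (far_take hY xs hy hM (v := v) (i := i) (c := p.len a + v) (n := (P v).len c + j)
      (N := N) (by omega) (by omega)).trans ?_
    have h7 : ∑ s ∈ Icc 1 i, ∑ t ∈ Icc 1 ((P v).len c + j),
        (if v < max (s + (p.len a + v)) t then g Y xs s (p.len a + v) t else 0) ≤
        ∑ t ∈ Icc 1 N, ∑ s ∈ Icc 1 N, g Y xs s (p.len a + v) t := by
      rw [Finset.sum_comm]
      have hnn : ∀ s t, 0 ≤ g Y xs s (p.len a + v) t := fun s t => g_nonneg Y xs _ _ _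
      refine le_trans (Finset.sum_le_sum (g := fun t => ∑ s ∈ Icc 1 N, g Y xs s (p.len a + v) t)
        fun t _ => ?_) (Finset.sum_le_sum_of_subset_of_nonneg
          (Finset.Icc_subset_Icc le_rfl (by omega)) fun t _ _ =>
          Finset.sum_nonneg fun s _ => hnn s t)
      refine le_trans (Finset.sum_le_sum (g := fun s => g Y xs s (p.len a + v) t) fun s _ => ?_)
        (Finset.sum_le_sum_of_subset_of_nonneg
          (Finset.Icc_subset_Icc le_rfl (by omega)) fun s _ _ => hnn s t)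
      split_ifs
      · exact le_rfl
      · exact hnn s t
    have h8 := mul_le_mul_of_nonneg_left h7 (show (0 : ℝ) ≤ 2 * K ^ 2 by positivity)
    linarith
  refine h6.trans ?_
  rw [Law.ex_add, Law.ex_const, Law.ex_mul_left]
  -- the density bound
  have h9 : (p.ex fun m => ∑ t ∈ Icc 1 N, ∑ s ∈ Icc 1 N, g Y xs s (m + v) t) ≤
      Dn * ∑ t ∈ Icc 1 N, ∑ s ∈ Icc 1 N, ∑ c ∈ Icc v N, g Y xs s c t := by
    refine (hpD _ m0 (fun m => Finset.sum_nonneg fun t _ => Finset.sum_nonneg fun s _ =>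
      g_nonneg Y xs _ _ _) hp).trans ?_
    refine mul_le_mul_of_nonneg_left ?_ hDn
    rw [Finset.sum_comm]
    refine Finset.sum_le_sum fun t _ => ?_
    rw [Finset.sum_comm]
    refine Finset.sum_le_sum fun s _ => ?_
    have e1 : ∑ m ∈ range (m0 + 1), g Y xs s (m + v) t =
        ∑ c ∈ (range (m0 + 1)).map (addRightEmbedding v), g Y xs s c t := by
      rw [Finset.sum_map]; rfl
    rw [e1]
    refine Finset.sum_le_sum_of_subset_of_nonneg ?_ fun c _ _ => g_nonneg Y xs _ _ _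
    intro c hc
    rw [Finset.mem_map] at hc
    obtain ⟨a, ha, rfl⟩ := hc
    rw [Finset.mem_range] at ha
    rw [Finset.mem_Icc]
    simp only [addRightEmbedding_apply]
    omega
  have h10 : ∀ t, (∑ s ∈ Icc 1 N, ∑ c ∈ Icc v N, g Y xs s c t) ≤ K * (2048 * y * Y.er v N) := by
    intro t
    have e1 : (∑ s ∈ Icc 1 N, ∑ c ∈ Icc v N, g Y xs s c t) =
        Y.E t fun κ => Y.sv κ * ∑ s ∈ Icc 1 N, ∑ c ∈ Icc v N, Y.E s fun u => Y.E c fun w =>
          Y.X2 xs u * Y.sv u * Y.sv w * dl (Y.sm u + Y.sm w + Y.sm κ) := by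
      have e2 : ∀ s c, g Y xs s c t = Y.E t fun κ => Y.sv κ * Y.E s fun u => Y.E c fun w =>
          Y.X2 xs u * Y.sv u * Y.sv w * dl (Y.sm u + Y.sm w + Y.sm κ) := by
        intro s c
        have e3 : g Y xs s c t = Y.E s fun u => Y.E t fun κ => Y.E c fun w =>
            Y.X2 xs u * Y.sv u * Y.sv w * Y.sv κ * dl (Y.sm u + Y.sm w + Y.sm κ) := by
          unfold g
          refine Y.E_congr fun u _ => ?_
          rw [E_comm]
        rw [e3, E_comm]
        refine Y.E_congr fun κ _ => ?_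
        rw [← E_mul_left]
        refine Y.E_congr fun u _ => ?_
        rw [← E_mul_left]
        refine Y.E_congr fun w _ => ?_
        ring
      simp only [e2, Finset.mul_sum, E_fsum]
    rw [e1]
    calc _ ≤ Y.E t fun κ => Y.sv κ * (2048 * y * Y.er v N) := by
          refine Y.E_mono fun κ _ => mul_le_mul_of_nonneg_left ?_ (Y.sv_nonneg κ)
          exact Y.l2_main hY xs hN hy hM (v := v) (Y.sm κ)
      _ = Y.a t * (2048 * y * Y.er v N) := by
          rw [E_mul_right]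
          rfl
      _ ≤ _ := mul_le_mul_of_nonneg_right (hY.a_le t) (by positivity)
  have h11 : ∑ t ∈ Icc 1 N, ∑ s ∈ Icc 1 N, ∑ c ∈ Icc v N, g Y xs s c t ≤
      N * (K * (2048 * y * Y.er v N)) := by
    refine (Finset.sum_le_sum fun t _ => h10 t).trans ?_
    rw [Finset.sum_const, Nat.card_Icc, nsmul_eq_mul]
    simp
  have h12 : (p.ex fun m => ∑ t ∈ Icc 1 N, ∑ s ∈ Icc 1 N, g Y xs s (m + v) t) ≤
      D * (K * (2048 * y * Y.er v N)) := by
    refine h9.trans ((mul_le_mul_of_nonneg_left h11 hDn).trans ?_)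
    rw [← mul_assoc]
    exact mul_le_mul_of_nonneg_right hD (by positivity)
  have hD0 : 0 ≤ D := (mul_nonneg hDn (Nat.cast_nonneg N)).trans hD
  have h13 : 2 * K ^ 2 * y * (N * Y.H v N) ≤ 2 * K ^ 2 * y * Y.er v N :=
    mul_le_mul_of_nonneg_left (er_ge Y v N) (by positivity)
  have h14 := mul_le_mul_of_nonneg_left h12 (show (0 : ℝ) ≤ 2 * K ^ 2 by positivity)
  have h15 : 2 * K ^ 2 * y * Y.er v N ≤ 2 * K ^ 3 * y * Y.er v N := by
    refine mul_le_mul_of_nonneg_right (mul_le_mul_of_nonneg_right ?_ (by linarith)) hernn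
    have := pow_le_pow_right₀ hK1 (show 2 ≤ 3 by norm_num)
    linarith
  have h16 : 0 ≤ K ^ 3 * y * Y.er v N := by positivity
  have h17 : 0 ≤ D * (K ^ 3 * y * Y.er v N) := mul_nonneg hD0 h16
  nlinarith [h13, h14, h15, h16, h17]

end Sys

end Pool.Agent.Bub4
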