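import Pool.Agent.Bub4.AddL
import Pool.Agent.Bub4.Far

/-!
# Additivity: the cross term and the result
-/

set_option autoImplicit false

namespace Pool.Agent.Bub4

open Finset

namespace Sys

variable {S V : Type} [Fintype S] [AddCommGroup V] (Y : Sys S V)

namespace AddCAux

/-- the left half of the cross term -/
noncomputable def G (xs : V →+ ℝ) (p : Law) (i : ℕ) (l : List S) : ℝ :=
  (p.conv p).ex fun m => Y.E (i + m) fun w => xs (Y.sm (w ++ l)) * Y.sv (w ++ l)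

/-- the decoupled cross term -/
noncomputable def Ct (xs : V →+ ℝ) (v : ℕ) (p : Law) (i j : ℕ) : ℝ :=
  Y.E v fun l => Y.E v fun r => Y.sv (l ++ r) * G Y xs p i l * G Y xs p j r.reverse

/-- the part of the displacement near `l` -/
noncomputable def Nr (xs : V →+ ℝ) (p : Law) (i : ℕ) (l : List S) : ℝ :=
  p.ex fun m => Y.E m fun g => xs (Y.sm (g ++ l)) * Y.E i fun ξ => Y.kk p ξ (g ++ l)

/-- the part of the displacement far from `l` -/
noncomputable def Fr (xs : V →+ ℝ) (p : Law) (i : ℕ) (l : List S) : ℝ :=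
  p.ex fun m => Y.E (i + m) fun w => xs (Y.sm w) * Y.kk p w l

/-- the total mass of the row -/
noncomputable def kh (p : Law) (i : ℕ) : ℝ := Y.E i fun ξ => Y.kk p ξ []

theorem kh_eq (p : Law) (i : ℕ) : kh Y p i = p.ex fun m => Y.a (i + m) := by
  unfold kh kk
  rw [E_ex]
  refine p.ex_congr fun m => ?_
  rw [E_k_row, k_nil_nil]

theorem one_le_kh {K B : ℝ} (hY : Y.Crit K B) (p : Law) (i : ℕ) : 1 ≤ kh Y p i := by
  rw [kh_eq]
  exact p.le_ex fun m => hY.a_ge _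

theorem kh_le {K B : ℝ} (hY : Y.Crit K B) (p : Law) (i : ℕ) : kh Y p i ≤ K := by
  rw [kh_eq]
  exact p.ex_le fun m => hY.a_le _

theorem kh_zero (p : Law) : kh Y p 0 = Y.kk p [] [] := by simp [kh]

/-- expansion of `cut` -/
theorem cut_expand (v : ℕ) (p : Law) (F : List S → List S → ℝ) (i j : ℕ) :
    Y.cut v p F i j = (p.conv p).ex fun m => (p.conv p).ex fun n =>
      Y.E (i + m + v) fun l => Y.E (v + (n + j)) fun r => F l r * Y.sv (l ++ r) := by
  unfold cut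
  rw [Law.ex_conv]
  refine (p.conv p).ex_congr fun m => ?_
  rw [Law.ex_dirac, Law.ex_conv, Law.ex_dirac]
  refine (p.conv p).ex_congr fun n => ?_
  rw [show i + (m + v) = i + m + v by ring, show v + n + j = v + (n + j) by ring]

theorem G_reverse (xs : V →+ ℝ) (p : Law) (j : ℕ) (r : List S) :
    G Y xs p j r.reverse =
      (p.conv p).ex fun n => Y.E (n + j) fun w => xs (Y.sm (r ++ w)) * Y.sv (r ++ w) := by
  unfold G
  refine (p.conv p).ex_congr fun n => ?_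
  rw [← Y.E_reverse (n + j), Nat.add_comm j n]
  refine Y.E_congr fun w _ => ?_
  rw [← Y.sv_reverse (r ++ w.reverse), ← Y.sm_reverse (r ++ w.reverse)]
  simp

theorem Ct_expand (xs : V →+ ℝ) (v : ℕ) (p : Law) (i j : ℕ) :
    Ct Y xs v p i j = (p.conv p).ex fun m => (p.conv p).ex fun n =>
      Y.E (i + m) fun w => Y.E v fun l => Y.E v fun r => Y.E (n + j) fun w' =>
        xs (Y.sm (w ++ l)) * xs (Y.sm (r ++ w')) *
          (Y.sv (w ++ l) * Y.sv (r ++ w') * Y.sv (l ++ r)) := by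
  have h1 : ∀ l r : List S, Y.sv (l ++ r) * G Y xs p i l * G Y xs p j r.reverse =
      (p.conv p).ex fun m => (p.conv p).ex fun n =>
        Y.E (i + m) fun w => Y.E (n + j) fun w' =>
        xs (Y.sm (w ++ l)) * xs (Y.sm (r ++ w')) *
          (Y.sv (w ++ l) * Y.sv (r ++ w') * Y.sv (l ++ r)) := by
    intro l r
    rw [G_reverse]
    unfold G
    rw [mul_assoc, Law.mul_ex, ← Law.ex_mul_left]
    refine (p.conv p).ex_congr fun m => ?_
    rw [← Law.ex_mul_left]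
    refine (p.conv p).ex_congr fun n => ?_
    rw [← E_mul_right, ← E_mul_left]
    refine Y.E_congr fun w _ => ?_
    rw [← E_mul_left, ← E_mul_left]
    refine Y.E_congr fun w' _ => ?_
    ring
  unfold Ct
  simp only [h1]
  simp only [E_ex]
  refine (p.conv p).ex_congr fun m => (p.conv p).ex_congr fun n => ?_
  have h2 : ∀ l : List S, (Y.E v fun r => Y.E (i + m) fun w => Y.E (n + j) fun w' =>
        xs (Y.sm (w ++ l)) * xs (Y.sm (r ++ w')) *
          (Y.sv (w ++ l) * Y.sv (r ++ w') * Y.sv (l ++ r))) =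
      Y.E (i + m) fun w => Y.E v fun r => Y.E (n + j) fun w' =>
        xs (Y.sm (w ++ l)) * xs (Y.sm (r ++ w')) *
          (Y.sv (w ++ l) * Y.sv (r ++ w') * Y.sv (l ++ r)) := fun l => Y.E_comm _ _ _
  simp only [h2]
  exact Y.E_comm _ _ _

theorem Ct_symm (xs : V →+ ℝ) (v : ℕ) (p : Law) (i j : ℕ) :
    Ct Y xs v p i j = Ct Y xs v p j i := by
  unfold Ct
  rw [← Y.E_reverse v]
  have h1 : ∀ l : List S, (Y.E v fun r => Y.sv (l.reverse ++ r) * G Y xs p i l.reverse *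
        G Y xs p j r.reverse) =
      Y.E v fun r => Y.sv (r ++ l) * G Y xs p i l.reverse * G Y xs p j r := by
    intro l
    rw [← Y.E_reverse v]
    refine Y.E_congr fun r _ => ?_
    rw [List.reverse_reverse, ← List.reverse_append, sv_reverse]
  simp only [h1]
  rw [E_comm]
  refine Y.E_congr fun r _ => Y.E_congr fun l _ => ?_
  ring

/-! ### Replacing the cross term by the decoupled one -/

theorem abs_mul_le_X2 (xs : V →+ ℝ) (l r : List S) :
    |xs (Y.sm l) * xs (Y.sm r)| ≤ (Y.X2 xs l + Y.X2 xs r) / 2 := by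
  unfold X2
  rw [abs_le]
  constructor <;> nlinarith [sq_nonneg (xs (Y.sm l) + xs (Y.sm r)),
    sq_nonneg (xs (Y.sm l) - xs (Y.sm r))]

theorem X2_nonneg (xs : V →+ ℝ) (l : List S) : 0 ≤ Y.X2 xs l := sq_nonneg _

theorem Ct_sub_cut {K B : ℝ} (hY : Y.Crit K B) (xs : V →+ ℝ) {v N : ℕ} {p : Law} {y : ℝ}
    (hN : 1 ≤ N) (hp : p.Le v) (hy : 1 ≤ y) (hM : ∀ t, t ≤ 2 * N → Y.M xs t ≤ y * t)
    {i j : ℕ} (hi : i + 3 * v ≤ N) (hj : j + 3 * v ≤ N) :
    |Ct Y xs v p i j - Y.cut v p (fun l r => xs (Y.sm l) * xs (Y.sm r)) i j| ≤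
      10000 * K ^ 2 * y * Y.er v N := by
  have hp2 : (p.conv p).Le (v + v) := hp.conv hp
  rw [Ct_expand, cut_expand, ← Law.ex_sub]
  refine (Law.abs_ex _ _).trans (Law.ex_le' _ fun im => ?_)
  set m := (p.conv p).len im with hm
  have hmv : m ≤ v + v := hp2 im
  rw [← Law.ex_sub]
  refine (Law.abs_ex _ _).trans (Law.ex_le' _ fun jn => ?_)
  set n := (p.conv p).len jn with hn
  have hnv : n ≤ v + v := hp2 jn
  have e1 : (Y.E (i + m + v) fun l => Y.E (v + (n + j)) fun r =>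
        xs (Y.sm l) * xs (Y.sm r) * Y.sv (l ++ r)) =
      Y.E (i + m) fun w => Y.E v fun l => Y.E v fun r => Y.E (n + j) fun w' =>
        xs (Y.sm (w ++ l)) * xs (Y.sm (r ++ w')) * Y.sv (w ++ l ++ (r ++ w')) := by
    rw [E_add]
    refine Y.E_congr fun w _ => Y.E_congr fun l _ => ?_
    rw [E_add]
  rw [e1, ← E_fsub]
  simp only [← E_fsub]
  have e2 : (Y.E (i + m) fun w => Y.E v fun l => Y.E v fun r => Y.E (n + j) fun w' =>
        (Y.X2 xs (w ++ l) + Y.X2 xs (r ++ w')) / 2 *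
          (Y.sv (w ++ l) * Y.sv (r ++ w') * Y.ht v (w ++ l) (r ++ w'))) =
      Y.E (i + m + v) fun l => Y.E (v + (n + j)) fun r =>
        (Y.X2 xs l + Y.X2 xs r) / 2 * (Y.sv l * Y.sv r * Y.ht v l r) := by
    rw [Y.E_add (i + m) v]
    refine Y.E_congr fun w _ => Y.E_congr fun l _ => ?_
    rw [E_add]
  have e3 : (Y.E (i + m + v) fun l => Y.E (v + (n + j)) fun r =>
        (Y.X2 xs l + Y.X2 xs r) / 2 * (Y.sv l * Y.sv r * Y.ht v l r)) =
      (1 / 2) * ((Y.E (i + m + v) fun l => Y.E (v + (n + j)) fun r =>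
        Y.X2 xs l * Y.sv l * Y.sv r * Y.ht v l r) + (Y.E (i + m + v) fun l =>
        Y.E (v + (n + j)) fun r => Y.X2 xs r * Y.sv l * Y.sv r * Y.ht v l r)) := by
    rw [← E_fadd, ← E_mul_left]
    refine Y.E_congr fun l _ => ?_
    rw [← E_fadd, ← E_mul_left]
    refine Y.E_congr fun r _ => ?_
    ring
  have f1 := Y.far_left hY xs (v := v) (m := i + m + v) (n := v + (n + j)) (N := N) hN hy hM
    (by omega) (by omega)
  have f2 := Y.far_right hY xs (v := v) (m := i + m + v) (n := v + (n + j)) (N := N) hN hy hM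
    (by omega) (by omega)
  have e4 : (Y.E (i + m) fun w => Y.E v fun l => Y.E v fun r => Y.E (n + j) fun w' =>
        (Y.X2 xs (w ++ l) + Y.X2 xs (r ++ w')) / 2 *
          (Y.sv (w ++ l) * Y.sv (r ++ w') * Y.ht v (w ++ l) (r ++ w'))) ≤
      10000 * K ^ 2 * y * Y.er v N := by
    rw [e2, e3]
    linarith
  refine le_trans ?_ e4
  refine (Y.E_abs _ _).trans (Y.E_mono fun w _ => ?_)
  refine (Y.E_abs _ _).trans (Y.E_mono fun l hl => ?_)
  refine (Y.E_abs _ _).trans (Y.E_mono fun r hr => ?_)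
  refine (Y.E_abs _ _).trans (Y.E_mono fun w' _ => ?_)
  rw [← mul_sub, abs_mul]
  have g1 := Y.hit_two v w l r w' hl.ge hr.ge
  have g2 : 0 ≤ Y.sv (w ++ l) * Y.sv (r ++ w') * Y.sv (l ++ r) - Y.sv (w ++ l ++ (r ++ w')) := by
    have h1 : (w ++ l) <:+: w ++ l ++ (r ++ w') := (List.prefix_append _ _).isInfix
    have h2 : (r ++ w') <:+: w ++ l ++ (r ++ w') := (List.suffix_append _ _).isInfix
    have h3 : (l ++ r) <:+: w ++ l ++ (r ++ w') := ⟨w, w', by simp [List.append_assoc]⟩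
    have h4 := Y.sv_mul_infix h1
    have h5 := Y.sv_mul_infix h2
    have h6 := Y.sv_mul_infix h3
    have h7 : Y.sv (w ++ l ++ (r ++ w')) =
        Y.sv (w ++ l ++ (r ++ w')) * (Y.sv (w ++ l) * Y.sv (r ++ w') * Y.sv (l ++ r)) := by
      rw [← mul_assoc, ← mul_assoc, h4, h5, h6]
    have h8 : 0 ≤ Y.sv (w ++ l) * Y.sv (r ++ w') * Y.sv (l ++ r) :=
      mul_nonneg (mul_nonneg (Y.sv_nonneg _) (Y.sv_nonneg _)) (Y.sv_nonneg _)
    have h9 := Y.sv_le_one (w ++ l ++ (r ++ w'))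
    nlinarith
  rw [abs_of_nonneg g2]
  refine mul_le_mul (abs_mul_le_X2 Y xs _ _) ?_ g2 ?_
  · have g3 : Y.sv (w ++ l) * Y.sv (r ++ w') * Y.sv (l ++ r) =
        Y.sv (w ++ l) * Y.sv (r ++ w') * Y.sv (l ++ r) := rfl
    linarith
  · have := X2_nonneg Y xs (w ++ l)
    have := X2_nonneg Y xs (r ++ w')
    positivity

/-! ### The decomposition of `G` -/

theorem G_eq (xs : V →+ ℝ) (p : Law) (i : ℕ) (l : List S) :
    G Y xs p i l = Fr Y xs p i l + Nr Y xs p i l := by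
  have h1 : ∀ m n : ℕ, (Y.E (i + (m + n)) fun w => xs (Y.sm (w ++ l)) * Y.sv (w ++ l)) =
      (Y.E (i + m) fun w => Y.E n fun g => xs (Y.sm w) * Y.sv (w ++ g ++ l)) +
      (Y.E (i + m) fun w => Y.E n fun g => xs (Y.sm (g ++ l)) * Y.sv (w ++ g ++ l)) := by
    intro m n
    rw [← add_assoc, E_add, ← E_fadd]
    refine Y.E_congr fun w _ => ?_
    rw [← E_fadd]
    refine Y.E_congr fun g _ => ?_
    simp only [sm_append, map_add]
    ring
  have hF : Fr Y xs p i l = p.ex fun m => p.ex fun n =>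
      Y.E (i + m) fun w => Y.E n fun g => xs (Y.sm w) * Y.sv (w ++ g ++ l) := by
    unfold Fr
    refine p.ex_congr fun m => ?_
    rw [← E_ex]
    refine Y.E_congr fun w _ => ?_
    unfold kk k
    rw [← Law.ex_mul_left]
    refine p.ex_congr fun n => ?_
    rw [E_mul_left]
  have hN : Nr Y xs p i l = p.ex fun m => p.ex fun n =>
      Y.E (i + m) fun w => Y.E n fun g => xs (Y.sm (g ++ l)) * Y.sv (w ++ g ++ l) := by
    rw [Law.ex_comm]
    unfold Nr
    refine p.ex_congr fun n => ?_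
    have h2 : ∀ m : ℕ, (Y.E (i + m) fun w => Y.E n fun g =>
        xs (Y.sm (g ++ l)) * Y.sv (w ++ g ++ l)) =
        Y.E n fun g => xs (Y.sm (g ++ l)) * Y.E (i + m) fun w => Y.sv (w ++ (g ++ l)) := by
      intro m
      rw [E_comm]
      refine Y.E_congr fun g _ => ?_
      rw [← E_mul_left]
      simp only [List.append_assoc]
    simp only [h2]
    rw [← E_ex]
    refine Y.E_congr fun g _ => ?_
    rw [Law.ex_mul_left]
    congr 1
    unfold kk k
    rw [E_ex]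
    refine p.ex_congr fun m => ?_
    rw [E_add]
  rw [hF, hN]
  unfold G
  rw [Law.ex_conv, ← Law.ex_add]
  refine p.ex_congr fun m => ?_
  rw [← Law.ex_add]
  exact p.ex_congr fun n => h1 m n

theorem odd_zero (xs : V →+ ℝ) (p : Law) (n : ℕ) :
    (Y.E n fun w => xs (Y.sm w) * Y.kk p w []) = 0 := by
  have h1 := Y.E_neg n (fun w => xs (Y.sm w) * Y.kk p w [])
  have h2 : (Y.E n fun w => xs (Y.sm (w.map Y.neg)) * Y.kk p (w.map Y.neg) []) =
      - Y.E n fun w => xs (Y.sm w) * Y.kk p w [] := by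
    rw [← E_fneg]
    refine Y.E_congr fun w _ => ?_
    have h3 := Y.kk_neg p w []
    rw [List.map_nil] at h3
    rw [h3, sm_neg, map_neg]
    ring
  have h4 : (Y.E n fun w => xs (Y.sm (w.map Y.neg)) * Y.kk p (w.map Y.neg) []) =
      Y.E n fun w => xs (Y.sm w) * Y.kk p w [] := h1
  linarith

theorem Fr_eq (xs : V →+ ℝ) (p : Law) (i : ℕ) (l : List S) :
    Y.kk p [] [] * Fr Y xs p i l =
      p.ex fun m => Y.E (i + m) fun w => xs (Y.sm w) * Y.mn p w [] l [] := by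
  have h1 : ∀ m : ℕ, (Y.E (i + m) fun w => xs (Y.sm w) * Y.mn p w [] l []) =
      Y.kk p [] [] * (Y.E (i + m) fun w => xs (Y.sm w) * Y.kk p w l) := by
    intro m
    have h2 : (Y.E (i + m) fun w => xs (Y.sm w) * Y.mn p w [] l []) =
        (Y.E (i + m) fun w => Y.kk p [] [] * (xs (Y.sm w) * Y.kk p w l)) -
        (Y.E (i + m) fun w => Y.kk p [] l * (xs (Y.sm w) * Y.kk p w [])) := by
      rw [← E_fsub]
      refine Y.E_congr fun w _ => ?_
      unfold mn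
      ring
    rw [h2, E_mul_left, E_mul_left, odd_zero]
    ring
  simp only [h1]
  rw [Law.ex_mul_left]
  rfl

theorem Nr_eq (xs : V →+ ℝ) (p : Law) (i : ℕ) (l : List S) :
    Y.kk p [] [] * Nr Y xs p i l - kh Y p i * Nr Y xs p 0 l =
      p.ex fun m => Y.E m fun g => xs (Y.sm (g ++ l)) *
        Y.E i fun ξ => Y.mn p ξ [] (g ++ l) [] := by
  unfold Nr kh
  rw [← Law.ex_mul_left, ← Law.ex_mul_left, ← Law.ex_sub]
  refine p.ex_congr fun m => ?_
  rw [← E_mul_left, ← E_mul_left, ← E_fsub]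
  refine Y.E_congr fun g _ => ?_
  rw [E_zero]
  have h1 : (Y.E i fun ξ => Y.mn p ξ [] (g ++ l) []) =
      Y.kk p [] [] * (Y.E i fun ξ => Y.kk p ξ (g ++ l)) -
      (Y.E i fun ξ => Y.kk p ξ []) * Y.kk p [] (g ++ l) := by
    rw [← E_mul_left, ← E_mul_right, ← E_fsub]
    refine Y.E_congr fun ξ _ => ?_
    unfold mn
    ring
  rw [h1]
  ring

/-- the difference of `c0 G_i` and `kh_i G_0` -/
theorem G_sub {K B : ℝ} (hY : Y.Crit K B) (xs : V →+ ℝ) (p : Law) (i : ℕ) (l : List S) :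
    |Y.kk p [] [] * G Y xs p i l - kh Y p i * G Y xs p 0 l| ≤
      (p.ex fun m => Y.E m fun g => |xs (Y.sm (g ++ l))| *
        Y.E i fun ξ => |Y.mn p ξ [] (g ++ l) []|) +
      (p.ex fun m => Y.E (i + m) fun w => |xs (Y.sm w)| * |Y.mn p w [] l []|) +
      K * (p.ex fun m => Y.E (0 + m) fun w => |xs (Y.sm w)| * |Y.mn p w [] l []|) := by
  have hc : 1 ≤ Y.kk p [] [] := by rw [← kh_zero]; exact one_le_kh Y hY p 0
  have hk1 := one_le_kh Y hY p i
  have hk2 := kh_le Y hY p i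
  have h0 : Y.kk p [] [] * G Y xs p i l - kh Y p i * G Y xs p 0 l =
      (Y.kk p [] [] * Nr Y xs p i l - kh Y p i * Nr Y xs p 0 l) +
      Y.kk p [] [] * Fr Y xs p i l - kh Y p i * Fr Y xs p 0 l := by
    rw [G_eq, G_eq]; ring
  have h1 : |Y.kk p [] [] * Nr Y xs p i l - kh Y p i * Nr Y xs p 0 l| ≤
      p.ex fun m => Y.E m fun g => |xs (Y.sm (g ++ l))| *
        Y.E i fun ξ => |Y.mn p ξ [] (g ++ l) []| := by
    rw [Nr_eq]
    refine (Law.abs_ex _ _).trans (Law.ex_mono _ fun m => (Y.E_abs _ _).trans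
      (Y.E_mono fun g _ => ?_))
    rw [abs_mul]
    exact mul_le_mul_of_nonneg_left (Y.E_abs _ _) (abs_nonneg _)
  have h2 : ∀ i', |Y.kk p [] [] * Fr Y xs p i' l| ≤
      p.ex fun m => Y.E (i' + m) fun w => |xs (Y.sm w)| * |Y.mn p w [] l []| := by
    intro i'
    rw [Fr_eq]
    refine (Law.abs_ex _ _).trans (Law.ex_mono _ fun m => (Y.E_abs _ _).trans
      (Y.E_mono fun w _ => ?_))
    rw [abs_mul]
  have h3 : |kh Y p i * Fr Y xs p 0 l| ≤
      K * (p.ex fun m => Y.E (0 + m) fun w => |xs (Y.sm w)| * |Y.mn p w [] l []|) := by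
    have h4 := h2 0
    rw [abs_mul] at h4 ⊢
    rw [abs_of_nonneg (by linarith : (0:ℝ) ≤ kh Y p i)]
    rw [abs_of_nonneg (by linarith : (0:ℝ) ≤ Y.kk p [] [])] at h4
    have h5 : |Fr Y xs p 0 l| ≤ Y.kk p [] [] * |Fr Y xs p 0 l| := by
      have := abs_nonneg (Fr Y xs p 0 l)
      nlinarith
    calc kh Y p i * |Fr Y xs p 0 l| ≤ K * |Fr Y xs p 0 l| :=
          mul_le_mul_of_nonneg_right hk2 (abs_nonneg _)
      _ ≤ _ := mul_le_mul_of_nonneg_left (h5.trans h4) hY.K_pos.le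
  rw [h0]
  have h4 := h2 i
  refine (abs_sub _ _).trans ?_
  refine add_le_add ?_ h3
  refine (abs_add_le _ _).trans ?_
  exact add_le_add h1 h4

/-! ### The estimates -/

theorem theta_le (xs : V →+ ℝ) (θ : ℝ) (n : ℕ) (F : List S → ℝ) (hF : ∀ w, 0 ≤ F w) :
    2 * θ * (Y.E n fun w => |xs (Y.sm w)| * F w) ≤
      (Y.E n fun w => Y.X2 xs w * F w) + θ ^ 2 * Y.E n F := by
  rw [← E_mul_left, ← E_mul_left, ← E_fadd]
  refine Y.E_mono fun w _ => ?_
  have h1 : Y.X2 xs w = |xs (Y.sm w)| ^ 2 := by unfold X2; rw [sq_abs]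
  rw [h1]
  have h2 := mul_nonneg (sq_nonneg (|xs (Y.sm w)| - θ)) (hF w)
  nlinarith

theorem est_near (xs : V →+ ℝ) {v N m i : ℕ} {p : Law} {e y θ : ℝ} (hθ : 0 < θ)
    (hθ2 : θ ^ 2 = y * N) (hm : m + v ≤ N) (hi : i ≤ N)
    (hW : ∀ i i' j j', i ≤ N → i' ≤ N → j ≤ N → j' ≤ N →
        Y.W p (fun _ => 1) (fun _ => 1) (fun _ => 1) i i' j j' ≤ e)
    (hW2 : ∀ i i' j j', i ≤ N → i' ≤ N → j ≤ N → j' ≤ N →
        Y.W p (Y.X2 xs) (fun _ => 1) (fun _ => 1) i i' j j' ≤ y * N * e) :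
    (Y.E v fun l => Y.E m fun g => |xs (Y.sm (g ++ l))| *
        Y.E i fun ξ => |Y.mn p ξ [] (g ++ l) []|) ≤ θ * e := by
  have h1 : (Y.E v fun l => Y.E m fun g => |xs (Y.sm (g ++ l))| *
        Y.E i fun ξ => |Y.mn p ξ [] (g ++ l) []|) =
      Y.E (m + v) fun η => |xs (Y.sm η)| * Y.E i fun ξ => |Y.mn p ξ [] η []| := by
    rw [E_comm, E_add]
  rw [h1]
  have h2 := theta_le Y xs θ (m + v) (fun η => Y.E i fun ξ => |Y.mn p ξ [] η []|)
    (fun η => Y.E_nonneg' fun ξ => abs_nonneg _)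
  have h3 : (Y.E (m + v) fun η => Y.X2 xs η * Y.E i fun ξ => |Y.mn p ξ [] η []|) ≤
      y * N * e := by
    have h4 := Y.W_reverse p (ω := Y.X2 xs) (fun w => by unfold X2; rw [sm_reverse]) i 0 (m + v) 0
    have h5 := hW2 (m + v) 0 i 0 hm (Nat.zero_le _) hi (Nat.zero_le _)
    rw [← h4] at h5
    refine le_trans (le_of_eq ?_) h5
    simp only [E_zero]
    rw [E_comm]
    refine Y.E_congr fun η _ => ?_
    rw [E_mul_left]
  have h6 : (Y.E (m + v) fun η => Y.E i fun ξ => |Y.mn p ξ [] η []|) ≤ e := by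
    have h5 := hW i 0 (m + v) 0 hi (Nat.zero_le _) hm (Nat.zero_le _)
    refine le_trans (le_of_eq ?_) h5
    unfold W
    simp only [E_zero, one_mul, mul_one]
    exact Y.E_comm _ _ _
  have h7 : θ ^ 2 * (Y.E (m + v) fun η => Y.E i fun ξ => |Y.mn p ξ [] η []|) ≤ θ ^ 2 * e :=
    mul_le_mul_of_nonneg_left h6 (sq_nonneg _)
  rw [hθ2] at h2 h7
  have h8 : θ * (Y.E (m + v) fun η => |xs (Y.sm η)| * Y.E i fun ξ => |Y.mn p ξ [] η []|) ≤
      θ * (θ * e) := by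
    have : θ * (θ * e) = y * N * e := by rw [← hθ2]; ring
    rw [this]
    linarith
  exact le_of_mul_le_mul_left h8 hθ

theorem est_far (xs : V →+ ℝ) {v N n : ℕ} {p : Law} {e y θ : ℝ} (hθ : 0 < θ)
    (hθ2 : θ ^ 2 = y * N) (hv : v ≤ N) (hn : n ≤ N)
    (hW : ∀ i i' j j', i ≤ N → i' ≤ N → j ≤ N → j' ≤ N →
        Y.W p (fun _ => 1) (fun _ => 1) (fun _ => 1) i i' j j' ≤ e)
    (hW2 : ∀ i i' j j', i ≤ N → i' ≤ N → j ≤ N → j' ≤ N →
        Y.W p (Y.X2 xs) (fun _ => 1) (fun _ => 1) i i' j j' ≤ y * N * e) :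
    (Y.E v fun l => Y.E n fun w => |xs (Y.sm w)| * |Y.mn p w [] l []|) ≤ θ * e := by
  have h1 : (Y.E v fun l => Y.E n fun w => |xs (Y.sm w)| * |Y.mn p w [] l []|) =
      Y.E n fun w => |xs (Y.sm w)| * Y.E v fun l => |Y.mn p w [] l []| := by
    rw [E_comm]
    refine Y.E_congr fun w _ => ?_
    rw [E_mul_left]
  rw [h1]
  have h2 := theta_le Y xs θ n (fun w => Y.E v fun l => |Y.mn p w [] l []|)
    (fun η => Y.E_nonneg' fun ξ => abs_nonneg _)
  have h3 : (Y.E n fun w => Y.X2 xs w * Y.E v fun l => |Y.mn p w [] l []|) ≤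
      y * N * e := by
    have h5 := hW2 n 0 v 0 hn (Nat.zero_le _) hv (Nat.zero_le _)
    refine le_trans (le_of_eq ?_) h5
    unfold W
    simp only [E_zero, mul_one]
    refine Y.E_congr fun w _ => ?_
    rw [E_mul_left]
  have h6 : (Y.E n fun w => Y.E v fun l => |Y.mn p w [] l []|) ≤ e := by
    have h5 := hW n 0 v 0 hn (Nat.zero_le _) hv (Nat.zero_le _)
    refine le_trans (le_of_eq ?_) h5
    unfold W
    simp only [E_zero, one_mul, mul_one]
  have h7 : θ ^ 2 * (Y.E n fun w => Y.E v fun l => |Y.mn p w [] l []|) ≤ θ ^ 2 * e :=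
    mul_le_mul_of_nonneg_left h6 (sq_nonneg _)
  rw [hθ2] at h2 h7
  have h8 : θ * (Y.E n fun w => |xs (Y.sm w)| * Y.E v fun l => |Y.mn p w [] l []|) ≤
      θ * (θ * e) := by
    have : θ * (θ * e) = y * N * e := by rw [← hθ2]; ring
    rw [this]
    linarith
  exact le_of_mul_le_mul_left h8 hθ

theorem est_sub {K B : ℝ} (hY : Y.Crit K B) (xs : V →+ ℝ) {v N i : ℕ} {p : Law} {e y θ : ℝ}
    (hp : p.Le v) (hθ : 0 < θ)
    (hθ2 : θ ^ 2 = y * N) (hi : i + 2 * v ≤ N)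
    (hW : ∀ i i' j j', i ≤ N → i' ≤ N → j ≤ N → j' ≤ N →
        Y.W p (fun _ => 1) (fun _ => 1) (fun _ => 1) i i' j j' ≤ e)
    (hW2 : ∀ i i' j j', i ≤ N → i' ≤ N → j ≤ N → j' ≤ N →
        Y.W p (Y.X2 xs) (fun _ => 1) (fun _ => 1) i i' j j' ≤ y * N * e) :
    (Y.E v fun l => |Y.kk p [] [] * G Y xs p i l - kh Y p i * G Y xs p 0 l|) ≤
      (2 + K) * (θ * e) := by
  refine (Y.E_mono fun l _ => G_sub Y hY xs p i l).trans ?_
  rw [E_fadd, E_fadd, E_mul_left, E_ex, E_ex, E_ex]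
  have h1 : (p.ex fun m => Y.E v fun l => Y.E m fun g => |xs (Y.sm (g ++ l))| *
        Y.E i fun ξ => |Y.mn p ξ [] (g ++ l) []|) ≤ θ * e := by
    refine p.ex_le' fun im => ?_
    have := hp im
    exact est_near Y xs hθ hθ2 (by omega) (by omega) hW hW2
  have h2 : ∀ i', i' ≤ i → (p.ex fun m => Y.E v fun l => Y.E (i' + m) fun w =>
      |xs (Y.sm w)| * |Y.mn p w [] l []|) ≤ θ * e := by
    intro i' hi'
    refine p.ex_le' fun im => ?_
    have := hp im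
    exact est_far Y xs hθ hθ2 (by omega) (by omega) hW hW2
  have h3 := h2 i le_rfl
  have h4 := mul_le_mul_of_nonneg_left (h2 0 (Nat.zero_le _)) hY.K_pos.le
  linarith

theorem est_G {K B : ℝ} (hY : Y.Crit K B) (xs : V →+ ℝ) {v N i : ℕ} {p : Law} {y θ : ℝ}
    (hp : p.Le v) (hθ : 0 < θ) (hy : 1 ≤ y)
    (hθ2 : θ ^ 2 = y * N) (hi : i + 3 * v ≤ N)
    (hM : ∀ t, t ≤ 2 * N → Y.M xs t ≤ y * t) :
    (Y.E v fun l => |G Y xs p i l|) ≤ K * θ := by
  have hp2 : (p.conv p).Le (v + v) := hp.conv hp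
  have h1 : (Y.E v fun l => |G Y xs p i l|) ≤
      (p.conv p).ex fun m => Y.E (i + m + v) fun w => |xs (Y.sm w)| * Y.sv w := by
    have h2 : ∀ l : List S, |G Y xs p i l| ≤ (p.conv p).ex fun m => Y.E (i + m) fun w =>
        |xs (Y.sm (w ++ l))| * Y.sv (w ++ l) := by
      intro l
      unfold G
      refine (Law.abs_ex _ _).trans (Law.ex_mono _ fun m => (Y.E_abs _ _).trans
        (Y.E_mono fun w _ => ?_))
      rw [abs_mul, abs_of_nonneg (Y.sv_nonneg _)]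
    refine (Y.E_mono fun l _ => h2 l).trans (le_of_eq ?_)
    rw [E_ex]
    refine (p.conv p).ex_congr fun m => ?_
    rw [Y.E_comm v (i + m), Y.E_add (i + m) v]
  refine h1.trans (Law.ex_le' _ fun im => ?_)
  set m := (p.conv p).len im with hm
  have hmv : m ≤ v + v := hp2 im
  have h2 := theta_le Y xs θ (i + m + v) Y.sv Y.sv_nonneg
  have h3 : (Y.E (i + m + v) fun w => Y.X2 xs w * Y.sv w) ≤ y * N := by
    have h4 := hM (i + m + v) (by omega)
    have h5 : (Y.E (i + m + v) fun w => Y.X2 xs w * Y.sv w) = Y.M xs (i + m + v) := by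
      unfold M
      exact Y.E_congr fun w _ => mul_comm _ _
    rw [h5]
    refine h4.trans ?_
    have h6 : ((i + m + v : ℕ) : ℝ) ≤ N := by exact_mod_cast (by omega : i + m + v ≤ N)
    exact mul_le_mul_of_nonneg_left h6 (by linarith)
  have h4 : θ ^ 2 * Y.E (i + m + v) Y.sv ≤ θ ^ 2 * K :=
    mul_le_mul_of_nonneg_left (hY.a_le _) (sq_nonneg _)
  have hK := hY.one_le_K
  have h5 : y * N ≤ θ ^ 2 * K := by
    rw [← hθ2]
    have := sq_nonneg θ
    nlinarith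
  have h8 : θ * (Y.E (i + m + v) fun w => |xs (Y.sm w)| * Y.sv w) ≤ θ * (K * θ) := by
    have : θ * (K * θ) = θ ^ 2 * K := by ring
    rw [this]
    linarith
  exact le_of_mul_le_mul_left h8 hθ

theorem E_prod_le (v : ℕ) (F G : List S → ℝ) :
    |Y.E v fun l => Y.E v fun r => Y.sv (l ++ r) * F l * G r.reverse| ≤
      (Y.E v fun l => |F l|) * (Y.E v fun r => |G r|) := by
  rw [← Y.E_reverse v (fun r => |G r|), ← E_mul_right]
  refine (Y.E_abs _ _).trans (Y.E_mono fun l _ => ?_)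
  rw [← E_mul_left]
  refine (Y.E_abs _ _).trans (Y.E_mono fun r _ => ?_)
  rw [abs_mul, abs_mul, abs_of_nonneg (Y.sv_nonneg _)]
  have h1 := Y.sv_le_one (l ++ r)
  have h2 := abs_nonneg (F l)
  have h3 := abs_nonneg (G r.reverse)
  have h4 : Y.sv (l ++ r) * |F l| ≤ |F l| := by nlinarith
  exact mul_le_mul_of_nonneg_right h4 h3

/-- the decoupled cross term factors up to a small error -/
theorem Ct_fac {K B : ℝ} (hY : Y.Crit K B) (xs : V →+ ℝ) {v N i j : ℕ} {p : Law} {e y : ℝ}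
    (hN : 1 ≤ N) (hp : p.Le v) (hy : 1 ≤ y) (he : 0 ≤ e)
    (hi : i + 3 * v ≤ N) (hj : j + 3 * v ≤ N)
    (hM : ∀ t, t ≤ 2 * N → Y.M xs t ≤ y * t)
    (hW : ∀ i i' j j', i ≤ N → i' ≤ N → j ≤ N → j' ≤ N →
        Y.W p (fun _ => 1) (fun _ => 1) (fun _ => 1) i i' j j' ≤ e)
    (hW2 : ∀ i i' j j', i ≤ N → i' ≤ N → j ≤ N → j' ≤ N →
        Y.W p (Y.X2 xs) (fun _ => 1) (fun _ => 1) i i' j j' ≤ y * N * e) :
    |Y.kk p [] [] * Ct Y xs v p i j - kh Y p i * Ct Y xs v p 0 j| ≤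
      K * (2 + K) * (y * N * e) := by
  have hN' : (1 : ℝ) ≤ N := by exact_mod_cast hN
  have hyN : 0 < y * N := by positivity
  obtain ⟨θ, hθ, hθ2⟩ : ∃ θ : ℝ, 0 < θ ∧ θ ^ 2 = y * N :=
    ⟨Real.sqrt (y * N), Real.sqrt_pos.2 hyN, Real.sq_sqrt hyN.le⟩
  have h1 : Y.kk p [] [] * Ct Y xs v p i j - kh Y p i * Ct Y xs v p 0 j =
      Y.E v fun l => Y.E v fun r => Y.sv (l ++ r) *
        (Y.kk p [] [] * G Y xs p i l - kh Y p i * G Y xs p 0 l) * G Y xs p j r.reverse := by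
    unfold Ct
    rw [← E_mul_left, ← E_mul_left, ← E_fsub]
    refine Y.E_congr fun l _ => ?_
    rw [← E_mul_left, ← E_mul_left, ← E_fsub]
    refine Y.E_congr fun r _ => ?_
    ring
  rw [h1]
  refine (E_prod_le Y v (fun l => Y.kk p [] [] * G Y xs p i l - kh Y p i * G Y xs p 0 l)
    (G Y xs p j)).trans ?_
  have h2 := est_sub Y hY xs (i := i) hp hθ hθ2 (by omega) hW hW2
  have h3 := est_G Y hY xs (i := j) hp hθ hy hθ2 hj hM
  have hK := hY.K_pos
  calc _ ≤ ((2 + K) * (θ * e)) * (K * θ) :=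
        mul_le_mul h2 h3 (Y.E_nonneg' fun _ => abs_nonneg _) (by positivity)
    _ = K * (2 + K) * (θ ^ 2 * e) := by ring
    _ = _ := by rw [hθ2]

theorem Ct_bound {K B : ℝ} (hY : Y.Crit K B) (xs : V →+ ℝ) {v N i j : ℕ} {p : Law} {y : ℝ}
    (hN : 1 ≤ N) (hp : p.Le v) (hy : 1 ≤ y)
    (hi : i + 3 * v ≤ N) (hj : j + 3 * v ≤ N)
    (hM : ∀ t, t ≤ 2 * N → Y.M xs t ≤ y * t) :
    |Ct Y xs v p i j| ≤ K ^ 2 * (y * N) := by
  have hN' : (1 : ℝ) ≤ N := by exact_mod_cast hN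
  have hyN : 0 < y * N := by positivity
  obtain ⟨θ, hθ, hθ2⟩ : ∃ θ : ℝ, 0 < θ ∧ θ ^ 2 = y * N :=
    ⟨Real.sqrt (y * N), Real.sqrt_pos.2 hyN, Real.sq_sqrt hyN.le⟩
  refine (E_prod_le Y v (G Y xs p i) (G Y xs p j)).trans ?_
  have h2 := est_G Y hY xs (i := i) hp hθ hy hθ2 hi hM
  have h3 := est_G Y hY xs (i := j) hp hθ hy hθ2 hj hM
  have hK := hY.K_pos
  calc _ ≤ (K * θ) * (K * θ) :=
        mul_le_mul h2 h3 (Y.E_nonneg' fun _ => abs_nonneg _) (by positivity)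
    _ = K ^ 2 * θ ^ 2 := by ring
    _ = _ := by rw [hθ2]

/-! ### The total mass -/

/-- the averaged total mass -/
noncomputable def Am (v : ℕ) (p : Law) (i j : ℕ) : ℝ := Y.cut v p (fun _ _ => 1) i j

theorem Am_symm (v : ℕ) (p : Law) (i j : ℕ) : Am Y v p i j = Am Y v p j i := by
  unfold Am
  rw [cut_one, cut_one, Nat.add_comm i j]

theorem Am_nonneg (v : ℕ) (p : Law) (i j : ℕ) : 0 ≤ Am Y v p i j := by
  unfold Am
  rw [cut_one]
  exact Law.ex_nonneg _ fun m => Y.a_nonneg _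

theorem Am_le {K B : ℝ} (hY : Y.Crit K B) (v : ℕ) (p : Law) (i j : ℕ) : Am Y v p i j ≤ K := by
  unfold Am
  rw [cut_one]
  exact Law.ex_le _ fun m => hY.a_le _

theorem Am_fac {v N i j : ℕ} {p : Law} {e : ℝ} (hp : p.Le v)
    (hi : i ≤ N) (hj : j + 5 * v ≤ N)
    (hW : ∀ i i' j j', i ≤ N → i' ≤ N → j ≤ N → j' ≤ N →
        Y.W p (fun _ => 1) (fun _ => 1) (fun _ => 1) i i' j j' ≤ e) :
    |Y.kk p [] [] * Am Y v p i j - kh Y p i * Am Y v p 0 j| ≤ e := by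
  set r : Law := (p.conv (Law.dirac v)).conv ((Law.dirac v).conv (p.conv p)) with hr
  have hrle : r.Le (5 * v) := by
    have := (hp.conv (Law.le_dirac le_rfl : (Law.dirac v).Le v)).conv
      ((Law.le_dirac le_rfl : (Law.dirac v).Le v).conv (hp.conv hp))
    exact this.mono (by omega)
  have h0 : ∀ i', Am Y v p i' j = r.ex fun m => Y.E (m + j) fun η =>
      Y.E i' fun ξ => Y.kk p ξ η := by
    intro i'
    unfold Am
    rw [cut_one]
    have h1 : ∀ f : ℕ → ℝ, (mu v p).ex f = p.ex fun m => r.ex fun n => f (m + n) := by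
      intro f
      rw [hr]
      unfold mu
      simp only [Law.ex_conv, Law.ex_dirac]
      simp only [add_assoc]
    rw [h1, Law.ex_comm]
    refine r.ex_congr fun n => ?_
    have h2 : (Y.E (n + j) fun η => Y.E i' fun ξ => Y.kk p ξ η) =
        p.ex fun m => Y.E (n + j) fun η => Y.E i' fun ξ => Y.k m ξ η := by
      unfold kk
      simp only [E_ex]
    rw [h2]
    refine p.ex_congr fun m => ?_
    have h3 : ∀ η, (Y.E i' fun ξ => Y.k m ξ η) = Y.k (i' + m) [] η := fun η => Y.E_k_row m i' η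
    simp only [h3]
    rw [E_k_col, k_nil_nil]
    congr 1
    ring
  rw [h0, h0, ← Law.ex_mul_left, ← Law.ex_mul_left, ← Law.ex_sub]
  refine (Law.abs_ex _ _).trans (Law.ex_le' _ fun im => ?_)
  set m := r.len im with hm
  have hm5 : m ≤ 5 * v := hrle im
  have h4 := hW i 0 (m + j) 0 hi (Nat.zero_le _) (by omega) (Nat.zero_le _)
  refine le_trans ?_ h4
  have h5 : Y.kk p [] [] * (Y.E (m + j) fun η => Y.E i fun ξ => Y.kk p ξ η) -
      kh Y p i * (Y.E (m + j) fun η => Y.E 0 fun ξ => Y.kk p ξ η) =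
      Y.E i fun ξ => Y.E (m + j) fun η => Y.mn p ξ [] η [] := by
    rw [Y.E_comm i (m + j), ← E_mul_left, ← E_mul_left, ← E_fsub]
    refine Y.E_congr fun η _ => ?_
    unfold kh
    rw [E_zero, ← E_mul_left, ← E_mul_right, ← E_fsub]
    refine Y.E_congr fun ξ _ => ?_
    unfold mn
    ring
  rw [h5]
  unfold W
  simp only [E_zero, one_mul, mul_one]
  exact (Y.E_abs _ _).trans (Y.E_mono fun ξ _ => Y.E_abs _ _)

/-- the algebra of the cross term -/
theorem alg {c hi hj K E1 e1 A00 Ai0 A0j Aij C00 Ci0 C0j Cij Cb : ℝ} (hc : 1 ≤ c) (hcK : c ≤ K)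
    (hhi : 0 ≤ hi) (hhiK : hi ≤ K) (hhj : 0 ≤ hj) (hhjK : hj ≤ K) (_hE1 : 0 ≤ E1) (he1 : 0 ≤ e1)
    (hA00 : 0 ≤ A00) (hA00K : A00 ≤ K) (hAi0 : 0 ≤ Ai0) (hAi0K : Ai0 ≤ K)
    (hA0j : 0 ≤ A0j) (hA0jK : A0j ≤ K)
    (hC00 : |C00| ≤ Cb)
    (c1 : |c * Cij - hi * C0j| ≤ E1) (c2 : |c * C0j - hj * C00| ≤ E1)
    (c3 : |c * Ci0 - hi * C00| ≤ E1)
    (a1 : |c * Aij - hi * A0j| ≤ e1) (a2 : |c * A0j - hj * A00| ≤ e1)
    (a3 : |c * Ai0 - hi * A00| ≤ e1) :
    |Cij * A00 + Aij * C00 - Ci0 * A0j - Ai0 * C0j| ≤ 4 * K ^ 2 * (E1 + Cb * e1) := by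
  have hK : 1 ≤ K := hc.trans hcK
  have hCb : 0 ≤ Cb := (abs_nonneg _).trans hC00
  have key : c ^ 2 * (Cij * A00 + Aij * C00 - Ci0 * A0j - Ai0 * C0j) =
      A00 * (c * (c * Cij - hi * C0j) + hi * (c * C0j - hj * C00)) +
      C00 * (c * (c * Aij - hi * A0j) + hi * (c * A0j - hj * A00)) -
      (c * A0j * (c * Ci0 - hi * C00) + hi * C00 * (c * A0j - hj * A00)) -
      (c * Ai0 * (c * C0j - hj * C00) + hj * C00 * (c * Ai0 - hi * A00)) := by ring
  have b : ∀ {x y X Z : ℝ}, |x| ≤ X → |y| ≤ Z → |x * y| ≤ X * Z := by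
    intro x y X Z hx hy
    rw [abs_mul]
    exact mul_le_mul hx hy (abs_nonneg _) ((abs_nonneg _).trans hx)
  have bc : |c| ≤ K := by rw [abs_of_nonneg (by linarith)]; exact hcK
  have bi : |hi| ≤ K := by rwa [abs_of_nonneg hhi]
  have bj : |hj| ≤ K := by rwa [abs_of_nonneg hhj]
  have bA : |A00| ≤ K := by rwa [abs_of_nonneg hA00]
  have bAi : |Ai0| ≤ K := by rwa [abs_of_nonneg hAi0]
  have bAj : |A0j| ≤ K := by rwa [abs_of_nonneg hA0j]
  have t1 : |A00 * (c * (c * Cij - hi * C0j) + hi * (c * C0j - hj * C00))| ≤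
      K * (K * E1 + K * E1) :=
    b bA ((abs_add_le _ _).trans (add_le_add (b bc c1) (b bi c2)))
  have t2 : |C00 * (c * (c * Aij - hi * A0j) + hi * (c * A0j - hj * A00))| ≤
      Cb * (K * e1 + K * e1) :=
    b hC00 ((abs_add_le _ _).trans (add_le_add (b bc a1) (b bi a2)))
  have t3 : |c * A0j * (c * Ci0 - hi * C00) + hi * C00 * (c * A0j - hj * A00)| ≤
      K * K * E1 + K * Cb * e1 :=
    (abs_add_le _ _).trans (add_le_add (b (b bc bAj) c3) (b (b bi hC00) a2))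
  have t4 : |c * Ai0 * (c * C0j - hj * C00) + hj * C00 * (c * Ai0 - hi * A00)| ≤
      K * K * E1 + K * Cb * e1 :=
    (abs_add_le _ _).trans (add_le_add (b (b bc bAi) c2) (b (b bj hC00) a3))
  have tot : |c ^ 2 * (Cij * A00 + Aij * C00 - Ci0 * A0j - Ai0 * C0j)| ≤
      K * (K * E1 + K * E1) + Cb * (K * e1 + K * e1) + (K * K * E1 + K * Cb * e1) +
        (K * K * E1 + K * Cb * e1) := by
    rw [key]
    refine (abs_sub _ _).trans (add_le_add ?_ t4)
    refine (abs_sub _ _).trans (add_le_add ?_ t3)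
    exact (abs_add_le _ _).trans (add_le_add t1 t2)
  have hc2 : 1 ≤ c ^ 2 := one_le_pow₀ hc
  have h1 : |Cij * A00 + Aij * C00 - Ci0 * A0j - Ai0 * C0j| ≤
      |c ^ 2 * (Cij * A00 + Aij * C00 - Ci0 * A0j - Ai0 * C0j)| := by
    rw [abs_mul, abs_of_nonneg (by positivity : (0:ℝ) ≤ c ^ 2)]
    have := abs_nonneg (Cij * A00 + Aij * C00 - Ci0 * A0j - Ai0 * C0j)
    nlinarith
  refine h1.trans (tot.trans ?_)
  have h2 : K * (Cb * e1) ≤ K ^ 2 * (Cb * e1) := by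
    have h3 : K ≤ K ^ 2 := by nlinarith
    exact mul_le_mul_of_nonneg_right h3 (mul_nonneg hCb he1)
  nlinarith

end AddCAux

open AddCAux in
/-- additivity of the contribution of the cross term -/
theorem add_cross {K B : ℝ} (hY : Y.Crit K B) (xs : V →+ ℝ) : ∃ C : ℝ, 0 ≤ C ∧
    ∀ (v N : ℕ) (p : Law) (e y : ℝ), 1 ≤ v → 1 ≤ N → p.Le v → 1 ≤ y → 0 ≤ e →
      (∀ t, t ≤ 2 * N → Y.M xs t ≤ y * t) →
      (∀ i i' j j', i ≤ N → i' ≤ N → j ≤ N → j' ≤ N →
        Y.W p (fun _ => 1) (fun _ => 1) (fun _ => 1) i i' j j' ≤ e) →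
      (∀ i i' j j', i ≤ N → i' ≤ N → j ≤ N → j' ≤ N →
        Y.W p (Y.X2 xs) (fun _ => 1) (fun _ => 1) i i' j j' ≤ y * N * e) →
      ∀ i j : ℕ, i + j + 8 * v ≤ N →
      |Y.cut v p (fun l r => xs (Y.sm l) * xs (Y.sm r)) i j * Y.cut v p (fun _ _ => 1) 0 0 +
        Y.cut v p (fun _ _ => 1) i j * Y.cut v p (fun l r => xs (Y.sm l) * xs (Y.sm r)) 0 0 -
        Y.cut v p (fun l r => xs (Y.sm l) * xs (Y.sm r)) i 0 * Y.cut v p (fun _ _ => 1) 0 j -
        Y.cut v p (fun _ _ => 1) i 0 * Y.cut v p (fun l r => xs (Y.sm l) * xs (Y.sm r)) 0 j| ≤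
        C * (y * N * e + y * Y.er v N) := by
  have hK1 := hY.one_le_K
  have hK0 := hY.K_pos
  refine ⟨4 * K ^ 2 * (K * (2 + K) + K ^ 2) + 40000 * K ^ 3, by positivity, ?_⟩
  intro v N p e y hv hN hp hy he hM hW hW2 i j hij
  have hN' : (1 : ℝ) ≤ N := by exact_mod_cast hN
  have hyN : 0 < y * N := by positivity
  have hc : 1 ≤ Y.kk p [] [] := by rw [← kh_zero]; exact one_le_kh Y hY p 0
  have hcK : Y.kk p [] [] ≤ K := by rw [← kh_zero]; exact kh_le Y hY p 0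
  have hki := one_le_kh Y hY p i
  have hkiK := kh_le Y hY p i
  have hkj := one_le_kh Y hY p j
  have hkjK := kh_le Y hY p j
  have hE1 : 0 ≤ K * (2 + K) * (y * N * e) := by positivity
  have c1 := Ct_fac Y hY xs (i := i) (j := j) hN hp hy he (by omega) (by omega) hM hW hW2
  have c3 := Ct_fac Y hY xs (i := i) (j := 0) hN hp hy he (by omega) (by omega) hM hW hW2
  have c2 := Ct_fac Y hY xs (i := j) (j := 0) hN hp hy he (by omega) (by omega) hM hW hW2
  rw [Ct_symm Y xs v p j 0] at c2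
  have a1 := Am_fac Y (v := v) (i := i) (j := j) hp (by omega) (by omega) hW
  have a3 := Am_fac Y (v := v) (i := i) (j := 0) hp (by omega) (by omega) hW
  have a2 := Am_fac Y (v := v) (i := j) (j := 0) hp (by omega) (by omega) hW
  rw [Am_symm Y v p j 0] at a2
  have hb := Ct_bound Y hY xs (i := 0) (j := 0) hN hp hy (by omega) (by omega) hM
  have main := alg hc hcK (by linarith) hkiK (by linarith) hkjK hE1 he
    (Am_nonneg Y v p 0 0) (Am_le Y hY v p 0 0) (Am_nonneg Y v p i 0) (Am_le Y hY v p i 0)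
    (Am_nonneg Y v p 0 j) (Am_le Y hY v p 0 j) hb c1 c2 c3 a1 a2 a3
  have d : ∀ i' j', i' + 3 * v ≤ N → j' + 3 * v ≤ N →
      |Ct Y xs v p i' j' - Y.cut v p (fun l r => xs (Y.sm l) * xs (Y.sm r)) i' j'| ≤
        10000 * K ^ 2 * y * Y.er v N := fun i' j' h1 h2 =>
    Ct_sub_cut Y hY xs hN hp hy hM h1 h2
  have d1 := d i j (by omega) (by omega)
  have d2 := d 0 0 (by omega) (by omega)
  have d3 := d i 0 (by omega) (by omega)
  have d4 := d 0 j (by omega) (by omega)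
  change |Y.cut v p (fun l r => xs (Y.sm l) * xs (Y.sm r)) i j * Am Y v p 0 0 +
    Am Y v p i j * Y.cut v p (fun l r => xs (Y.sm l) * xs (Y.sm r)) 0 0 -
    Y.cut v p (fun l r => xs (Y.sm l) * xs (Y.sm r)) i 0 * Am Y v p 0 j -
    Am Y v p i 0 * Y.cut v p (fun l r => xs (Y.sm l) * xs (Y.sm r)) 0 j| ≤ _
  set δ : ℝ := 10000 * K ^ 2 * y * Y.er v N with hδ
  have hδ0 : 0 ≤ δ := (abs_nonneg _).trans d1
  have e1 : ∀ {x x' a : ℝ}, |x - x'| ≤ δ → 0 ≤ a → a ≤ K → |(x - x') * a| ≤ δ * K := by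
    intro x x' a hx ha haK
    rw [abs_mul, abs_of_nonneg ha]
    exact mul_le_mul hx haK ha hδ0
  have f1 := e1 d1 (Am_nonneg Y v p 0 0) (Am_le Y hY v p 0 0)
  have f2 := e1 d2 (Am_nonneg Y v p i j) (Am_le Y hY v p i j)
  have f3 := e1 d3 (Am_nonneg Y v p 0 j) (Am_le Y hY v p 0 j)
  have f4 := e1 d4 (Am_nonneg Y v p i 0) (Am_le Y hY v p i 0)
  rw [abs_le] at f1 f2 f3 f4 main
  have g : 4 * K ^ 2 * (K * (2 + K) * (y * N * e) + K ^ 2 * (y * N) * e) + 4 * (δ * K) ≤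
      (4 * K ^ 2 * (K * (2 + K) + K ^ 2) + 40000 * K ^ 3) * (y * N * e + y * Y.er v N) := by
    have h1 : 0 ≤ y * Y.er v N := by
      have h2 : 0 ≤ K ^ 2 * (y * Y.er v N) := by nlinarith
      exact nonneg_of_mul_nonneg_right h2 (by positivity)
    have h3 : 0 ≤ y * N * e := by positivity
    have h4 : 0 ≤ 4 * K ^ 2 * (K * (2 + K) + K ^ 2) := by positivity
    have h5 : 0 ≤ 40000 * K ^ 3 := by positivity
    have h6 := mul_nonneg h4 h1
    have h7 := mul_nonneg h5 h3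
    rw [hδ]
    nlinarith
  refine le_trans ?_ g
  rw [abs_le]
  constructor <;> linarith [f1.1, f1.2, f2.1, f2.2, f3.1, f3.2, f4.1, f4.2, main.1, main.2]

end Sys

end Pool.Agent.Bub4
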