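import Pool.Agent.Bub4.Ext
import Pool.Agent.Bub4.Mom

/-!
# Additivity: total mass and left part
-/

set_option autoImplicit false

namespace Pool.Agent.Bub4

open Finset

namespace Sys

variable {S V : Type} [Fintype S] [AddCommGroup V] (Y : Sys S V)

/-! ### auxiliary facts -/

theorem AddLAux.E_eps (n : ℕ) (p : Law) (F : List S → ℕ → ℝ) :
    (p.ex fun m => Y.E n fun w => F w m) = Y.E n fun w => p.ex (F w) := (Y.E_ex n p F).symm

/-- the weight of the words `ξ γ η` with `ξ`, `η` of given lengths -/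
theorem AddLAux.E_E_k (i j m : ℕ) :
    (Y.E i fun ξ => Y.E j fun η => Y.k m ξ η) = Y.a (m + (i + j)) := by
  have h1 : ∀ ξ : List S, (Y.E j fun η => Y.k m ξ η) = Y.k (m + j) ξ [] :=
    fun ξ => Y.E_k_col m j ξ
  simp only [h1]
  rw [Y.E_k_row, k_nil_nil]
  congr 1
  omega

theorem AddLAux.E_E_kk (p : Law) (i j : ℕ) :
    (Y.E i fun ξ => Y.E j fun η => Y.kk p ξ η) = p.ex fun m => Y.a (m + (i + j)) := by
  unfold kk
  simp only [E_ex]
  exact p.ex_congr fun m => AddLAux.E_E_k Y i j m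

/-- the laws of the two gaps -/
theorem AddLAux.mu_ex (v : ℕ) (p : Law) (f : ℕ → ℝ) :
    (mu v p).ex f = (p.conv ((p.conv (Law.dirac v)).conv ((Law.dirac v).conv (p.conv p)))).ex f := by
  unfold mu
  simp only [Law.ex_conv, Law.ex_dirac]
  refine p.ex_congr fun a => p.ex_congr fun b => p.ex_congr fun c => p.ex_congr fun d => ?_
  congr 1
  omega

theorem AddLAux.muR_ex (v : ℕ) (p : Law) (f : ℕ → ℝ) :
    ((Law.dirac v).conv (p.conv p)).ex f = (p.conv ((Law.dirac v).conv p)).ex f := by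
  simp only [Law.ex_conv, Law.ex_dirac]
  refine p.ex_congr fun c => p.ex_congr fun d => ?_
  congr 1
  omega

theorem AddLAux.muL_ex (v : ℕ) (p : Law) (f : ℕ → ℝ) :
    ((p.conv p).conv (Law.dirac v)).ex f = ((Law.dirac v).conv (p.conv p)).ex f := by
  simp only [Law.ex_conv, Law.ex_dirac]
  refine p.ex_congr fun c => p.ex_congr fun d => ?_
  congr 1
  omega

theorem AddLAux.prod_diff (q : Law) (ω ω' : List S → ℝ) (i i' j : ℕ) :
    (Y.E i fun l => ω l * Y.E j fun η => Y.kk q l η) * (Y.E i' fun l' => ω' l' * Y.kk q l' []) -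
      (Y.E i fun l => ω l * Y.kk q l []) * (Y.E i' fun l' => ω' l' * Y.E j fun η => Y.kk q l' η) =
      Y.E i fun l => Y.E i' fun l' => Y.E j fun η => ω l * ω' l' * Y.mn q l l' η [] := by
  rw [← E_mul_right, ← E_mul_right, ← E_fsub]
  refine Y.E_congr fun l _ => ?_
  rw [← Y.E_mul_left i' (ω l * Y.E j fun η => Y.kk q l η),
    ← Y.E_mul_left i' (ω l * Y.kk q l []), ← E_fsub]
  refine Y.E_congr fun l' _ => ?_
  rw [show ω l * (Y.E j fun η => Y.kk q l η) * (ω' l' * Y.kk q l' []) =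
      (ω l * ω' l' * Y.kk q l' []) * (Y.E j fun η => Y.kk q l η) by ring,
    show ω l * Y.kk q l [] * (ω' l' * Y.E j fun η => Y.kk q l' η) =
      (ω l * ω' l' * Y.kk q l []) * (Y.E j fun η => Y.kk q l' η) by ring,
    ← E_mul_left, ← E_mul_left, ← E_fsub]
  refine Y.E_congr fun η _ => ?_
  unfold mn
  ring

theorem AddLAux.X2_nonneg (xs : V →+ ℝ) (w : List S) : 0 ≤ Y.X2 xs w := sq_nonneg _

theorem add_one {v N : ℕ} {p : Law} {e : ℝ} (hp : p.Le v)
    (hW : ∀ i i' j j', i ≤ N → i' ≤ N → j ≤ N → j' ≤ N →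
      Y.W p (fun _ => 1) (fun _ => 1) (fun _ => 1) i i' j j' ≤ e)
    {i j : ℕ} (hij : i + j + 8 * v ≤ N) :
    |((mu v p).ex fun m => Y.a (m + (i + j))) * ((mu v p).ex fun m => Y.a m) -
      ((mu v p).ex fun m => Y.a (m + i)) * ((mu v p).ex fun m => Y.a (m + j))| ≤ e := by
  set q := mu v p with hq
  have h := AddLAux.prod_diff Y q (fun _ => 1) (fun _ => 1) i 0 j
  have e1 : (Y.E i fun l => (1 : ℝ) * Y.E j fun η => Y.kk q l η) =
      q.ex fun m => Y.a (m + (i + j)) := by
    simp only [one_mul]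
    exact AddLAux.E_E_kk Y q i j
  have e2 : (Y.E 0 fun l' => (1 : ℝ) * Y.kk q l' []) = q.ex fun m => Y.a m := by
    simp only [one_mul, E_zero]
    unfold kk
    exact q.ex_congr fun m => Y.k_nil_nil m
  have e3 : (Y.E i fun l => (1 : ℝ) * Y.kk q l []) = q.ex fun m => Y.a (m + i) := by
    simp only [one_mul]
    have := AddLAux.E_E_kk Y q i 0
    simpa using this
  have e4 : (Y.E 0 fun l' => (1 : ℝ) * Y.E j fun η => Y.kk q l' η) =
      q.ex fun m => Y.a (m + j) := by
    have := AddLAux.E_E_kk Y q 0 j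
    simpa using this
  rw [e1, e2, e3, e4] at h
  rw [h]
  have hr : ((p.conv (Law.dirac v)).conv ((Law.dirac v).conv (p.conv p))).Le (5 * v) := by
    have := (hp.conv (Law.le_dirac (le_refl v))).conv
      ((Law.le_dirac (le_refl v)).conv (hp.conv hp))
    exact this.mono (by omega)
  calc |Y.E i fun l => Y.E 0 fun l' => Y.E j fun η => 1 * 1 * Y.mn q l l' η []|
      ≤ Y.E i fun l => |Y.E 0 fun l' => Y.E j fun η => 1 * 1 * Y.mn q l l' η []| := Y.E_abs _ _
    _ ≤ Y.W q (fun _ => 1) (fun _ => 1) (fun _ => 1) i 0 j 0 := by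
        unfold W
        refine Y.E_mono fun l _ => ?_
        simp only [E_zero]
        refine (Y.E_abs _ _).trans (le_of_eq ?_)
        refine Y.E_congr fun η _ => ?_
        simp
    _ = Y.W (p.conv ((p.conv (Law.dirac v)).conv ((Law.dirac v).conv (p.conv p))))
          (fun _ => 1) (fun _ => 1) (fun _ => 1) i 0 j 0 :=
        Y.W_congr (AddLAux.mu_ex v p) _ _ _ _ _ _ _
    _ ≤ _ := Y.W_conv p _ (fun _ => zero_le_one) i 0 j 0
    _ ≤ e := by
        refine Law.ex_le' _ fun a => Law.ex_le' _ fun b => ?_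
        have ha := hr a
        have hb := hr b
        exact hW _ _ _ _ (by omega) (by omega) (by omega) (by omega)

/-- the sum of the weights of the words `ξ γ₁ γ₂ λ₁ ρ₁ γ₃ γ₄ η`, with a function of
`ξ γ₁ γ₂ λ₁` and `ρ₁ γ₃ γ₄ η` -/
noncomputable def cut (v : ℕ) (p : Law) (F : List S → List S → ℝ) (i j : ℕ) : ℝ :=
  ((p.conv p).conv (Law.dirac v)).ex fun m => ((Law.dirac v).conv (p.conv p)).ex fun n =>
    Y.E (i + m) fun l => Y.E (n + j) fun r => F l r * Y.sv (l ++ r)

theorem cut_one (v : ℕ) (p : Law) (i j : ℕ) :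
    Y.cut v p (fun _ _ => 1) i j = (mu v p).ex fun m => Y.a (m + (i + j)) := by
  unfold cut mu
  rw [Law.ex_conv ((p.conv p).conv (Law.dirac v)) ((Law.dirac v).conv (p.conv p))
    (fun m => Y.a (m + (i + j)))]
  refine Law.ex_congr _ fun m => Law.ex_congr _ fun n => ?_
  simp only [one_mul]
  rw [← E_add]
  show Y.a _ = Y.a _
  congr 1
  omega

/-- the part of the words to the right of the cut, summed -/
theorem AddLAux.cut_left_eq (ω : List S → ℝ) (v : ℕ) (p : Law) (i j : ℕ) :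
    Y.cut v p (fun l _ => ω l) i j =
      ((p.conv p).conv (Law.dirac v)).ex fun m => Y.E (i + m) fun l =>
        ω l * Y.E j fun η => Y.kk ((Law.dirac v).conv (p.conv p)) l η := by
  unfold cut
  refine Law.ex_congr _ fun m => ?_
  rw [AddLAux.E_eps]
  refine Y.E_congr fun l _ => ?_
  rw [show (fun n => Y.E (n + j) fun r => ω l * Y.sv (l ++ r)) =
    fun n => ω l * Y.E (n + j) fun r => Y.sv (l ++ r) from
      funext fun n => Y.E_mul_left _ _ _, Law.ex_mul_left]
  congr 1
  unfold kk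
  rw [E_ex]
  refine Law.ex_congr _ fun n => ?_
  rw [E_add, E_comm]
  refine Y.E_congr fun η _ => ?_
  unfold k
  refine Y.E_congr fun γ _ => ?_
  rw [List.append_assoc]

/-- product of two expectations of sums -/
theorem AddLAux.ex_prod_diff (q : Law) (f g f' g' : ℕ → ℝ) :
    q.ex f * q.ex g - q.ex f' * q.ex g' = q.ex fun m => q.ex fun m' => f m * g m' - f' m * g' m' := by
  rw [Law.mul_ex, Law.mul_ex, ← Law.ex_sub]
  refine q.ex_congr fun m => ?_
  rw [← Law.ex_sub]

/-- additivity of the contribution of the left part -/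
theorem add_left (xs : V →+ ℝ) {v N : ℕ} {p : Law} {e : ℝ} (hp : p.Le v)
    (hW : ∀ i i' j j', i ≤ N → i' ≤ N → j ≤ N → j' ≤ N →
      Y.W p (Y.X2 xs) (fun _ => 1) (fun _ => 1) i i' j j' ≤ e)
    {i j : ℕ} (hij : i + j + 8 * v ≤ N) :
    |Y.cut v p (fun l _ => Y.X2 xs l) i j * Y.cut v p (fun _ _ => 1) 0 0 +
      Y.cut v p (fun _ _ => 1) i j * Y.cut v p (fun l _ => Y.X2 xs l) 0 0 -
      Y.cut v p (fun l _ => Y.X2 xs l) i 0 * Y.cut v p (fun _ _ => 1) 0 j -
      Y.cut v p (fun _ _ => 1) i 0 * Y.cut v p (fun l _ => Y.X2 xs l) 0 j| ≤ 2 * e := by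
  set qL := (p.conv p).conv (Law.dirac v) with hqL
  set qR := (Law.dirac v).conv (p.conv p) with hqR
  have hL : qL.Le (3 * v) := by
    have := (hp.conv hp).conv (Law.le_dirac (le_refl v))
    exact this.mono (by omega)
  have hr : ((Law.dirac v).conv p).Le (2 * v) := by
    have := (Law.le_dirac (le_refl v)).conv hp
    exact this.mono (by omega)
  have hX := AddLAux.X2_nonneg Y xs
  -- the bound on the minors with the law of the right gap
  have key : ∀ a b : ℕ, a + j + 2 * v ≤ N → b ≤ N →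
      Y.W qR (Y.X2 xs) (fun _ => 1) (fun _ => 1) a b j 0 ≤ e := by
    intro a b ha hb
    rw [Y.W_congr (AddLAux.muR_ex v p)]
    refine (Y.W_conv p _ hX a b j 0).trans ?_
    refine Law.ex_le' _ fun c => Law.ex_le' _ fun d => ?_
    have hc := hr c
    have hd := hr d
    exact hW _ _ _ _ (by omega) (by omega) (by omega) (by omega)
  have key' : ∀ a b : ℕ, a ≤ N → b ≤ N → j + 2 * v ≤ N →
      Y.W qR (Y.X2 xs) (fun _ => 1) (fun _ => 1) a b j 0 ≤ e := by
    intro a b ha hb hj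
    rw [Y.W_congr (AddLAux.muR_ex v p)]
    refine (Y.W_conv p _ hX a b j 0).trans ?_
    refine Law.ex_le' _ fun c => Law.ex_le' _ fun d => ?_
    have hc := hr c
    have hd := hr d
    exact hW _ _ _ _ (by omega) (by omega) (by omega) (by omega)
  have k1 : |Y.cut v p (fun l _ => Y.X2 xs l) i j * Y.cut v p (fun _ _ => 1) 0 0 -
      Y.cut v p (fun l _ => Y.X2 xs l) i 0 * Y.cut v p (fun _ _ => 1) 0 j| ≤ e := by
    rw [AddLAux.cut_left_eq Y (Y.X2 xs), AddLAux.cut_left_eq Y (fun _ => 1),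
      AddLAux.cut_left_eq Y (Y.X2 xs), AddLAux.cut_left_eq Y (fun _ => 1),
      AddLAux.ex_prod_diff]
    refine (Law.abs_ex _ _).trans (Law.ex_le' _ fun c => ?_)
    refine (Law.abs_ex _ _).trans (Law.ex_le' _ fun d => ?_)
    have hc := hL c
    have hd := hL d
    simp only [E_zero]
    rw [AddLAux.prod_diff]
    refine le_trans ?_ (key' (i + qL.len c) (0 + qL.len d) (by omega) (by omega) (by omega))
    unfold W
    refine (Y.E_abs _ _).trans (Y.E_mono fun l _ => ?_)
    refine (Y.E_abs _ _).trans (Y.E_mono fun l' _ => ?_)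
    refine (Y.E_abs _ _).trans (Y.E_mono fun η _ => ?_)
    simp only [E_zero, mul_one]
    rw [abs_mul, abs_of_nonneg (hX l)]
  have k2 : |Y.cut v p (fun _ _ => 1) i j * Y.cut v p (fun l _ => Y.X2 xs l) 0 0 -
      Y.cut v p (fun _ _ => 1) i 0 * Y.cut v p (fun l _ => Y.X2 xs l) 0 j| ≤ e := by
    rw [AddLAux.cut_left_eq Y (Y.X2 xs), AddLAux.cut_left_eq Y (fun _ => 1),
      AddLAux.cut_left_eq Y (Y.X2 xs), AddLAux.cut_left_eq Y (fun _ => 1),
      AddLAux.ex_prod_diff]
    refine (Law.abs_ex _ _).trans (Law.ex_le' _ fun c => ?_)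
    refine (Law.abs_ex _ _).trans (Law.ex_le' _ fun d => ?_)
    have hc := hL c
    have hd := hL d
    simp only [E_zero]
    rw [AddLAux.prod_diff]
    refine le_trans ?_ (key' (0 + qL.len d) (i + qL.len c) (by omega) (by omega) (by omega))
    rw [← Y.W_swap_rows]
    refine (Y.E_abs _ _).trans (Y.E_mono fun l _ => ?_)
    refine (Y.E_abs _ _).trans (Y.E_mono fun l' _ => ?_)
    refine (Y.E_abs _ _).trans (Y.E_mono fun η _ => ?_)
    simp only [E_zero, one_mul]
    rw [abs_mul, abs_of_nonneg (hX l')]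
  have h3 := abs_add_le
    (Y.cut v p (fun l _ => Y.X2 xs l) i j * Y.cut v p (fun _ _ => 1) 0 0 -
      Y.cut v p (fun l _ => Y.X2 xs l) i 0 * Y.cut v p (fun _ _ => 1) 0 j)
    (Y.cut v p (fun _ _ => 1) i j * Y.cut v p (fun l _ => Y.X2 xs l) 0 0 -
      Y.cut v p (fun _ _ => 1) i 0 * Y.cut v p (fun l _ => Y.X2 xs l) 0 j)
  calc _ = |(Y.cut v p (fun l _ => Y.X2 xs l) i j * Y.cut v p (fun _ _ => 1) 0 0 -
      Y.cut v p (fun l _ => Y.X2 xs l) i 0 * Y.cut v p (fun _ _ => 1) 0 j) +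
    (Y.cut v p (fun _ _ => 1) i j * Y.cut v p (fun l _ => Y.X2 xs l) 0 0 -
      Y.cut v p (fun _ _ => 1) i 0 * Y.cut v p (fun l _ => Y.X2 xs l) 0 j)| := by
        congr 1; ring
    _ ≤ 2 * e := by linarith

/-- the right part is the mirror image of the left part -/
theorem cut_right (xs : V →+ ℝ) (v : ℕ) (p : Law) (i j : ℕ) :
    Y.cut v p (fun _ r => Y.X2 xs r) i j = Y.cut v p (fun l _ => Y.X2 xs l) j i := by
  unfold cut
  have hX : ∀ w : List S, Y.X2 xs w.reverse = Y.X2 xs w := by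
    intro w
    unfold X2
    rw [sm_reverse]
  have hsv : ∀ u w : List S, Y.sv (u.reverse ++ w.reverse) = Y.sv (w ++ u) := by
    intro u w
    rw [← List.reverse_append, sv_reverse]
  calc (((p.conv p).conv (Law.dirac v)).ex fun m => ((Law.dirac v).conv (p.conv p)).ex fun n =>
        Y.E (i + m) fun l => Y.E (n + j) fun r => Y.X2 xs r * Y.sv (l ++ r))
      = ((p.conv p).conv (Law.dirac v)).ex fun m => ((Law.dirac v).conv (p.conv p)).ex fun n =>
        Y.E (j + n) fun l => Y.E (m + i) fun r => Y.X2 xs l * Y.sv (l ++ r) := by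
        refine Law.ex_congr _ fun m => Law.ex_congr _ fun n => ?_
        rw [← Y.E_reverse, add_comm j n, add_comm m i, Y.E_comm (n + j)]
        refine Y.E_congr fun l _ => ?_
        rw [← Y.E_reverse]
        refine Y.E_congr fun r _ => ?_
        rw [hX, hsv]
    _ = ((Law.dirac v).conv (p.conv p)).ex fun m => ((Law.dirac v).conv (p.conv p)).ex fun n =>
        Y.E (j + n) fun l => Y.E (m + i) fun r => Y.X2 xs l * Y.sv (l ++ r) :=
        AddLAux.muL_ex v p _
    _ = ((Law.dirac v).conv (p.conv p)).ex fun n => ((Law.dirac v).conv (p.conv p)).ex fun m =>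
        Y.E (j + n) fun l => Y.E (m + i) fun r => Y.X2 xs l * Y.sv (l ++ r) :=
        Law.ex_comm _ _ _
    _ = _ := (AddLAux.muL_ex v p _).symm

end Sys

end Pool.Agent.Bub4
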