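import Pool.Agent.Bub4.Step
import Pool.Agent.Bub4.Laws

/-!
# The chain of gaps
-/

set_option autoImplicit false

namespace Pool.Agent.Bub4

open Finset

namespace Sys

variable {S V : Type} [Fintype S] [AddCommGroup V] (Y : Sys S V)

namespace ChainAux

theorem W_mono_col {p : Law} {ω ρ ρ' ρ2 ρ2' : List S → ℝ} (hω : ∀ w, 0 ≤ ω w)
    (hρ : ∀ w, 0 ≤ ρ w) (hρ' : ∀ w, 0 ≤ ρ' w) (h : ∀ w, ρ w ≤ ρ2 w) (h' : ∀ w, ρ' w ≤ ρ2' w)
    (i i' j j' : ℕ) : Y.W p ω ρ ρ' i i' j j' ≤ Y.W p ω ρ2 ρ2' i i' j j' := by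
  unfold W
  refine Y.E_mono fun ξ _ => Y.E_mono fun ξ' _ => Y.E_mono fun η _ => Y.E_mono fun η' _ => ?_
  have h0 : 0 ≤ ω ξ * |Y.mn p ξ ξ' η η'| := mul_nonneg (hω _) (abs_nonneg _)
  have h1 := mul_le_mul_of_nonneg_left (h η) h0
  exact mul_le_mul h1 (h' η') (hρ' _) (mul_nonneg h0 ((hρ η).trans (h η)))

theorem W_le_K {K B : ℝ} (hY : Y.Crit K B) {p q q' : Law} {ω : List S → ℝ}
    (hω : ∀ w, 0 ≤ ω w) (i i' j j' : ℕ) :
    Y.W p ω (fun η => Y.kk q η []) (fun η => Y.kk q' η []) i i' j j' ≤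
      K ^ 2 * Y.W p ω (fun _ => 1) (fun _ => 1) i i' j j' := by
  have h1 := W_mono_col Y (p := p) hω (ρ := fun η => Y.kk q η [])
    (ρ' := fun η => Y.kk q' η []) (ρ2 := fun _ => K) (ρ2' := fun _ => K)
    (fun w => Y.kk_nonneg _ _ _) (fun w => Y.kk_nonneg _ _ _) (fun w => hY.kk_le_K _ _ _)
    (fun w => hY.kk_le_K _ _ _) i i' j j'
  refine h1.trans (le_of_eq ?_)
  have h2 : Y.W p ω (fun _ => K) (fun _ => K) i i' j j' =
      Y.E i fun ξ => Y.E i' fun ξ' => Y.E j fun η => Y.E j' fun η' =>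
        K ^ 2 * (ω ξ * |Y.mn p ξ ξ' η η'| * 1 * 1) := by
    unfold W
    refine Y.E_congr fun ξ _ => Y.E_congr fun ξ' _ => Y.E_congr fun η _ => Y.E_congr fun η' _ => ?_
    ring
  rw [h2, E4_const]
  rfl

/-- the minors vanish unless the columns are self-avoiding -/
theorem mn_sv (p : Law) (ξ ξ' η η' : List S) :
    |Y.mn p ξ ξ' η η'| * Y.sv η * Y.sv η' = |Y.mn p ξ ξ' η η'| := by
  have h1 : ∀ a b : List S, Y.kk p a b * Y.sv b = Y.kk p a b := by
    intro a b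
    rw [Y.kk_eq_sv_mul p a b, mul_assoc, Y.sv_mul_self]
  have h2 : Y.mn p ξ ξ' η η' * Y.sv η * Y.sv η' = Y.mn p ξ ξ' η η' := by
    unfold mn
    calc (Y.kk p ξ η * Y.kk p ξ' η' - Y.kk p ξ η' * Y.kk p ξ' η) * Y.sv η * Y.sv η' =
        (Y.kk p ξ η * Y.sv η) * (Y.kk p ξ' η' * Y.sv η') -
        (Y.kk p ξ η' * Y.sv η') * (Y.kk p ξ' η * Y.sv η) := by ring
      _ = _ := by rw [h1, h1, h1, h1]
  calc |Y.mn p ξ ξ' η η'| * Y.sv η * Y.sv η' =
      |Y.mn p ξ ξ' η η' * Y.sv η * Y.sv η'| := by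
        rw [abs_mul, abs_mul, abs_of_nonneg (Y.sv_nonneg η), abs_of_nonneg (Y.sv_nonneg η')]
    _ = _ := by rw [h2]

theorem W_one_eq (p : Law) (ω : List S → ℝ) (i i' j j' : ℕ) :
    Y.W p ω (fun η => Y.kk (Law.dirac 0) η []) (fun η => Y.kk (Law.dirac 0) η []) i i' j j' =
      Y.W p ω (fun _ => 1) (fun _ => 1) i i' j j' := by
  unfold W
  refine Y.E_congr fun ξ _ => Y.E_congr fun ξ' _ => Y.E_congr fun η _ => Y.E_congr fun η' _ => ?_
  have h1 : ∀ w : List S, Y.kk (Law.dirac 0) w [] = Y.sv w := by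
    intro w
    rw [kk_dirac, k_zero, List.append_nil]
  simp only [h1, mul_one]
  rw [mul_assoc, mul_assoc, ← mul_assoc (|Y.mn p ξ ξ' η η'|), mn_sv]

theorem kap_nonneg {K B : ℝ} (hK : 0 ≤ K) (hB : 0 ≤ B) : 0 ≤ kap K B := by
  unfold kap
  positivity

theorem kap_le_one {K B : ℝ} (hK : 1 ≤ K) (hB : 1 ≤ B) : kap K B ≤ 1 := by
  unfold kap
  have hB2 : 1 ≤ B ^ 2 := one_le_pow₀ hB
  have hKB : 1 ≤ K * B := by
    calc (1 : ℝ) = 1 * 1 := by ring
      _ ≤ K * B := mul_le_mul hK hB zero_le_one (by linarith)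
  have hKB2 : 1 ≤ (K * B) ^ 2 := one_le_pow₀ hKB
  have h1 : 9 * 1 * 1 ≤ 9 * B ^ 2 * (K * B) ^ 2 :=
    mul_le_mul (mul_le_mul_of_nonneg_left hB2 (by norm_num)) hKB2 zero_le_one (by positivity)
  exact inv_le_one_of_one_le₀ (by linarith)

end ChainAux

open ChainAux in
theorem chain {K B : ℝ} (hY : Y.Crit K B) : ∃ C : ℝ, 0 ≤ C ∧
    ∀ (n v N m0 i i' j j' : ℕ) (p : Law) (ω : List S → ℝ) (Mω Fω : ℝ),
      1 ≤ n → 1 ≤ v → (∀ w, 0 ≤ ω w) → p.Le m0 → 
      i + m0 + 17 * n * v + v ≤ N → i' + m0 + 17 * n * v + v ≤ N →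
      25 * v + 17 * n * v + j ≤ N → 25 * v + 17 * n * v + j' ≤ N →
      0 ≤ Mω → (Y.E i fun w => ω w * Y.sv w) ≤ Mω →
      (∀ l < n, Y.ce ω (cl v l p) i v j ≤ Fω ∧ Y.ce ω (cl v l p) i v j' ≤ Fω ∧
        Y.ce ω (cl v l p) i v v ≤ Fω) →
      Y.W (cl v n p) ω (fun _ => 1) (fun _ => 1) i i' j j' ≤
        (1 - kap K B) ^ n * K ^ 2 * Y.W p ω (fun _ => 1) (fun _ => 1) i i' v v +
        n * C * (Mω * Y.H v N + Fω) := by
  obtain ⟨C, hC, hstep⟩ := Y.step hY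
  have hK := hY.one_le_K
  have hK0 := hY.K_pos
  have hB := hY.one_le_B
  have hκ0 : 0 ≤ kap K B := kap_nonneg (by linarith) (by linarith)
  have hκ1 : kap K B ≤ 1 := kap_le_one hK hB
  refine ⟨C, hC, ?_⟩
  intro n v N m0 i i' j j' p ω Mω Fω hn hv hω hp hi hi' hj hj' hMω hM hce
  have hH : 0 ≤ Y.H v N := H_nonneg' v N
  have hFω : 0 ≤ Fω := by
    refine le_trans ?_ (hce 0 hn).1
    rw [← ce_eq]
    exact Y.E_nonneg' fun ξ => Y.E_nonneg' fun η =>
      mul_nonneg (hω ξ) (sub_nonneg.2 (Y.comp_le _ _ _ _ _))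
  set X : ℝ := C * (Mω * Y.H v N + Fω) with hX
  have hX0 : 0 ≤ X := by positivity
  have key : ∀ l : ℕ, l + 1 ≤ n → ∀ (q q' : Law) (n0 n0' j1 j1' : ℕ), q.Le n0 → q'.Le n0' →
      (v ≤ j1 ∨ q = Law.dirac 0) → (v ≤ j1' ∨ q' = Law.dirac 0) →
      (j1 = j ∨ j1 = v) → (j1' = j' ∨ j1' = v) →
      25 * v + 17 * l * v + j1 + n0 ≤ N → 25 * v + 17 * l * v + j1' + n0' ≤ N →
      Y.W (cl v (l + 1) p) ω (fun η => Y.kk q η []) (fun η => Y.kk q' η []) i i' j1 j1' ≤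
        (1 - kap K B) ^ (l + 1) * K ^ 2 * Y.W p ω (fun _ => 1) (fun _ => 1) i i' v v +
          ((l + 1 : ℕ) : ℝ) * X := by
    intro l
    induction l with
    | zero =>
      intro hl q q' n0 n0' j1 j1' hq hq' hvj hvj' hjj hjj' hN hN'
      have hc0 := hce 0 hn
      have c1 : Y.ce ω (cl v 0 p) i v j1 ≤ Fω := by
        rcases hjj with rfl | rfl
        · exact hc0.1
        · exact hc0.2.2
      have c2 : Y.ce ω (cl v 0 p) i v j1' ≤ Fω := by
        rcases hjj' with rfl | rfl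
        · exact hc0.2.1
        · exact hc0.2.2
      have h := hstep v N m0 n0 n0' i i' j1 j1' p q q' ω Mω Fω hv hω hp hq hq' hvj hvj'
        (by omega) (by omega) (by omega) (by omega) hM c1 c2
      have h2 := W_le_K Y hY (p := p) (q := (P v).conv ((Law.dirac j1).conv q))
        (q' := (P v).conv ((Law.dirac j1').conv q')) hω i i' v v
      have h3 := mul_le_mul_of_nonneg_left h2 (by linarith : 0 ≤ 1 - kap K B)
      have e1 : cl v (0 + 1) p = p.conv ((Law.dirac v).conv (P v)) := rfl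
      rw [e1]
      have e2 : (((0 + 1 : ℕ) : ℝ)) * X = X := by push_cast; ring
      rw [e2, zero_add, pow_one]
      linarith
    | succ l ih =>
      intro hl q q' n0 n0' j1 j1' hq hq' hvj hvj' hjj hjj' hN hN'
      have hc0 := hce (l + 1) (by omega)
      have c1 : Y.ce ω (cl v (l + 1) p) i v j1 ≤ Fω := by
        rcases hjj with rfl | rfl
        · exact hc0.1
        · exact hc0.2.2
      have c2 : Y.ce ω (cl v (l + 1) p) i v j1' ≤ Fω := by
        rcases hjj' with rfl | rfl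
        · exact hc0.2.1
        · exact hc0.2.2
      have hle := cl_le hp v (l + 1)
      have hmul : 17 * (l + 1) * v + 17 * v ≤ 17 * n * v := by
        have : 17 * (l + 1) * v + 17 * v = 17 * (l + 2) * v := by ring
        rw [this]
        exact Nat.mul_le_mul_right _ (by omega)
      have h := hstep v N (m0 + 17 * (l + 1) * v) n0 n0' i i' j1 j1' (cl v (l + 1) p) q q' ω
        Mω Fω hv hω hle hq hq' hvj hvj' (by omega) (by omega) (by omega) (by omega) hM c1 c2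
      have hmul2 : 17 * (l + 1) * v = 17 * l * v + 17 * v := by ring
      have hq1 : ((P v).conv ((Law.dirac j1).conv q)).Le (16 * v + (j1 + n0)) :=
        (P_le v).conv ((Law.le_dirac le_rfl).conv hq)
      have hq1' : ((P v).conv ((Law.dirac j1').conv q')).Le (16 * v + (j1' + n0')) :=
        (P_le v).conv ((Law.le_dirac le_rfl).conv hq')
      have h2 := ih (by omega) ((P v).conv ((Law.dirac j1).conv q))
        ((P v).conv ((Law.dirac j1').conv q')) _ _ v v hq1 hq1' (Or.inl le_rfl)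
        (Or.inl le_rfl) (Or.inr rfl) (Or.inr rfl) (by omega) (by omega)
      have h3 := mul_le_mul_of_nonneg_left h2 (by linarith : 0 ≤ 1 - kap K B)
      have e1 : cl v (l + 1 + 1) p = (cl v (l + 1) p).conv ((Law.dirac v).conv (P v)) := rfl
      rw [e1]
      have h4 : (1 - kap K B) * (((l + 1 : ℕ) : ℝ) * X) ≤ 1 * (((l + 1 : ℕ) : ℝ) * X) :=
        mul_le_mul_of_nonneg_right (by linarith) (by positivity)
      have e2 : (1 - kap K B) * ((1 - kap K B) ^ (l + 1) * K ^ 2 *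
          Y.W p ω (fun _ => 1) (fun _ => 1) i i' v v + ((l + 1 : ℕ) : ℝ) * X) =
          (1 - kap K B) ^ (l + 1 + 1) * K ^ 2 * Y.W p ω (fun _ => 1) (fun _ => 1) i i' v v +
          (1 - kap K B) * (((l + 1 : ℕ) : ℝ) * X) := by ring
      have e3 : (((l + 1 + 1 : ℕ) : ℝ)) * X = 1 * (((l + 1 : ℕ) : ℝ) * X) + X := by
        push_cast; ring
      rw [e2] at h3
      rw [e3]
      linarith
  obtain ⟨l, rfl⟩ : ∃ l, n = l + 1 := ⟨n - 1, by omega⟩
  have hmul2 : 17 * (l + 1) * v = 17 * l * v + 17 * v := by ring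
  have h := key l le_rfl (Law.dirac 0) (Law.dirac 0) 0 0 j j' (Law.le_dirac le_rfl)
    (Law.le_dirac le_rfl) (Or.inr rfl) (Or.inr rfl) (Or.inl rfl) (Or.inl rfl) (by omega)
    (by omega)
  rw [W_one_eq] at h
  have e : ((l + 1 : ℕ) : ℝ) * C * (Mω * Y.H v N + Fω) = ((l + 1 : ℕ) : ℝ) * X := by
    rw [hX]; ring
  rw [e]
  exact h

end Sys

end Pool.Agent.Bub4
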