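import Mathlib

/-!
# Self-avoiding words: definitions

Words over a finite set of steps with displacements in an abelian group; weights `z ^ length`;
connection kernels, laws of lengths, `2 × 2` minors of the connection kernel.
-/

set_option autoImplicit false

namespace Pool.Agent.Bub4

open Finset

/-- A finite set of steps, symmetric under an involution, and an activity `z`. -/
structure Sys (S V : Type) [Fintype S] [AddCommGroup V] where
  vec : S → V
  neg : S → S
  vec_neg : ∀ s, vec (neg s) = - vec s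
  neg_neg : ∀ s, neg (neg s) = s
  z : ℝ
  z_pos : 0 < z

open Classical in
/-- the indicator of `x = 0` -/
noncomputable def dl {V : Type} [AddCommGroup V] (x : V) : ℝ := if x = 0 then 1 else 0

/-- A law of a random length: a nonempty finite family of lengths, uniformly weighted. -/
structure Law where
  ι : Type
  [fin : Fintype ι]
  [ne : Nonempty ι]
  len : ι → ℕ

attribute [instance] Law.fin Law.ne

namespace Law

/-- expectation -/
noncomputable def ex (p : Law) (f : ℕ → ℝ) : ℝ := (Fintype.card p.ι : ℝ)⁻¹ * ∑ i, f (p.len i)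

/-- the deterministic length `n` -/
def dirac (n : ℕ) : Law := ⟨Unit, fun _ => n⟩

/-- the uniform law on `x, x + 1, …, x + y` -/
def unif (x y : ℕ) : Law := ⟨Fin (y + 1), fun i => x + i⟩

/-- the law of a sum of two independent lengths -/
def conv (p q : Law) : Law := ⟨p.ι × q.ι, fun i => p.len i.1 + q.len i.2⟩

/-- all lengths are at most `N` -/
def Le (p : Law) (N : ℕ) : Prop := ∀ i, p.len i ≤ N

/-- the law has density at most `D` -/
def Dens (p : Law) (D : ℝ) : Prop :=
  ∀ (f : ℕ → ℝ) (N : ℕ), (∀ m, 0 ≤ f m) → p.Le N → p.ex f ≤ D * ∑ m ∈ range (N + 1), f m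

end Law

namespace Sys

variable {S V : Type} [Fintype S] [AddCommGroup V] (Y : Sys S V)

/-- displacement of a word -/
def sm (w : List S) : V := (w.map Y.vec).sum

/-- self-avoiding words: no nonempty factor has displacement `0` -/
def Saw (w : List S) : Prop := ∀ b, b <:+: w → b ≠ [] → Y.sm b ≠ 0

open Classical in
/-- the indicator of self-avoiding words -/
noncomputable def sv (w : List S) : ℝ := if Y.Saw w then 1 else 0

/-- the sum of `z ^ n F w` over all words `w` of length `n` -/
noncomputable def E : ℕ → (List S → ℝ) → ℝ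
  | 0, F => F []
  | n + 1, F => Y.z * ∑ s, E n (fun w => F (s :: w))

/-- weight of the self-avoiding words of length `n` -/
noncomputable def a (n : ℕ) : ℝ := Y.E n Y.sv

/-- weight of the pairs of self-avoiding words of lengths `s`, `t` with opposite displacements -/
noncomputable def b (s t : ℕ) : ℝ :=
  Y.E s fun u => Y.E t fun w => Y.sv u * Y.sv w * dl (Y.sm u + Y.sm w)

/-- The standing assumptions: `1 ≤ a n ≤ K` and the bubble diagram is at most `B`. -/
structure Crit (K B : ℝ) : Prop where
  a_ge : ∀ n, 1 ≤ Y.a n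
  a_le : ∀ n, Y.a n ≤ K
  b_le : ∀ N, ∑ s ∈ range N, ∑ t ∈ range N, Y.b s t ≤ B

/-- the connection kernel: weight of the words `γ` of length `m` with `ξ γ η` self-avoiding -/
noncomputable def k (m : ℕ) (ξ η : List S) : ℝ := Y.E m fun γ => Y.sv (ξ ++ γ ++ η)

/-- the averaged connection kernel -/
noncomputable def kk (p : Law) (ξ η : List S) : ℝ := p.ex fun m => Y.k m ξ η

/-- `2 × 2` minors of the averaged kernel -/
noncomputable def mn (p : Law) (ξ ξ' η η' : List S) : ℝ :=
  Y.kk p ξ η * Y.kk p ξ' η' - Y.kk p ξ η' * Y.kk p ξ' η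

/-- weighted sum of the absolute values of the minors over rows of lengths `i`, `i'` and columns
of lengths `j`, `j'` -/
noncomputable def W (p : Law) (ω ρ ρ' : List S → ℝ) (i i' j j' : ℕ) : ℝ :=
  Y.E i fun ξ => Y.E i' fun ξ' => Y.E j fun η => Y.E j' fun η' =>
    ω ξ * |Y.mn p ξ ξ' η η'| * ρ η * ρ' η'

/-- macroscopic part of the bubble diagram -/
noncomputable def H (w N : ℕ) : ℝ :=
  ∑ s ∈ range (N + 1), ∑ t ∈ range (N + 1), if w ≤ max s t then Y.b s t else 0

/-- dyadic part of the bubble diagram -/
noncomputable def gb (r : ℕ) : ℝ :=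
  ∑ s ∈ Ico (2 ^ r) (2 ^ (r + 1)), ∑ t ∈ Ico (2 ^ r) (2 ^ (r + 1)), Y.b s t

/-- error term from the `ℓ²` estimates -/
noncomputable def Sb (N : ℕ) : ℝ :=
  ∑ r ∈ range (N + 1), if 2 ^ r ≤ N then
    (2 : ℝ) ^ r * (if r < 2 then 1 else Y.gb (r - 2) + Y.gb (r - 1) + Y.gb r) else 0

/-- the error functional at scale `v`, all lengths being at most `N` -/
noncomputable def er (v N : ℕ) : ℝ := N * Y.H v N + Y.Sb N

variable (xs : V →+ ℝ)

/-- squared displacement in the direction `xs` -/
noncomputable def X2 (w : List S) : ℝ := (xs (Y.sm w)) ^ 2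

/-- second moments -/
noncomputable def M (n : ℕ) : ℝ := Y.E n fun w => Y.sv w * Y.X2 xs w

/-- the law of the gaps used in the minorisation at scale `v` -/
def P (v : ℕ) : Law := Law.unif (6 * v) (10 * v)

/-- composition error with row weight `ω` -/
noncomputable def ce (ω : List S → ℝ) (p : Law) (i v j : ℕ) : ℝ :=
  Y.E i fun ξ => p.ex fun m => Y.E m fun γ => Y.E v fun σ => (P v).ex fun m' => Y.E m' fun γ' =>
    Y.E j fun η => ω ξ * (Y.sv (ξ ++ γ ++ σ) * Y.sv (σ ++ γ' ++ η) -
      Y.sv (ξ ++ γ ++ σ ++ γ' ++ η))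

/-- the number of far hits between a word `l` and a word `r` attached to its end -/
noncomputable def ht (v : ℕ) (l r : List S) : ℝ :=
  ∑ s ∈ Icc 1 l.length, ∑ t ∈ Icc 1 r.length,
    if v < max s t then dl (Y.sm (l.drop (l.length - s)) + Y.sm (r.take t)) else 0

/-- weight of the pairs `u`, `w` such that `ξ u`, `u w`, `w η` are self-avoiding -/
noncomputable def T (p q : ℕ) (ξ η : List S) : ℝ :=
  Y.E p fun u => Y.E q fun w => Y.sv (ξ ++ u) * Y.sv (u ++ w) * Y.sv (w ++ η)

/-- the law of the gap in the additivity estimates -/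
def mu (v : ℕ) (p : Law) : Law :=
  ((p.conv p).conv (Law.dirac v)).conv ((Law.dirac v).conv (p.conv p))

/-- `n` steps of the chain of gaps -/
def cl (v : ℕ) : ℕ → Law → Law
  | 0, p => p
  | n + 1, p => (cl v n p).conv ((Law.dirac v).conv (P v))

end Sys

end Pool.Agent.Bub4
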