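import Pool.Agent.Bub4.Words

/-!
# Joining two arms at their last intersection
-/

set_option autoImplicit false

namespace Pool.Agent.Bub4

open Finset

namespace Sys

variable {S V : Type} [Fintype S] [AddCommGroup V] (Y : Sys S V)

namespace JoinAux

/-- splitting off the last `s` letters -/
theorem E_split_last {i s : ℕ} (hs : s ≤ i) (G : List S → List S → ℝ) :
    Y.E i (fun α => G (α.take (i - s)) (α.drop (i - s))) =
      Y.E (i - s) fun u => Y.E s fun x => G u x := by
  have h1 : i = (i - s) + s := by omega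
  have h2 : Y.E i (fun α => G (α.take (i - s)) (α.drop (i - s))) =
      Y.E ((i - s) + s) (fun α => G (α.take (i - s)) (α.drop (i - s))) := by rw [← h1]
  rw [h2, E_add]
  refine Y.E_congr fun u hu => Y.E_congr fun x hx => ?_
  rw [List.take_left' hu, List.drop_left' hu]

/-- splitting off the first `t` letters -/
theorem E_split_first {j t : ℕ} (ht : t ≤ j) (G : List S → List S → ℝ) :
    Y.E j (fun β => G (β.take t) (β.drop t)) =
      Y.E t fun y => Y.E (j - t) fun w => G y w := by
  have h1 : j = t + (j - t) := by omega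
  have h2 : Y.E j (fun β => G (β.take t) (β.drop t)) =
      Y.E (t + (j - t)) (fun β => G (β.take t) (β.drop t)) := by rw [← h1]
  rw [h2, E_add]
  refine Y.E_congr fun u hu => Y.E_congr fun x hx => ?_
  rw [List.take_left' hu, List.drop_left' hu]

/-- a term of the pointwise bound -/
noncomputable def term (i : ℕ) (ξ η α β : List S) (s t : ℕ) : ℝ :=
  Y.sv (α.drop (i - s)) * Y.sv (β.take t) *
    dl (Y.sm (α.drop (i - s)) + Y.sm (β.take t)) *
    (Y.sv (ξ ++ α.take (i - s)) * Y.sv (α.take (i - s) ++ β.drop t) * Y.sv (β.drop t ++ η))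

theorem term_nonneg (i : ℕ) (ξ η α β : List S) (s t : ℕ) : 0 ≤ term Y i ξ η α β s t := by
  unfold term
  have h1 := Y.sv_nonneg (α.drop (i - s))
  have h2 := Y.sv_nonneg (β.take t)
  have h3 := dl_nonneg (Y.sm (α.drop (i - s)) + Y.sm (β.take t))
  have h4 := Y.sv_nonneg (ξ ++ α.take (i - s))
  have h5 := Y.sv_nonneg (α.take (i - s) ++ β.drop t)
  have h6 := Y.sv_nonneg (β.drop t ++ η)
  positivity

/-- the last intersection -/
theorem exists_last (i j : ℕ) (ξ η α β : List S) (hα : α.length = i) (hβ : β.length = j)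
    (h1 : Y.Saw (ξ ++ α)) (h2 : Y.Saw (β ++ η)) :
    ∃ s t, s ≤ i ∧ t ≤ j ∧ Y.sm (α.drop (i - s)) + Y.sm (β.take t) = 0 ∧
      Y.Saw (α.take (i - s) ++ β.drop t) := by
  classical
  let P : ℕ → Prop := fun s => s ≤ i ∧ ∃ t, t ≤ j ∧
    Y.sm (α.drop (i - s)) + Y.sm (β.take t) = 0
  have hP0 : P 0 := ⟨Nat.zero_le _, 0, Nat.zero_le _, by simp [← hα]⟩
  have hbd : ∀ s, P s → s ≤ i := fun s hs => hs.1
  let s := Nat.findGreatest P i
  have hPs : P s := Nat.findGreatest_spec (P := P) (Nat.zero_le i) hP0
  have hmax : ∀ s', P s' → s' ≤ s := fun s' hs' => Nat.le_findGreatest (hbd s' hs') hs'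
  obtain ⟨hsi, t, htj, hst⟩ := hPs
  refine ⟨s, t, hsi, htj, hst, ?_⟩
  intro b hb hbne hb0
  have hαu : α.take (i - s) <:+: ξ ++ α :=
    ((List.take_prefix _ _).isInfix).trans (List.suffix_append _ _).isInfix
  have hβw : β.drop t <:+: β ++ η :=
    ((List.drop_suffix _ _).isInfix).trans (List.prefix_append _ _).isInfix
  rcases List.infix_append_iff_ne_nil.1 hb with h | h | ⟨l1, l2, hl1, hl2, hl, hs1, hp2⟩
  · exact h1 b (h.trans hαu) hbne hb0
  · exact h2 b (h.trans hβw) hbne hb0
  · obtain ⟨u', hu'⟩ := hs1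
    obtain ⟨w', hw'⟩ := hp2
    have hlen1 : 0 < l1.length := List.length_pos_of_ne_nil hl1
    have hulen : u'.length + l1.length = i - s := by
      have := congrArg List.length hu'
      rw [List.length_append, List.length_take, hα] at this
      omega
    have hwlen : l2.length + w'.length = j - t := by
      have := congrArg List.length hw'
      rw [List.length_append, List.length_drop, hβ] at this
      omega
    have hα2 : α = u' ++ (l1 ++ α.drop (i - s)) := by
      conv_lhs => rw [← List.take_append_drop (i - s) α, ← hu']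
      rw [List.append_assoc]
    have hβ2 : β = (β.take t ++ l2) ++ w' := by
      conv_lhs => rw [← List.take_append_drop t β, ← hw']
      rw [List.append_assoc]
    have hdrop : α.drop (i - (s + l1.length)) = l1 ++ α.drop (i - s) := by
      have e : i - (s + l1.length) = u'.length := by omega
      rw [e]
      conv_lhs => rw [hα2]
      rw [List.drop_left]
    have htake : β.take (t + l2.length) = β.take t ++ l2 := by
      have e : (β.take t ++ l2).length = t + l2.length := by
        rw [List.length_append, List.length_take, hβ]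
        omega
      have h := List.take_left' (l₂ := w') e
      rw [← hβ2] at h
      exact h
    have hP' : P (s + l1.length) := by
      refine ⟨by omega, t + l2.length, by omega, ?_⟩
      rw [hdrop, htake, sm_append, sm_append]
      rw [hl, sm_append] at hb0
      have : Y.sm l1 + Y.sm (α.drop (i - s)) + (Y.sm (β.take t) + Y.sm l2) =
        (Y.sm l1 + Y.sm l2) + (Y.sm (α.drop (i - s)) + Y.sm (β.take t)) := by abel
      rw [this, hb0, hst, add_zero]
    have := hmax _ hP'
    omega

theorem pointwise (i j : ℕ) (ξ η α β : List S) (hα : α.length = i) (hβ : β.length = j) :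
    Y.sv (ξ ++ α) * Y.sv (β ++ η) ≤
      ∑ s ∈ range (i + 1), ∑ t ∈ range (j + 1), term Y i ξ η α β s t := by
  have hnn : 0 ≤ ∑ s ∈ range (i + 1), ∑ t ∈ range (j + 1), term Y i ξ η α β s t :=
    Finset.sum_nonneg fun s _ => Finset.sum_nonneg fun t _ => term_nonneg Y i ξ η α β s t
  by_cases h1 : Y.Saw (ξ ++ α)
  swap
  · rw [Y.sv_of_not h1, zero_mul]; exact hnn
  by_cases h2 : Y.Saw (β ++ η)
  swap
  · rw [Y.sv_of_not h2, mul_zero]; exact hnn
  obtain ⟨s, t, hs, ht, hst, hsaw⟩ := exists_last Y i j ξ η α β hα hβ h1 h2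
  have hterm : term Y i ξ η α β s t = 1 := by
    unfold term
    have e1 : Y.Saw (α.drop (i - s)) :=
      h1.fac (((List.drop_suffix _ _).isInfix).trans (List.suffix_append _ _).isInfix)
    have e2 : Y.Saw (β.take t) :=
      h2.fac (((List.take_prefix _ _).isInfix).trans (List.prefix_append _ _).isInfix)
    have e3 : Y.Saw (ξ ++ α.take (i - s)) := by
      refine h1.fac ?_
      conv_rhs => rw [← List.take_append_drop (i - s) α]
      rw [← List.append_assoc]
      exact (List.prefix_append _ _).isInfix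
    have e4 : Y.Saw (β.drop t ++ η) := by
      refine h2.fac ?_
      conv_rhs => rw [← List.take_append_drop t β]
      rw [List.append_assoc]
      exact (List.suffix_append _ _).isInfix
    rw [Y.sv_of e1, Y.sv_of e2, Y.sv_of e3, Y.sv_of e4, Y.sv_of hsaw, dl_of_eq hst]
    norm_num
  rw [Y.sv_of h1, Y.sv_of h2]
  calc (1 : ℝ) * 1 = term Y i ξ η α β s t := by rw [hterm]; norm_num
    _ ≤ ∑ t ∈ range (j + 1), term Y i ξ η α β s t :=
        Finset.single_le_sum (f := fun t => term Y i ξ η α β s t)
          (fun t _ => term_nonneg Y i ξ η α β s t) (Finset.mem_range.2 (by omega))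
    _ ≤ _ := Finset.single_le_sum (f := fun s => ∑ t ∈ range (j + 1), term Y i ξ η α β s t)
          (fun s _ => Finset.sum_nonneg fun t _ => term_nonneg Y i ξ η α β s t)
          (Finset.mem_range.2 (by omega))

theorem term_sum (i j : ℕ) (ξ η : List S) {s t : ℕ} (hs : s ≤ i) (ht : t ≤ j) :
    (Y.E i fun α => Y.E j fun β => term Y i ξ η α β s t) =
      Y.b s t * Y.T (i - s) (j - t) ξ η := by
  have h1 : ∀ α, (Y.E j fun β => term Y i ξ η α β s t) =
      Y.E t fun y => Y.E (j - t) fun w => Y.sv (α.drop (i - s)) * Y.sv y *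
        dl (Y.sm (α.drop (i - s)) + Y.sm y) *
        (Y.sv (ξ ++ α.take (i - s)) * Y.sv (α.take (i - s) ++ w) * Y.sv (w ++ η)) := fun α =>
    E_split_first Y ht fun y w => Y.sv (α.drop (i - s)) * Y.sv y *
        dl (Y.sm (α.drop (i - s)) + Y.sm y) *
        (Y.sv (ξ ++ α.take (i - s)) * Y.sv (α.take (i - s) ++ w) * Y.sv (w ++ η))
  rw [show (fun α => Y.E j fun β => term Y i ξ η α β s t) = _ from funext h1]
  rw [E_split_last Y hs fun u x => Y.E t fun y => Y.E (j - t) fun w => Y.sv x * Y.sv y *
        dl (Y.sm x + Y.sm y) * (Y.sv (ξ ++ u) * Y.sv (u ++ w) * Y.sv (w ++ η))]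
  have h2 : ∀ u, (Y.E s fun x => Y.E t fun y => Y.E (j - t) fun w => Y.sv x * Y.sv y *
        dl (Y.sm x + Y.sm y) * (Y.sv (ξ ++ u) * Y.sv (u ++ w) * Y.sv (w ++ η))) =
      Y.b s t * Y.E (j - t) fun w => (Y.sv (ξ ++ u) * Y.sv (u ++ w) * Y.sv (w ++ η)) := by
    intro u
    unfold b
    rw [← E_mul_right]
    refine Y.E_congr fun x _ => ?_
    rw [← E_mul_right]
    refine Y.E_congr fun y _ => ?_
    rw [E_mul_left]
  simp only [h2]
  rw [E_mul_left]
  rfl

end JoinAux

theorem join_le (i j : ℕ) (ξ η : List S) :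
    Y.k i ξ [] * Y.k j [] η ≤
      ∑ s ∈ range (i + 1), ∑ t ∈ range (j + 1), Y.b s t * Y.T (i - s) (j - t) ξ η := by
  have h1 : Y.k i ξ [] * Y.k j [] η =
      Y.E i fun α => Y.E j fun β => Y.sv (ξ ++ α) * Y.sv (β ++ η) := by
    unfold k
    rw [← E_mul_right]
    refine Y.E_congr fun α _ => ?_
    rw [← E_mul_left]
    refine Y.E_congr fun β _ => ?_
    rw [List.append_nil, List.nil_append]
  rw [h1]
  calc (Y.E i fun α => Y.E j fun β => Y.sv (ξ ++ α) * Y.sv (β ++ η))
      ≤ Y.E i fun α => Y.E j fun β =>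
        ∑ s ∈ range (i + 1), ∑ t ∈ range (j + 1), JoinAux.term Y i ξ η α β s t :=
        Y.E_mono fun α hα => Y.E_mono fun β hβ => JoinAux.pointwise Y i j ξ η α β hα hβ
    _ = ∑ s ∈ range (i + 1), ∑ t ∈ range (j + 1), Y.E i fun α => Y.E j fun β =>
          JoinAux.term Y i ξ η α β s t := by
        simp only [E_fsum]
    _ = _ := by
        refine Finset.sum_congr rfl fun s hs => Finset.sum_congr rfl fun t ht => ?_
        exact JoinAux.term_sum Y i j ξ η (by have := Finset.mem_range.1 hs; omega)
          (by have := Finset.mem_range.1 ht; omega)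

end Sys

end Pool.Agent.Bub4
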