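import Pool.Agent.Bub4.Hits
import Pool.Agent.Bub4.Join

/-!
# The minorisation of the connection kernel
-/

set_option autoImplicit false

namespace Pool.Agent.Bub4

open Finset

namespace Sys

variable {S V : Type} [Fintype S] [AddCommGroup V] (Y : Sys S V)

namespace DoebAux

/-- error term: hits of `ξ u` and `w` -/
noncomputable def er1 (v p q : ℕ) (ξ : List S) : ℝ :=
  Y.E p fun u => Y.E q fun w => Y.sv (ξ ++ u) * Y.sv w * Y.ht v (ξ ++ u) w

/-- error term: hits of `ξ u w` and `η` -/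
noncomputable def er2 (v p q : ℕ) (ξ η : List S) : ℝ :=
  Y.E p fun u => Y.E q fun w => Y.sv (ξ ++ u ++ w) * Y.sv η * Y.ht v (ξ ++ u ++ w) η

/-- trivial bound of `T` -/
noncomputable def T1 (p q : ℕ) (ξ η : List S) : ℝ :=
  Y.E p fun u => Y.E q fun w => Y.sv (ξ ++ u) * Y.sv (w ++ η)

theorem er1_nonneg (v p q : ℕ) (ξ : List S) : 0 ≤ er1 Y v p q ξ :=
  Y.E_nonneg' fun _ => Y.E_nonneg' fun _ =>
    mul_nonneg (mul_nonneg (Y.sv_nonneg _) (Y.sv_nonneg _)) (Y.ht_nonneg _ _ _)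

theorem er2_nonneg (v p q : ℕ) (ξ η : List S) : 0 ≤ er2 Y v p q ξ η :=
  Y.E_nonneg' fun _ => Y.E_nonneg' fun _ =>
    mul_nonneg (mul_nonneg (Y.sv_nonneg _) (Y.sv_nonneg _)) (Y.ht_nonneg _ _ _)

theorem T1_nonneg (p q : ℕ) (ξ η : List S) : 0 ≤ T1 Y p q ξ η :=
  Y.E_nonneg' fun _ => Y.E_nonneg' fun _ => mul_nonneg (Y.sv_nonneg _) (Y.sv_nonneg _)

theorem T_nonneg (p q : ℕ) (ξ η : List S) : 0 ≤ Y.T p q ξ η :=
  Y.E_nonneg' fun _ => Y.E_nonneg' fun _ =>
    mul_nonneg (mul_nonneg (Y.sv_nonneg _) (Y.sv_nonneg _)) (Y.sv_nonneg _)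

theorem T_le_T1 (p q : ℕ) (ξ η : List S) : Y.T p q ξ η ≤ T1 Y p q ξ η := by
  unfold T T1
  refine Y.E_mono fun u _ => Y.E_mono fun w _ => ?_
  have h1 := Y.sv_nonneg (ξ ++ u)
  have h2 := Y.sv_le_one (u ++ w)
  have h3 := Y.sv_nonneg (w ++ η)
  have h4 := mul_le_mul_of_nonneg_left h2 (mul_nonneg h1 h3)
  linarith

theorem T_le {v p q : ℕ} (hp : v ≤ p) (hq : v ≤ q) (ξ η : List S) :
    Y.T p q ξ η ≤ Y.k (p + q) ξ η + (Y.sv η * er1 Y v p q ξ + er2 Y v p q ξ η) := by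
  have h1 : Y.k (p + q) ξ η = Y.E p fun u => Y.E q fun w => Y.sv (ξ ++ u ++ w ++ η) := by
    unfold k
    rw [E_add]
    refine Y.E_congr fun u _ => Y.E_congr fun w _ => ?_
    rw [← List.append_assoc ξ u w]
  rw [h1]
  unfold T er1 er2
  rw [← E_mul_left, ← E_fadd, ← E_fadd]
  refine Y.E_mono fun u hu => ?_
  rw [← E_mul_left, ← E_fadd, ← E_fadd]
  refine Y.E_mono fun w hw => ?_
  have e1 := Y.hit_right v ξ u w (by rw [hu]; exact hp)
  have e2 := Y.hit_right v (ξ ++ u) w η (by rw [hw]; exact hq)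
  have n1 := Y.sv_nonneg (w ++ η)
  have n2 : Y.sv (w ++ η) ≤ Y.sv η := Y.sv_append_right w η
  have n3 : 0 ≤ Y.sv (ξ ++ u) * Y.sv w * Y.ht v (ξ ++ u) w :=
    mul_nonneg (mul_nonneg (Y.sv_nonneg _) (Y.sv_nonneg _)) (Y.ht_nonneg _ _ _)
  have n4 := mul_le_mul_of_nonneg_left e1 n1
  have n5 := mul_le_mul_of_nonneg_right n2 n3
  nlinarith [n4, n5, e2]

theorem T_le_nil {v p q : ℕ} (hp : v ≤ p) (ξ : List S) :
    Y.T p q ξ [] ≤ Y.k (p + q) ξ [] + er1 Y v p q ξ := by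
  have h1 : Y.k (p + q) ξ [] = Y.E p fun u => Y.E q fun w => Y.sv (ξ ++ u ++ w) := by
    unfold k
    rw [E_add]
    refine Y.E_congr fun u _ => Y.E_congr fun w _ => ?_
    rw [← List.append_assoc ξ u w, List.append_nil]
  rw [h1]
  unfold T er1
  rw [← E_fadd]
  refine Y.E_mono fun u hu => ?_
  rw [← E_fadd]
  refine Y.E_mono fun w hw => ?_
  have e1 := Y.hit_right v ξ u w (by rw [hu]; exact hp)
  rw [List.append_nil]
  have n2 := Y.sv_le_one w
  have n3 := mul_nonneg (Y.sv_nonneg (ξ ++ u)) (Y.sv_nonneg (u ++ w))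
  have n4 := mul_le_mul_of_nonneg_left n2 n3
  linarith

variable {Y} in
theorem er1_sum {K B : ℝ} (hY : Y.Crit K B) {v p q i N : ℕ} (h1 : i + p ≤ N) (h2 : q ≤ N) :
    (Y.E i fun ξ => er1 Y v p q ξ) ≤ K ^ 2 * Y.H v N := by
  unfold er1
  have := Y.far_one hY (v := v) (m := i + p) (n := q) h1 h2
  rwa [E_add] at this

variable {Y} in
theorem er2_sum {K B : ℝ} (hY : Y.Crit K B) {v p q i j N : ℕ} (h1 : i + p + q ≤ N) (h2 : j ≤ N) :
    (Y.E i fun ξ => Y.E j fun η => er2 Y v p q ξ η) ≤ K ^ 2 * Y.H v N := by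
  have := Y.far_one hY (v := v) (m := i + p + q) (n := j) h1 h2
  rw [E_add, E_add] at this
  refine le_trans (le_of_eq ?_) this
  refine Y.E_congr fun ξ _ => ?_
  unfold er2
  rw [Y.E_comm j p]
  refine Y.E_congr fun u _ => ?_
  rw [Y.E_comm j q]

variable {Y} in
theorem H_nonneg (v N : ℕ) : 0 ≤ Y.H v N :=
  Finset.sum_nonneg fun s _ => Finset.sum_nonneg fun t _ => by
    split_ifs
    · exact Y.b_nonneg s t
    · exact le_rfl

variable {Y} in
theorem T1_sum {K B : ℝ} (hY : Y.Crit K B) (p q i j : ℕ) :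
    (Y.E i fun ξ => Y.E j fun η => T1 Y p q ξ η) ≤ K ^ 2 := by
  have h1 : (Y.E i fun ξ => Y.E j fun η => T1 Y p q ξ η) = Y.a (i + p) * Y.a (q + j) := by
    unfold a T1
    rw [Y.E_add i p, Y.E_add q j, ← E_mul_right]
    refine Y.E_congr fun ξ _ => ?_
    rw [Y.E_comm j p, ← E_mul_right]
    refine Y.E_congr fun u _ => ?_
    rw [Y.E_comm j q, ← E_mul_left]
    refine Y.E_congr fun w _ => ?_
    rw [← E_mul_left]
  rw [h1, sq]
  exact mul_le_mul (hY.a_le _) (hY.a_le _) (Y.a_nonneg _) hY.K_pos.le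

variable {Y} in
theorem T1_sum_nil {K B : ℝ} (hY : Y.Crit K B) (p q i : ℕ) :
    (Y.E i fun ξ => T1 Y p q ξ []) ≤ K ^ 2 := by
  have := T1_sum hY p q i 0
  simpa using this

theorem len_bd (v : ℕ) : ∀ a : (Law.unif (4 * v) (4 * v)).ι,
    4 * v ≤ (Law.unif (4 * v) (4 * v)).len a ∧ (Law.unif (4 * v) (4 * v)).len a ≤ 8 * v := by
  intro (a : Fin (4 * v + 1))
  have h1 : (a : ℕ) < 4 * v + 1 := a.is_lt
  have h2 : (Law.unif (4 * v) (4 * v)).len a = 4 * v + (a : ℕ) := rfl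
  rw [h2]
  omega

/-- the averaging lemma -/
theorem avg {v s t : ℕ} (hs : s ≤ v) (ht : t ≤ v) (f : ℕ → ℝ) (hf : ∀ m, 0 ≤ f m) :
    ((Law.unif (4 * v) (4 * v)).ex fun i' => (Law.unif (4 * v) (4 * v)).ex fun j' =>
      f ((i' - s) + (j' - t))) ≤ 3 * (P v).ex f := by
  have hP : (P v).ex f = (((10 * v : ℕ) : ℝ) + 1)⁻¹ * ∑ c ∈ range (10 * v + 1), f (6 * v + c) :=
    Law.ex_unif _ _ _
  have hS : 0 ≤ ∑ c ∈ range (10 * v + 1), f (6 * v + c) := Finset.sum_nonneg fun c _ => hf _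
  set Sc := ∑ c ∈ range (10 * v + 1), f (6 * v + c) with hSc
  have h4 : (0 : ℝ) < ((4 * v : ℕ) : ℝ) + 1 := by positivity
  have h10 : (0 : ℝ) < ((10 * v : ℕ) : ℝ) + 1 := by positivity
  have inner : ∀ a, a < 4 * v + 1 →
      ((Law.unif (4 * v) (4 * v)).ex fun j' => f ((4 * v + a - s) + (j' - t))) ≤
        (((4 * v : ℕ) : ℝ) + 1)⁻¹ * Sc := by
    intro a ha
    rw [Law.ex_unif]
    refine mul_le_mul_of_nonneg_left ?_ (inv_nonneg.2 h4.le)
    have e1 : ∑ b ∈ range (4 * v + 1), f ((4 * v + a - s) + (4 * v + b - t)) =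
        ∑ c ∈ (range (4 * v + 1)).map (addLeftEmbedding (2 * v + a - s - t)), f (6 * v + c) := by
      rw [Finset.sum_map]
      refine Finset.sum_congr rfl fun b hb => ?_
      congr 1
      simp only [addLeftEmbedding_apply]
      omega
    rw [e1, hSc]
    refine Finset.sum_le_sum_of_subset_of_nonneg ?_ fun m _ _ => hf _
    intro m hm
    rw [Finset.mem_map] at hm
    obtain ⟨b, hb, rfl⟩ := hm
    rw [Finset.mem_range] at hb ⊢
    simp only [addLeftEmbedding_apply]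
    omega
  have outer : ((Law.unif (4 * v) (4 * v)).ex fun i' => (Law.unif (4 * v) (4 * v)).ex fun j' =>
      f ((i' - s) + (j' - t))) ≤ (((4 * v : ℕ) : ℝ) + 1)⁻¹ * Sc := by
    rw [Law.ex_unif]
    calc (((4 * v : ℕ) : ℝ) + 1)⁻¹ * ∑ a ∈ range (4 * v + 1),
          ((Law.unif (4 * v) (4 * v)).ex fun j' => f ((4 * v + a - s) + (j' - t)))
        ≤ (((4 * v : ℕ) : ℝ) + 1)⁻¹ * ∑ a ∈ range (4 * v + 1),
          ((((4 * v : ℕ) : ℝ) + 1)⁻¹ * Sc) := by
          refine mul_le_mul_of_nonneg_left (Finset.sum_le_sum fun a ha => ?_) (inv_nonneg.2 h4.le)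
          exact inner a (Finset.mem_range.1 ha)
      _ = (((4 * v : ℕ) : ℝ) + 1)⁻¹ * Sc := by
          rw [Finset.sum_const, Finset.card_range, nsmul_eq_mul]
          push_cast
          push_cast at h4
          field_simp
  refine outer.trans ?_
  rw [hP]
  have hfrac : (((4 * v : ℕ) : ℝ) + 1)⁻¹ ≤ 3 * (((10 * v : ℕ) : ℝ) + 1)⁻¹ := by
    rw [inv_eq_one_div, inv_eq_one_div, ← mul_div_assoc, div_le_div_iff₀ h4 h10]
    push_cast
    have : (0 : ℝ) ≤ (v : ℝ) := by positivity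
    nlinarith
  have := mul_le_mul_of_nonneg_right hfrac hS
  linarith

theorem b_sum_le (N : ℕ) (c : ℕ → ℕ → ℝ) {C : ℝ}
    (hc : ∀ s t, c s t ≤ C) :
    ∑ s ∈ range (N + 1), ∑ t ∈ range (N + 1), Y.b s t * c s t ≤
      (∑ s ∈ range (N + 1), ∑ t ∈ range (N + 1), Y.b s t) * C := by
  rw [Finset.sum_mul]
  refine Finset.sum_le_sum fun s _ => ?_
  rw [Finset.sum_mul]
  exact Finset.sum_le_sum fun t _ => mul_le_mul_of_nonneg_left (hc s t) (Y.b_nonneg s t)

theorem split_sum {K B : ℝ} (hY : Y.Crit K B) (v N : ℕ) {C1 C2 : ℝ} (h1 : 0 ≤ C1) (h2 : 0 ≤ C2) :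
    ∑ s ∈ range (N + 1), ∑ t ∈ range (N + 1),
      Y.b s t * (if s ≤ v ∧ t ≤ v then C1 else C2) ≤ B * C1 + C2 * Y.H v N := by
  have hb := hY.b_le (N + 1)
  have key : ∑ s ∈ range (N + 1), ∑ t ∈ range (N + 1),
      Y.b s t * (if s ≤ v ∧ t ≤ v then C1 else C2) ≤
      (∑ s ∈ range (N + 1), ∑ t ∈ range (N + 1), Y.b s t) * C1 + C2 * Y.H v N := by
    unfold H
    rw [Finset.sum_mul, Finset.mul_sum, ← Finset.sum_add_distrib]
    refine Finset.sum_le_sum fun s _ => ?_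
    rw [Finset.sum_mul, Finset.mul_sum, ← Finset.sum_add_distrib]
    refine Finset.sum_le_sum fun t _ => ?_
    have hb0 := Y.b_nonneg s t
    by_cases hst : s ≤ v ∧ t ≤ v
    · rw [if_pos hst]
      have : 0 ≤ C2 * (if v ≤ max s t then Y.b s t else 0) := by
        split_ifs
        · exact mul_nonneg h2 hb0
        · simp
      linarith
    · rw [if_neg hst]
      have hmax : v ≤ max s t := by
        rcases not_and_or.1 hst with h | h
        · exact le_trans (by omega) (le_max_left s t)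
        · exact le_trans (by omega) (le_max_right s t)
      rw [if_pos hmax]
      have := mul_nonneg hb0 h1
      linarith
  refine key.trans ?_
  have := mul_le_mul_of_nonneg_right hb h1
  linarith

/-- extending a double sum of nonnegative terms -/
theorem sum_extend {i j N : ℕ} (hi : i ≤ N) (hj : j ≤ N) (f : ℕ → ℕ → ℝ)
    (hf : ∀ s t, 0 ≤ f s t) :
    ∑ s ∈ range (i + 1), ∑ t ∈ range (j + 1), f s t ≤
      ∑ s ∈ range (N + 1), ∑ t ∈ range (N + 1), f s t := by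
  calc ∑ s ∈ range (i + 1), ∑ t ∈ range (j + 1), f s t
      ≤ ∑ s ∈ range (i + 1), ∑ t ∈ range (N + 1), f s t :=
        Finset.sum_le_sum fun s _ => Finset.sum_le_sum_of_subset_of_nonneg
          (Finset.range_subset_range.2 (by omega)) fun t _ _ => hf s t
    _ ≤ _ := Finset.sum_le_sum_of_subset_of_nonneg
          (Finset.range_subset_range.2 (by omega)) fun s _ _ =>
            Finset.sum_nonneg fun t _ => hf s t

end DoebAux

open DoebAux

theorem doeb {K B : ℝ} (hY : Y.Crit K B) {v N i j : ℕ} (hv : 1 ≤ v) (hi : i + 16 * v ≤ N)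
    (hj : j + 16 * v ≤ N) :
    (Y.E i fun ξ => Y.E j fun η =>
      max 0 (Y.kk (Law.unif (4 * v) (4 * v)) ξ [] * Y.kk (Law.unif (4 * v) (4 * v)) [] η -
        3 * B * Y.kk (P v) ξ η)) ≤ 3 * K ^ 3 * B * Y.H v N := by
  have hK := hY.one_le_K
  have hB := hY.one_le_B
  have hH : 0 ≤ Y.H v N := H_nonneg v N
  set U := Law.unif (4 * v) (4 * v) with hU
  -- the error term
  let e : ℕ → ℕ → List S → List S → ℕ → ℕ → ℝ := fun i' j' ξ η s t =>
    if s ≤ v ∧ t ≤ v then Y.sv η * er1 Y v (i' - s) (j' - t) ξ + er2 Y v (i' - s) (j' - t) ξ η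
    else T1 Y (i' - s) (j' - t) ξ η
  have he0 : ∀ i' j' ξ η s t, 0 ≤ e i' j' ξ η s t := by
    intro i' j' ξ η s t
    show 0 ≤ (if s ≤ v ∧ t ≤ v then
      Y.sv η * er1 Y v (i' - s) (j' - t) ξ + er2 Y v (i' - s) (j' - t) ξ η
      else T1 Y (i' - s) (j' - t) ξ η)
    split_ifs
    · exact add_nonneg (mul_nonneg (Y.sv_nonneg _) (er1_nonneg Y _ _ _ _)) (er2_nonneg Y _ _ _ _ _)
    · exact T1_nonneg Y _ _ _ _
  let R : List S → List S → ℝ := fun ξ η => U.ex fun i' => U.ex fun j' =>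
    ∑ s ∈ range (N + 1), ∑ t ∈ range (N + 1), Y.b s t * e i' j' ξ η s t
  have hR0 : ∀ ξ η, 0 ≤ R ξ η := fun ξ η => U.ex_nonneg fun i' => U.ex_nonneg fun j' =>
    Finset.sum_nonneg fun s _ => Finset.sum_nonneg fun t _ =>
      mul_nonneg (Y.b_nonneg s t) (he0 i' j' ξ η s t)
  -- pointwise bound
  have hpt : ∀ ξ η, Y.kk U ξ [] * Y.kk U [] η - 3 * B * Y.kk (P v) ξ η ≤ R ξ η := by
    intro ξ η
    have h1 : Y.kk U ξ [] * Y.kk U [] η ≤ U.ex fun i' => U.ex fun j' =>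
        (∑ s ∈ range (N + 1), ∑ t ∈ range (N + 1), Y.b s t *
          (if s ≤ v ∧ t ≤ v then Y.k ((i' - s) + (j' - t)) ξ η else 0)) +
        ∑ s ∈ range (N + 1), ∑ t ∈ range (N + 1), Y.b s t * e i' j' ξ η s t := by
      unfold kk
      rw [Law.mul_ex]
      refine U.ex_mono' fun a => U.ex_mono' fun c => ?_
      have ha : U.len a ≤ 8 * v := (len_bd v a).2
      have ha' : 4 * v ≤ U.len a := (len_bd v a).1
      have hc : U.len c ≤ 8 * v := (len_bd v c).2
      have hc' : 4 * v ≤ U.len c := (len_bd v c).1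
      refine (Y.join_le _ _ ξ η).trans ?_
      refine (sum_extend (N := N) (by omega) (by omega) _ fun s t =>
        mul_nonneg (Y.b_nonneg s t) (T_nonneg Y _ _ _ _)).trans ?_
      rw [← Finset.sum_add_distrib]
      refine Finset.sum_le_sum fun s _ => ?_
      rw [← Finset.sum_add_distrib]
      refine Finset.sum_le_sum fun t _ => ?_
      rw [← mul_add]
      refine mul_le_mul_of_nonneg_left ?_ (Y.b_nonneg s t)
      show Y.T (U.len a - s) (U.len c - t) ξ η ≤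
        (if s ≤ v ∧ t ≤ v then Y.k ((U.len a - s) + (U.len c - t)) ξ η else 0) +
        (if s ≤ v ∧ t ≤ v then
          Y.sv η * er1 Y v (U.len a - s) (U.len c - t) ξ + er2 Y v (U.len a - s) (U.len c - t) ξ η
          else T1 Y (U.len a - s) (U.len c - t) ξ η)
      by_cases hst : s ≤ v ∧ t ≤ v
      · rw [if_pos hst, if_pos hst]
        exact T_le Y (by omega) (by omega) ξ η
      · rw [if_neg hst, if_neg hst, zero_add]
        exact T_le_T1 Y _ _ _ _
    have h2 : (U.ex fun i' => U.ex fun j' =>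
        (∑ s ∈ range (N + 1), ∑ t ∈ range (N + 1), Y.b s t *
          (if s ≤ v ∧ t ≤ v then Y.k ((i' - s) + (j' - t)) ξ η else 0)) +
        ∑ s ∈ range (N + 1), ∑ t ∈ range (N + 1), Y.b s t * e i' j' ξ η s t) =
        (∑ s ∈ range (N + 1), ∑ t ∈ range (N + 1), Y.b s t *
          (U.ex fun i' => U.ex fun j' =>
            if s ≤ v ∧ t ≤ v then Y.k ((i' - s) + (j' - t)) ξ η else 0)) + R ξ η := by
      simp only [Law.ex_add, Law.ex_sum, Law.ex_mul_left]
      congr 1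
      show _ = U.ex fun i' => U.ex fun j' =>
        ∑ s ∈ range (N + 1), ∑ t ∈ range (N + 1), Y.b s t * e i' j' ξ η s t
      simp only [Law.ex_sum, Law.ex_mul_left]
    have h3 : (∑ s ∈ range (N + 1), ∑ t ∈ range (N + 1), Y.b s t *
          (U.ex fun i' => U.ex fun j' =>
            if s ≤ v ∧ t ≤ v then Y.k ((i' - s) + (j' - t)) ξ η else 0)) ≤
        3 * B * Y.kk (P v) ξ η := by
      have hk0 : 0 ≤ Y.kk (P v) ξ η := Y.kk_nonneg _ _ _
      have h4 := b_sum_le Y N (fun s t => U.ex fun i' => U.ex fun j' =>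
            if s ≤ v ∧ t ≤ v then Y.k ((i' - s) + (j' - t)) ξ η else 0)
            (C := 3 * Y.kk (P v) ξ η) (fun s t => by
          by_cases hst : s ≤ v ∧ t ≤ v
          · simp only [if_pos hst]
            exact avg hst.1 hst.2 (fun m => Y.k m ξ η) fun m => Y.k_nonneg m ξ η
          · simp only [if_neg hst, Law.ex_const]
            positivity)
      refine h4.trans ?_
      have h5 := mul_le_mul_of_nonneg_right (hY.b_le (N + 1))
        (show (0 : ℝ) ≤ 3 * Y.kk (P v) ξ η by positivity)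
      linarith
    rw [h2] at h1
    linarith
  -- integrate
  have h6 : (Y.E i fun ξ => Y.E j fun η => max 0 (Y.kk U ξ [] * Y.kk U [] η -
        3 * B * Y.kk (P v) ξ η)) ≤ Y.E i fun ξ => Y.E j fun η => R ξ η :=
    Y.E_mono fun ξ _ => Y.E_mono fun η _ => max_le (hR0 ξ η) (hpt ξ η)
  have h7 : (Y.E i fun ξ => Y.E j fun η => R ξ η) = U.ex fun i' => U.ex fun j' =>
      ∑ s ∈ range (N + 1), ∑ t ∈ range (N + 1), Y.b s t *
        (Y.E i fun ξ => Y.E j fun η => e i' j' ξ η s t) := by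
    show (Y.E i fun ξ => Y.E j fun η => U.ex fun i' => U.ex fun j' =>
      ∑ s ∈ range (N + 1), ∑ t ∈ range (N + 1), Y.b s t * e i' j' ξ η s t) = _
    simp only [E_ex, E_fsum, E_mul_left]
  have h8 : (U.ex fun i' => U.ex fun j' =>
      ∑ s ∈ range (N + 1), ∑ t ∈ range (N + 1), Y.b s t *
        (Y.E i fun ξ => Y.E j fun η => e i' j' ξ η s t)) ≤
      B * (2 * K ^ 3 * Y.H v N) + K ^ 2 * Y.H v N := by
    refine U.ex_le' fun a => U.ex_le' fun c => ?_
    have ha : U.len a ≤ 8 * v := (len_bd v a).2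
    have hc : U.len c ≤ 8 * v := (len_bd v c).2
    refine le_trans ?_ (split_sum Y hY v N (C1 := 2 * K ^ 3 * Y.H v N) (C2 := K ^ 2)
      (by positivity) (by positivity))
    refine Finset.sum_le_sum fun s _ => Finset.sum_le_sum fun t _ => ?_
    refine mul_le_mul_of_nonneg_left ?_ (Y.b_nonneg s t)
    show (Y.E i fun ξ => Y.E j fun η => if s ≤ v ∧ t ≤ v then
      Y.sv η * er1 Y v (U.len a - s) (U.len c - t) ξ + er2 Y v (U.len a - s) (U.len c - t) ξ η
      else T1 Y (U.len a - s) (U.len c - t) ξ η) ≤ _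
    by_cases hst : s ≤ v ∧ t ≤ v
    · simp only [if_pos hst]
      simp only [E_fadd, E_mul_right]
      have e1 : (Y.E i fun ξ => Y.E j Y.sv * er1 Y v (U.len a - s) (U.len c - t) ξ) ≤
          K * (K ^ 2 * Y.H v N) := by
        rw [E_mul_left]
        refine mul_le_mul (hY.a_le j) (er1_sum hY (by omega) (by omega)) ?_ hY.K_pos.le
        exact Y.E_nonneg' fun _ => er1_nonneg Y _ _ _ _
      have e2 : (Y.E i fun ξ => Y.E j fun η => er2 Y v (U.len a - s) (U.len c - t) ξ η) ≤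
          K ^ 2 * Y.H v N := er2_sum hY (by omega) (by omega)
      have e3 : K ^ 2 * Y.H v N ≤ K ^ 3 * Y.H v N := by
        refine mul_le_mul_of_nonneg_right ?_ hH
        exact pow_le_pow_right₀ hK (by norm_num)
      have e4 : K * (K ^ 2 * Y.H v N) = K ^ 3 * Y.H v N := by ring
      linarith
    · simp only [if_neg hst]
      exact T1_sum hY _ _ _ _
  have h9 : B * (2 * K ^ 3 * Y.H v N) + K ^ 2 * Y.H v N ≤ 3 * K ^ 3 * B * Y.H v N := by
    have e3 : K ^ 2 * Y.H v N ≤ B * (K ^ 3 * Y.H v N) := by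
      have e5 : K ^ 2 * Y.H v N ≤ K ^ 3 * Y.H v N :=
        mul_le_mul_of_nonneg_right (pow_le_pow_right₀ hK (by norm_num)) hH
      have e6 : 1 * (K ^ 3 * Y.H v N) ≤ B * (K ^ 3 * Y.H v N) :=
        mul_le_mul_of_nonneg_right hB (by positivity)
      linarith
    linarith
  rw [h7] at h6
  exact h6.trans (h8.trans h9)

theorem mass {K B : ℝ} (hY : Y.Crit K B) {v N i n : ℕ} (hv : 1 ≤ v) (hn : 2 * v ≤ n)
    (hN : i + n + 8 * v ≤ N) :
    (Y.E i fun σ => max 0 (Y.k n σ [] - K * B * Y.kk (Law.unif (4 * v) (4 * v)) σ [])) ≤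
      2 * K ^ 2 * B * Y.H v N := by
  have hK := hY.one_le_K
  have hB := hY.one_le_B
  have hH : 0 ≤ Y.H v N := H_nonneg v N
  set U := Law.unif (4 * v) (4 * v) with hU
  let e : List S → ℕ → ℕ → ℝ := fun σ s t =>
    if s ≤ v ∧ t ≤ v then er1 Y v (n - s) (8 * v - t) σ else T1 Y (n - s) (8 * v - t) σ []
  have he0 : ∀ σ s t, 0 ≤ e σ s t := by
    intro σ s t
    show 0 ≤ (if s ≤ v ∧ t ≤ v then er1 Y v (n - s) (8 * v - t) σ
      else T1 Y (n - s) (8 * v - t) σ [])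
    split_ifs
    · exact er1_nonneg Y _ _ _ _
    · exact T1_nonneg Y _ _ _ _
  let R : List S → ℝ := fun σ => ∑ s ∈ range (N + 1), ∑ t ∈ range (N + 1), Y.b s t * e σ s t
  have hR0 : ∀ σ, 0 ≤ R σ := fun σ => Finset.sum_nonneg fun s _ => Finset.sum_nonneg fun t _ =>
      mul_nonneg (Y.b_nonneg s t) (he0 σ s t)
  have hpt : ∀ σ, Y.k n σ [] - K * B * Y.kk U σ [] ≤ R σ := by
    intro σ
    have h1 : Y.k n σ [] ≤ Y.k n σ [] * Y.k (8 * v) [] [] := by
      rw [k_nil_nil]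
      have := mul_le_mul_of_nonneg_left (hY.a_ge (8 * v)) (Y.k_nonneg n σ [])
      linarith
    have h2 : Y.k n σ [] * Y.k (8 * v) [] [] ≤
        ∑ s ∈ range (N + 1), ∑ t ∈ range (N + 1), Y.b s t *
          ((if s ≤ v ∧ t ≤ v then K * Y.kk U σ [] else 0) + e σ s t) := by
      refine (Y.join_le _ _ σ []).trans ?_
      refine (sum_extend (N := N) (by omega) (by omega) _ fun s t =>
        mul_nonneg (Y.b_nonneg s t) (T_nonneg Y _ _ _ _)).trans ?_
      refine Finset.sum_le_sum fun s _ => Finset.sum_le_sum fun t _ => ?_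
      refine mul_le_mul_of_nonneg_left ?_ (Y.b_nonneg s t)
      show Y.T (n - s) (8 * v - t) σ [] ≤ (if s ≤ v ∧ t ≤ v then K * Y.kk U σ [] else 0) +
        (if s ≤ v ∧ t ≤ v then er1 Y v (n - s) (8 * v - t) σ else T1 Y (n - s) (8 * v - t) σ [])
      by_cases hst : s ≤ v ∧ t ≤ v
      · rw [if_pos hst, if_pos hst]
        refine (T_le_nil Y (v := v) (by omega) σ).trans ?_
        have h3 : Y.k ((n - s) + (8 * v - t)) σ [] ≤ K * Y.kk U σ [] := by
          unfold kk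
          rw [← Law.ex_mul_left]
          refine U.le_ex' fun a => ?_
          have ha : U.len a ≤ 8 * v := (len_bd v a).2
          have e1 : (n - s) + (8 * v - t) = U.len a + ((n - s) + (8 * v - t) - U.len a) := by omega
          rw [e1]
          refine (Y.k_add_le _ _ σ).trans ?_
          have := mul_le_mul_of_nonneg_left (hY.a_le ((n - s) + (8 * v - t) - U.len a))
            (Y.k_nonneg (U.len a) σ [])
          linarith
        linarith
      · rw [if_neg hst, if_neg hst, zero_add]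
        exact T_le_T1 Y _ _ _ _
    have h3 : (∑ s ∈ range (N + 1), ∑ t ∈ range (N + 1), Y.b s t *
          ((if s ≤ v ∧ t ≤ v then K * Y.kk U σ [] else 0) + e σ s t)) =
        (∑ s ∈ range (N + 1), ∑ t ∈ range (N + 1), Y.b s t *
          (if s ≤ v ∧ t ≤ v then K * Y.kk U σ [] else 0)) + R σ := by
      show _ = _ + ∑ s ∈ range (N + 1), ∑ t ∈ range (N + 1), Y.b s t * e σ s t
      simp only [mul_add, Finset.sum_add_distrib]
    have hk0 : 0 ≤ K * Y.kk U σ [] := mul_nonneg hY.K_pos.le (Y.kk_nonneg _ _ _)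
    have h4 := b_sum_le Y N (fun s t => if s ≤ v ∧ t ≤ v then K * Y.kk U σ [] else 0)
      (C := K * Y.kk U σ []) (fun s t => by
        show (if s ≤ v ∧ t ≤ v then K * Y.kk U σ [] else 0) ≤ _
        split_ifs
        · exact le_rfl
        · exact hk0)
    have h5 := mul_le_mul_of_nonneg_right (hY.b_le (N + 1)) hk0
    rw [h3] at h2
    have h6 : (∑ s ∈ range (N + 1), ∑ t ∈ range (N + 1), Y.b s t *
          (if s ≤ v ∧ t ≤ v then K * Y.kk U σ [] else 0)) ≤ B * (K * Y.kk U σ []) := h4.trans h5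
    linarith
  have h6 : (Y.E i fun σ => max 0 (Y.k n σ [] - K * B * Y.kk U σ [])) ≤ Y.E i fun σ => R σ :=
    Y.E_mono fun σ _ => max_le (hR0 σ) (hpt σ)
  have h7 : (Y.E i fun σ => R σ) = ∑ s ∈ range (N + 1), ∑ t ∈ range (N + 1), Y.b s t *
        (Y.E i fun σ => e σ s t) := by
    show (Y.E i fun σ => ∑ s ∈ range (N + 1), ∑ t ∈ range (N + 1), Y.b s t * e σ s t) = _
    simp only [E_fsum, E_mul_left]
  have h8 : (∑ s ∈ range (N + 1), ∑ t ∈ range (N + 1), Y.b s t *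
        (Y.E i fun σ => e σ s t)) ≤ B * (K ^ 2 * Y.H v N) + K ^ 2 * Y.H v N := by
    refine le_trans ?_ (split_sum Y hY v N (C1 := K ^ 2 * Y.H v N) (C2 := K ^ 2)
      (by positivity) (by positivity))
    refine Finset.sum_le_sum fun s _ => Finset.sum_le_sum fun t _ => ?_
    refine mul_le_mul_of_nonneg_left ?_ (Y.b_nonneg s t)
    show (Y.E i fun σ => if s ≤ v ∧ t ≤ v then er1 Y v (n - s) (8 * v - t) σ
      else T1 Y (n - s) (8 * v - t) σ []) ≤ _
    by_cases hst : s ≤ v ∧ t ≤ v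
    · simp only [if_pos hst]
      exact er1_sum hY (by omega) (by omega)
    · simp only [if_neg hst]
      exact T1_sum_nil hY _ _ _
  have h9 : B * (K ^ 2 * Y.H v N) + K ^ 2 * Y.H v N ≤ 2 * K ^ 2 * B * Y.H v N := by
    have e6 : 1 * (K ^ 2 * Y.H v N) ≤ B * (K ^ 2 * Y.H v N) :=
      mul_le_mul_of_nonneg_right hB (by positivity)
    linarith
  rw [h7] at h6
  exact h6.trans (h8.trans h9)

end Sys

end Pool.Agent.Bub4
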