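import Mathlib

/-!
# Almost additive functions, a discrete Gronwall lemma
-/

set_option autoImplicit false

namespace Pool.Agent.Bub4

open Finset

theorem skof {g : ℕ → ℝ} {e : ℝ} {L : ℕ} (hL : 1 ≤ L)
    (h : ∀ i j, i ≤ L → j ≤ L → |g (i + j) - g i - g j| ≤ e) :
    ∀ n, n ≤ L → |g n - n * (g L / L)| ≤ 2 * e := by
  have hLR : (0 : ℝ) < L := by exact_mod_cast hL
  set h' : ℕ → ℝ := fun n => g n - n * (g L / L) with hh'
  have hL0 : h' L = 0 := by
    simp only [hh']
    field_simp
    ring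
  have hadd : ∀ i j, i ≤ L → j ≤ L → |h' (i + j) - h' i - h' j| ≤ e := by
    intro i j hi hj
    have e1 : h' (i + j) - h' i - h' j = g (i + j) - g i - g j := by
      simp only [hh']
      push_cast
      ring
    rw [e1]
    exact h i j hi hj
  obtain ⟨n0, hn0, hmax⟩ := Finset.exists_max_image (range (L + 1)) (fun n => |h' n|)
    ⟨0, by simp⟩
  have hn0L : n0 ≤ L := by
    have := Finset.mem_range.1 hn0
    omega
  have hmax' : ∀ n, n ≤ L → |h' n| ≤ |h' n0| := fun n hn =>
    hmax n (Finset.mem_range.2 (by omega))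
  have key : |h' n0| ≤ 2 * e := by
    have he : 0 ≤ e := (abs_nonneg _).trans (hadd 0 0 (by omega) (by omega))
    have h2 := hadd n0 n0 hn0L hn0L
    by_cases hc : n0 + n0 ≤ L
    · have h3 := hmax' _ hc
      have h4 : |2 * h' n0| ≤ |h' (n0 + n0)| + |h' (n0 + n0) - h' n0 - h' n0| := by
        have := abs_sub (h' (n0 + n0)) (h' (n0 + n0) - h' n0 - h' n0)
        have e2 : h' (n0 + n0) - (h' (n0 + n0) - h' n0 - h' n0) = 2 * h' n0 := by ring
        rwa [e2] at this
      rw [abs_mul, abs_two] at h4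
      linarith
    · obtain ⟨r, hr⟩ : ∃ r, n0 + n0 = L + r := ⟨n0 + n0 - L, by omega⟩
      have hrL : r ≤ L := by omega
      have h3 := hmax' _ hrL
      have h5 := hadd L r le_rfl hrL
      rw [← hr, hL0] at h5
      have e2 : 2 * h' n0 = h' r + (h' (n0 + n0) - 0 - h' r) - (h' (n0 + n0) - h' n0 - h' n0) := by
        ring
      have h4 : |2 * h' n0| ≤ |h' r| + |h' (n0 + n0) - 0 - h' r| +
          |h' (n0 + n0) - h' n0 - h' n0| := by
        rw [e2]
        exact (abs_sub _ _).trans (add_le_add_left (abs_add_le _ _) _)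
      rw [abs_mul, abs_two] at h4
      linarith
  intro n hn
  exact (hmax' n hn).trans key

theorem gronwall {s y ε : ℕ → ℝ} {C : ℝ} (hC : 1 ≤ C) (hε : ∀ k, 0 ≤ ε k) (hs : Summable ε)
    (hy : ∀ k, 0 ≤ y k)
    (h1 : ∀ k z, (∀ j, j ≤ k → 1 + |s j| + ε j * y j ≤ z) → y (k + 1) ≤ C * z)
    (h2 : ∀ k, |s (k + 1) - s k| ≤ C * y (k + 1) * (ε k + ε (k + 1))) :
    ∃ D : ℝ, ∀ k, y k ≤ D := by
  have hC0 : 0 < C := lt_of_lt_of_le one_pos hC
  obtain ⟨k0, hk0⟩ : ∃ k0, ∀ k, k0 ≤ k → C * ε k ≤ 1 / 2 := by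
    have ht := hs.tendsto_atTop_zero
    have h3 : ∀ᶠ k in Filter.atTop, ε k < 1 / (2 * C) :=
      ht.eventually (gt_mem_nhds (by positivity))
    obtain ⟨k0, h⟩ := Filter.eventually_atTop.1 h3
    refine ⟨k0, fun k hk => ?_⟩
    have h4 := (h k hk).le
    calc C * ε k ≤ C * (1 / (2 * C)) := mul_le_mul_of_nonneg_left h4 hC0.le
      _ = 1 / 2 := by field_simp
  set A : ℝ := ∑ j ∈ range (k0 + 1), (1 + |s j| + ε j * y j) with hA
  set Q : ℕ → ℝ := fun k => ∑ l ∈ range k, (ε l + ε (l + 1)) with hQ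
  set Z : ℕ → ℝ := fun k => A * Real.exp (2 * C ^ 2 * Q k) with hZ
  have hterm : ∀ j, 0 ≤ 1 + |s j| + ε j * y j := fun j => by
    have := mul_nonneg (hε j) (hy j)
    have := abs_nonneg (s j)
    linarith
  have hA0 : 0 ≤ A := Finset.sum_nonneg fun j _ => hterm j
  have hQ0 : ∀ k, 0 ≤ Q k := fun k => Finset.sum_nonneg fun l _ => add_nonneg (hε _) (hε _)
  have hAZ : ∀ k, A ≤ Z k := by
    intro k
    have : 1 ≤ Real.exp (2 * C ^ 2 * Q k) := by
      rw [← Real.exp_zero]
      exact Real.exp_le_exp.2 (mul_nonneg (by positivity) (hQ0 k))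
    simp only [hZ]
    nlinarith
  have hZ0 : ∀ k, 0 ≤ Z k := fun k => hA0.trans (hAZ k)
  have hZs : ∀ k, Z k + 2 * C ^ 2 * (ε k + ε (k + 1)) * Z k ≤ Z (k + 1) := by
    intro k
    have e1 : Z (k + 1) = Z k * Real.exp (2 * C ^ 2 * (ε k + ε (k + 1))) := by
      simp only [hZ, hQ, Finset.sum_range_succ]
      rw [mul_add, Real.exp_add]
      ring
    rw [e1]
    have h3 := Real.add_one_le_exp (2 * C ^ 2 * (ε k + ε (k + 1)))
    have h4 := mul_le_mul_of_nonneg_left h3 (hZ0 k)
    linarith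
  have hZm : ∀ k, Z k ≤ Z (k + 1) := fun k => by
    have h3 : 0 ≤ 2 * C ^ 2 * (ε k + ε (k + 1)) * Z k :=
      mul_nonneg (mul_nonneg (by positivity) (add_nonneg (hε _) (hε _))) (hZ0 k)
    have := hZs k
    linarith
  have main : ∀ k, k0 ≤ k → (∀ j, j ≤ k → 1 + |s j| ≤ Z k ∧ ε j * y j ≤ Z k) ∧
      y (k + 1) ≤ 2 * C * Z k := by
    have step1 : ∀ k, (∀ j, j ≤ k → 1 + |s j| ≤ Z k ∧ ε j * y j ≤ Z k) →
        y (k + 1) ≤ 2 * C * Z k := by
      intro k h
      have := h1 k (2 * Z k) fun j hj => by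
        have := h j hj
        linarith [this.1, this.2]
      linarith
    intro k hk
    induction k, hk using Nat.le_induction with
    | base =>
      have hb : ∀ j, j ≤ k0 → 1 + |s j| ≤ Z k0 ∧ ε j * y j ≤ Z k0 := by
        intro j hj
        have h3 : 1 + |s j| + ε j * y j ≤ A :=
          Finset.single_le_sum (f := fun j => 1 + |s j| + ε j * y j) (fun j _ => hterm j)
            (Finset.mem_range.2 (by omega))
        have h4 := hAZ k0
        have h5 := mul_nonneg (hε j) (hy j)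
        have h6 := abs_nonneg (s j)
        constructor <;> linarith
      exact ⟨hb, step1 _ hb⟩
    | succ k hk ih =>
      obtain ⟨ih1, ih2⟩ := ih
      have hb : ∀ j, j ≤ k + 1 → 1 + |s j| ≤ Z (k + 1) ∧ ε j * y j ≤ Z (k + 1) := by
        intro j hj
        rcases Nat.lt_or_ge k j with hj' | hj'
        · have : j = k + 1 := by omega
          subst this
          constructor
          · have h3 : |s (k + 1)| ≤ |s k| + |s (k + 1) - s k| := by
              have := abs_add_le (s k) (s (k + 1) - s k)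
              have e1 : s k + (s (k + 1) - s k) = s (k + 1) := by ring
              rwa [e1] at this
            have h4 := h2 k
            have h5 := (ih1 k le_rfl).1
            have h6 : C * y (k + 1) * (ε k + ε (k + 1)) ≤
                C * (2 * C * Z k) * (ε k + ε (k + 1)) :=
              mul_le_mul_of_nonneg_right (mul_le_mul_of_nonneg_left ih2 hC0.le)
                (add_nonneg (hε _) (hε _))
            have h7 := hZs k
            have e2 : C * (2 * C * Z k) * (ε k + ε (k + 1)) =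
                2 * C ^ 2 * (ε k + ε (k + 1)) * Z k := by ring
            linarith
          · have h3 := hk0 (k + 1) (by omega)
            have h4 : ε (k + 1) * y (k + 1) ≤ ε (k + 1) * (2 * C * Z k) :=
              mul_le_mul_of_nonneg_left ih2 (hε _)
            have h5 : ε (k + 1) * (2 * C * Z k) = 2 * (C * ε (k + 1)) * Z k := by ring
            have h6 : 2 * (C * ε (k + 1)) * Z k ≤ 2 * (1 / 2) * Z k :=
              mul_le_mul_of_nonneg_right (by linarith) (hZ0 k)
            have h7 := hZm k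
            linarith
        · have h3 := ih1 j hj'
          have h4 := hZm k
          exact ⟨h3.1.trans h4, h3.2.trans h4⟩
      exact ⟨hb, step1 _ hb⟩
  -- a uniform bound
  set T : ℝ := ∑' l, ε l with hT
  have hQT : ∀ k, Q k ≤ 2 * T := by
    intro k
    simp only [hQ]
    rw [Finset.sum_add_distrib]
    have h3 : ∑ l ∈ range k, ε l ≤ T := hs.sum_le_tsum _ fun l _ => hε l
    have h4 : ∑ l ∈ range k, ε (l + 1) ≤ T := by
      have h5 : ∑ l ∈ range (k + 1), ε l ≤ T := hs.sum_le_tsum _ fun l _ => hε l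
      rw [Finset.sum_range_succ'] at h5
      have := hε 0
      linarith
    linarith
  set Zi : ℝ := A * Real.exp (2 * C ^ 2 * (2 * T)) with hZi
  have hZZi : ∀ k, Z k ≤ Zi := fun k =>
    mul_le_mul_of_nonneg_left (Real.exp_le_exp.2
      (mul_le_mul_of_nonneg_left (hQT k) (by positivity))) hA0
  have hZi0 : 0 ≤ Zi := (hZ0 0).trans (hZZi 0)
  refine ⟨(∑ j ∈ range (k0 + 1), y j) + 2 * C * Zi, fun k => ?_⟩
  rcases Nat.lt_or_ge k0 k with hk | hk
  · obtain ⟨m, rfl⟩ : ∃ m, k = m + 1 := ⟨k - 1, by omega⟩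
    have h3 := (main m (by omega)).2
    have h4 : 2 * C * Z m ≤ 2 * C * Zi := mul_le_mul_of_nonneg_left (hZZi m) (by positivity)
    have h5 : 0 ≤ ∑ j ∈ range (k0 + 1), y j := Finset.sum_nonneg fun j _ => hy j
    linarith
  · have h3 : y k ≤ ∑ j ∈ range (k0 + 1), y j :=
      Finset.single_le_sum (f := y) (fun j _ => hy j) (Finset.mem_range.2 (by omega))
    have h4 : 0 ≤ 2 * C * Zi := by positivity
    linarith

end Pool.Agent.Bub4
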