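import Pool.Agent.Bub4.Words
import Pool.Agent.Bub4.Skof

/-!
# From almost additivity at all scales to linear growth
-/

set_option autoImplicit false

namespace Pool.Agent.Bub4

open Finset

/-! ### Auxiliary facts -/

/-- a linear bound up to `v` extends to a linear bound up to `c v` -/
theorem ext_range {M : ℕ → ℝ} {K y : ℝ} {v : ℕ} (hK : 1 ≤ K) (hM0 : M 0 = 0)
    (hMd : ∀ p q, M (p + q) ≤ 2 * K * (M p + M q)) (hy : 0 ≤ y)
    (h : ∀ t, t ≤ v → M t ≤ y * t) (c : ℕ) :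
    ∀ t, t ≤ c * v → M t ≤ (2 * K) ^ c * y * t := by
  induction c with
  | zero =>
    intro t ht
    have : t = 0 := by omega
    subst this
    rw [hM0]
    simp
  | succ c ih =>
    intro t ht
    have h1 : (1 : ℝ) ≤ (2 * K) ^ c := one_le_pow₀ (by linarith)
    have h2 : (1 : ℝ) ≤ 2 * K := by linarith
    have ht0 : (0 : ℝ) ≤ t := Nat.cast_nonneg t
    have hyt : 0 ≤ y * t := mul_nonneg hy ht0
    rcases Nat.lt_or_ge t v with htv | htv
    · refine (h t htv.le).trans ?_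
      have h3 : (1 : ℝ) ≤ (2 * K) ^ (c + 1) := one_le_pow₀ h2
      nlinarith
    · obtain ⟨u, rfl⟩ : ∃ u, t = v + u := ⟨t - v, by omega⟩
      have hu : u ≤ c * v := by
        have : v + u ≤ c * v + v := by rw [← Nat.succ_mul]; exact ht
        omega
      have h3 := ih u hu
      have h4 := h v le_rfl
      have h5 := hMd v u
      have hv0 : (0 : ℝ) ≤ v := Nat.cast_nonneg v
      have hu0 : (0 : ℝ) ≤ u := Nat.cast_nonneg u
      have h6 : y * v ≤ (2 * K) ^ c * y * v := by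
        have := mul_nonneg hy hv0
        nlinarith
      push_cast
      calc M (v + u) ≤ 2 * K * (M v + M u) := h5
        _ ≤ 2 * K * ((2 * K) ^ c * y * v + (2 * K) ^ c * y * u) := by
            refine mul_le_mul_of_nonneg_left ?_ (by linarith)
            linarith
        _ = (2 * K) ^ (c + 1) * y * (v + u) := by ring

/-- quotients -/
theorem quot_add {A0 Ai Aj Aij B0 Bi Bj Bij F δ ε : ℝ} (hA0 : 1 ≤ A0) (hAi : 1 ≤ Ai)
    (hAj : 1 ≤ Aj) (hAij : 1 ≤ Aij) (hBi : 0 ≤ Bi) (hBj : 0 ≤ Bj) (hBi' : Bi ≤ F)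
    (hBj' : Bj ≤ F) (h1 : |Aij * A0 - Ai * Aj| ≤ ε)
    (h2 : |Bij * A0 + Aij * B0 - Bi * Aj - Ai * Bj| ≤ δ) :
    |Bij / Aij + B0 / A0 - Bi / Ai - Bj / Aj| ≤ δ + 2 * F * ε := by
  set X := Bij / Aij + B0 / A0 - Bi / Ai - Bj / Aj with hX
  have e0 : 0 < A0 := by linarith
  have e1 : 0 < Ai := by linarith
  have e2 : 0 < Aj := by linarith
  have e3 : 0 < Aij := by linarith
  have hε : 0 ≤ ε := (abs_nonneg _).trans h1
  have e4 : X * (Aij * A0) = (Bij * A0 + Aij * B0 - Bi * Aj - Ai * Bj) -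
      (Bi / Ai + Bj / Aj) * (Aij * A0 - Ai * Aj) := by
    rw [hX]
    field_simp
    ring
  have e5 : 0 ≤ Bi / Ai + Bj / Aj := add_nonneg (div_nonneg hBi e1.le) (div_nonneg hBj e2.le)
  have e6 : Bi / Ai + Bj / Aj ≤ 2 * F := by
    have f1 : Bi / Ai ≤ Bi := div_le_self hBi hAi
    have f2 : Bj / Aj ≤ Bj := div_le_self hBj hAj
    linarith
  have e7 : |X * (Aij * A0)| ≤ δ + 2 * F * ε := by
    rw [e4]
    refine (abs_sub _ _).trans (add_le_add h2 ?_)
    rw [abs_mul, abs_of_nonneg e5]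
    exact mul_le_mul e6 h1 (abs_nonneg _) (e5.trans e6)
  have e8 : 1 ≤ Aij * A0 := by nlinarith
  rw [abs_mul, abs_of_pos (by positivity : 0 < Aij * A0)] at e7
  have := abs_nonneg X
  nlinarith

/-- the quotient of the averaged sequences -/
noncomputable def fr (a M : ℕ → ℝ) (p : Law) (n : ℕ) : ℝ :=
  (p.ex fun m => M (m + n)) / (p.ex fun m => a (m + n))

/-- its slope -/
noncomputable def sl (a M : ℕ → ℝ) (p : Law) (L : ℕ) : ℝ :=
  (fr a M p L - fr a M p 0) / L

section scale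

variable {a M : ℕ → ℝ} {K : ℝ} (ha : ∀ n, 1 ≤ a n) (ha' : ∀ n, a n ≤ K)
    (hM : ∀ n, 0 ≤ M n)

include ha in
theorem one_le_ab (p : Law) (n : ℕ) : 1 ≤ p.ex fun m => a (m + n) := p.le_ex fun _ => ha _

include ha hM in
theorem fr_nonneg (p : Law) (n : ℕ) : 0 ≤ fr a M p n :=
  div_nonneg (p.ex_nonneg fun _ => hM _) (zero_le_one.trans (one_le_ab ha p n))

include ha hM in
theorem fr_le (p : Law) (n : ℕ) : fr a M p n ≤ p.ex fun m => M (m + n) :=
  div_le_self (p.ex_nonneg fun _ => hM _) (one_le_ab ha p n)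

include ha ha' hM in
theorem mb_le_fr (p : Law) (n : ℕ) : (p.ex fun m => M (m + n)) ≤ K * fr a M p n := by
  have h1 := one_le_ab ha p n
  have h2 : (p.ex fun m => a (m + n)) ≤ K := p.ex_le fun _ => ha' _
  have h3 := fr_nonneg ha hM p n
  have h4 : (p.ex fun m => M (m + n)) = (p.ex fun m => a (m + n)) * fr a M p n := by
    unfold fr
    field_simp
  rw [h4]
  exact mul_le_mul_of_nonneg_right h2 h3

/-- the constant in the a priori bound -/
noncomputable def C0 (K : ℝ) (Λ : ℕ) : ℝ := (2 * K) ^ (50 * Λ + 12) * (50 * Λ + 12)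

theorem C0_pos {K : ℝ} (hK : 1 ≤ K) (Λ : ℕ) : 1 ≤ C0 K Λ := by
  unfold C0
  have h1 : (1 : ℝ) ≤ (2 * K) ^ (50 * Λ + 12) := one_le_pow₀ (by linarith)
  have h2 : (0 : ℝ) ≤ Λ := Nat.cast_nonneg Λ
  nlinarith

theorem mb_le {K y : ℝ} {v c Λ : ℕ} {M : ℕ → ℝ} (hK : 1 ≤ K) (hM0 : M 0 = 0)
    (hMd : ∀ p q, M (p + q) ≤ 2 * K * (M p + M q)) (hy : 1 ≤ y)
    (h : ∀ t, t ≤ v → M t ≤ y * t) {p : Law} (hp : p.Le c) (hc : c ≤ 12 * v) {n : ℕ}
    (hn : n ≤ 50 * Λ * v) : (p.ex fun m => M (m + n)) ≤ C0 K Λ * (y * v) := by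
  refine p.ex_le' fun i => ?_
  have h1 := hp i
  have h2 : p.len i + n ≤ (50 * Λ + 12) * v := by
    have : (50 * Λ + 12) * v = 50 * Λ * v + 12 * v := by ring
    omega
  have h3 := ext_range hK hM0 hMd (by linarith) h (50 * Λ + 12) _ h2
  refine h3.trans ?_
  have h4 : ((p.len i + n : ℕ) : ℝ) ≤ (50 * Λ + 12) * v := by exact_mod_cast h2
  have h5 : (0 : ℝ) ≤ (2 * K) ^ (50 * Λ + 12) * y := by positivity
  calc (2 * K) ^ (50 * Λ + 12) * y * ((p.len i + n : ℕ) : ℝ) ≤
      (2 * K) ^ (50 * Λ + 12) * y * ((50 * Λ + 12) * v) := mul_le_mul_of_nonneg_left h4 h5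
    _ = C0 K Λ * (y * v) := by unfold C0; ring

end scale

/-- almost additivity at one scale -/
theorem scale_add {a M : ℕ → ℝ} {K y ε : ℝ} (ha : ∀ n, 1 ≤ a n) (ha' : ∀ n, a n ≤ K)
    (hM : ∀ n, 0 ≤ M n) (hM0 : M 0 = 0) (hMd : ∀ p q, M (p + q) ≤ 2 * K * (M p + M q))
    {Λ v c : ℕ} (hΛ : 2 ≤ Λ) (hv : 1 ≤ v) {p : Law} (hp : p.Le c) (hc : c ≤ 12 * v)
    (hy : 1 ≤ y) (h : ∀ t, t ≤ v → M t ≤ y * t)
    (h1 : ∀ i j, i ≤ 50 * Λ * v → j ≤ 50 * Λ * v →
      |(p.ex fun m => a (m + (i + j))) * (p.ex fun m => a m) -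
        (p.ex fun m => a (m + i)) * (p.ex fun m => a (m + j))| ≤ ε)
    (h2 : ∀ i j, i ≤ 50 * Λ * v → j ≤ 50 * Λ * v →
      |(p.ex fun m => M (m + (i + j))) * (p.ex fun m => a m) +
        (p.ex fun m => a (m + (i + j))) * (p.ex fun m => M m) -
        (p.ex fun m => M (m + i)) * (p.ex fun m => a (m + j)) -
        (p.ex fun m => a (m + i)) * (p.ex fun m => M (m + j))| ≤ y * v * ε) :
    (∀ n, n ≤ 50 * Λ * v → |fr a M p n - fr a M p 0 - n * sl a M p (50 * Λ * v)| ≤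
      2 * ((1 + 2 * C0 K Λ) * (y * v * ε))) ∧
    |sl a M p (50 * Λ * v)| ≤ C0 K Λ * y := by
  have hK : 1 ≤ K := (ha 0).trans (ha' 0)
  have hL : 1 ≤ 50 * Λ * v := Nat.mul_pos (by omega) hv
  have hvR : (1 : ℝ) ≤ v := by exact_mod_cast hv
  have hε : 0 ≤ ε := (abs_nonneg _).trans (h1 0 0 (by omega) (by omega))
  constructor
  · have key := skof (g := fun n => fr a M p n - fr a M p 0)
      (e := (1 + 2 * C0 K Λ) * (y * v * ε)) hL (fun i j hi hj => ?_)
    · intro n hn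
      have := key n hn
      exact this
    · have e1 : fr a M p (i + j) - fr a M p 0 - (fr a M p i - fr a M p 0) -
          (fr a M p j - fr a M p 0) =
          fr a M p (i + j) + fr a M p 0 - fr a M p i - fr a M p j := by ring
      simp only [e1]
      have e2 := quot_add (A0 := p.ex fun m => a (m + 0)) (Ai := p.ex fun m => a (m + i))
        (Aj := p.ex fun m => a (m + j)) (Aij := p.ex fun m => a (m + (i + j)))
        (B0 := p.ex fun m => M (m + 0)) (Bi := p.ex fun m => M (m + i))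
        (Bj := p.ex fun m => M (m + j)) (Bij := p.ex fun m => M (m + (i + j)))
        (F := C0 K Λ * (y * v)) (δ := y * v * ε) (ε := ε)
        (one_le_ab ha p 0) (one_le_ab ha p i) (one_le_ab ha p j) (one_le_ab ha p (i + j))
        (p.ex_nonneg fun _ => hM _) (p.ex_nonneg fun _ => hM _)
        (mb_le hK hM0 hMd hy h hp hc hi) (mb_le hK hM0 hMd hy h hp hc hj)
        (h1 i j hi hj) (h2 i j hi hj)
      refine e2.trans (le_of_eq ?_)
      ring
  · unfold sl
    have e1 := fr_nonneg ha hM p 0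
    have e2 := fr_nonneg ha hM p (50 * Λ * v)
    have e3 := (fr_le ha hM p 0).trans (mb_le (Λ := Λ) hK hM0 hMd hy h hp hc (Nat.zero_le _))
    have e4 := (fr_le ha hM p (50 * Λ * v)).trans
      (mb_le (Λ := Λ) hK hM0 hMd hy h hp hc le_rfl)
    have e5 : |fr a M p (50 * Λ * v) - fr a M p 0| ≤ C0 K Λ * (y * v) := by
      rw [abs_le]
      constructor <;> linarith
    have e6 : (0 : ℝ) < ((50 * Λ * v : ℕ) : ℝ) := by exact_mod_cast hL
    rw [abs_div, abs_of_pos e6, div_le_iff₀ e6]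
    refine e5.trans ?_
    have e7 : (v : ℝ) ≤ ((50 * Λ * v : ℕ) : ℝ) := by
      have : v ≤ 50 * Λ * v := Nat.le_mul_of_pos_left v (by omega)
      exact_mod_cast this
    have e8 : 0 ≤ C0 K Λ * y := by
      have := C0_pos hK Λ
      positivity
    calc C0 K Λ * (y * v) = C0 K Λ * y * v := by ring
      _ ≤ C0 K Λ * y * ((50 * Λ * v : ℕ) : ℝ) := mul_le_mul_of_nonneg_left e7 e8

/-- the support of a factor of a law -/
theorem Le_of_ex_eq {p q : Law} {N : ℕ} (hp : p.Le N) (h : ∀ f : ℕ → ℝ, p.ex f = q.ex f) :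
    q.Le N := by
  intro i
  by_contra hc
  rw [not_le] at hc
  have h1 : p.ex (fun m => if N < m then (1 : ℝ) else 0) ≤ 0 := p.ex_le' fun j => by
    rw [if_neg (not_lt.2 (hp j))]
  rw [h] at h1
  have h2 : 0 < q.ex (fun m => if N < m then (1 : ℝ) else 0) := by
    unfold Law.ex
    refine mul_pos (inv_pos.2 q.card_pos) ?_
    refine Finset.sum_pos' (fun j _ => ?_) ⟨i, Finset.mem_univ _, ?_⟩
    · dsimp only
      split_ifs <;> norm_num
    · dsimp only
      rw [if_pos hc]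
      norm_num
  linarith

/-- weighted mean of the shift -/
noncomputable def Jm (A : ℕ → ℝ) (r : Law) (n : ℕ) : ℝ :=
  (r.ex fun j => j * A (n + j)) / (r.ex fun j => A (n + j))

theorem Jm_nonneg {A : ℕ → ℝ} (hA : ∀ n, 1 ≤ A n) (r : Law) (n : ℕ) : 0 ≤ Jm A r n := by
  refine div_nonneg (r.ex_nonneg fun j => ?_) (r.ex_nonneg fun j => ?_)
  · have := hA (n + j)
    positivity
  · have := hA (n + j)
    linarith

theorem Jm_le {A : ℕ → ℝ} (hA : ∀ n, 1 ≤ A n) {r : Law} {R : ℕ} (hr : r.Le R) (n : ℕ) :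
    Jm A r n ≤ R := by
  have h1 : 0 < r.ex fun j => A (n + j) :=
    lt_of_lt_of_le one_pos (r.le_ex fun j => hA _)
  unfold Jm
  rw [div_le_iff₀ h1, ← Law.ex_mul_left]
  refine r.ex_mono' fun i => ?_
  have h2 : (r.len i : ℝ) ≤ R := by exact_mod_cast hr i
  have h3 := hA (n + r.len i)
  exact mul_le_mul_of_nonneg_right h2 (by linarith)

theorem Jm_diff {A : ℕ → ℝ} (hA : ∀ n, 1 ≤ A n) {r : Law} {R : ℕ} (hr : r.Le R) {n : ℕ} {ε : ℝ}
    (h : ∀ j, j ≤ R → |A (n + j) * A 0 - A n * A j| ≤ ε) :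
    |Jm A r n - Jm A r 0| ≤ 2 * R * ε := by
  have hε : 0 ≤ ε := (abs_nonneg _).trans (h 0 (Nat.zero_le _))
  have hA0 : 0 < A 0 := lt_of_lt_of_le one_pos (hA 0)
  have hAn : 0 < A n := lt_of_lt_of_le one_pos (hA n)
  set Q := r.ex fun j => A (n + j) * A 0 with hQ
  set P := r.ex fun j => A n * A j with hP
  set Q1 := r.ex fun j => j * (A (n + j) * A 0) with hQ1
  set P1 := r.ex fun j => j * (A n * A j) with hP1
  have hQ' : 1 ≤ Q := r.le_ex fun j => by
    have h3 := hA (n + j)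
    have h4 := hA 0
    nlinarith
  have hP' : 1 ≤ P := r.le_ex fun j => by
    have h3 := hA n
    have h4 := hA j
    nlinarith
  have e1 : Jm A r n = Q1 / Q := by
    unfold Jm
    have f1 : Q = (r.ex fun j => A (n + j)) * A 0 := by rw [hQ, Law.ex_mul_right]
    have f2 : Q1 = (r.ex fun j => j * A (n + j)) * A 0 := by
      rw [hQ1, ← Law.ex_mul_right]
      exact r.ex_congr fun j => by ring
    rw [f1, f2, mul_div_mul_right _ _ hA0.ne']
  have e2 : Jm A r 0 = P1 / P := by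
    unfold Jm
    have f1 : P = A n * (r.ex fun j => A (0 + j)) := by
      rw [hP, ← Law.ex_mul_left]
      exact r.ex_congr fun j => by rw [Nat.zero_add]
    have f2 : P1 = A n * (r.ex fun j => j * A (0 + j)) := by
      rw [hP1, ← Law.ex_mul_left]
      exact r.ex_congr fun j => by rw [Nat.zero_add]; ring
    rw [f1, f2, mul_div_mul_left _ _ hAn.ne']
  have e3 : |Q - P| ≤ ε := by
    rw [hQ, hP, ← Law.ex_sub]
    exact (r.abs_ex _).trans (r.ex_le' fun i => h _ (hr i))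
  have e4 : |Q1 - P1| ≤ R * ε := by
    rw [hQ1, hP1, ← Law.ex_sub]
    refine (r.abs_ex _).trans (r.ex_le' fun i => ?_)
    have f1 : (r.len i : ℝ) * (A (n + r.len i) * A 0) - (r.len i : ℝ) * (A n * A (r.len i)) =
        (r.len i : ℝ) * (A (n + r.len i) * A 0 - A n * A (r.len i)) := by ring
    rw [f1, abs_mul, abs_of_nonneg (Nat.cast_nonneg _)]
    have f2 : (r.len i : ℝ) ≤ R := by exact_mod_cast hr i
    exact mul_le_mul f2 (h _ (hr i)) (abs_nonneg _) (Nat.cast_nonneg _)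
  have hP0 : 0 < P := by linarith
  have hQ0 : 0 < Q := by linarith
  have e5 : P1 / P ≤ R := by rw [← e2]; exact Jm_le hA hr 0
  have e6 : 0 ≤ P1 / P := by rw [← e2]; exact Jm_nonneg hA r 0
  rw [e1, e2]
  have e7 : (Q1 / Q - P1 / P) * Q = (Q1 - P1) + P1 / P * (P - Q) := by
    field_simp
    ring
  have e8 : |(Q1 / Q - P1 / P) * Q| ≤ 2 * R * ε := by
    rw [e7]
    refine (abs_add_le _ _).trans ?_
    rw [abs_mul, abs_of_nonneg e6, abs_sub_comm P Q]
    have f1 : P1 / P * |Q - P| ≤ R * ε := mul_le_mul e5 e3 (abs_nonneg _) (Nat.cast_nonneg _)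
    linarith
  rw [abs_mul, abs_of_pos hQ0] at e8
  have := abs_nonneg (Q1 / Q - P1 / P)
  nlinarith

theorem next_scale {A f : ℕ → ℝ} (hA : ∀ n, 1 ≤ A n) {r : Law} {R : ℕ} (hr : r.Le R) {n : ℕ}
    {f0 s e : ℝ} (h : ∀ j, j ≤ R → |f (n + j) - f0 - ((n + j : ℕ) : ℝ) * s| ≤ e) :
    |(r.ex fun j => A (n + j) * f (n + j)) / (r.ex fun j => A (n + j)) - f0 - n * s -
      s * Jm A r n| ≤ e := by
  set Q := r.ex fun j => A (n + j) with hQ
  have hQ' : 1 ≤ Q := r.le_ex fun j => hA _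
  have hQ0 : 0 < Q := by linarith
  have e1 : (r.ex fun j => A (n + j) * f (n + j)) / Q - f0 - n * s - s * Jm A r n =
      (r.ex fun j => A (n + j) * (f (n + j) - f0 - ((n + j : ℕ) : ℝ) * s)) / Q := by
    have f1 : (r.ex fun j => A (n + j) * (f (n + j) - f0 - ((n + j : ℕ) : ℝ) * s)) =
        (r.ex fun j => A (n + j) * f (n + j)) - (f0 + n * s) * Q -
          s * (r.ex fun j => j * A (n + j)) := by
      rw [hQ, ← Law.ex_mul_left, ← Law.ex_mul_left, ← Law.ex_sub, ← Law.ex_sub]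
      refine r.ex_congr fun j => ?_
      push_cast
      ring
    rw [f1]
    unfold Jm
    rw [← hQ]
    field_simp
    ring
  rw [e1, abs_div, abs_of_pos hQ0, div_le_iff₀ hQ0]
  refine (r.abs_ex _).trans ?_
  rw [hQ, ← Law.ex_mul_left]
  refine r.ex_mono' fun i => ?_
  have h3 := hA (n + r.len i)
  rw [abs_mul, abs_of_nonneg (by linarith : 0 ≤ A (n + r.len i)), mul_comm]
  exact mul_le_mul_of_nonneg_right (h _ (hr i)) (by linarith)

theorem growth {a M : ℕ → ℝ} {K : ℝ} (ha : ∀ n, 1 ≤ a n) (ha' : ∀ n, a n ≤ K)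
    (hM : ∀ n, 0 ≤ M n) (hM0 : M 0 = 0) (hMd : ∀ p q, M (p + q) ≤ 2 * K * (M p + M q))
    {Λ : ℕ} (hΛ : 2 ≤ Λ) {μ : ℕ → Law} {c : ℕ → ℕ} {ε : ℕ → ℝ} (hε : ∀ k, 0 ≤ ε k)
    (hs : Summable ε) (hle : ∀ k, (μ k).Le (c k)) (hc : ∀ k, c k ≤ 12 * Λ ^ k)
    (hsym : ∀ k (f : ℕ → ℝ), (μ k).ex f = (μ k).ex fun m => f (c k - m))
    (hdec : ∀ k, ∃ r : Law, ∀ f : ℕ → ℝ, (μ (k + 1)).ex f = ((μ k).conv r).ex f)
    (h1 : ∀ k i j, i ≤ 50 * Λ * Λ ^ k → j ≤ 50 * Λ * Λ ^ k →
      |((μ k).ex fun m => a (m + (i + j))) * ((μ k).ex fun m => a m) -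
        ((μ k).ex fun m => a (m + i)) * ((μ k).ex fun m => a (m + j))| ≤ ε k)
    (h2 : ∀ k (y : ℝ), 1 ≤ y → (∀ t, t ≤ Λ ^ k → M t ≤ y * t) →
      ∀ i j, i ≤ 50 * Λ * Λ ^ k → j ≤ 50 * Λ * Λ ^ k →
      |((μ k).ex fun m => M (m + (i + j))) * ((μ k).ex fun m => a m) +
        ((μ k).ex fun m => a (m + (i + j))) * ((μ k).ex fun m => M m) -
        ((μ k).ex fun m => M (m + i)) * ((μ k).ex fun m => a (m + j)) -
        ((μ k).ex fun m => a (m + i)) * ((μ k).ex fun m => M (m + j))| ≤ y * Λ ^ k * ε k) :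
    ∃ C : ℝ, ∀ n, M n ≤ C * n := by
  have hK : 1 ≤ K := (ha 0).trans (ha' 0)
  have hΛR : (2 : ℝ) ≤ Λ := by exact_mod_cast hΛ
  have hΛk : ∀ k, 1 ≤ Λ ^ k := fun k => Nat.one_le_pow _ _ (by omega)
  have hΛkR : ∀ k, (1 : ℝ) ≤ (Λ : ℝ) ^ k := fun k => one_le_pow₀ (by linarith)
  -- the best constants
  obtain ⟨y, hy1, hyM, hyle⟩ : ∃ y : ℕ → ℝ, (∀ k, 1 ≤ y k) ∧
      (∀ k t, t ≤ Λ ^ k → M t ≤ y k * t) ∧
      (∀ k Z, 1 ≤ Z → (∀ t, t ≤ Λ ^ k → M t ≤ Z * t) → y k ≤ Z) := by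
    refine ⟨fun k => (range (Λ ^ k + 1)).sup' ⟨0, by simp⟩ fun t => max 1 (M t / t), ?_, ?_, ?_⟩
    · intro k
      have h3 := Finset.le_sup' (s := range (Λ ^ k + 1)) (fun t : ℕ => max 1 (M t / t))
        (b := 0) (by simp)
      exact (le_max_left _ _).trans h3
    · intro k t ht
      have h3 := Finset.le_sup' (s := range (Λ ^ k + 1)) (fun t : ℕ => max 1 (M t / t))
        (b := t) (Finset.mem_range.2 (by omega))
      have h4 := (le_max_right 1 (M t / t)).trans h3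
      rcases Nat.eq_zero_or_pos t with h0 | h0
      · subst h0
        rw [hM0]
        simp
      · have h5 : (0 : ℝ) < t := by exact_mod_cast h0
        exact (div_le_iff₀ h5).1 h4
    · intro k Z hZ h
      refine Finset.sup'_le _ _ fun t ht => ?_
      rw [Finset.mem_range] at ht
      refine max_le hZ ?_
      rcases Nat.eq_zero_or_pos t with h0 | h0
      · subst h0
        simp
        linarith
      · have h5 : (0 : ℝ) < t := by exact_mod_cast h0
        exact (div_le_iff₀ h5).2 (h t (by omega))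
  have hy0 : ∀ k, 0 ≤ y k := fun k => zero_le_one.trans (hy1 k)
  have hymono : ∀ k, y k ≤ y (k + 1) := fun k => hyle k _ (hy1 _) fun t ht => hyM _ _ (by
    rw [pow_succ]
    have : Λ ^ k ≤ Λ ^ k * Λ := Nat.le_mul_of_pos_right _ (by omega)
    omega)
  -- the scales
  set F : ℕ → ℕ → ℝ := fun k n => fr a M (μ k) n with hF
  set s : ℕ → ℝ := fun k => sl a M (μ k) (50 * Λ * Λ ^ k) with hsdef
  set C1 : ℝ := 1 + 2 * C0 K Λ with hC1
  have hC0 := C0_pos hK Λ
  have hC1' : 1 ≤ C1 := by linarith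
  have hsc : ∀ k, (∀ n, n ≤ 50 * Λ * Λ ^ k → |F k n - F k 0 - n * s k| ≤
      2 * (C1 * (y k * Λ ^ k * ε k))) ∧ |s k| ≤ C0 K Λ * y k := by
    intro k
    have h3 := scale_add ha ha' hM hM0 hMd hΛ (hΛk k) (hle k) (hc k) (hy1 k) (hyM k) (h1 k)
      (fun i j hi hj => by
        have := h2 k (y k) (hy1 k) (hyM k) i j hi hj
        rw [Nat.cast_pow]
        exact this)
    rw [Nat.cast_pow] at h3
    exact h3
  have hF0 : ∀ k n, 0 ≤ F k n := fun k n => fr_nonneg ha hM _ _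
  -- from one scale to the next
  have hnext : ∀ k, ∃ J : ℕ → ℝ, (∀ n, 0 ≤ J n ∧ J n ≤ 12 * Λ * Λ ^ k) ∧
      ∀ n, n ≤ 25 * Λ * Λ ^ k → |F (k + 1) n - F k 0 - n * s k - s k * J n| ≤
        2 * (C1 * (y k * Λ ^ k * ε k)) ∧ |J n - J 0| ≤ 24 * Λ * Λ ^ k * ε k := by
    intro k
    obtain ⟨r, hr⟩ := hdec k
    have hcR : (c (k + 1) : ℝ) ≤ 12 * Λ * Λ ^ k := by
      have h3 := hc (k + 1)
      have h4 : (c (k + 1) : ℝ) ≤ ((12 * Λ ^ (k + 1) : ℕ) : ℝ) := by exact_mod_cast h3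
      refine h4.trans (le_of_eq ?_)
      push_cast
      ring
    have hrLe : r.Le (c (k + 1)) := by
      have h3 := Le_of_ex_eq (hle (k + 1)) hr
      intro i
      obtain ⟨j⟩ := (μ k).ne
      have h4 : (μ k).len j + r.len i ≤ c (k + 1) := h3 (j, i)
      omega
    set A : ℕ → ℝ := fun n => (μ k).ex fun m => a (m + n) with hA
    have hA1 : ∀ n, 1 ≤ A n := fun n => one_le_ab ha _ _
    have hcn : ∀ n j, n ≤ 25 * Λ * Λ ^ k → j ≤ c (k + 1) → n + j ≤ 50 * Λ * Λ ^ k := by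
      intro n j hn hj
      have h3 := hc (k + 1)
      have h4 : 12 * Λ ^ (k + 1) = 12 * (Λ * Λ ^ k) := by ring
      have h5 : 25 * Λ * Λ ^ k = 25 * (Λ * Λ ^ k) := by ring
      have h6 : 50 * Λ * Λ ^ k = 50 * (Λ * Λ ^ k) := by ring
      omega
    refine ⟨Jm A r, fun n => ⟨Jm_nonneg hA1 r n, (Jm_le hA1 hrLe n).trans hcR⟩, ?_⟩
    intro n hn
    constructor
    · have h3 := next_scale (f := F k) hA1 hrLe (n := n) (f0 := F k 0) (s := s k)
        (e := 2 * (C1 * (y k * Λ ^ k * ε k))) (fun j hj => (hsc k).1 _ (hcn n j hn hj))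
      have h4 : F (k + 1) n = (r.ex fun j => A (n + j) * F k (n + j)) /
          (r.ex fun j => A (n + j)) := by
        have e1 : ∀ g : ℕ → ℝ, (μ (k + 1)).ex (fun m => g (m + n)) =
            r.ex fun j => (μ k).ex fun m => g (m + (n + j)) := by
          intro g
          rw [hr, Law.ex_conv, Law.ex_comm]
          refine r.ex_congr fun j => (μ k).ex_congr fun m => ?_
          congr 1
          ring
        have e2 : ∀ j, A (n + j) * F k (n + j) = (μ k).ex fun m => M (m + (n + j)) := by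
          intro j
          have h5 := hA1 (n + j)
          have h6 : A (n + j) ≠ 0 := by
            intro h7
            rw [h7] at h5
            norm_num at h5
          simp only [hF, fr]
          exact mul_div_cancel₀ _ h6
        simp only [e2]
        simp only [hF, fr]
        rw [e1 M, e1 a]
      rw [h4]
      exact h3
    · have h3 := Jm_diff hA1 hrLe (n := n) (ε := ε k) (fun j hj => by
        refine h1 k n j ?_ ?_
        · have := hcn n j hn hj
          omega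
        · have := hcn n j hn hj
          omega)
      refine h3.trans ?_
      have h4 := mul_le_mul_of_nonneg_right hcR (hε k)
      linarith
  -- comparison of the slopes
  have hslope : ∀ k, |s (k + 1) - s k| ≤ (4 * C1 + 24 * C0 K Λ) * y (k + 1) * (ε k + ε (k + 1)) := by
    intro k
    obtain ⟨J, hJ, hJn⟩ := hnext k
    have hn1 : 25 * Λ * Λ ^ k ≤ 50 * Λ * Λ ^ (k + 1) := by
      rw [pow_succ]
      have h3 : Λ * Λ ^ k ≤ Λ * (Λ ^ k * Λ) :=
        Nat.mul_le_mul_left _ (Nat.le_mul_of_pos_right _ (by omega))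
      have h4 : 25 * Λ * Λ ^ k = 25 * (Λ * Λ ^ k) := by ring
      have h5 : 50 * Λ * (Λ ^ k * Λ) = 50 * (Λ * (Λ ^ k * Λ)) := by ring
      omega
    have g1 := (hsc (k + 1)).1 _ hn1
    obtain ⟨g2, g3⟩ := hJn _ (le_refl (25 * Λ * Λ ^ k))
    obtain ⟨g4, -⟩ := hJn 0 (Nat.zero_le _)
    have g5 := (hsc k).2
    set n : ℕ := 25 * Λ * Λ ^ k with hn
    have hnR : (n : ℝ) = 25 * (Λ * Λ ^ k) := by rw [hn]; push_cast; ring
    have e1 : (n : ℝ) * (s (k + 1) - s k) =
        -(F (k + 1) n - F (k + 1) 0 - n * s (k + 1)) +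
        (F (k + 1) n - F k 0 - n * s k - s k * J n) -
        (F (k + 1) 0 - F k 0 - ((0 : ℕ) : ℝ) * s k - s k * J 0) + s k * (J n - J 0) := by
      push_cast
      ring
    have e2 : (n : ℝ) * |s (k + 1) - s k| ≤ 2 * (C1 * (y (k + 1) * Λ ^ (k + 1) * ε (k + 1))) +
        2 * (C1 * (y k * Λ ^ k * ε k)) + 2 * (C1 * (y k * Λ ^ k * ε k)) +
        C0 K Λ * y k * (24 * Λ * Λ ^ k * ε k) := by
      have f1 : (n : ℝ) * |s (k + 1) - s k| = |(n : ℝ) * (s (k + 1) - s k)| := by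
        rw [abs_mul, Nat.abs_cast]
      rw [f1, e1]
      refine (abs_add_le _ _).trans (add_le_add ?_ ?_)
      · refine (abs_sub _ _).trans (add_le_add ?_ g4)
        refine (abs_add_le _ _).trans (add_le_add ?_ g2)
        rw [abs_neg]
        exact g1
      · rw [abs_mul]
        exact mul_le_mul g5 g3 (abs_nonneg _) ((abs_nonneg _).trans g5)
    -- bound the right-hand side
    have p0 : (1 : ℝ) ≤ Λ * Λ ^ k := by
      have := hΛkR k
      nlinarith
    have hX : 0 ≤ (Λ : ℝ) * Λ ^ k * y (k + 1) := by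
      have := hy0 (k + 1)
      positivity
    have q1 : y k * Λ ^ k * ε k ≤ Λ * Λ ^ k * y (k + 1) * ε k := by
      refine mul_le_mul_of_nonneg_right ?_ (hε k)
      have f1 := hymono k
      have f2 := hΛkR k
      have f3 : y k * (Λ : ℝ) ^ k ≤ y (k + 1) * (Λ : ℝ) ^ k :=
        mul_le_mul_of_nonneg_right f1 (by linarith)
      have f4 : y (k + 1) * (Λ : ℝ) ^ k ≤ Λ * (y (k + 1) * (Λ : ℝ) ^ k) := by
        have : 0 ≤ y (k + 1) * (Λ : ℝ) ^ k := mul_nonneg (hy0 _) (by linarith)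
        nlinarith
      linarith
    have q2 : y (k + 1) * Λ ^ (k + 1) * ε (k + 1) = Λ * Λ ^ k * y (k + 1) * ε (k + 1) := by
      rw [pow_succ]; ring
    have q3 : C0 K Λ * y k * (24 * Λ * Λ ^ k * ε k) ≤
        24 * C0 K Λ * (Λ * Λ ^ k * y (k + 1) * ε k) := by
      have f1 : C0 K Λ * y k * (24 * Λ * Λ ^ k * ε k) =
          24 * C0 K Λ * (Λ * Λ ^ k * y k * ε k) := by ring
      rw [f1]
      refine mul_le_mul_of_nonneg_left ?_ (by linarith)
      refine mul_le_mul_of_nonneg_right ?_ (hε k)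
      exact mul_le_mul_of_nonneg_left (hymono k) (by linarith)
    have q4 : (n : ℝ) * |s (k + 1) - s k| ≤ (Λ * Λ ^ k) *
        ((4 * C1 + 24 * C0 K Λ) * y (k + 1) * (ε k + ε (k + 1))) := by
      refine e2.trans ?_
      rw [q2]
      have r1 : 2 * (C1 * (y k * Λ ^ k * ε k)) ≤ 2 * (C1 * (Λ * Λ ^ k * y (k + 1) * ε k)) := by
        refine mul_le_mul_of_nonneg_left ?_ (by norm_num)
        exact mul_le_mul_of_nonneg_left q1 (by linarith)
      have r2 : 0 ≤ Λ * Λ ^ k * y (k + 1) * ε (k + 1) := mul_nonneg hX (hε _)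
      have r3 : 0 ≤ C1 * (Λ * Λ ^ k * y (k + 1) * ε (k + 1)) := mul_nonneg (by linarith) r2
      have r4 : 0 ≤ C0 K Λ * (Λ * Λ ^ k * y (k + 1) * ε (k + 1)) := mul_nonneg (by linarith) r2
      have r5 : (Λ * Λ ^ k : ℝ) * ((4 * C1 + 24 * C0 K Λ) * y (k + 1) * (ε k + ε (k + 1))) =
          4 * (C1 * (Λ * Λ ^ k * y (k + 1) * ε k)) + 4 * (C1 * (Λ * Λ ^ k * y (k + 1) * ε (k + 1)))
          + 24 * (C0 K Λ * (Λ * Λ ^ k * y (k + 1) * ε k)) +
          24 * (C0 K Λ * (Λ * Λ ^ k * y (k + 1) * ε (k + 1))) := by ring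
      rw [r5]
      linarith
    have q5 : 0 ≤ |s (k + 1) - s k| := abs_nonneg _
    rw [hnR] at q4
    have q6 : (Λ * Λ ^ k : ℝ) * |s (k + 1) - s k| ≤ (Λ * Λ ^ k) *
        ((4 * C1 + 24 * C0 K Λ) * y (k + 1) * (ε k + ε (k + 1))) := by
      refine le_trans ?_ q4
      have : (0 : ℝ) ≤ Λ * Λ ^ k * |s (k + 1) - s k| := by positivity
      linarith
    exact le_of_mul_le_mul_left q6 (by linarith)
  -- bound at the origin
  have horig : ∀ k (z : ℝ), 0 ≤ z → (∀ j, j < k → |s j| + ε j * y j ≤ z) →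
      F k 0 ≤ F 0 0 + (12 * Λ + 2 * C1) * z * Λ ^ k := by
    intro k
    induction k with
    | zero =>
      intro z hz _
      have : 0 ≤ (12 * Λ + 2 * C1) * z * (Λ : ℝ) ^ 0 := by positivity
      linarith
    | succ k ih =>
      intro z hz h
      have g1 := ih z hz fun j hj => h j (by omega)
      have g2 := h k (by omega)
      obtain ⟨J, hJ, hJn⟩ := hnext k
      obtain ⟨g3, -⟩ := hJn 0 (Nat.zero_le _)
      have g4 := (abs_le.1 g3).2
      have g5 : s k * J 0 ≤ |s k| * (12 * Λ * Λ ^ k) := by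
        refine (le_abs_self _).trans ?_
        rw [abs_mul, abs_of_nonneg (hJ 0).1]
        exact mul_le_mul_of_nonneg_left (hJ 0).2 (abs_nonneg _)
      have hv : (0 : ℝ) ≤ Λ ^ k := by positivity
      have g6 : |s k| * (12 * Λ * Λ ^ k) + 2 * (C1 * (y k * Λ ^ k * ε k)) ≤
          (12 * Λ + 2 * C1) * z * Λ ^ k := by
        have f0 := mul_nonneg (hε k) (hy0 k)
        have f0' := abs_nonneg (s k)
        have f1 : |s k| * (12 * Λ * Λ ^ k) ≤ z * (12 * Λ * Λ ^ k) :=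
          mul_le_mul_of_nonneg_right (by linarith) (by positivity)
        have f2 : 2 * (C1 * (y k * Λ ^ k * ε k)) = (2 * C1 * Λ ^ k) * (ε k * y k) := by ring
        have f3 : (2 * C1 * Λ ^ k) * (ε k * y k) ≤ (2 * C1 * Λ ^ k) * z :=
          mul_le_mul_of_nonneg_left (by linarith) (by positivity)
        rw [f2]
        linarith
      have g7 : (12 * Λ + 2 * C1) * z * (Λ : ℝ) ^ k * 2 ≤
          (12 * Λ + 2 * C1) * z * Λ ^ (k + 1) := by
        rw [pow_succ]
        have : 0 ≤ (12 * Λ + 2 * C1) * z * (Λ : ℝ) ^ k := by positivity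
        nlinarith
      push_cast at g4
      linarith
  -- the a priori bound
  set C3 : ℝ := 2 * K ^ 2 * (2 * F 0 0 + 24 * Λ + 6 * C1 + 1) with hC3
  set C4 : ℝ := ∑ j ∈ range 12, M j with hC4
  have hC3' : 0 ≤ C3 := by
    have := hF0 0 0
    positivity
  have hC4' : 0 ≤ C4 := Finset.sum_nonneg fun j _ => hM j
  have hstep : ∀ k (z : ℝ), (∀ j, j ≤ k → 1 + |s j| + ε j * y j ≤ z) →
      ∀ t, 12 * Λ ^ k ≤ t → t ≤ 12 * Λ ^ (k + 1) → M t ≤ C3 * z * t := by
    intro k z hz t ht1 ht2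
    have hck := hc k
    have hvt : Λ ^ k ≤ t := by omega
    have hvtR : (Λ : ℝ) ^ k ≤ t := by exact_mod_cast hvt
    have htR : (1 : ℝ) ≤ t := (hΛkR k).trans hvtR
    have hzk := hz k le_rfl
    have f0 := mul_nonneg (hε k) (hy0 k)
    have f0' := abs_nonneg (s k)
    have hz1 : 1 ≤ z := by linarith
    obtain ⟨n, hn⟩ : ∃ n, t = n + c k := ⟨t - c k, by omega⟩
    have hnL : n ≤ 50 * Λ * Λ ^ k := by
      have h3 : 12 * Λ ^ (k + 1) = 12 * (Λ * Λ ^ k) := by ring
      have h4 : 50 * Λ * Λ ^ k = 50 * (Λ * Λ ^ k) := by ring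
      omega
    have g1 : M t ≤ 2 * K * (((μ k).ex fun m => M (m + 0)) + (μ k).ex fun m => M (m + n)) := by
      have e1 : (μ k).ex (fun m => M (m + n)) = (μ k).ex fun m => M (t - m) := by
        rw [hsym k (fun m => M (t - m))]
        refine (μ k).ex_congr' fun i => ?_
        have := hle k i
        congr 1
        omega
      rw [e1, ← Law.ex_add, ← Law.ex_mul_left]
      refine (μ k).le_ex' fun i => ?_
      have h3 := hle k i
      have h4 := hMd ((μ k).len i) (t - (μ k).len i)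
      have h5 : (μ k).len i + (t - (μ k).len i) = t := by omega
      rw [h5] at h4
      exact h4
    have g2 := mb_le_fr ha ha' hM (μ k) 0
    have g3 := mb_le_fr ha ha' hM (μ k) n
    have g4 := (abs_le.1 ((hsc k).1 n hnL)).2
    have g5 : (n : ℝ) * s k ≤ t * z := by
      have h3 : (n : ℝ) ≤ t := by
        have : n ≤ t := by omega
        exact_mod_cast this
      have h4 : s k ≤ z := by
        have := le_abs_self (s k)
        linarith
      have h5 : (0 : ℝ) ≤ n := Nat.cast_nonneg n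
      calc (n : ℝ) * s k ≤ n * z := mul_le_mul_of_nonneg_left h4 h5
        _ ≤ t * z := mul_le_mul_of_nonneg_right h3 (by linarith)
    have g6 : 2 * (C1 * (y k * Λ ^ k * ε k)) ≤ 2 * C1 * z * Λ ^ k := by
      have f2 : 2 * (C1 * (y k * Λ ^ k * ε k)) = (2 * C1 * Λ ^ k) * (ε k * y k) := by ring
      have f3 : (2 * C1 * Λ ^ k) * (ε k * y k) ≤ (2 * C1 * Λ ^ k) * z :=
        mul_le_mul_of_nonneg_left (by linarith) (by positivity)
      rw [f2]
      linarith
    have g7 := horig k z (by linarith) fun j hj => by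
      have := hz j hj.le
      linarith
    have g8 : F k n ≤ F k 0 + t * z + 2 * C1 * z * Λ ^ k := by linarith
    have g9 : M t ≤ 2 * K ^ 2 * (F k 0 + F k n) := by
      have h3 : M t ≤ 2 * K * (K * F k 0 + K * F k n) :=
        g1.trans (mul_le_mul_of_nonneg_left (add_le_add g2 g3) (by linarith))
      have h4 : 2 * K * (K * F k 0 + K * F k n) = 2 * K ^ 2 * (F k 0 + F k n) := by ring
      linarith
    have g10 : F k 0 + F k n ≤ (2 * F 0 0 + 24 * Λ + 6 * C1 + 1) * (z * t) := by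
      have hzt : 1 ≤ z * t := by nlinarith
      have h3 : 2 * F 0 0 ≤ 2 * F 0 0 * (z * t) := by
        have := hF0 0 0
        nlinarith
      have h4 : (24 * Λ + 6 * C1) * z * Λ ^ k ≤ (24 * Λ + 6 * C1) * z * t :=
        mul_le_mul_of_nonneg_left hvtR (by positivity)
      nlinarith
    have g11 : 2 * K ^ 2 * (F k 0 + F k n) ≤
        2 * K ^ 2 * ((2 * F 0 0 + 24 * Λ + 6 * C1 + 1) * (z * t)) :=
      mul_le_mul_of_nonneg_left g10 (by positivity)
    refine (g9.trans g11).trans (le_of_eq ?_)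
    rw [hC3]
    ring
  have hapr : ∀ k (z : ℝ), (∀ j, j ≤ k → 1 + |s j| + ε j * y j ≤ z) →
      ∀ t, t ≤ 12 * Λ ^ (k + 1) → M t ≤ (C3 + C4) * z * t := by
    intro k
    induction k with
    | zero =>
      intro z hz t ht
      have hzk := hz 0 le_rfl
      have f0 := mul_nonneg (hε 0) (hy0 0)
      have f0' := abs_nonneg (s 0)
      have hz1 : 1 ≤ z := by linarith
      have ht0 : (0 : ℝ) ≤ t := Nat.cast_nonneg t
      have hzt : 0 ≤ z * t := by positivity
      rcases Nat.lt_or_ge t (12 * Λ ^ 0) with h3 | h3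
      · rw [pow_zero, mul_one] at h3
        rcases Nat.eq_zero_or_pos t with h0 | h0
        · subst h0
          rw [hM0]
          simp
        · have h5 : (1 : ℝ) ≤ t := by exact_mod_cast h0
          have h6 : M t ≤ C4 :=
            Finset.single_le_sum (f := M) (fun j _ => hM j) (Finset.mem_range.2 h3)
          have h7 : 1 ≤ z * t := by nlinarith
          have h8 : 0 ≤ C3 * (z * t) := mul_nonneg hC3' hzt
          have h9 : C4 ≤ C4 * (z * t) := by nlinarith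
          have h10 : (C3 + C4) * z * t = C3 * (z * t) + C4 * (z * t) := by ring
          linarith
      · have h4 := hstep 0 z hz t h3 ht
        have h5 : (C3 + C4) * z * t = C3 * z * t + C4 * (z * t) := by ring
        have h6 : 0 ≤ C4 * (z * t) := mul_nonneg hC4' hzt
        linarith
    | succ k ih =>
      intro z hz t ht
      have hzk := hz 0 (Nat.zero_le _)
      have f0 := mul_nonneg (hε 0) (hy0 0)
      have f0' := abs_nonneg (s 0)
      have hz1 : 1 ≤ z := by linarith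
      have ht0 : (0 : ℝ) ≤ t := Nat.cast_nonneg t
      have hzt : 0 ≤ z * t := by positivity
      rcases Nat.lt_or_ge t (12 * Λ ^ (k + 1)) with h3 | h3
      · exact ih z (fun j hj => hz j (by omega)) t h3.le
      · have h4 := hstep (k + 1) z hz t h3 ht
        have h5 : (C3 + C4) * z * t = C3 * z * t + C4 * (z * t) := by ring
        have h6 : 0 ≤ C4 * (z * t) := mul_nonneg hC4' hzt
        linarith
  -- the discrete Gronwall lemma
  set C5 : ℝ := 1 + C3 + C4 + (4 * C1 + 24 * C0 K Λ) with hC5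
  have hC5' : 1 ≤ C5 := by linarith
  obtain ⟨D, hD⟩ := gronwall (s := s) (y := y) (ε := ε) hC5' hε hs hy0
    (fun k z hz => by
      have hzk := hz 0 (Nat.zero_le _)
      have f0 := mul_nonneg (hε 0) (hy0 0)
      have f0' := abs_nonneg (s 0)
      have hz1 : 1 ≤ z := by linarith
      refine hyle (k + 1) _ (by nlinarith) fun t ht => ?_
      have h3 := hapr k z hz t (by omega)
      refine h3.trans ?_
      have ht0 : (0 : ℝ) ≤ t := Nat.cast_nonneg t
      have hzt : 0 ≤ z * t := by positivity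
      have h4 : (C3 + C4) * (z * t) ≤ C5 * (z * t) :=
        mul_le_mul_of_nonneg_right (by linarith) hzt
      linarith)
    (fun k => by
      refine (hslope k).trans ?_
      have h3 : 0 ≤ ε k + ε (k + 1) := add_nonneg (hε _) (hε _)
      refine mul_le_mul_of_nonneg_right ?_ h3
      exact mul_le_mul_of_nonneg_right (by linarith) (hy0 _))
  refine ⟨D, fun n => ?_⟩
  have h3 : n ≤ Λ ^ n := by
    have h4 : n < 2 ^ n := Nat.lt_two_pow_self
    have h5 : 2 ^ n ≤ Λ ^ n := Nat.pow_le_pow_left hΛ n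
    omega
  refine (hyM n n h3).trans ?_
  exact mul_le_mul_of_nonneg_right (hD n) (Nat.cast_nonneg n)

end Pool.Agent.Bub4
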