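import Pool.Agent.Bub4.Words

/-!
# Hits
-/

set_option autoImplicit false

namespace Pool.Agent.Bub4

open Finset

namespace Sys

variable {S V : Type} [Fintype S] [AddCommGroup V] (Y : Sys S V)

theorem ht_nonneg (v : ℕ) (l r : List S) : 0 ≤ Y.ht v l r := by
  unfold ht
  refine Finset.sum_nonneg fun s _ => Finset.sum_nonneg fun t _ => ?_
  split_ifs
  · exact dl_nonneg _
  · exact le_rfl

theorem ht_reverse (v : ℕ) (l r : List S) : Y.ht v r.reverse l.reverse = Y.ht v l r := by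
  unfold ht
  simp only [List.length_reverse]
  rw [Finset.sum_comm]
  refine Finset.sum_congr rfl fun s hs => Finset.sum_congr rfl fun t ht => ?_
  rw [Finset.mem_Icc] at hs ht
  have e1 : r.reverse.drop (r.length - t) = (r.take t).reverse := by
    rw [List.reverse_take]
  have e2 : l.reverse.take s = (l.drop (l.length - s)).reverse := by
    rw [List.reverse_drop]
    congr 1
    omega
  rw [e1, e2, sm_reverse, sm_reverse, max_comm t s, add_comm (Y.sm (r.take t))]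

/-- one hit -/
theorem one_le_ht {v : ℕ} {l r l' β κ r' : List S} (hl : l = l' ++ β) (hr : r = κ ++ r')
    (hβ : β ≠ []) (hκ : κ ≠ []) (h0 : Y.sm β + Y.sm κ = 0) (hv : v < max β.length κ.length) :
    1 ≤ Y.ht v l r := by
  unfold ht
  have hβ' : 1 ≤ β.length := List.length_pos_iff.2 hβ
  have hκ' : 1 ≤ κ.length := List.length_pos_iff.2 hκ
  have hlen : l.length = l'.length + β.length := by rw [hl, List.length_append]
  have hlen' : r.length = κ.length + r'.length := by rw [hr, List.length_append]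
  have nn : ∀ s t, 0 ≤ (if v < max s t then
      dl (Y.sm (l.drop (l.length - s)) + Y.sm (r.take t)) else (0 : ℝ)) := by
    intro s t
    split_ifs
    · exact dl_nonneg _
    · exact le_rfl
  have hs : β.length ∈ Icc 1 l.length := Finset.mem_Icc.2 ⟨hβ', by omega⟩
  have ht : κ.length ∈ Icc 1 r.length := Finset.mem_Icc.2 ⟨hκ', by omega⟩
  have h1 := Finset.single_le_sum (f := fun s => ∑ t ∈ Icc 1 r.length, (if v < max s t then
      dl (Y.sm (l.drop (l.length - s)) + Y.sm (r.take t)) else (0 : ℝ)))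
      (fun s _ => Finset.sum_nonneg fun t _ => nn s t) hs
  have h2 := Finset.single_le_sum (f := fun t => (if v < max β.length t then
      dl (Y.sm (l.drop (l.length - β.length)) + Y.sm (r.take t)) else (0 : ℝ)))
      (fun t _ => nn _ t) ht
  refine le_trans ?_ (h2.trans h1)
  rw [if_pos hv]
  have e1 : l.drop (l.length - β.length) = β := by
    rw [hlen, Nat.add_sub_cancel, hl, List.drop_left]
  have e2 : r.take κ.length = κ := by
    rw [hr, List.take_left]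
  rw [e1, e2, dl_of_eq h0]

/-- a loop in a concatenation of two self-avoiding words -/
theorem exists_loop {l r : List S} (hl : Y.Saw l) (hr : Y.Saw r) (h : ¬ Y.Saw (l ++ r)) :
    ∃ β κ : List S, β ≠ [] ∧ κ ≠ [] ∧ Y.sm β + Y.sm κ = 0 ∧ β <:+ l ∧ κ <+: r := by
  have h' : ∃ b, b <:+: l ++ r ∧ b ≠ [] ∧ Y.sm b = 0 := by
    by_contra hc
    apply h
    intro b hb hb' hb0
    exact hc ⟨b, hb, hb', hb0⟩
  obtain ⟨b, hb, hb', hb0⟩ := h'
  rcases List.infix_append_iff_ne_nil.1 hb with h1 | h1 | ⟨l₁, l₂, h1, h2, h3, h4, h5⟩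
  · exact absurd hb0 (hl b h1 hb')
  · exact absurd hb0 (hr b h1 hb')
  · refine ⟨l₁, l₂, h1, h2, ?_, h4, h5⟩
    rw [← sm_append, ← h3, hb0]

/-- in the situation of `exists_loop`, if `β` is contained in `l1` and `κ` in `r1` then `l1 r1` is
not self-avoiding -/
theorem not_saw_of_loop {l1 r1 β κ : List S} (hβ : β ≠ []) (h0 : Y.sm β + Y.sm κ = 0)
    (h1 : β <:+ l1) (h2 : κ <+: r1) : ¬ Y.Saw (l1 ++ r1) := by
  intro h
  have h3 : β ++ κ <:+: l1 ++ r1 := by
    obtain ⟨a, rfl⟩ := h1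
    obtain ⟨b, rfl⟩ := h2
    exact ⟨a, b, by simp [List.append_assoc]⟩
  refine h _ h3 (by simp [hβ]) ?_
  rw [sm_append, h0]

/-- `l0 l1` and `l1 r` are self-avoiding, `l0 l1 r` is not: there is a hit between `l0 l1` and
`r` whose loop contains `l1`. -/
theorem hit_right (v : ℕ) (l0 l1 r : List S) (h : v ≤ l1.length) :
    Y.sv (l0 ++ l1) * Y.sv (l1 ++ r) - Y.sv (l0 ++ l1 ++ r) ≤
      Y.sv (l0 ++ l1) * Y.sv r * Y.ht v (l0 ++ l1) r := by
  have hR : 0 ≤ Y.sv (l0 ++ l1) * Y.sv r * Y.ht v (l0 ++ l1) r :=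
    mul_nonneg (mul_nonneg (Y.sv_nonneg _) (Y.sv_nonneg _)) (Y.ht_nonneg _ _ _)
  by_cases h1 : Y.Saw (l0 ++ l1)
  swap
  · have := Y.sv_nonneg (l0 ++ l1 ++ r)
    rw [Y.sv_of_not h1] at hR ⊢
    linarith
  by_cases h2 : Y.Saw (l1 ++ r)
  swap
  · have := Y.sv_nonneg (l0 ++ l1 ++ r)
    rw [Y.sv_of_not h2]
    linarith
  by_cases h3 : Y.Saw (l0 ++ l1 ++ r)
  · rw [Y.sv_of h1, Y.sv_of h2, Y.sv_of h3]
    rw [Y.sv_of h1] at hR
    linarith
  have hr : Y.Saw r := h2.fac (List.suffix_append l1 r).isInfix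
  obtain ⟨β, κ, hβ, hκ, h0, hβs, hκp⟩ := Y.exists_loop h1 hr h3
  have hlen : l1.length < β.length := by
    by_contra hc
    have h4 : β <:+ l1 := List.suffix_of_suffix_length_le hβs (List.suffix_append l0 l1) (by omega)
    exact Y.not_saw_of_loop hβ h0 h4 hκp h2
  obtain ⟨l', hl'⟩ := hβs
  obtain ⟨r', hr'⟩ := hκp
  have h5 : 1 ≤ Y.ht v (l0 ++ l1) r :=
    Y.one_le_ht hl'.symm hr'.symm hβ hκ h0 (lt_of_lt_of_le (by omega) (le_max_left _ _))
  rw [Y.sv_of h1, Y.sv_of h2, Y.sv_of hr, Y.sv_of_not h3]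
  linarith

theorem hit_left (v : ℕ) (l0 l1 r : List S) (h : v ≤ l1.length) :
    Y.sv (l0 ++ l1) * Y.sv (l1 ++ r) - Y.sv (l0 ++ l1 ++ r) ≤
      Y.sv l0 * Y.sv (l1 ++ r) * Y.ht v l0 (l1 ++ r) := by
  have hR : 0 ≤ Y.sv l0 * Y.sv (l1 ++ r) * Y.ht v l0 (l1 ++ r) :=
    mul_nonneg (mul_nonneg (Y.sv_nonneg _) (Y.sv_nonneg _)) (Y.ht_nonneg _ _ _)
  by_cases h1 : Y.Saw (l0 ++ l1)
  swap
  · have := Y.sv_nonneg (l0 ++ l1 ++ r)
    rw [Y.sv_of_not h1]
    linarith
  by_cases h2 : Y.Saw (l1 ++ r)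
  swap
  · have := Y.sv_nonneg (l0 ++ l1 ++ r)
    rw [Y.sv_of_not h2] at hR ⊢
    linarith
  have hl : Y.Saw l0 := h1.fac (List.prefix_append l0 l1).isInfix
  by_cases h3 : Y.Saw (l0 ++ l1 ++ r)
  · rw [Y.sv_of h1, Y.sv_of h2, Y.sv_of h3]
    rw [Y.sv_of h2] at hR
    linarith
  have h3' : ¬ Y.Saw (l0 ++ (l1 ++ r)) := by rwa [← List.append_assoc]
  obtain ⟨β, κ, hβ, hκ, h0, hβs, hκp⟩ := Y.exists_loop hl h2 h3'
  have hlen : l1.length < κ.length := by
    by_contra hc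
    have h4 : κ <+: l1 := List.prefix_of_prefix_length_le hκp (List.prefix_append l1 r) (by omega)
    exact Y.not_saw_of_loop hβ h0 hβs h4 h1
  obtain ⟨l', hl'⟩ := hβs
  obtain ⟨r', hr'⟩ := hκp
  have h5 : 1 ≤ Y.ht v l0 (l1 ++ r) :=
    Y.one_le_ht hl'.symm hr'.symm hβ hκ h0 (lt_of_lt_of_le (by omega) (le_max_right _ _))
  rw [Y.sv_of h1, Y.sv_of h2, Y.sv_of hl, Y.sv_of_not h3]
  linarith

theorem hit_two (v : ℕ) (l0 l1 r1 r0 : List S) (h : v ≤ l1.length) (h' : v ≤ r1.length) :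
    Y.sv (l0 ++ l1) * Y.sv (r1 ++ r0) * Y.sv (l1 ++ r1) - Y.sv (l0 ++ l1 ++ (r1 ++ r0)) ≤
      Y.sv (l0 ++ l1) * Y.sv (r1 ++ r0) * Y.ht v (l0 ++ l1) (r1 ++ r0) := by
  have hR : 0 ≤ Y.sv (l0 ++ l1) * Y.sv (r1 ++ r0) * Y.ht v (l0 ++ l1) (r1 ++ r0) :=
    mul_nonneg (mul_nonneg (Y.sv_nonneg _) (Y.sv_nonneg _)) (Y.ht_nonneg _ _ _)
  have hn := Y.sv_nonneg (l0 ++ l1 ++ (r1 ++ r0))
  by_cases h1 : Y.Saw (l0 ++ l1)
  swap
  · rw [Y.sv_of_not h1] at hR ⊢
    linarith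
  by_cases h2 : Y.Saw (r1 ++ r0)
  swap
  · rw [Y.sv_of_not h2] at hR ⊢
    linarith
  by_cases h3 : Y.Saw (l1 ++ r1)
  swap
  · rw [Y.sv_of_not h3]
    linarith
  by_cases h4 : Y.Saw (l0 ++ l1 ++ (r1 ++ r0))
  · rw [Y.sv_of h4, Y.sv_of h3]
    rw [Y.sv_of h1, Y.sv_of h2] at hR ⊢
    linarith
  obtain ⟨β, κ, hβ, hκ, h0, hβs, hκp⟩ := Y.exists_loop h1 h2 h4
  have hlen : l1.length < β.length ∨ r1.length < κ.length := by
    by_contra hc
    rw [not_or] at hc
    have h5 : κ <+: r1 := List.prefix_of_prefix_length_le hκp (List.prefix_append r1 r0) (by omega)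
    have h6 : β <:+ l1 := List.suffix_of_suffix_length_le hβs (List.suffix_append l0 l1) (by omega)
    exact Y.not_saw_of_loop hβ h0 h6 h5 h3
  have hmax : v < max β.length κ.length := by
    rcases hlen with hlen | hlen
    · exact lt_of_lt_of_le (by omega) (le_max_left _ _)
    · exact lt_of_lt_of_le (by omega) (le_max_right _ _)
  obtain ⟨l', hl'⟩ := hβs
  obtain ⟨r', hr'⟩ := hκp
  have h5 : 1 ≤ Y.ht v (l0 ++ l1) (r1 ++ r0) :=
    Y.one_le_ht hl'.symm hr'.symm hβ hκ h0 hmax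
  rw [Y.sv_of h1, Y.sv_of h2, Y.sv_of h3, Y.sv_of_not h4]
  linarith

/-- decomposition of the words at the end points of the loops -/
theorem ht_expand (v m n : ℕ) (G : List S → List S → ℝ) :
    (Y.E m fun l => Y.E n fun r => G l r * Y.ht v l r) =
      ∑ s ∈ Icc 1 m, ∑ t ∈ Icc 1 n, if v < max s t then
        Y.E (m - s) fun α => Y.E s fun β => Y.E t fun κ => Y.E (n - t) fun δ =>
          G (α ++ β) (κ ++ δ) * dl (Y.sm β + Y.sm κ) else 0 := by
  have h1 : (Y.E m fun l => Y.E n fun r => G l r * Y.ht v l r) =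
      Y.E m fun l => Y.E n fun r => ∑ s ∈ Icc 1 m, ∑ t ∈ Icc 1 n,
        (if v < max s t then G l r * dl (Y.sm (l.drop (m - s)) + Y.sm (r.take t)) else 0) := by
    refine Y.E_congr fun l hl => Y.E_congr fun r hr => ?_
    unfold ht
    rw [hl, hr, Finset.mul_sum]
    refine Finset.sum_congr rfl fun s _ => ?_
    rw [Finset.mul_sum]
    refine Finset.sum_congr rfl fun t _ => ?_
    rw [mul_ite, mul_zero]
  rw [h1]
  simp only [E_fsum]
  refine Finset.sum_congr rfl fun s hs => Finset.sum_congr rfl fun t ht => ?_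
  rw [Finset.mem_Icc] at hs ht
  by_cases hv : v < max s t
  · simp only [if_pos hv]
    have e1 : m = (m - s) + s := by omega
    have e2 : n = t + (n - t) := by omega
    have h2 : (Y.E m fun l => Y.E n fun r => G l r *
        dl (Y.sm (l.drop (m - s)) + Y.sm (r.take t))) =
        Y.E ((m - s) + s) fun l => Y.E (t + (n - t)) fun r => G l r *
          dl (Y.sm (l.drop (m - s)) + Y.sm (r.take t)) := by
      rw [← e1, ← e2]
    rw [h2, E_add]
    refine Y.E_congr fun α hα => Y.E_congr fun β hβ => ?_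
    rw [E_add]
    refine Y.E_congr fun κ hκ => Y.E_congr fun δ hδ => ?_
    have e3 : (α ++ β).drop (m - s) = β := by rw [← hα, List.drop_left]
    have e4 : (κ ++ δ).take t = κ := by rw [← hκ, List.take_left]
    rw [e3, e4]
  · simp only [if_neg hv, E_zero_fun]

/-- unweighted bound for far hits -/
theorem far_one {K B : ℝ} (hY : Y.Crit K B) {v m n N : ℕ} (hm : m ≤ N) (hn : n ≤ N) :
    (Y.E m fun l => Y.E n fun r => Y.sv l * Y.sv r * Y.ht v l r) ≤ K ^ 2 * Y.H v N := by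
  have hK := hY.K_pos
  rw [Y.ht_expand v m n (fun l r => Y.sv l * Y.sv r)]
  have hterm : ∀ s t, s ≤ m → t ≤ n → (Y.E (m - s) fun α => Y.E s fun β => Y.E t fun κ =>
      Y.E (n - t) fun δ => Y.sv (α ++ β) * Y.sv (κ ++ δ) * dl (Y.sm β + Y.sm κ)) ≤
      K ^ 2 * Y.b s t := by
    intro s t hs ht
    have h1 : (Y.E (m - s) fun α => Y.E s fun β => Y.E t fun κ =>
        Y.E (n - t) fun δ => Y.sv (α ++ β) * Y.sv (κ ++ δ) * dl (Y.sm β + Y.sm κ)) ≤
        Y.E (m - s) fun α => Y.E s fun β => Y.E t fun κ =>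
          Y.E (n - t) fun δ => Y.sv α * ((Y.sv β * Y.sv κ * dl (Y.sm β + Y.sm κ)) * Y.sv δ) := by
      refine Y.E_mono fun α _ => Y.E_mono fun β _ => Y.E_mono fun κ _ => Y.E_mono fun δ _ => ?_
      have h2 := Y.sv_append_le α β
      have h3 := Y.sv_append_le κ δ
      have h4 := Y.sv_nonneg (κ ++ δ)
      have h5 := mul_nonneg (Y.sv_nonneg α) (Y.sv_nonneg β)
      have h6 := dl_nonneg (Y.sm β + Y.sm κ)
      calc Y.sv (α ++ β) * Y.sv (κ ++ δ) * dl (Y.sm β + Y.sm κ) ≤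
          (Y.sv α * Y.sv β) * (Y.sv κ * Y.sv δ) * dl (Y.sm β + Y.sm κ) :=
            mul_le_mul_of_nonneg_right (mul_le_mul h2 h3 h4 h5) h6
        _ = Y.sv α * ((Y.sv β * Y.sv κ * dl (Y.sm β + Y.sm κ)) * Y.sv δ) := by ring
    refine h1.trans ?_
    simp only [E_mul_left, E_mul_right]
    have h7 := Y.b_nonneg s t
    have h8 := hY.a_le (m - s)
    have h9 := hY.a_le (n - t)
    have h10 := Y.a_nonneg (m - s)
    have h11 := Y.a_nonneg (n - t)
    have h12 : Y.a (m - s) * (Y.b s t * Y.a (n - t)) ≤ K ^ 2 * Y.b s t := by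
      calc Y.a (m - s) * (Y.b s t * Y.a (n - t)) ≤ K * (Y.b s t * K) :=
            mul_le_mul h8 (mul_le_mul_of_nonneg_left h9 h7) (mul_nonneg h7 h11) hK.le
        _ = K ^ 2 * Y.b s t := by ring
    exact h12
  unfold H
  rw [Finset.mul_sum]
  have hsub1 : Icc 1 m ⊆ range (N + 1) := by
    intro s hs
    rw [Finset.mem_Icc] at hs
    exact Finset.mem_range.2 (by omega)
  have hsub2 : Icc 1 n ⊆ range (N + 1) := by
    intro s hs
    rw [Finset.mem_Icc] at hs
    exact Finset.mem_range.2 (by omega)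
  have hnn : ∀ s t, 0 ≤ K ^ 2 * (if v ≤ max s t then Y.b s t else 0) := by
    intro s t
    refine mul_nonneg (by positivity) ?_
    split_ifs
    · exact Y.b_nonneg s t
    · exact le_rfl
  refine le_trans (Finset.sum_le_sum (g := fun s => K ^ 2 * ∑ t ∈ range (N + 1),
    if v ≤ max s t then Y.b s t else 0) fun s hs => ?_)
    (Finset.sum_le_sum_of_subset_of_nonneg hsub1 fun s _ _ => ?_)
  · rw [Finset.mem_Icc] at hs
    rw [Finset.mul_sum]
    refine le_trans (Finset.sum_le_sum (g := fun t => K ^ 2 *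
      (if v ≤ max s t then Y.b s t else 0)) fun t ht => ?_)
      (Finset.sum_le_sum_of_subset_of_nonneg hsub2 fun t _ _ => hnn s t)
    rw [Finset.mem_Icc] at ht
    by_cases hv : v < max s t
    · rw [if_pos hv, if_pos hv.le]
      exact hterm s t hs.2 ht.2
    · rw [if_neg hv]
      exact hnn s t
  · rw [Finset.mul_sum]
    exact Finset.sum_nonneg fun t _ => hnn s t

end Sys

end Pool.Agent.Bub4
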