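import Pool.Agent.Bub4.Add
import Pool.Agent.Bub4.Growth

/-!
# A finite bubble implies linear second moments
-/

set_option autoImplicit false

namespace Pool.Agent.Bub4

open Finset

namespace Sys

variable {S V : Type} [Fintype S] [AddCommGroup V] (Y : Sys S V)

theorem M_le_linear {K B : ℝ} (hY : Y.Crit K B) (xs : V →+ ℝ) :
    ∃ C : ℝ, ∀ n : ℕ, Y.M xs n ≤ C * n := by
  obtain ⟨Λ, hΛ, p, c, ε, hε, hs, hle, hlec, hc, hsym, hdec, her, hW, hW2⟩ := Y.rec_main hY xs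
  obtain ⟨C, hC, hadd⟩ := Y.add_X2 hY xs
  have hK := hY.one_le_K
  have hK0 := hY.K_pos
  set G : ℝ := (2 * K) ^ (240 * Λ) with hG
  have hG1 : 1 ≤ G := one_le_pow₀ (by linarith)
  have hG0 : 0 < G := by linarith
  set D : ℝ := 1 + C * G * (120 * Λ + 1) with hD
  have hD1 : 1 ≤ D := by
    have : 0 ≤ C * G * (120 * Λ + 1) := by positivity
    linarith
  have hv1 : ∀ k, 1 ≤ Λ ^ k := fun k => Nat.one_le_pow _ _ (by omega)
  have hN : ∀ k i j, i ≤ 50 * Λ * Λ ^ k → j ≤ 50 * Λ * Λ ^ k →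
      i + j + 8 * Λ ^ k ≤ 120 * Λ * Λ ^ k := by
    intro k i j hi hj
    have h1 : 2 * Λ ^ k ≤ Λ * Λ ^ k := Nat.mul_le_mul_right _ hΛ
    have h2 : 50 * Λ * Λ ^ k = 50 * (Λ * Λ ^ k) := by ring
    have h3 : 120 * Λ * Λ ^ k = 120 * (Λ * Λ ^ k) := by ring
    rw [h2] at hi hj
    rw [h3]
    omega
  refine growth (a := Y.a) (M := Y.M xs) (K := K) hY.a_ge hY.a_le (Y.M_nonneg xs) (Y.M_zero xs)
    (Y.M_add_le hY xs) hΛ (μ := fun k => mu (Λ ^ k) (p k))
    (c := fun k => 4 * c k + 4 * Λ ^ k) (ε := fun k => D * ε k)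
    (fun k => mul_nonneg (by linarith) (hε k)) (hs.mul_left D)
    (fun k => (mu_symm ⟨hlec k, hsym k⟩ _).1) ?_
    (fun k => (mu_symm ⟨hlec k, hsym k⟩ _).2) ?_ ?_ ?_
  · intro k
    have := hc k
    show 4 * c k + 4 * Λ ^ k ≤ 12 * Λ ^ k
    omega
  · intro k
    obtain ⟨r, hr⟩ := hdec k
    exact mu_dec hr (Nat.pow_le_pow_right (by omega) (by omega))
  · intro k i j hi hj
    refine (Y.add_one (hle k) (hW k) (hN k i j hi hj)).trans ?_
    exact le_mul_of_one_le_left (hε k) hD1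
  · intro k y hy hMy i j hi hj
    have hvR : (1 : ℝ) ≤ (Λ : ℝ) ^ k := one_le_pow₀ (by exact_mod_cast (by omega : 1 ≤ Λ))
    have hM2 : ∀ t, t ≤ 2 * (120 * Λ * Λ ^ k) → Y.M xs t ≤ (G * y) * t := by
      intro t ht
      have := Y.M_mul_le hY xs (hv1 k) hMy (240 * Λ) t (by
        have : 2 * (120 * Λ * Λ ^ k) = 240 * Λ * Λ ^ k := by ring
        omega)
      rwa [← hG] at this
    have hGy : 1 ≤ G * y := by
      calc (1 : ℝ) = 1 * 1 := by ring
        _ ≤ G * y := mul_le_mul hG1 hy zero_le_one hG0.le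
    have hNc : ((120 * Λ * Λ ^ k : ℕ) : ℝ) = 120 * Λ * (Λ : ℝ) ^ k := by push_cast; ring
    have hΛR : (2 : ℝ) ≤ Λ := by exact_mod_cast hΛ
    have hN1 : 1 ≤ 120 * Λ * Λ ^ k := by
      have h1 := hv1 k
      have h2 : 1 * 1 ≤ (120 * Λ) * Λ ^ k := Nat.mul_le_mul (by omega) h1
      omega
    have h := hadd (Λ ^ k) (120 * Λ * Λ ^ k) (p k) (ε k) (G * y) (hv1 k) hN1 (hle k) hGy (hε k)
      hM2 (hW k) (by
        intro i i' j j' hi hi' hj hj'
        refine (hW2 k y hy hMy i i' j j' hi hi' hj hj').trans ?_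
        refine mul_le_mul_of_nonneg_right ?_ (hε k)
        rw [hNc]
        have e1 : y * (Λ : ℝ) ^ k ≤ (G * y) * (Λ : ℝ) ^ k :=
          mul_le_mul_of_nonneg_right (le_mul_of_one_le_left (by linarith) hG1) (by linarith)
        have e2 : (G * y) * (Λ : ℝ) ^ k ≤ (G * y) * (120 * Λ * (Λ : ℝ) ^ k) := by
          refine mul_le_mul_of_nonneg_left ?_ (by linarith)
          exact le_mul_of_one_le_left (by linarith) (by linarith)
        exact e1.trans e2) i j (hN k i j hi hj)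
    refine h.trans ?_
    have h1 : G * y * Y.er (Λ ^ k) (120 * Λ * Λ ^ k) ≤ G * y * (Λ ^ k * ε k) :=
      mul_le_mul_of_nonneg_left (her k) (by linarith)
    rw [hNc]
    calc C * (G * y * (120 * Λ * (Λ : ℝ) ^ k) * ε k +
          G * y * Y.er (Λ ^ k) (120 * Λ * Λ ^ k))
        ≤ C * (G * y * (120 * Λ * (Λ : ℝ) ^ k) * ε k + G * y * (Λ ^ k * ε k)) :=
          mul_le_mul_of_nonneg_left (by linarith) hC
      _ = y * Λ ^ k * ((C * G * (120 * Λ + 1)) * ε k) := by ring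
      _ ≤ y * Λ ^ k * (D * ε k) := by
          refine mul_le_mul_of_nonneg_left ?_ (by positivity)
          refine mul_le_mul_of_nonneg_right ?_ (hε k)
          rw [hD]
          linarith

end Sys

end Pool.Agent.Bub4
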