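import Pool.Agent.Bub4.StepD

/-!
# One step of the contraction of the minors
-/

set_option autoImplicit false

namespace Pool.Agent.Bub4

open Finset

namespace Sys

variable {S V : Type} [Fintype S] [AddCommGroup V] (Y : Sys S V)

theorem E4_const (i i' j j' : ℕ) (c : ℝ) (F : List S → List S → List S → List S → ℝ) :
    (Y.E i fun ξ => Y.E i' fun ξ' => Y.E j fun η => Y.E j' fun η' => c * F ξ ξ' η η') =
      c * Y.E i fun ξ => Y.E i' fun ξ' => Y.E j fun η => Y.E j' fun η' => F ξ ξ' η η' := by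
  simp only [E_mul_left]

/-- the composed kernel -/
noncomputable def Kc (v : ℕ) (p : Law) (ξ η : List S) : ℝ :=
  Y.E v fun σ => Y.kk p ξ σ * Y.kk (P v) σ η

/-- the kernel of the composed gap -/
noncomputable def kS (v : ℕ) (p : Law) (ξ η : List S) : ℝ :=
  Y.kk (p.conv ((Law.dirac v).conv (P v))) ξ η

theorem kS_le_Kc (v : ℕ) (p : Law) (ξ η : List S) : Y.kS v p ξ η ≤ Y.Kc v p ξ η :=
  Y.comp_le _ _ _ _ _

theorem kS_nonneg (v : ℕ) (p : Law) (ξ η : List S) : 0 ≤ Y.kS v p ξ η := Y.kk_nonneg _ _ _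

theorem Kc_nonneg (v : ℕ) (p : Law) (ξ η : List S) : 0 ≤ Y.Kc v p ξ η :=
  (Y.kS_nonneg v p ξ η).trans (Y.kS_le_Kc v p ξ η)

theorem abs_mnS_le (v : ℕ) (p : Law) (ξ ξ' η η' : List S) :
    |Y.mn (p.conv ((Law.dirac v).conv (P v))) ξ ξ' η η'| ≤
      (1 / 2) * (Y.E v fun σ => Y.E v fun σ' =>
        |Y.mn p ξ ξ' σ σ'| * |Y.mn (P v) σ σ' η η'|) +
      (Y.Kc v p ξ η * (Y.Kc v p ξ' η' - Y.kS v p ξ' η') +
        (Y.Kc v p ξ η - Y.kS v p ξ η) * Y.kS v p ξ' η') +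
      (Y.Kc v p ξ η' * (Y.Kc v p ξ' η - Y.kS v p ξ' η) +
        (Y.Kc v p ξ η' - Y.kS v p ξ η') * Y.kS v p ξ' η) := by
  have h0 : Y.mn (p.conv ((Law.dirac v).conv (P v))) ξ ξ' η η' =
      (Y.Kc v p ξ η * Y.Kc v p ξ' η' - Y.Kc v p ξ η' * Y.Kc v p ξ' η) -
      (Y.Kc v p ξ η * (Y.Kc v p ξ' η' - Y.kS v p ξ' η') +
        (Y.Kc v p ξ η - Y.kS v p ξ η) * Y.kS v p ξ' η') +
      (Y.Kc v p ξ η' * (Y.Kc v p ξ' η - Y.kS v p ξ' η) +
        (Y.Kc v p ξ η' - Y.kS v p ξ η') * Y.kS v p ξ' η) := by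
    have : Y.mn (p.conv ((Law.dirac v).conv (P v))) ξ ξ' η η' =
      Y.kS v p ξ η * Y.kS v p ξ' η' - Y.kS v p ξ η' * Y.kS v p ξ' η := rfl
    rw [this]
    ring
  have h1 : Y.Kc v p ξ η * Y.Kc v p ξ' η' - Y.Kc v p ξ η' * Y.Kc v p ξ' η =
      (1 / 2) * Y.E v fun σ => Y.E v fun σ' => Y.mn p ξ ξ' σ σ' * Y.mn (P v) σ σ' η η' :=
    Y.cauchy_binet v p (P v) ξ ξ' η η'
  have h2 : |(1 / 2) * Y.E v fun σ => Y.E v fun σ' =>
      Y.mn p ξ ξ' σ σ' * Y.mn (P v) σ σ' η η'| ≤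
      (1 / 2) * Y.E v fun σ => Y.E v fun σ' =>
        |Y.mn p ξ ξ' σ σ'| * |Y.mn (P v) σ σ' η η'| := by
    rw [abs_mul, abs_of_nonneg (by norm_num : (0 : ℝ) ≤ 1 / 2)]
    refine mul_le_mul_of_nonneg_left ?_ (by norm_num)
    refine (Y.E_abs _ _).trans (Y.E_mono fun σ _ => ?_)
    refine (Y.E_abs _ _).trans (Y.E_mono fun σ' _ => ?_)
    rw [abs_mul]
  have d1 : 0 ≤ Y.Kc v p ξ η * (Y.Kc v p ξ' η' - Y.kS v p ξ' η') +
        (Y.Kc v p ξ η - Y.kS v p ξ η) * Y.kS v p ξ' η' :=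
    add_nonneg (mul_nonneg (Y.Kc_nonneg _ _ _ _) (sub_nonneg.2 (Y.kS_le_Kc _ _ _ _)))
      (mul_nonneg (sub_nonneg.2 (Y.kS_le_Kc _ _ _ _)) (Y.kS_nonneg _ _ _ _))
  have d2 : 0 ≤ Y.Kc v p ξ η' * (Y.Kc v p ξ' η - Y.kS v p ξ' η) +
        (Y.Kc v p ξ η' - Y.kS v p ξ η') * Y.kS v p ξ' η :=
    add_nonneg (mul_nonneg (Y.Kc_nonneg _ _ _ _) (sub_nonneg.2 (Y.kS_le_Kc _ _ _ _)))
      (mul_nonneg (sub_nonneg.2 (Y.kS_le_Kc _ _ _ _)) (Y.kS_nonneg _ _ _ _))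
  rw [h0, h1]
  rw [abs_le] at h2 ⊢
  constructor
  · linarith [h2.1]
  · linarith [h2.2]

/-- main part: exchange of the sums and the coupling estimate -/
theorem main_part {K B : ℝ} (hY : Y.Crit K B) {v i i' j j' : ℕ} {p q q' : Law}
    {ω : List S → ℝ} (hω : ∀ w, 0 ≤ ω w) :
    (Y.E i fun ξ => Y.E i' fun ξ' => Y.E j fun η => Y.E j' fun η' =>
      ω ξ * ((1 / 2) * (Y.E v fun σ => Y.E v fun σ' =>
        |Y.mn p ξ ξ' σ σ'| * |Y.mn (P v) σ σ' η η'|)) * Y.kk q η [] * Y.kk q' η' []) ≤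
    (1 - kap K B) *
      Y.W p ω (fun σ => Y.Tm v j q σ) (fun σ => Y.Tm v j' q' σ) i i' v v +
      4 * K ^ 8 * (Y.E i fun w => ω w * Y.sv w) * Y.E v fun σ => Y.Ge K B v j j' q q' σ := by
  have hK := hY.one_le_K
  have hK0 := hY.K_pos
  have e1 : (Y.E i fun ξ => Y.E i' fun ξ' => Y.E j fun η => Y.E j' fun η' =>
      ω ξ * ((1 / 2) * (Y.E v fun σ => Y.E v fun σ' =>
        |Y.mn p ξ ξ' σ σ'| * |Y.mn (P v) σ σ' η η'|)) * Y.kk q η [] * Y.kk q' η' []) =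
      Y.E i fun ξ => Y.E i' fun ξ' => Y.E v fun σ => Y.E v fun σ' =>
        (ω ξ * ((1 / 2) * |Y.mn p ξ ξ' σ σ'|)) * (Y.E j fun η => Y.E j' fun η' =>
          |Y.mn (P v) σ σ' η η'| * Y.kk q η [] * Y.kk q' η' []) := by
    refine Y.E_congr fun ξ _ => Y.E_congr fun ξ' _ => ?_
    have f1 : ∀ η η', ω ξ * ((1 / 2) * (Y.E v fun σ => Y.E v fun σ' =>
        |Y.mn p ξ ξ' σ σ'| * |Y.mn (P v) σ σ' η η'|)) * Y.kk q η [] * Y.kk q' η' [] =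
        Y.E v fun σ => Y.E v fun σ' => (ω ξ * ((1 / 2) * |Y.mn p ξ ξ' σ σ'|)) *
          (|Y.mn (P v) σ σ' η η'| * Y.kk q η [] * Y.kk q' η' []) := by
      intro η η'
      have f2 : ω ξ * ((1 / 2) * (Y.E v fun σ => Y.E v fun σ' =>
        |Y.mn p ξ ξ' σ σ'| * |Y.mn (P v) σ σ' η η'|)) * Y.kk q η [] * Y.kk q' η' [] =
        (ω ξ * (1 / 2) * (Y.kk q η [] * Y.kk q' η' [])) * (Y.E v fun σ => Y.E v fun σ' =>
        |Y.mn p ξ ξ' σ σ'| * |Y.mn (P v) σ σ' η η'|) := by ring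
      rw [f2, ← E_mul_left]
      refine Y.E_congr fun σ _ => ?_
      rw [← E_mul_left]
      refine Y.E_congr fun σ' _ => ?_
      ring
    simp only [f1]
    rw [E22_comm]
    simp only [E_mul_left]
  rw [e1]
  have e2 : (Y.E i fun ξ => Y.E i' fun ξ' => Y.E v fun σ => Y.E v fun σ' =>
        (ω ξ * ((1 / 2) * |Y.mn p ξ ξ' σ σ'|)) * (Y.E j fun η => Y.E j' fun η' =>
          |Y.mn (P v) σ σ' η η'| * Y.kk q η [] * Y.kk q' η' [])) ≤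
      Y.E i fun ξ => Y.E i' fun ξ' => Y.E v fun σ => Y.E v fun σ' =>
        ((1 - kap K B) / 2 * (ω ξ * |Y.mn p ξ ξ' σ σ'| * Y.Tm v j q σ * Y.Tm v j' q' σ') +
          (1 - kap K B) / 2 * (ω ξ * |Y.mn p ξ ξ' σ' σ| * Y.Tm v j q σ' * Y.Tm v j' q' σ)) +
        (2 * K ^ 6 * ((ω ξ * Y.sv ξ * Y.Ge K B v j j' q q' σ) * (Y.sv ξ' * Y.sv σ')) +
          2 * K ^ 6 * ((ω ξ * Y.sv ξ * Y.Ge K B v j j' q q' σ') * (Y.sv ξ' * Y.sv σ))) := by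
    refine Y.E_mono fun ξ _ => Y.E_mono fun ξ' _ => Y.E_mono fun σ _ => Y.E_mono fun σ' _ => ?_
    have g1 := pair_bound hY v j j' q q' σ σ'
    have g2 : 0 ≤ ω ξ * ((1 / 2) * |Y.mn p ξ ξ' σ σ'|) :=
      mul_nonneg (hω ξ) (mul_nonneg (by norm_num) (abs_nonneg _))
    refine (mul_le_mul_of_nonneg_left g1 g2).trans ?_
    have g3 : |Y.mn p ξ ξ' σ' σ| = |Y.mn p ξ ξ' σ σ'| := by
      rw [mn_swap_cols, abs_neg]
    rw [g3]
    have g4 : |Y.mn p ξ ξ' σ σ'| ≤ 2 * K ^ 2 * (Y.sv ξ * Y.sv ξ' * (Y.sv σ * Y.sv σ')) := by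
      refine (abs_mn_le p ξ ξ' σ σ').trans ?_
      have a1 := mul_le_mul (hY.kk_le p ξ σ) (hY.kk_le p ξ' σ') (Y.kk_nonneg _ _ _)
        (mul_nonneg (mul_nonneg hK0.le (Y.sv_nonneg _)) (Y.sv_nonneg _))
      have a2 := mul_le_mul (hY.kk_le p ξ σ') (hY.kk_le p ξ' σ) (Y.kk_nonneg _ _ _)
        (mul_nonneg (mul_nonneg hK0.le (Y.sv_nonneg _)) (Y.sv_nonneg _))
      calc _ ≤ K * Y.sv ξ * Y.sv σ * (K * Y.sv ξ' * Y.sv σ') +
            K * Y.sv ξ * Y.sv σ' * (K * Y.sv ξ' * Y.sv σ) := add_le_add a1 a2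
        _ = _ := by ring
    have hGe : ∀ τ, 0 ≤ Y.Ge K B v j j' q q' τ := by
      intro τ
      unfold Ge
      have b1 := Y.Tm_le_tau v j q τ
      have b2 := Y.Tm_le_tau v j' q' τ
      have b3 := Y.eM_nonneg K B v ((P v).conv ((Law.dirac j).conv q)) τ
      have b4 := Y.eM_nonneg K B v ((P v).conv ((Law.dirac j').conv q')) τ
      have b5 : 0 ≤ K * (Y.E j fun η => Y.eD B v τ η) :=
        mul_nonneg hK0.le (Y.E_nonneg' fun _ => Y.eD_nonneg _ _ _ _)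
      have b6 : 0 ≤ K * (Y.E j' fun η => Y.eD B v τ η) :=
        mul_nonneg hK0.le (Y.E_nonneg' fun _ => Y.eD_nonneg _ _ _ _)
      linarith
    have g5 : |Y.mn p ξ ξ' σ σ'| * Y.Ge K B v j j' q q' σ ≤
        2 * K ^ 2 * (Y.sv ξ * Y.sv ξ' * Y.sv σ') * Y.Ge K B v j j' q q' σ := by
      refine mul_le_mul_of_nonneg_right (g4.trans ?_) (hGe σ)
      refine mul_le_mul_of_nonneg_left ?_ (by positivity)
      have b0 := Y.sv_nonneg σ'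
      have b1 := mul_nonneg (Y.sv_nonneg ξ) (Y.sv_nonneg ξ')
      have b2 : Y.sv σ * Y.sv σ' ≤ 1 * Y.sv σ' := mul_le_mul_of_nonneg_right (Y.sv_le_one σ) b0
      have b3 := mul_le_mul_of_nonneg_left b2 b1
      linarith
    have g6 : |Y.mn p ξ ξ' σ σ'| * Y.Ge K B v j j' q q' σ' ≤
        2 * K ^ 2 * (Y.sv ξ * Y.sv ξ' * Y.sv σ) * Y.Ge K B v j j' q q' σ' := by
      refine mul_le_mul_of_nonneg_right (g4.trans ?_) (hGe σ')
      refine mul_le_mul_of_nonneg_left ?_ (by positivity)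
      have b0 := Y.sv_nonneg σ
      have b1 := mul_nonneg (Y.sv_nonneg ξ) (Y.sv_nonneg ξ')
      have b2 : Y.sv σ * Y.sv σ' ≤ Y.sv σ * 1 := mul_le_mul_of_nonneg_left (Y.sv_le_one σ') b0
      have b3 := mul_le_mul_of_nonneg_left b2 b1
      linarith
    have hωK : 0 ≤ ω ξ * K ^ 4 := mul_nonneg (hω ξ) (by positivity)
    have g7 := mul_le_mul_of_nonneg_left (add_le_add g5 g6) hωK
    have c1 : ω ξ * ((1 / 2) * |Y.mn p ξ ξ' σ σ'|) *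
        ((1 - kap K B) * (Y.Tm v j q σ * Y.Tm v j' q' σ' + Y.Tm v j q σ' * Y.Tm v j' q' σ) +
        2 * K ^ 4 * (Y.Ge K B v j j' q q' σ + Y.Ge K B v j j' q q' σ')) =
        ((1 - kap K B) / 2 * (ω ξ * |Y.mn p ξ ξ' σ σ'| * Y.Tm v j q σ * Y.Tm v j' q' σ') +
          (1 - kap K B) / 2 * (ω ξ * |Y.mn p ξ ξ' σ σ'| * Y.Tm v j q σ' * Y.Tm v j' q' σ)) +
        ω ξ * K ^ 4 * (|Y.mn p ξ ξ' σ σ'| * Y.Ge K B v j j' q q' σ +
          |Y.mn p ξ ξ' σ σ'| * Y.Ge K B v j j' q q' σ') := by ring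
    have c2 : ω ξ * K ^ 4 * (2 * K ^ 2 * (Y.sv ξ * Y.sv ξ' * Y.sv σ') *
        Y.Ge K B v j j' q q' σ + 2 * K ^ 2 * (Y.sv ξ * Y.sv ξ' * Y.sv σ) *
        Y.Ge K B v j j' q q' σ') =
        2 * K ^ 6 * ((ω ξ * Y.sv ξ * Y.Ge K B v j j' q q' σ) * (Y.sv ξ' * Y.sv σ')) +
          2 * K ^ 6 * ((ω ξ * Y.sv ξ * Y.Ge K B v j j' q q' σ') * (Y.sv ξ' * Y.sv σ)) := by
      ring
    rw [c1, ← c2]
    linarith
  refine e2.trans ?_
  simp only [E_fadd]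
  have s1 : (Y.E i fun ξ => Y.E i' fun ξ' => Y.E v fun σ => Y.E v fun σ' =>
      (1 - kap K B) / 2 * (ω ξ * |Y.mn p ξ ξ' σ σ'| * Y.Tm v j q σ * Y.Tm v j' q' σ')) =
      (1 - kap K B) / 2 *
        Y.W p ω (fun σ => Y.Tm v j q σ) (fun σ => Y.Tm v j' q' σ) i i' v v := by
    simp only [E_mul_left, W]
  have s2 : (Y.E i fun ξ => Y.E i' fun ξ' => Y.E v fun σ => Y.E v fun σ' =>
      (1 - kap K B) / 2 * (ω ξ * |Y.mn p ξ ξ' σ' σ| * Y.Tm v j q σ' * Y.Tm v j' q' σ)) =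
      (1 - kap K B) / 2 *
        Y.W p ω (fun σ => Y.Tm v j q σ) (fun σ => Y.Tm v j' q' σ) i i' v v := by
    rw [← s1]
    refine Y.E_congr fun ξ _ => Y.E_congr fun ξ' _ => ?_
    rw [E_comm]
  have s3 : (Y.E i fun ξ => Y.E i' fun ξ' => Y.E v fun σ => Y.E v fun σ' =>
      2 * K ^ 6 * ((ω ξ * Y.sv ξ * Y.Ge K B v j j' q q' σ) * (Y.sv ξ' * Y.sv σ'))) =
      2 * K ^ 6 * (((Y.E i fun ξ => ω ξ * Y.sv ξ) * Y.E v fun σ => Y.Ge K B v j j' q q' σ) *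
        (Y.a i' * Y.a v)) := by
    rw [E4_const]
    rw [Y.E4a i i' v v (fun ξ σ => ω ξ * Y.sv ξ * Y.Ge K B v j j' q q' σ)
      (fun ξ' σ' => Y.sv ξ' * Y.sv σ')]
    refine congrArg (fun t => 2 * K ^ 6 * t) ?_
    exact congrArg₂ (· * ·)
      (Y.E_mul_E i v (fun ξ => ω ξ * Y.sv ξ) (fun σ => Y.Ge K B v j j' q q' σ)).symm
      (Y.E_mul_E i' v Y.sv Y.sv).symm
  have s4 : (Y.E i fun ξ => Y.E i' fun ξ' => Y.E v fun σ => Y.E v fun σ' =>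
      2 * K ^ 6 * ((ω ξ * Y.sv ξ * Y.Ge K B v j j' q q' σ') * (Y.sv ξ' * Y.sv σ))) =
      2 * K ^ 6 * (((Y.E i fun ξ => ω ξ * Y.sv ξ) * Y.E v fun σ => Y.Ge K B v j j' q q' σ) *
        (Y.a i' * Y.a v)) := by
    rw [E4_const]
    rw [Y.E4b i i' v v (fun ξ σ => ω ξ * Y.sv ξ * Y.Ge K B v j j' q q' σ)
      (fun ξ' σ' => Y.sv ξ' * Y.sv σ')]
    refine congrArg (fun t => 2 * K ^ 6 * t) ?_
    exact congrArg₂ (· * ·)
      (Y.E_mul_E i v (fun ξ => ω ξ * Y.sv ξ) (fun σ => Y.Ge K B v j j' q q' σ)).symm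
      (Y.E_mul_E i' v Y.sv Y.sv).symm
  rw [s1, s2, s3, s4]
  have hGe : 0 ≤ Y.E v fun σ => Y.Ge K B v j j' q q' σ := by
    refine Y.E_nonneg' fun τ => ?_
    unfold Ge
    have b1 := Y.Tm_le_tau v j q τ
    have b2 := Y.Tm_le_tau v j' q' τ
    have b3 := Y.eM_nonneg K B v ((P v).conv ((Law.dirac j).conv q)) τ
    have b4 := Y.eM_nonneg K B v ((P v).conv ((Law.dirac j').conv q')) τ
    have b5 : 0 ≤ K * (Y.E j fun η => Y.eD B v τ η) :=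
      mul_nonneg hK0.le (Y.E_nonneg' fun _ => Y.eD_nonneg _ _ _ _)
    have b6 : 0 ≤ K * (Y.E j' fun η => Y.eD B v τ η) :=
      mul_nonneg hK0.le (Y.E_nonneg' fun _ => Y.eD_nonneg _ _ _ _)
    linarith
  have hM : 0 ≤ Y.E i fun ξ => ω ξ * Y.sv ξ :=
    Y.E_nonneg' fun ξ => mul_nonneg (hω ξ) (Y.sv_nonneg _)
  have haa : Y.a i' * Y.a v ≤ K * K :=
    mul_le_mul (hY.a_le _) (hY.a_le _) (Y.a_nonneg _) hK0.le
  have hfin := mul_le_mul_of_nonneg_left haa (mul_nonneg hM hGe)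
  have hfin2 := mul_le_mul_of_nonneg_left hfin (by positivity : (0 : ℝ) ≤ 2 * K ^ 6)
  have z1 : 2 * K ^ 6 * (((Y.E i fun ξ => ω ξ * Y.sv ξ) *
      Y.E v fun σ => Y.Ge K B v j j' q q' σ) * (K * K)) =
      2 * K ^ 8 * (Y.E i fun w => ω w * Y.sv w) *
        Y.E v fun σ => Y.Ge K B v j j' q q' σ := by ring
  rw [z1] at hfin2
  linarith

theorem step {K B : ℝ} (hY : Y.Crit K B) : ∃ C : ℝ, 0 ≤ C ∧
    ∀ (v N m0 n0 n0' i i' j j' : ℕ) (p q q' : Law) (ω : List S → ℝ) (Mω Fω : ℝ),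
      1 ≤ v → (∀ w, 0 ≤ ω w) → p.Le m0 → q.Le n0 → q'.Le n0' →
      (v ≤ j ∨ q = Law.dirac 0) → (v ≤ j' ∨ q' = Law.dirac 0) →
      i + m0 + v ≤ N → i' + m0 + v ≤ N → 25 * v + j + n0 ≤ N → 25 * v + j' + n0' ≤ N →
      (Y.E i fun w => ω w * Y.sv w) ≤ Mω → Y.ce ω p i v j ≤ Fω → Y.ce ω p i v j' ≤ Fω →
      Y.W (p.conv ((Law.dirac v).conv (P v))) ω (fun η => Y.kk q η []) (fun η => Y.kk q' η [])
          i i' j j' ≤
        (1 - kap K B) *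
          Y.W p ω (fun σ => Y.kk ((P v).conv ((Law.dirac j).conv q)) σ [])
            (fun σ => Y.kk ((P v).conv ((Law.dirac j').conv q')) σ []) i i' v v +
        C * (Mω * Y.H v N + Fω) := by
  have hK := hY.one_le_K
  have hK0 := hY.K_pos
  have hB := hY.one_le_B
  have hB0 : 0 < B := by linarith
  refine ⟨52 * K ^ 12 * B, by positivity, ?_⟩
  intro v N m0 n0 n0' i i' j j' p q q' ω Mω Fω hv hω hp hq hq' hvj hvj' hi hi' hj hj' hM hF hF'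
  have hH : 0 ≤ Y.H v N := H_nonneg' v N
  have hMω : 0 ≤ Mω := le_trans (Y.E_nonneg' fun ξ => mul_nonneg (hω ξ) (Y.sv_nonneg _)) hM
  -- the differences
  have hD0 : ∀ ξ η, 0 ≤ Y.Kc v p ξ η - Y.kS v p ξ η := fun ξ η =>
    sub_nonneg.2 (Y.kS_le_Kc _ _ _ _)
  have hce : ∀ n, (Y.E i fun ξ => Y.E n fun η => ω ξ * (Y.Kc v p ξ η - Y.kS v p ξ η)) =
      Y.ce ω p i v n := fun n => Y.ce_eq ω p i v n
  have hce1 : ∀ n, 16 * v + n ≤ N →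
      (Y.E i' fun ξ => Y.E n fun η => (Y.Kc v p ξ η - Y.kS v p ξ η)) ≤ K ^ 2 * Y.H v N := by
    intro n hn
    have h1 := Y.ce_one hY (p := p) (i := i') (v := v) (j := n) (m0 := m0) (N := N) hp hi' hn
    rw [← ce_eq] at h1
    simp only [one_mul] at h1
    exact h1
  have hFω : 0 ≤ Fω := by
    refine le_trans ?_ hF
    rw [← hce]
    exact Y.E_nonneg' fun ξ => Y.E_nonneg' fun η => mul_nonneg (hω ξ) (hD0 ξ η)
  -- bounds for the kernels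
  have hKc : ∀ n, (Y.E i fun ξ => Y.E n fun η => ω ξ * Y.Kc v p ξ η) ≤ K ^ 4 * Mω := by
    intro n
    have h1 : (Y.E i fun ξ => Y.E n fun η => ω ξ * Y.Kc v p ξ η) ≤
        Y.E i fun ξ => Y.E n fun η => (K ^ 3 * (ω ξ * Y.sv ξ)) * Y.sv η := by
      refine Y.E_mono fun ξ _ => Y.E_mono fun η _ => ?_
      have h2 : Y.Kc v p ξ η ≤ K ^ 3 * Y.sv ξ * Y.sv η := by
        unfold Kc
        have h3 : (Y.E v fun σ => Y.kk p ξ σ * Y.kk (P v) σ η) ≤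
            Y.E v fun σ => (K ^ 2 * Y.sv ξ * Y.sv η) * Y.sv σ := by
          refine Y.E_mono fun σ _ => ?_
          have a1 := mul_le_mul (hY.kk_le p ξ σ) (hY.kk_le_right (P v) σ η)
            (Y.kk_nonneg _ _ _)
            (mul_nonneg (mul_nonneg hK0.le (Y.sv_nonneg _)) (Y.sv_nonneg _))
          calc _ ≤ K * Y.sv ξ * Y.sv σ * (K * Y.sv η) := a1
            _ = _ := by ring
        rw [E_mul_left] at h3
        have h4 := hY.E_sv_le v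
        have h5 : 0 ≤ K ^ 2 * Y.sv ξ * Y.sv η :=
          mul_nonneg (mul_nonneg (by positivity) (Y.sv_nonneg _)) (Y.sv_nonneg _)
        have h6 := mul_le_mul_of_nonneg_left h4 h5
        calc _ ≤ _ := h3
          _ ≤ _ := h6
          _ = _ := by ring
      have h3 := mul_le_mul_of_nonneg_left h2 (hω ξ)
      calc _ ≤ _ := h3
        _ = _ := by ring
    have h1' : (Y.E i fun ξ => Y.E n fun η => (K ^ 3 * (ω ξ * Y.sv ξ)) * Y.sv η) =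
        K ^ 3 * (Y.E i fun ξ => ω ξ * Y.sv ξ) * Y.E n Y.sv := by
      simp only [E_mul_left, E_mul_right]
    rw [h1'] at h1
    have h2 := hY.E_sv_le n
    have h3 : 0 ≤ Y.E n Y.sv := Y.E_nonneg' Y.sv_nonneg
    refine h1.trans ?_
    calc K ^ 3 * (Y.E i fun ξ => ω ξ * Y.sv ξ) * Y.E n Y.sv ≤ K ^ 3 * Mω * K := by
          refine mul_le_mul (mul_le_mul_of_nonneg_left hM (by positivity)) h2 h3
            (mul_nonneg (by positivity) hMω)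
      _ = _ := by ring
  have hkS : ∀ n, (Y.E i' fun ξ => Y.E n fun η => Y.kS v p ξ η) ≤ K ^ 3 := by
    intro n
    have h1 : (Y.E i' fun ξ => Y.E n fun η => Y.kS v p ξ η) ≤
        Y.E i' fun ξ => Y.E n fun η => (K * Y.sv ξ) * Y.sv η :=
      Y.E_mono fun ξ _ => Y.E_mono fun η _ => hY.kk_le _ _ _
    have h1' : (Y.E i' fun ξ => Y.E n fun η => (K * Y.sv ξ) * Y.sv η) =
        K * (Y.E i' fun ξ => Y.sv ξ) * Y.E n Y.sv := by
      simp only [E_mul_left, E_mul_right]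
    rw [h1'] at h1
    have h2 := hY.E_sv_le n
    have h4 := hY.E_sv_le i'
    have h3 : 0 ≤ Y.E n Y.sv := Y.E_nonneg' Y.sv_nonneg
    refine h1.trans ?_
    calc K * (Y.E i' fun ξ => Y.sv ξ) * Y.E n Y.sv ≤ K * K * K := by
          refine mul_le_mul (mul_le_mul_of_nonneg_left h4 hK0.le) h2 h3 (by positivity)
      _ = _ := by ring
  -- pointwise bound
  have hpt : Y.W (p.conv ((Law.dirac v).conv (P v))) ω (fun η => Y.kk q η [])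
      (fun η => Y.kk q' η []) i i' j j' ≤
      Y.E i fun ξ => Y.E i' fun ξ' => Y.E j fun η => Y.E j' fun η' =>
        (ω ξ * ((1 / 2) * (Y.E v fun σ => Y.E v fun σ' =>
        |Y.mn p ξ ξ' σ σ'| * |Y.mn (P v) σ σ' η η'|)) * Y.kk q η [] * Y.kk q' η' []) +
        (K ^ 2 * ((ω ξ * Y.Kc v p ξ η) * (Y.Kc v p ξ' η' - Y.kS v p ξ' η')) +
          K ^ 2 * ((ω ξ * (Y.Kc v p ξ η - Y.kS v p ξ η)) * Y.kS v p ξ' η')) +
        (K ^ 2 * ((ω ξ * Y.Kc v p ξ η') * (Y.Kc v p ξ' η - Y.kS v p ξ' η)) +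
          K ^ 2 * ((ω ξ * (Y.Kc v p ξ η' - Y.kS v p ξ η')) * Y.kS v p ξ' η)) := by
    unfold W
    refine Y.E_mono fun ξ _ => Y.E_mono fun ξ' _ => Y.E_mono fun η _ => Y.E_mono fun η' _ => ?_
    have h1 := Y.abs_mnS_le v p ξ ξ' η η'
    have r1 := Y.kk_nonneg q η []
    have r2 := Y.kk_nonneg q' η' []
    have hrr : Y.kk q η [] * Y.kk q' η' [] ≤ K ^ 2 := by
      calc _ ≤ K * K := mul_le_mul (hY.kk_le_K _ _ _) (hY.kk_le_K _ _ _) r2 hK0.le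
        _ = _ := by ring
    have d1 : 0 ≤ Y.Kc v p ξ η * (Y.Kc v p ξ' η' - Y.kS v p ξ' η') +
          (Y.Kc v p ξ η - Y.kS v p ξ η) * Y.kS v p ξ' η' :=
      add_nonneg (mul_nonneg (Y.Kc_nonneg _ _ _ _) (hD0 _ _))
        (mul_nonneg (hD0 _ _) (Y.kS_nonneg _ _ _ _))
    have d2 : 0 ≤ Y.Kc v p ξ η' * (Y.Kc v p ξ' η - Y.kS v p ξ' η) +
          (Y.Kc v p ξ η' - Y.kS v p ξ η') * Y.kS v p ξ' η :=
      add_nonneg (mul_nonneg (Y.Kc_nonneg _ _ _ _) (hD0 _ _))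
        (mul_nonneg (hD0 _ _) (Y.kS_nonneg _ _ _ _))
    have h2 := mul_le_mul_of_nonneg_left hrr (mul_nonneg (hω ξ) (add_nonneg d1 d2))
    have h3 := mul_le_mul_of_nonneg_left h1 (mul_nonneg (hω ξ) (mul_nonneg r1 r2))
    calc ω ξ * |Y.mn (p.conv ((Law.dirac v).conv (P v))) ξ ξ' η η'| * Y.kk q η [] *
          Y.kk q' η' []
        = ω ξ * (Y.kk q η [] * Y.kk q' η' []) *
          |Y.mn (p.conv ((Law.dirac v).conv (P v))) ξ ξ' η η'| := by ring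
      _ ≤ _ := h3
      _ = (ω ξ * ((1 / 2) * (Y.E v fun σ => Y.E v fun σ' =>
        |Y.mn p ξ ξ' σ σ'| * |Y.mn (P v) σ σ' η η'|)) * Y.kk q η [] * Y.kk q' η' []) +
          ω ξ * (Y.Kc v p ξ η * (Y.Kc v p ξ' η' - Y.kS v p ξ' η') +
          (Y.Kc v p ξ η - Y.kS v p ξ η) * Y.kS v p ξ' η' +
          (Y.Kc v p ξ η' * (Y.Kc v p ξ' η - Y.kS v p ξ' η) +
          (Y.Kc v p ξ η' - Y.kS v p ξ η') * Y.kS v p ξ' η)) *
            (Y.kk q η [] * Y.kk q' η' []) := by ring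
      _ ≤ (ω ξ * ((1 / 2) * (Y.E v fun σ => Y.E v fun σ' =>
        |Y.mn p ξ ξ' σ σ'| * |Y.mn (P v) σ σ' η η'|)) * Y.kk q η [] * Y.kk q' η' []) +
          ω ξ * (Y.Kc v p ξ η * (Y.Kc v p ξ' η' - Y.kS v p ξ' η') +
          (Y.Kc v p ξ η - Y.kS v p ξ η) * Y.kS v p ξ' η' +
          (Y.Kc v p ξ η' * (Y.Kc v p ξ' η - Y.kS v p ξ' η) +
          (Y.Kc v p ξ η' - Y.kS v p ξ η') * Y.kS v p ξ' η)) * K ^ 2 :=
            add_le_add le_rfl h2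
      _ = _ := by ring
  refine hpt.trans ?_
  simp only [E_fadd]
  have hmain := Y.main_part hY (v := v) (i := i) (i' := i') (j := j) (j' := j') (p := p)
    (q := q) (q' := q') hω
  have hGe := hY.E_Ge_le hv hq hq' hvj hvj' hj hj'
  have s1 : (Y.E i fun ξ => Y.E i' fun ξ' => Y.E j fun η => Y.E j' fun η' =>
      K ^ 2 * ((ω ξ * Y.Kc v p ξ η) * (Y.Kc v p ξ' η' - Y.kS v p ξ' η'))) ≤
      K ^ 2 * ((K ^ 4 * Mω) * (K ^ 2 * Y.H v N)) := by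
    rw [E4_const]
    rw [Y.E4a i i' j j' (fun ξ η => ω ξ * Y.Kc v p ξ η)
      (fun ξ' η' => Y.Kc v p ξ' η' - Y.kS v p ξ' η')]
    refine mul_le_mul_of_nonneg_left ?_ (by positivity)
    exact mul_le_mul (hKc j) (hce1 j' (by omega))
      (Y.E_nonneg' fun _ => Y.E_nonneg' fun _ => hD0 _ _) (mul_nonneg (by positivity) hMω)
  have s2 : (Y.E i fun ξ => Y.E i' fun ξ' => Y.E j fun η => Y.E j' fun η' =>
      K ^ 2 * ((ω ξ * (Y.Kc v p ξ η - Y.kS v p ξ η)) * Y.kS v p ξ' η')) ≤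
      K ^ 2 * (Fω * K ^ 3) := by
    rw [E4_const]
    rw [Y.E4a i i' j j' (fun ξ η => ω ξ * (Y.Kc v p ξ η - Y.kS v p ξ η))
      (fun ξ' η' => Y.kS v p ξ' η')]
    refine mul_le_mul_of_nonneg_left ?_ (by positivity)
    rw [hce]
    exact mul_le_mul hF (hkS j')
      (Y.E_nonneg' fun _ => Y.E_nonneg' fun _ => Y.kS_nonneg _ _ _ _) hFω
  have s3 : (Y.E i fun ξ => Y.E i' fun ξ' => Y.E j fun η => Y.E j' fun η' =>
      K ^ 2 * ((ω ξ * Y.Kc v p ξ η') * (Y.Kc v p ξ' η - Y.kS v p ξ' η))) ≤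
      K ^ 2 * ((K ^ 4 * Mω) * (K ^ 2 * Y.H v N)) := by
    rw [E4_const]
    rw [Y.E4b i i' j j' (fun ξ η => ω ξ * Y.Kc v p ξ η)
      (fun ξ' η' => Y.Kc v p ξ' η' - Y.kS v p ξ' η')]
    refine mul_le_mul_of_nonneg_left ?_ (by positivity)
    exact mul_le_mul (hKc j') (hce1 j (by omega))
      (Y.E_nonneg' fun _ => Y.E_nonneg' fun _ => hD0 _ _) (mul_nonneg (by positivity) hMω)
  have s4 : (Y.E i fun ξ => Y.E i' fun ξ' => Y.E j fun η => Y.E j' fun η' =>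
      K ^ 2 * ((ω ξ * (Y.Kc v p ξ η' - Y.kS v p ξ η')) * Y.kS v p ξ' η)) ≤
      K ^ 2 * (Fω * K ^ 3) := by
    rw [E4_const]
    rw [Y.E4b i i' j j' (fun ξ η => ω ξ * (Y.Kc v p ξ η - Y.kS v p ξ η))
      (fun ξ' η' => Y.kS v p ξ' η')]
    refine mul_le_mul_of_nonneg_left ?_ (by positivity)
    rw [hce]
    exact mul_le_mul hF' (hkS j)
      (Y.E_nonneg' fun _ => Y.E_nonneg' fun _ => Y.kS_nonneg _ _ _ _) hFω
  have s5 : 4 * K ^ 8 * (Y.E i fun w => ω w * Y.sv w) *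
      (Y.E v fun σ => Y.Ge K B v j j' q q' σ) ≤
      4 * K ^ 8 * Mω * (12 * K ^ 4 * B * Y.H v N) := by
    have hM0 : 0 ≤ Y.E i fun w => ω w * Y.sv w :=
      Y.E_nonneg' fun ξ => mul_nonneg (hω ξ) (Y.sv_nonneg _)
    have hR : 0 ≤ 12 * K ^ 4 * B * Y.H v N := by positivity
    calc _ ≤ 4 * K ^ 8 * (Y.E i fun w => ω w * Y.sv w) * (12 * K ^ 4 * B * Y.H v N) :=
          mul_le_mul_of_nonneg_left hGe (mul_nonneg (by positivity) hM0)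
      _ ≤ _ := mul_le_mul_of_nonneg_right
          (mul_le_mul_of_nonneg_left hM (by positivity)) hR
  have hMH : 0 ≤ Mω * Y.H v N := mul_nonneg hMω hH
  have p8 : K ^ 8 ≤ K ^ 12 * B := by
    have e1 : K ^ 8 ≤ K ^ 12 := pow_le_pow_right₀ hK (by norm_num)
    have e2 : K ^ 12 * 1 ≤ K ^ 12 * B := mul_le_mul_of_nonneg_left hB (by positivity)
    linarith
  have p5 : K ^ 5 ≤ K ^ 12 * B := by
    have e1 : K ^ 5 ≤ K ^ 12 := pow_le_pow_right₀ hK (by norm_num)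
    have e2 : K ^ 12 * 1 ≤ K ^ 12 * B := mul_le_mul_of_nonneg_left hB (by positivity)
    linarith
  have t1 := mul_le_mul_of_nonneg_right p8 hMH
  have t2 := mul_le_mul_of_nonneg_right p5 hFω
  have t3 : 0 ≤ K ^ 12 * B * Fω := by positivity
  have z1 : K ^ 2 * ((K ^ 4 * Mω) * (K ^ 2 * Y.H v N)) = K ^ 8 * (Mω * Y.H v N) := by ring
  have z2 : K ^ 2 * (Fω * K ^ 3) = K ^ 5 * Fω := by ring
  have z3 : 4 * K ^ 8 * Mω * (12 * K ^ 4 * B * Y.H v N) = 48 * (K ^ 12 * B * (Mω * Y.H v N)) := by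
    ring
  have z4 : 52 * K ^ 12 * B * (Mω * Y.H v N + Fω) =
      52 * (K ^ 12 * B * (Mω * Y.H v N)) + 52 * (K ^ 12 * B * Fω) := by ring
  have hT1 : (fun σ => Y.kk ((P v).conv ((Law.dirac j).conv q)) σ []) =
      fun σ => Y.Tm v j q σ := rfl
  have hT2 : (fun σ => Y.kk ((P v).conv ((Law.dirac j').conv q')) σ []) =
      fun σ => Y.Tm v j' q' σ := rfl
  rw [hT1, hT2, z4]
  rw [z1] at s1 s3
  rw [z2] at s2 s4
  rw [z3] at s5
  have t4 : 0 ≤ K ^ 12 * B * (Mω * Y.H v N) := by positivity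
  linarith

end Sys

end Pool.Agent.Bub4
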