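import Pool.Agent.Bub4.Words

/-!
# Algebra for the step: products of sums, Cauchy-Binet, composition
-/

set_option autoImplicit false

namespace Pool.Agent.Bub4

open Finset

namespace Sys

variable {S V : Type} [Fintype S] [AddCommGroup V] (Y : Sys S V)

theorem E_mul_E (m n : ℕ) (F G : List S → ℝ) :
    Y.E m F * Y.E n G = Y.E m fun u => Y.E n fun w => F u * G w := by
  rw [← E_mul_right]
  refine Y.E_congr fun u _ => ?_
  rw [E_mul_left]

theorem E_mul_E' (m n : ℕ) (F G : List S → ℝ) :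
    (Y.E m fun u => Y.E n fun w => F w * G u) = Y.E m G * Y.E n F := by
  rw [E_mul_E]
  exact Y.E_congr fun u _ => Y.E_congr fun w _ => mul_comm _ _

theorem E4a (i i' j j' : ℕ) (f g : List S → List S → ℝ) :
    (Y.E i fun ξ => Y.E i' fun ξ' => Y.E j fun η => Y.E j' fun η' => f ξ η * g ξ' η') =
      (Y.E i fun ξ => Y.E j fun η => f ξ η) * (Y.E i' fun ξ' => Y.E j' fun η' => g ξ' η') := by
  rw [E_mul_E]
  refine Y.E_congr fun ξ _ => Y.E_congr fun ξ' _ => ?_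
  rw [E_mul_E]

theorem E4b (i i' j j' : ℕ) (f g : List S → List S → ℝ) :
    (Y.E i fun ξ => Y.E i' fun ξ' => Y.E j fun η => Y.E j' fun η' => f ξ η' * g ξ' η) =
      (Y.E i fun ξ => Y.E j' fun η' => f ξ η') * (Y.E i' fun ξ' => Y.E j fun η => g ξ' η) := by
  rw [E_mul_E]
  refine Y.E_congr fun ξ _ => Y.E_congr fun ξ' _ => ?_
  rw [Y.E_mul_E' j j' (fun η' => f ξ η') (fun η => g ξ' η), mul_comm]

/-- exchange of two pairs of sums -/
theorem E22_comm (i i' j j' : ℕ) (F : List S → List S → List S → List S → ℝ) :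
    (Y.E i fun a => Y.E i' fun b => Y.E j fun c => Y.E j' fun d => F a b c d) =
      Y.E j fun c => Y.E j' fun d => Y.E i fun a => Y.E i' fun b => F a b c d := by
  calc (Y.E i fun a => Y.E i' fun b => Y.E j fun c => Y.E j' fun d => F a b c d)
      = Y.E i fun a => Y.E j fun c => Y.E i' fun b => Y.E j' fun d => F a b c d :=
        Y.E_congr fun a _ => Y.E_comm _ _ _
    _ = Y.E j fun c => Y.E i fun a => Y.E i' fun b => Y.E j' fun d => F a b c d :=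
        Y.E_comm _ _ _
    _ = Y.E j fun c => Y.E i fun a => Y.E j' fun d => Y.E i' fun b => F a b c d :=
        Y.E_congr fun c _ => Y.E_congr fun a _ => Y.E_comm _ _ _
    _ = Y.E j fun c => Y.E j' fun d => Y.E i fun a => Y.E i' fun b => F a b c d :=
        Y.E_congr fun c _ => Y.E_comm _ _ _

/-- Cauchy-Binet -/
theorem cauchy_binet (v : ℕ) (p P' : Law) (ξ ξ' η η' : List S) :
    (Y.E v fun σ => Y.kk p ξ σ * Y.kk P' σ η) * (Y.E v fun σ => Y.kk p ξ' σ * Y.kk P' σ η') -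
      (Y.E v fun σ => Y.kk p ξ σ * Y.kk P' σ η') * (Y.E v fun σ => Y.kk p ξ' σ * Y.kk P' σ η) =
    (1 / 2) * Y.E v fun σ => Y.E v fun σ' => Y.mn p ξ ξ' σ σ' * Y.mn P' σ σ' η η' := by
  have e1 : ∀ σ σ' : List S, Y.mn p ξ ξ' σ σ' * Y.mn P' σ σ' η η' =
      (Y.kk p ξ σ * Y.kk P' σ η) * (Y.kk p ξ' σ' * Y.kk P' σ' η') +
      (Y.kk p ξ' σ * Y.kk P' σ η') * (Y.kk p ξ σ' * Y.kk P' σ' η) +
      (-((Y.kk p ξ σ * Y.kk P' σ η') * (Y.kk p ξ' σ' * Y.kk P' σ' η)) +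
      -((Y.kk p ξ' σ * Y.kk P' σ η) * (Y.kk p ξ σ' * Y.kk P' σ' η'))) := by
    intro σ σ'
    unfold mn
    ring
  simp only [e1, E_fadd, E_fneg]
  rw [← E_mul_E, ← E_mul_E, ← E_mul_E, ← E_mul_E]
  ring

/-- the kernel of the composed gap -/
theorem kk_comp (p P' : Law) (v : ℕ) (ξ η : List S) :
    Y.kk (p.conv ((Law.dirac v).conv P')) ξ η =
      p.ex fun m => Y.E m fun γ => Y.E v fun σ => Y.kk P' (ξ ++ γ ++ σ) η := by
  rw [kk_conv']
  refine p.ex_congr fun m => Y.E_congr fun γ _ => ?_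
  rw [kk_conv', Law.ex_dirac]

/-- the composition of the two kernels -/
theorem comp_eq (p P' : Law) (v : ℕ) (ξ η : List S) :
    (Y.E v fun σ => Y.kk p ξ σ * Y.kk P' σ η) =
      p.ex fun m => Y.E m fun γ => Y.E v fun σ => Y.sv (ξ ++ γ ++ σ) * Y.kk P' σ η := by
  have h1 : ∀ σ, Y.kk p ξ σ * Y.kk P' σ η =
      p.ex fun m => Y.E m fun γ => Y.sv (ξ ++ γ ++ σ) * Y.kk P' σ η := by
    intro σ
    have : Y.kk p ξ σ = p.ex fun m => Y.E m fun γ => Y.sv (ξ ++ γ ++ σ) := rfl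
    rw [this, ← Law.ex_mul_right]
    refine p.ex_congr fun m => ?_
    rw [E_mul_right]
  simp only [h1]
  rw [E_ex]
  refine p.ex_congr fun m => ?_
  rw [E_comm]

/-- the difference is nonnegative -/
theorem comp_sub (p P' : Law) (v : ℕ) (ξ η : List S) :
    (Y.E v fun σ => Y.kk p ξ σ * Y.kk P' σ η) - Y.kk (p.conv ((Law.dirac v).conv P')) ξ η =
      p.ex fun m => Y.E m fun γ => Y.E v fun σ => P'.ex fun m' => Y.E m' fun γ' =>
        (Y.sv (ξ ++ γ ++ σ) * Y.sv (σ ++ γ' ++ η) - Y.sv (ξ ++ γ ++ σ ++ γ' ++ η)) := by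
  rw [comp_eq, kk_comp, ← Law.ex_sub]
  refine p.ex_congr fun m => ?_
  rw [← E_fsub]
  refine Y.E_congr fun γ _ => ?_
  rw [← E_fsub]
  refine Y.E_congr fun σ _ => ?_
  have h1 : Y.kk P' σ η = P'.ex fun m' => Y.E m' fun γ' => Y.sv (σ ++ γ' ++ η) := rfl
  have h2 : Y.kk P' (ξ ++ γ ++ σ) η =
      P'.ex fun m' => Y.E m' fun γ' => Y.sv (ξ ++ γ ++ σ ++ γ' ++ η) := rfl
  rw [h1, h2, ← Law.ex_mul_left, ← Law.ex_sub]
  refine P'.ex_congr fun m' => ?_
  rw [← E_mul_left, ← E_fsub]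

/-- composition only increases self-avoidance -/
theorem sv_comp_le (a b c : List S) : Y.sv (a ++ b ++ c) ≤ Y.sv (a ++ b) * Y.sv (b ++ c) := by
  by_cases h : Y.Saw (a ++ b ++ c)
  · rw [Y.sv_of h, Y.sv_of (h.fac (List.prefix_append _ _).isInfix),
      Y.sv_of (h.fac (by rw [List.append_assoc]; exact (List.suffix_append _ _).isInfix))]
    norm_num
  · rw [Y.sv_of_not h]
    exact mul_nonneg (Y.sv_nonneg _) (Y.sv_nonneg _)

theorem comp_le (p P' : Law) (v : ℕ) (ξ η : List S) :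
    Y.kk (p.conv ((Law.dirac v).conv P')) ξ η ≤ Y.E v fun σ => Y.kk p ξ σ * Y.kk P' σ η := by
  have h := Y.comp_sub p P' v ξ η
  have h2 : 0 ≤ (Y.E v fun σ => Y.kk p ξ σ * Y.kk P' σ η) -
      Y.kk (p.conv ((Law.dirac v).conv P')) ξ η := by
    rw [h]
    refine p.ex_nonneg fun m => Y.E_nonneg' fun γ => Y.E_nonneg' fun σ =>
      P'.ex_nonneg fun m' => Y.E_nonneg' fun γ' => ?_
    have h3 := Y.sv_comp_le (ξ ++ γ) σ (γ' ++ η)
    simp only [← List.append_assoc] at h3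
    linarith
  linarith

/-- the weighted sum of the differences -/
theorem ce_eq (ω : List S → ℝ) (p : Law) (i v j : ℕ) :
    (Y.E i fun ξ => Y.E j fun η => ω ξ * ((Y.E v fun σ => Y.kk p ξ σ * Y.kk (P v) σ η) -
      Y.kk (p.conv ((Law.dirac v).conv (P v))) ξ η)) = Y.ce ω p i v j := by
  unfold ce
  refine Y.E_congr fun ξ _ => ?_
  simp only [comp_sub]
  have h1 : ∀ η, (ω ξ * p.ex fun m => Y.E m fun γ => Y.E v fun σ => (P v).ex fun m' =>
      Y.E m' fun γ' => (Y.sv (ξ ++ γ ++ σ) * Y.sv (σ ++ γ' ++ η) -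
        Y.sv (ξ ++ γ ++ σ ++ γ' ++ η))) =
      p.ex fun m => Y.E m fun γ => Y.E v fun σ => (P v).ex fun m' => Y.E m' fun γ' =>
        ω ξ * (Y.sv (ξ ++ γ ++ σ) * Y.sv (σ ++ γ' ++ η) - Y.sv (ξ ++ γ ++ σ ++ γ' ++ η)) := by
    intro η
    rw [← Law.ex_mul_left]
    refine p.ex_congr fun m => ?_
    rw [← E_mul_left]
    refine Y.E_congr fun γ _ => ?_
    rw [← E_mul_left]
    refine Y.E_congr fun σ _ => ?_
    rw [← Law.ex_mul_left]
    refine (P v).ex_congr fun m' => ?_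
    rw [← E_mul_left]
  simp only [h1]
  rw [E_ex]
  refine p.ex_congr fun m => ?_
  rw [E_comm]
  refine Y.E_congr fun γ _ => ?_
  rw [E_comm]
  refine Y.E_congr fun σ _ => ?_
  rw [E_ex]
  refine (P v).ex_congr fun m' => ?_
  rw [E_comm]

/-- pointwise form of the coupling inequality -/
theorem ql_pt {μ ν μ' ν' m m' a b a' b' x x' : ℝ} (hμ : 0 ≤ μ) (hν : 0 ≤ ν) (hμ' : 0 ≤ μ')
    (hν' : 0 ≤ ν') (hm : 0 ≤ m) (hm' : 0 ≤ m') (hx : 0 ≤ x) (hx' : 0 ≤ x')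
    (ha : 0 ≤ a) (hb : 0 ≤ b) (ha' : 0 ≤ a') (hb' : 0 ≤ b')
    (h1 : x * m ≤ μ + a) (h2 : x' * m ≤ ν + b) (h3 : x * m' ≤ μ' + a')
    (h4 : x' * m' ≤ ν' + b') :
    |μ * ν' - ν * μ'| ≤ μ * ν' + ν * μ' - 2 * (x * x') * (m * m') +
      2 * (a * ν' + x * m * b' + b * μ' + x' * m * a') := by
  have k1 : x * x' * (m * m') ≤ μ * ν' + a * ν' + x * m * b' := by
    have e1 : x * m * (x' * m') ≤ x * m * (ν' + b') :=
      mul_le_mul_of_nonneg_left h4 (mul_nonneg hx hm)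
    have e2 : x * m * ν' ≤ (μ + a) * ν' := mul_le_mul_of_nonneg_right h1 hν'
    nlinarith
  have k2 : x * x' * (m * m') ≤ ν * μ' + b * μ' + x' * m * a' := by
    have e1 : x' * m * (x * m') ≤ x' * m * (μ' + a') :=
      mul_le_mul_of_nonneg_left h3 (mul_nonneg hx' hm)
    have e2 : x' * m * μ' ≤ (ν + b) * μ' := mul_le_mul_of_nonneg_right h2 hμ'
    nlinarith
  have n1 : 0 ≤ a * ν' := mul_nonneg ha hν'
  have n2 : 0 ≤ x * m * b' := mul_nonneg (mul_nonneg hx hm) hb'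
  have n3 : 0 ≤ b * μ' := mul_nonneg hb hμ'
  have n4 : 0 ≤ x' * m * a' := mul_nonneg (mul_nonneg hx' hm) ha'
  rw [abs_le]
  constructor <;> linarith

end Sys

end Pool.Agent.Bub4
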