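import Pool.Agent.Bub4.StepA
import Pool.Agent.Bub4.Far
import Pool.Agent.Bub4.Doeb

/-!
# The coupling estimate for two columns
-/

set_option autoImplicit false

namespace Pool.Agent.Bub4

open Finset

namespace Sys

variable {S V : Type} [Fintype S] [AddCommGroup V] (Y : Sys S V)

/-- the right arm -/
noncomputable def Ra (v : ℕ) (σ : List S) : ℝ := Y.kk (Law.unif (4 * v) (4 * v)) σ []

/-- the left arm -/
noncomputable def La (v : ℕ) (η : List S) : ℝ := Y.kk (Law.unif (4 * v) (4 * v)) [] η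

/-- error of the minorisation -/
noncomputable def eD (B : ℝ) (v : ℕ) (σ η : List S) : ℝ :=
  max 0 (Y.Ra v σ * Y.La v η - 3 * B * Y.kk (P v) σ η)

/-- error of the majorisation of the mass -/
noncomputable def eM (K B : ℝ) (v : ℕ) (Q : Law) (σ : List S) : ℝ :=
  Q.ex fun n => max 0 (Y.k n σ [] - K * B * Y.Ra v σ)

/-- the composed mass -/
noncomputable def tau (v j : ℕ) (q : Law) (σ : List S) : ℝ :=
  Y.E j fun η => Y.kk (P v) σ η * Y.kk q η []

/-- the true mass -/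
noncomputable def Tm (v j : ℕ) (q : Law) (σ : List S) : ℝ :=
  Y.kk ((P v).conv ((Law.dirac j).conv q)) σ []

theorem eD_nonneg (B : ℝ) (v : ℕ) (σ η : List S) : 0 ≤ Y.eD B v σ η := le_max_left _ _

theorem eM_nonneg (K B : ℝ) (v : ℕ) (Q : Law) (σ : List S) : 0 ≤ Y.eM K B v Q σ :=
  Q.ex_nonneg fun _ => le_max_left _ _

theorem Ra_nonneg (v : ℕ) (σ : List S) : 0 ≤ Y.Ra v σ := Y.kk_nonneg _ _ _

theorem La_nonneg (v : ℕ) (σ : List S) : 0 ≤ Y.La v σ := Y.kk_nonneg _ _ _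

theorem tau_nonneg (v j : ℕ) (q : Law) (σ : List S) : 0 ≤ Y.tau v j q σ :=
  Y.E_nonneg' fun _ => mul_nonneg (Y.kk_nonneg _ _ _) (Y.kk_nonneg _ _ _)

theorem Tm_nonneg (v j : ℕ) (q : Law) (σ : List S) : 0 ≤ Y.Tm v j q σ := Y.kk_nonneg _ _ _

theorem Tm_le_tau (v j : ℕ) (q : Law) (σ : List S) : Y.Tm v j q σ ≤ Y.tau v j q σ :=
  Y.comp_le _ _ _ _ _

theorem Tm_le_Ra {K B : ℝ} (v j : ℕ) (q : Law) (σ : List S) :
    Y.Tm v j q σ ≤ K * B * Y.Ra v σ + Y.eM K B v ((P v).conv ((Law.dirac j).conv q)) σ := by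
  unfold Tm eM
  have h1 : ((P v).conv ((Law.dirac j).conv q)).ex (fun n =>
      K * B * Y.Ra v σ + max 0 (Y.k n σ [] - K * B * Y.Ra v σ)) =
      K * B * Y.Ra v σ + ((P v).conv ((Law.dirac j).conv q)).ex fun n =>
        max 0 (Y.k n σ [] - K * B * Y.Ra v σ) := by
    rw [Law.ex_add, Law.ex_const]
  rw [← h1]
  refine Law.ex_mono _ fun n => ?_
  have := le_max_right 0 (Y.k n σ [] - K * B * Y.Ra v σ)
  linarith

section Crit

variable {Y} {K B : ℝ} (hY : Y.Crit K B)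

include hY

theorem Crit.E_sv_le (n : ℕ) : Y.E n Y.sv ≤ K := hY.a_le n

theorem Crit.tau_le (v j : ℕ) (q : Law) (σ : List S) : Y.tau v j q σ ≤ K ^ 3 := by
  have hK := hY.K_pos
  unfold tau
  have h1 : (Y.E j fun η => Y.kk (P v) σ η * Y.kk q η []) ≤ Y.E j fun η => K ^ 2 * Y.sv η := by
    refine Y.E_mono fun η _ => ?_
    have e1 := hY.kk_le_right (P v) σ η
    have e2 := hY.kk_le_K q η []
    have e3 := Y.kk_nonneg (P v) σ η
    have e4 := Y.kk_nonneg q η []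
    have e5 := Y.sv_nonneg η
    calc Y.kk (P v) σ η * Y.kk q η [] ≤ (K * Y.sv η) * K :=
          mul_le_mul e1 e2 e4 (mul_nonneg hK.le e5)
      _ = K ^ 2 * Y.sv η := by ring
  rw [E_mul_left] at h1
  have h2 := hY.E_sv_le j
  have h3 : 0 ≤ K ^ 2 := by positivity
  nlinarith

theorem Crit.Ra_le (v : ℕ) (σ : List S) : Y.Ra v σ ≤ K := hY.kk_le_K _ _ _

theorem Crit.La_le (v : ℕ) (σ : List S) : Y.La v σ ≤ K * Y.sv σ := hY.kk_le_right _ _ _

theorem Crit.Tm_le (v j : ℕ) (q : Law) (σ : List S) : Y.Tm v j q σ ≤ K := hY.kk_le_K _ _ _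

/-- the mass of the common part is at least one -/
theorem Crit.one_le_mm (v j : ℕ) (q : Law) :
    1 ≤ Y.E j fun η => Y.La v η * Y.kk q η [] := by
  have h1 := Y.comp_le (Law.unif (4 * v) (4 * v)) q j [] []
  refine le_trans ?_ h1
  unfold kk
  refine Law.le_ex _ fun m => ?_
  rw [k_nil_nil]
  exact hY.a_ge m

theorem Crit.mm_le (v j : ℕ) (q : Law) :
    (Y.E j fun η => Y.La v η * Y.kk q η []) ≤ K ^ 3 := by
  have hK := hY.K_pos
  have h1 : (Y.E j fun η => Y.La v η * Y.kk q η []) ≤ Y.E j fun η => K ^ 2 * Y.sv η := by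
    refine Y.E_mono fun η _ => ?_
    have e1 := hY.La_le v η
    have e2 := hY.kk_le_K q η []
    have e4 := Y.kk_nonneg q η []
    have e5 := Y.sv_nonneg η
    calc Y.La v η * Y.kk q η [] ≤ (K * Y.sv η) * K :=
          mul_le_mul e1 e2 e4 (mul_nonneg hK.le e5)
      _ = K ^ 2 * Y.sv η := by ring
  rw [E_mul_left] at h1
  have h2 := hY.E_sv_le j
  have h3 : 0 ≤ K ^ 2 := by positivity
  nlinarith

theorem Crit.E_eD_le (v j : ℕ) (q : Law) (σ : List S) :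
    (Y.E j fun η => Y.eD B v σ η * Y.kk q η []) ≤ K * Y.E j fun η => Y.eD B v σ η := by
  rw [← E_mul_left]
  refine Y.E_mono fun η _ => ?_
  rw [mul_comm]
  exact mul_le_mul_of_nonneg_right (hY.kk_le_K _ _ _) (Y.eD_nonneg _ _ _ _)

end Crit

/-- the numerical inequality behind `pair_bound` -/
theorem num_bound {K B κ β R R' T1 T1' T2 T2' t1 t1' t2 t2' g1 g1' g2 g2' mm mm' A1 B1 a1 b1 : ℝ}
    (hK : 1 ≤ K) (hB : 1 ≤ B) (hβ : β = (3 * B)⁻¹) (hκ : κ = (9 * B ^ 2 * (K * B) ^ 2)⁻¹)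
    (hR : 0 ≤ R) (hR' : 0 ≤ R') (hRK : R ≤ K) (hRK' : R' ≤ K)
    (hT1 : 0 ≤ T1) (hT1' : 0 ≤ T1') (hT2 : 0 ≤ T2) (hT2' : 0 ≤ T2')
    (kT1 : T1 ≤ K) (kT1' : T1' ≤ K) (kT2 : T2 ≤ K) (kT2' : T2' ≤ K)
    (l1 : T1 ≤ t1) (l1' : T1' ≤ t1') (l2 : T2 ≤ t2) (l2' : T2' ≤ t2')
    (k1' : t1' ≤ K ^ 3) (k2' : t2' ≤ K ^ 3)
    (hg1 : 0 ≤ g1) (hg1' : 0 ≤ g1') (hg2 : 0 ≤ g2) (hg2' : 0 ≤ g2')
    (c1 : T1 ≤ K * B * R + g1) (c1' : T1' ≤ K * B * R' + g1')
    (c2 : T2 ≤ K * B * R' + g2) (c2' : T2' ≤ K * B * R + g2')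
    (hmm : 1 ≤ mm) (hmm' : 1 ≤ mm') (kmm : mm ≤ K ^ 3)
    (hA1 : 0 ≤ A1) (hB1 : 0 ≤ B1) (ha1 : 0 ≤ a1) (hb1 : 0 ≤ b1) :
    t1 * t1' + t2 * t2' - 2 * ((β * R) * (β * R')) * (mm * mm') +
      2 * (A1 * t1' + β * R * mm * b1 + B1 * t2' + β * R' * mm * a1) ≤
    (1 - κ) * (T1 * T1' + T2 * T2') +
      2 * K ^ 4 * ((t1 - T1) + (t1' - T1') + (t2 - T2) + (t2' - T2') + g1 + g1' + g2 + g2' +
        A1 + B1 + a1 + b1) := by
  have hK0 : 0 < K := by linarith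
  have hB0 : 0 < B := by linarith
  have hβ0 : 0 < β := by rw [hβ]; positivity
  have hβ1 : β ≤ 1 := by
    rw [hβ]
    exact inv_le_one_of_one_le₀ (by linarith)
  have hκ0 : 0 < κ := by rw [hκ]; positivity
  have hK2 : 1 ≤ K ^ 2 := one_le_pow₀ hK
  have hK3 : 1 ≤ K ^ 3 := one_le_pow₀ hK
  have hK4 : 1 ≤ K ^ 4 := one_le_pow₀ hK
  have hK34 : K ^ 3 ≤ K ^ 4 := pow_le_pow_right₀ hK (by norm_num)
  have hK13 : K ≤ K ^ 3 := by
    calc K = K ^ 1 := (pow_one K).symm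
      _ ≤ K ^ 3 := pow_le_pow_right₀ hK (by norm_num)
  -- the identities for `κ`
  have hκ1 : κ * (K * B) ^ 2 = β ^ 2 := by
    rw [hκ, hβ]
    field_simp
    ring
  have hκ2 : κ * (K ^ 2 * B) ≤ 1 := by
    rw [hκ]
    rw [inv_mul_le_iff₀ (by positivity)]
    have h1 : 1 ≤ B ^ 3 := one_le_pow₀ hB
    have h2 : 0 ≤ K ^ 2 * B := by positivity
    have h3 : 9 * B ^ 2 * (K * B) ^ 2 * 1 = 9 * (K ^ 2 * B * B ^ 3) := by ring
    rw [h3]
    have h4 := mul_le_mul_of_nonneg_left h1 h2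
    linarith
  have hκ3 : κ * K ≤ 1 := by
    refine le_trans ?_ hκ2
    refine mul_le_mul_of_nonneg_left ?_ hκ0.le
    have h1 : 1 ≤ K * B := by
      calc (1 : ℝ) = 1 * 1 := by ring
        _ ≤ K * B := mul_le_mul hK hB zero_le_one hK0.le
    have h2 := mul_le_mul_of_nonneg_left h1 hK0.le
    calc K = K * 1 := (mul_one K).symm
      _ ≤ K * (K * B) := h2
      _ = K ^ 2 * B := by ring
  -- products of masses
  have p1 : t1 * t1' ≤ T1 * T1' + K ^ 3 * ((t1 - T1) + (t1' - T1')) := by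
    have e1 : (t1 - T1) * t1' ≤ (t1 - T1) * K ^ 3 :=
      mul_le_mul_of_nonneg_left k1' (by linarith)
    have e2 : T1 * (t1' - T1') ≤ K ^ 3 * (t1' - T1') := by
      exact mul_le_mul_of_nonneg_right (kT1.trans hK13) (by linarith)
    have e3 : t1 * t1' = T1 * T1' + (t1 - T1) * t1' + T1 * (t1' - T1') := by ring
    linarith
  have p2 : t2 * t2' ≤ T2 * T2' + K ^ 3 * ((t2 - T2) + (t2' - T2')) := by
    have e1 : (t2 - T2) * t2' ≤ (t2 - T2) * K ^ 3 :=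
      mul_le_mul_of_nonneg_left k2' (by linarith)
    have e2 : T2 * (t2' - T2') ≤ K ^ 3 * (t2' - T2') := by
      exact mul_le_mul_of_nonneg_right (kT2.trans hK13) (by linarith)
    have e3 : t2 * t2' = T2 * T2' + (t2 - T2) * t2' + T2 * (t2' - T2') := by ring
    linarith
  have hKB : 0 ≤ K * B := by positivity
  have q1 : κ * (T1 * T1') ≤ β ^ 2 * (R * R') + (g1 + g1') := by
    have e1 : T1 * T1' ≤ (K * B) ^ 2 * (R * R') + K ^ 2 * B * g1' + K * g1 := by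
      have f1 : T1 * T1' ≤ (K * B * R + g1) * T1' := mul_le_mul_of_nonneg_right c1 hT1'
      have f2 : K * B * R * T1' ≤ K * B * R * (K * B * R' + g1') :=
        mul_le_mul_of_nonneg_left c1' (mul_nonneg hKB hR)
      have f3 : g1 * T1' ≤ g1 * K := mul_le_mul_of_nonneg_left kT1' hg1
      have f4 : K * B * R * g1' ≤ K * B * K * g1' :=
        mul_le_mul_of_nonneg_right (mul_le_mul_of_nonneg_left hRK hKB) hg1'
      have f5 : (K * B * R + g1) * T1' = K * B * R * T1' + g1 * T1' := by ring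
      have f6 : K * B * R * (K * B * R' + g1') =
        (K * B) ^ 2 * (R * R') + K * B * R * g1' := by ring
      have f7 : K * B * K * g1' = K ^ 2 * B * g1' := by ring
      linarith
    have e2 := mul_le_mul_of_nonneg_left e1 hκ0.le
    have e3 : κ * (K ^ 2 * B) * g1' ≤ 1 * g1' := mul_le_mul_of_nonneg_right hκ2 hg1'
    have e4 : κ * K * g1 ≤ 1 * g1 := mul_le_mul_of_nonneg_right hκ3 hg1
    have e5 : κ * ((K * B) ^ 2 * (R * R') + K ^ 2 * B * g1' + K * g1) =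
      κ * (K * B) ^ 2 * (R * R') + κ * (K ^ 2 * B) * g1' + κ * K * g1 := by ring
    rw [e5, hκ1] at e2
    linarith
  have q2 : κ * (T2 * T2') ≤ β ^ 2 * (R * R') + (g2 + g2') := by
    have e1 : T2 * T2' ≤ (K * B) ^ 2 * (R * R') + K ^ 2 * B * g2' + K * g2 := by
      have f1 : T2 * T2' ≤ (K * B * R' + g2) * T2' := mul_le_mul_of_nonneg_right c2 hT2'
      have f2 : K * B * R' * T2' ≤ K * B * R' * (K * B * R + g2') :=
        mul_le_mul_of_nonneg_left c2' (mul_nonneg hKB hR')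
      have f3 : g2 * T2' ≤ g2 * K := mul_le_mul_of_nonneg_left kT2' hg2
      have f4 : K * B * R' * g2' ≤ K * B * K * g2' :=
        mul_le_mul_of_nonneg_right (mul_le_mul_of_nonneg_left hRK' hKB) hg2'
      have f5 : (K * B * R' + g2) * T2' = K * B * R' * T2' + g2 * T2' := by ring
      have f6 : K * B * R' * (K * B * R + g2') =
        (K * B) ^ 2 * (R * R') + K * B * R' * g2' := by ring
      have f7 : K * B * K * g2' = K ^ 2 * B * g2' := by ring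
      linarith
    have e2 := mul_le_mul_of_nonneg_left e1 hκ0.le
    have e3 : κ * (K ^ 2 * B) * g2' ≤ 1 * g2' := mul_le_mul_of_nonneg_right hκ2 hg2'
    have e4 : κ * K * g2 ≤ 1 * g2 := mul_le_mul_of_nonneg_right hκ3 hg2
    have e5 : κ * ((K * B) ^ 2 * (R * R') + K ^ 2 * B * g2' + K * g2) =
      κ * (K * B) ^ 2 * (R * R') + κ * (K ^ 2 * B) * g2' + κ * K * g2 := by ring
    rw [e5, hκ1] at e2
    linarith
  -- the common part
  have r1 : β ^ 2 * (R * R') ≤ (β * R) * (β * R') * (mm * mm') := by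
    have e1 : 1 ≤ mm * mm' := by
      calc (1 : ℝ) = 1 * 1 := by ring
        _ ≤ mm * mm' := mul_le_mul hmm hmm' zero_le_one (by linarith)
    have e2 : 0 ≤ (β * R) * (β * R') := mul_nonneg (mul_nonneg hβ0.le hR) (mul_nonneg hβ0.le hR')
    calc β ^ 2 * (R * R') = (β * R) * (β * R') * 1 := by ring
      _ ≤ (β * R) * (β * R') * (mm * mm') := mul_le_mul_of_nonneg_left e1 e2
  -- the remaining errors
  have s1 : A1 * t1' ≤ K ^ 4 * A1 := by
    have := mul_le_mul_of_nonneg_left (k1'.trans hK34) hA1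
    linarith
  have s2 : B1 * t2' ≤ K ^ 4 * B1 := by
    have := mul_le_mul_of_nonneg_left (k2'.trans hK34) hB1
    linarith
  have u1 : ∀ r : ℝ, 0 ≤ r → r ≤ K → β * r * mm ≤ K ^ 4 := by
    intro r hr hr'
    have e1 : β * r ≤ 1 * K := mul_le_mul hβ1 hr' hr zero_le_one
    calc β * r * mm ≤ (1 * K) * K ^ 3 :=
          mul_le_mul e1 kmm (by linarith) (by positivity)
      _ = K ^ 4 := by ring
  have s3 : β * R * mm * b1 ≤ K ^ 4 * b1 := mul_le_mul_of_nonneg_right (u1 R hR hRK) hb1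
  have s4 : β * R' * mm * a1 ≤ K ^ 4 * a1 := mul_le_mul_of_nonneg_right (u1 R' hR' hRK') ha1
  have w1 : K ^ 3 * ((t1 - T1) + (t1' - T1')) ≤ 2 * K ^ 4 * ((t1 - T1) + (t1' - T1')) :=
    mul_le_mul_of_nonneg_right (by linarith) (by linarith)
  have w2 : K ^ 3 * ((t2 - T2) + (t2' - T2')) ≤ 2 * K ^ 4 * ((t2 - T2) + (t2' - T2')) :=
    mul_le_mul_of_nonneg_right (by linarith) (by linarith)
  have w3 : g1 + g1' + g2 + g2' ≤ 2 * K ^ 4 * (g1 + g1' + g2 + g2') := by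
    have h1 : 0 ≤ g1 + g1' + g2 + g2' := by linarith
    exact le_mul_of_one_le_left h1 (by linarith)
  have z1 : (1 - κ) * (T1 * T1' + T2 * T2') =
    T1 * T1' + T2 * T2' - κ * (T1 * T1') - κ * (T2 * T2') := by ring
  have z2 : 2 * K ^ 4 * ((t1 - T1) + (t1' - T1') + (t2 - T2) + (t2' - T2') + g1 + g1' + g2 + g2' +
        A1 + B1 + a1 + b1) = 2 * K ^ 4 * ((t1 - T1) + (t1' - T1')) +
        2 * K ^ 4 * ((t2 - T2) + (t2' - T2')) + 2 * K ^ 4 * (g1 + g1' + g2 + g2') +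
        2 * (K ^ 4 * A1) + 2 * (K ^ 4 * B1) + 2 * (K ^ 4 * a1) + 2 * (K ^ 4 * b1) := by ring
  rw [z1, z2]
  have z3 : 2 * ((β * R) * (β * R')) * (mm * mm') = 2 * ((β * R) * (β * R') * (mm * mm')) := by
    ring
  rw [z3]
  linarith

end Sys

end Pool.Agent.Bub4
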