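import Pool.Agent.Bub4.StepB

/-!
# The coupling estimate for two columns: sums
-/

set_option autoImplicit false

namespace Pool.Agent.Bub4

open Finset

namespace Sys

variable {S V : Type} [Fintype S] [AddCommGroup V] (Y : Sys S V)

/-- the contraction rate -/
noncomputable def kap (K B : ℝ) : ℝ := (9 * B ^ 2 * (K * B) ^ 2)⁻¹

/-- the sum of the errors for one intermediate word -/
noncomputable def Ge (K B : ℝ) (v j j' : ℕ) (q q' : Law) (σ : List S) : ℝ :=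
  (Y.tau v j q σ - Y.Tm v j q σ) + (Y.tau v j' q' σ - Y.Tm v j' q' σ) +
    Y.eM K B v ((P v).conv ((Law.dirac j).conv q)) σ +
    Y.eM K B v ((P v).conv ((Law.dirac j').conv q')) σ +
    K * (Y.E j fun η => Y.eD B v σ η) + K * (Y.E j' fun η => Y.eD B v σ η)

theorem E_prod_sum (j j' : ℕ) (μ ν m a b : List S → ℝ) (μ' ν' m' a' b' : List S → ℝ)
    (x x' : ℝ) :
    (Y.E j fun η => Y.E j' fun η' => (μ η * ν' η' + ν η * μ' η' - 2 * (x * x') * (m η * m' η') +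
      2 * (a η * ν' η' + x * m η * b' η' + b η * μ' η' + x' * m η * a' η'))) =
    Y.E j μ * Y.E j' ν' + Y.E j ν * Y.E j' μ' - 2 * (x * x') * (Y.E j m * Y.E j' m') +
      2 * (Y.E j a * Y.E j' ν' + x * Y.E j m * Y.E j' b' + Y.E j b * Y.E j' μ' +
        x' * Y.E j m * Y.E j' a') := by
  have e : ∀ η η', (μ η * ν' η' + ν η * μ' η' - 2 * (x * x') * (m η * m' η') +
      2 * (a η * ν' η' + x * m η * b' η' + b η * μ' η' + x' * m η * a' η')) =
      μ η * ν' η' + ν η * μ' η' + (-(2 * (x * x'))) * (m η * m' η') +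
      2 * (a η * ν' η') + (2 * x) * (m η * b' η') + 2 * (b η * μ' η') +
        (2 * x') * (m η * a' η') := by
    intro η η'
    ring
  simp only [e, E_fadd]
  simp only [E_mul_left]
  simp only [E_mul_right]
  ring

variable {Y} in
theorem pair_bound {K B : ℝ} (hY : Y.Crit K B) (v j j' : ℕ) (q q' : Law) (σ σ' : List S) :
    (Y.E j fun η => Y.E j' fun η' =>
      |Y.mn (P v) σ σ' η η'| * Y.kk q η [] * Y.kk q' η' []) ≤
    (1 - kap K B) * (Y.Tm v j q σ * Y.Tm v j' q' σ' + Y.Tm v j q σ' * Y.Tm v j' q' σ) +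
      2 * K ^ 4 * (Y.Ge K B v j j' q q' σ + Y.Ge K B v j j' q q' σ') := by
  have hK := hY.one_le_K
  have hK0 := hY.K_pos
  have hB := hY.one_le_B
  have hB0 : 0 < B := by linarith
  set β : ℝ := (3 * B)⁻¹ with hβ
  have hβ0 : 0 < β := by positivity
  have hβ1 : β ≤ 1 := inv_le_one_of_one_le₀ (by linarith)
  -- the functions
  set μ : List S → ℝ := fun η => Y.kk (P v) σ η * Y.kk q η [] with hμ
  set ν : List S → ℝ := fun η => Y.kk (P v) σ' η * Y.kk q η [] with hν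
  set m : List S → ℝ := fun η => Y.La v η * Y.kk q η [] with hm
  set a : List S → ℝ := fun η => β * (Y.eD B v σ η * Y.kk q η []) with ha
  set b : List S → ℝ := fun η => β * (Y.eD B v σ' η * Y.kk q η []) with hb
  set μ' : List S → ℝ := fun η => Y.kk (P v) σ η * Y.kk q' η [] with hμ'
  set ν' : List S → ℝ := fun η => Y.kk (P v) σ' η * Y.kk q' η [] with hν'
  set m' : List S → ℝ := fun η => Y.La v η * Y.kk q' η [] with hm'
  set a' : List S → ℝ := fun η => β * (Y.eD B v σ η * Y.kk q' η []) with ha'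
  set b' : List S → ℝ := fun η => β * (Y.eD B v σ' η * Y.kk q' η []) with hb'
  have key : ∀ (τ η : List S) (r : Law), β * Y.Ra v τ * (Y.La v η * Y.kk r η []) ≤
      Y.kk (P v) τ η * Y.kk r η [] + β * (Y.eD B v τ η * Y.kk r η []) := by
    intro τ η r
    have h1 : Y.Ra v τ * Y.La v η - 3 * B * Y.kk (P v) τ η ≤ Y.eD B v τ η := le_max_right _ _
    have h2 := mul_le_mul_of_nonneg_left h1 hβ0.le
    have h3 : β * (3 * B) = 1 := by
      rw [hβ]
      exact inv_mul_cancel₀ (by positivity)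
    have h4 : β * (Y.Ra v τ * Y.La v η - 3 * B * Y.kk (P v) τ η) =
        β * Y.Ra v τ * Y.La v η - (β * (3 * B)) * Y.kk (P v) τ η := by ring
    rw [h4, h3, one_mul] at h2
    have h5 := mul_le_mul_of_nonneg_right h2 (Y.kk_nonneg r η [])
    linarith
  have hpt : ∀ η η', |Y.mn (P v) σ σ' η η'| * Y.kk q η [] * Y.kk q' η' [] ≤
      (μ η * ν' η' + ν η * μ' η' - 2 * ((β * Y.Ra v σ) * (β * Y.Ra v σ')) * (m η * m' η') +
      2 * (a η * ν' η' + (β * Y.Ra v σ) * m η * b' η' + b η * μ' η' +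
        (β * Y.Ra v σ') * m η * a' η')) := by
    intro η η'
    have e1 : |Y.mn (P v) σ σ' η η'| * Y.kk q η [] * Y.kk q' η' [] =
        |μ η * ν' η' - ν η * μ' η'| := by
      have e2 : μ η * ν' η' - ν η * μ' η' =
          Y.mn (P v) σ σ' η η' * (Y.kk q η [] * Y.kk q' η' []) := by
        simp only [hμ, hν, hμ', hν', mn]
        ring
      rw [e2, abs_mul, abs_of_nonneg (mul_nonneg (Y.kk_nonneg _ _ _) (Y.kk_nonneg _ _ _))]
      ring
    rw [e1]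
    refine ql_pt (mul_nonneg (Y.kk_nonneg _ _ _) (Y.kk_nonneg _ _ _))
      (mul_nonneg (Y.kk_nonneg _ _ _) (Y.kk_nonneg _ _ _))
      (mul_nonneg (Y.kk_nonneg _ _ _) (Y.kk_nonneg _ _ _))
      (mul_nonneg (Y.kk_nonneg _ _ _) (Y.kk_nonneg _ _ _))
      (mul_nonneg (Y.La_nonneg _ _) (Y.kk_nonneg _ _ _))
      (mul_nonneg (Y.La_nonneg _ _) (Y.kk_nonneg _ _ _))
      (mul_nonneg hβ0.le (Y.Ra_nonneg _ _)) (mul_nonneg hβ0.le (Y.Ra_nonneg _ _))
      (mul_nonneg hβ0.le (mul_nonneg (Y.eD_nonneg _ _ _ _) (Y.kk_nonneg _ _ _)))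
      (mul_nonneg hβ0.le (mul_nonneg (Y.eD_nonneg _ _ _ _) (Y.kk_nonneg _ _ _)))
      (mul_nonneg hβ0.le (mul_nonneg (Y.eD_nonneg _ _ _ _) (Y.kk_nonneg _ _ _)))
      (mul_nonneg hβ0.le (mul_nonneg (Y.eD_nonneg _ _ _ _) (Y.kk_nonneg _ _ _)))
      (key σ η q) (key σ' η q) (key σ η' q') (key σ' η' q')
  have hsum := Y.E_mono (n := j) fun η _ => Y.E_mono (n := j') fun η' _ => hpt η η'
  rw [E_prod_sum] at hsum
  refine hsum.trans ?_
  have hA : ∀ (τ : List S) (n : ℕ) (r : Law),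
      (Y.E n fun η => β * (Y.eD B v τ η * Y.kk r η [])) ≤ K * Y.E n fun η => Y.eD B v τ η := by
    intro τ n r
    rw [E_mul_left]
    have h1 := hY.E_eD_le v n r τ
    have h2 : 0 ≤ Y.E n fun η => Y.eD B v τ η * Y.kk r η [] :=
      Y.E_nonneg' fun _ => mul_nonneg (Y.eD_nonneg _ _ _ _) (Y.kk_nonneg _ _ _)
    exact (mul_le_of_le_one_left h2 hβ1).trans h1
  have hA0 : ∀ (τ : List S) (n : ℕ) (r : Law),
      0 ≤ (Y.E n fun η => β * (Y.eD B v τ η * Y.kk r η [])) := fun τ n r =>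
    Y.E_nonneg' fun _ => mul_nonneg hβ0.le (mul_nonneg (Y.eD_nonneg _ _ _ _) (Y.kk_nonneg _ _ _))
  have hnum := num_bound (K := K) (B := B) (κ := kap K B) (β := β) (R := Y.Ra v σ)
    (R' := Y.Ra v σ') (T1 := Y.Tm v j q σ) (T1' := Y.Tm v j' q' σ') (T2 := Y.Tm v j q σ')
    (T2' := Y.Tm v j' q' σ) (t1 := Y.E j μ) (t1' := Y.E j' ν') (t2 := Y.E j ν)
    (t2' := Y.E j' μ') (g1 := Y.eM K B v ((P v).conv ((Law.dirac j).conv q)) σ)
    (g1' := Y.eM K B v ((P v).conv ((Law.dirac j').conv q')) σ')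
    (g2 := Y.eM K B v ((P v).conv ((Law.dirac j).conv q)) σ')
    (g2' := Y.eM K B v ((P v).conv ((Law.dirac j').conv q')) σ)
    (mm := Y.E j m) (mm' := Y.E j' m') (A1 := Y.E j a) (B1 := Y.E j b) (a1 := Y.E j' a')
    (b1 := Y.E j' b') hK hB hβ rfl (Y.Ra_nonneg _ _) (Y.Ra_nonneg _ _) (hY.Ra_le _ _)
    (hY.Ra_le _ _) (Y.Tm_nonneg _ _ _ _) (Y.Tm_nonneg _ _ _ _) (Y.Tm_nonneg _ _ _ _)
    (Y.Tm_nonneg _ _ _ _) (hY.Tm_le _ _ _ _) (hY.Tm_le _ _ _ _) (hY.Tm_le _ _ _ _)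
    (hY.Tm_le _ _ _ _) (Y.Tm_le_tau _ _ _ _) (Y.Tm_le_tau _ _ _ _) (Y.Tm_le_tau _ _ _ _)
    (Y.Tm_le_tau _ _ _ _) (hY.tau_le _ _ _ _) (hY.tau_le _ _ _ _) (Y.eM_nonneg _ _ _ _ _)
    (Y.eM_nonneg _ _ _ _ _) (Y.eM_nonneg _ _ _ _ _) (Y.eM_nonneg _ _ _ _ _)
    (Y.Tm_le_Ra _ _ _ _) (Y.Tm_le_Ra _ _ _ _) (Y.Tm_le_Ra _ _ _ _) (Y.Tm_le_Ra _ _ _ _)
    (hY.one_le_mm _ _ _) (hY.one_le_mm _ _ _) (hY.mm_le _ _ _) (hA0 _ _ _) (hA0 _ _ _)
    (hA0 _ _ _) (hA0 _ _ _)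
  refine hnum.trans ?_
  have hfin : (Y.E j μ - Y.Tm v j q σ) + (Y.E j' ν' - Y.Tm v j' q' σ') +
      (Y.E j ν - Y.Tm v j q σ') + (Y.E j' μ' - Y.Tm v j' q' σ) +
      Y.eM K B v ((P v).conv ((Law.dirac j).conv q)) σ +
      Y.eM K B v ((P v).conv ((Law.dirac j').conv q')) σ' +
      Y.eM K B v ((P v).conv ((Law.dirac j).conv q)) σ' +
      Y.eM K B v ((P v).conv ((Law.dirac j').conv q')) σ +
      Y.E j a + Y.E j b + Y.E j' a' + Y.E j' b' ≤
      Y.Ge K B v j j' q q' σ + Y.Ge K B v j j' q q' σ' := by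
    have i1 := hA σ j q
    have i2 := hA σ' j q
    have i3 := hA σ j' q'
    have i4 := hA σ' j' q'
    have j1 : Y.E j μ = Y.tau v j q σ := rfl
    have j2 : Y.E j' ν' = Y.tau v j' q' σ' := rfl
    have j3 : Y.E j ν = Y.tau v j q σ' := rfl
    have j4 : Y.E j' μ' = Y.tau v j' q' σ := rfl
    rw [j1, j2, j3, j4]
    unfold Ge
    linarith
  have hK4 : 0 ≤ 2 * K ^ 4 := by positivity
  have := mul_le_mul_of_nonneg_left hfin hK4
  linarith

end Sys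

end Pool.Agent.Bub4
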