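import Pool.Agent.Bub4.StepC

/-!
# Bounds for the sums of the errors of the step
-/

set_option autoImplicit false

namespace Pool.Agent.Bub4

open Finset

namespace Sys

variable {S V : Type} [Fintype S] [AddCommGroup V] {Y : Sys S V}

theorem P_len (v : ℕ) (x : (P v).ι) : 6 * v ≤ (P v).len x ∧ (P v).len x ≤ 16 * v := by
  change Fin (10 * v + 1) at x
  have h := x.is_lt
  show 6 * v ≤ 6 * v + (x : ℕ) ∧ 6 * v + (x : ℕ) ≤ 16 * v
  omega

theorem H_nonneg' (w N : ℕ) : 0 ≤ Y.H w N :=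
  Finset.sum_nonneg fun _ _ => Finset.sum_nonneg fun _ _ => by
    split_ifs
    · exact Y.b_nonneg _ _
    · exact le_rfl

variable {K B : ℝ} (hY : Y.Crit K B)

include hY

theorem Crit.E_tau_sub {v N j n0 : ℕ} {q : Law} (hq : q.Le n0) (hvj : v ≤ j ∨ q = Law.dirac 0)
    (hN : 25 * v + j + n0 ≤ N) :
    (Y.E v fun σ => Y.tau v j q σ - Y.Tm v j q σ) ≤ K ^ 2 * Y.H v N := by
  have hH : 0 ≤ Y.H v N := H_nonneg' v N
  have hRHS : 0 ≤ K ^ 2 * Y.H v N := by positivity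
  rcases hvj with hvj | rfl
  · have e1 : ∀ σ, Y.tau v j q σ - Y.Tm v j q σ = (P v).ex fun m => q.ex fun m' =>
        Y.E m fun γ => Y.E j fun τ => Y.E m' fun γ' =>
          (Y.sv (σ ++ γ ++ τ) * Y.sv (τ ++ γ' ++ []) - Y.sv (σ ++ γ ++ τ ++ γ' ++ [])) := by
      intro σ
      unfold tau Tm
      rw [comp_sub]
      refine (P v).ex_congr fun m => ?_
      simp only [E_ex]
    simp only [e1]
    rw [E_ex]
    refine (P v).ex_le' fun x => ?_
    rw [E_ex]
    refine q.ex_le' fun x' => ?_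
    have hx := P_len v x
    have hx' := hq x'
    set m := (P v).len x with hm
    set m' := q.len x' with hm'
    have e2 : (Y.E v fun σ => Y.E m fun γ => Y.E j fun τ => Y.E m' fun γ' =>
        (Y.sv (σ ++ γ ++ τ) * Y.sv (τ ++ γ' ++ []) - Y.sv (σ ++ γ ++ τ ++ γ' ++ []))) ≤
        Y.E v fun σ => Y.E m fun γ => Y.E j fun τ => Y.E m' fun γ' =>
          Y.sv (σ ++ γ ++ τ) * Y.sv γ' * Y.ht v (σ ++ γ ++ τ) γ' := by
      refine Y.E_mono fun σ _ => Y.E_mono fun γ _ => Y.E_mono fun τ hτ => Y.E_mono fun γ' _ => ?_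
      rw [List.append_nil, List.append_nil]
      exact Y.hit_right v (σ ++ γ) τ γ' (by omega)
    refine e2.trans ?_
    have e3 : (Y.E v fun σ => Y.E m fun γ => Y.E j fun τ => Y.E m' fun γ' =>
          Y.sv (σ ++ γ ++ τ) * Y.sv γ' * Y.ht v (σ ++ γ ++ τ) γ') =
        Y.E (v + m + j) fun l => Y.E m' fun r => Y.sv l * Y.sv r * Y.ht v l r := by
      rw [E_add, E_add]
    rw [e3]
    exact Y.far_one hY (by omega) (by omega)
  · have e1 : ∀ σ, Y.tau v j (Law.dirac 0) σ - Y.Tm v j (Law.dirac 0) σ = 0 := by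
      intro σ
      unfold tau Tm
      rw [comp_eq, kk_comp, sub_eq_zero]
      refine (P v).ex_congr fun m => Y.E_congr fun γ _ => Y.E_congr fun τ _ => ?_
      rw [kk_dirac, kk_dirac, k_zero, k_zero, List.append_nil, List.append_nil]
      exact Y.sv_mul_infix (List.suffix_append _ _).isInfix
    simp only [e1, E_zero_fun]
    exact hRHS

theorem Crit.E_eM_le {v N j n0 : ℕ} {q : Law} (hv : 1 ≤ v) (hq : q.Le n0)
    (hN : 25 * v + j + n0 ≤ N) :
    (Y.E v fun σ => Y.eM K B v ((P v).conv ((Law.dirac j).conv q)) σ) ≤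
      2 * K ^ 2 * B * Y.H v N := by
  unfold eM
  rw [E_ex]
  refine Law.ex_le' _ fun x => ?_
  obtain ⟨x1, x2, x3⟩ := x
  have h1 := P_len v x1
  have h2 := hq x3
  have h3 : ((P v).conv ((Law.dirac j).conv q)).len (x1, x2, x3) =
    (P v).len x1 + (j + q.len x3) := rfl
  rw [h3]
  exact Y.mass hY hv (by omega) (by omega)

theorem Crit.E_Ge_le {v N j j' n0 n0' : ℕ} {q q' : Law} (hv : 1 ≤ v) (hq : q.Le n0)
    (hq' : q'.Le n0') (hvj : v ≤ j ∨ q = Law.dirac 0) (hvj' : v ≤ j' ∨ q' = Law.dirac 0)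
    (hN : 25 * v + j + n0 ≤ N) (hN' : 25 * v + j' + n0' ≤ N) :
    (Y.E v fun σ => Y.Ge K B v j j' q q' σ) ≤ 12 * K ^ 4 * B * Y.H v N := by
  have hH : 0 ≤ Y.H v N := H_nonneg' v N
  have hK := hY.one_le_K
  have hK0 := hY.K_pos
  have hB := hY.one_le_B
  have hB0 : 0 < B := by linarith
  unfold Ge
  simp only [E_fadd, E_mul_left]
  have h1 := hY.E_tau_sub hq hvj hN
  have h2 := hY.E_tau_sub hq' hvj' hN'
  have h3 := hY.E_eM_le hv hq hN
  have h4 := hY.E_eM_le hv hq' hN'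
  have h5 : (Y.E v fun σ => Y.E j fun η => Y.eD B v σ η) ≤ 3 * K ^ 3 * B * Y.H v N :=
    Y.doeb hY hv (by omega) (by omega)
  have h6 : (Y.E v fun σ => Y.E j' fun η => Y.eD B v σ η) ≤ 3 * K ^ 3 * B * Y.H v N :=
    Y.doeb hY hv (by omega) (by omega)
  have h5' := mul_le_mul_of_nonneg_left h5 hK0.le
  have h6' := mul_le_mul_of_nonneg_left h6 hK0.le
  have g1 : K ^ 2 ≤ K ^ 4 * B := by
    have e1 : K ^ 2 ≤ K ^ 4 := pow_le_pow_right₀ hK (by norm_num)
    have e2 : K ^ 4 * 1 ≤ K ^ 4 * B := mul_le_mul_of_nonneg_left hB (by positivity)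
    linarith
  have g2 : K ^ 2 * B ≤ K ^ 4 * B :=
    mul_le_mul_of_nonneg_right (pow_le_pow_right₀ hK (by norm_num)) hB0.le
  have g1' := mul_le_mul_of_nonneg_right g1 hH
  have g2' := mul_le_mul_of_nonneg_right g2 hH
  have g3 : K * (3 * K ^ 3 * B * Y.H v N) = 3 * (K ^ 4 * B * Y.H v N) := by ring
  have g4 : 12 * K ^ 4 * B * Y.H v N = 12 * (K ^ 4 * B * Y.H v N) := by ring
  have g5 : 2 * K ^ 2 * B * Y.H v N = 2 * (K ^ 2 * B * Y.H v N) := by ring
  rw [g3] at h5' h6'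
  rw [g4]
  rw [g5] at h3 h4
  linarith

end Sys

end Pool.Agent.Bub4
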