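import Pool.Agent.Bub4.Mom
import Pool.Agent.Bub4.Summ

/-!
# Volume argument in dimension four
-/

set_option autoImplicit false

namespace Pool.Agent.Bub4

open Finset

namespace Sys

/-- the coordinates -/
def coord {d : ℕ} (i : Fin d) : (Fin d → ℤ) →+ ℝ :=
  (Int.castAddHom ℝ).comp (Pi.evalAddMonoidHom (fun _ : Fin d => ℤ) i)

namespace VolAux

theorem coord_apply {d : ℕ} (i : Fin d) (x : Fin d → ℤ) : coord i x = (x i : ℝ) := rfl

theorem sum_dl_le (Q : Finset (Fin 4 → ℤ)) (u w : Fin 4 → ℤ) :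
    ∑ x ∈ Q, dl (u - x) * dl (w - x) ≤ dl (u - w) := by
  classical
  by_cases h : u = w
  · subst h
    rw [sub_self, dl_zero]
    have h1 : ∀ x ∈ Q, dl (u - x) * dl (u - x) = if u = x then (1 : ℝ) else 0 := by
      intro x _
      by_cases hx : u = x
      · subst hx
        simp
      · rw [dl_of_ne (sub_ne_zero.2 hx), if_neg hx, zero_mul]
    rw [Finset.sum_congr rfl h1, Finset.sum_ite_eq]
    split_ifs <;> norm_num
  · have h1 : ∀ x ∈ Q, dl (u - x) * dl (w - x) = 0 := by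
      intro x _
      by_cases hx : u = x
      · subst hx
        rw [dl_of_ne (x := w - u) (sub_ne_zero.2 (Ne.symm h)), mul_zero]
      · rw [dl_of_ne (sub_ne_zero.2 hx), zero_mul]
    rw [Finset.sum_eq_zero h1]
    exact dl_nonneg _

variable {S : Type} [Fintype S] (Y : Sys S (Fin 4 → ℤ))

/-- the weight of the words ending at `x` -/
noncomputable def G (I : Finset ℕ) (x : Fin 4 → ℤ) : ℝ :=
  ∑ s ∈ I, Y.E s fun u => Y.sv u * dl (Y.sm u - x)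

theorem sum_G_sq (I : Finset ℕ) (Q : Finset (Fin 4 → ℤ)) :
    ∑ x ∈ Q, G Y I x ^ 2 ≤ ∑ s ∈ I, ∑ t ∈ I, Y.b s t := by
  have h1 : ∀ x, G Y I x ^ 2 = ∑ s ∈ I, ∑ t ∈ I, Y.E s fun u => Y.E t fun w =>
      Y.sv u * Y.sv w * (dl (Y.sm u - x) * dl (Y.sm w - x)) := by
    intro x
    unfold G
    rw [pow_two, Finset.sum_mul_sum]
    refine Finset.sum_congr rfl fun s _ => Finset.sum_congr rfl fun t _ => ?_
    rw [← E_mul_right]
    refine Y.E_congr fun u _ => ?_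
    rw [← E_mul_left]
    refine Y.E_congr fun w _ => ?_
    ring
  simp only [h1]
  rw [Finset.sum_comm]
  refine Finset.sum_le_sum fun s _ => ?_
  rw [Finset.sum_comm]
  refine Finset.sum_le_sum fun t _ => ?_
  rw [b_eq_sub, ← E_fsum]
  refine Y.E_mono fun u _ => ?_
  rw [← E_fsum]
  refine Y.E_mono fun w _ => ?_
  rw [← Finset.mul_sum]
  exact mul_le_mul_of_nonneg_left (sum_dl_le Q _ _) (mul_nonneg (Y.sv_nonneg _) (Y.sv_nonneg _))

/-- the box of radius `R` -/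
noncomputable def cube (R : ℕ) : Finset (Fin 4 → ℤ) := Fintype.piFinset fun _ => Finset.Icc (-(R : ℤ)) R

theorem card_cube (R : ℕ) : (cube R).card = (2 * R + 1) ^ 4 := by
  unfold cube
  rw [Fintype.card_piFinset]
  simp only [Int.card_Icc, Finset.prod_const, Finset.card_univ, Fintype.card_fin]
  congr 1
  omega

theorem cube_lower (R : ℕ) (hR : 1 ≤ R) (y : Fin 4 → ℤ) :
    1 - ∑ i : Fin 4, ((y i : ℝ)) ^ 2 / (R : ℝ) ^ 2 ≤ ∑ x ∈ cube R, dl (y - x) := by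
  classical
  have hR' : (0 : ℝ) < (R : ℝ) ^ 2 := by
    have : (0 : ℝ) < R := by exact_mod_cast hR
    positivity
  by_cases hy : y ∈ cube R
  · have h1 : (1 : ℝ) ≤ ∑ x ∈ cube R, dl (y - x) := by
      have h2 := Finset.single_le_sum (f := fun x => dl (y - x)) (s := cube R)
        (fun x _ => dl_nonneg _) hy
      simpa using h2
    have h2 : 0 ≤ ∑ i : Fin 4, ((y i : ℝ)) ^ 2 / (R : ℝ) ^ 2 :=
      Finset.sum_nonneg fun i _ => by positivity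
    linarith
  · have h0 : 0 ≤ ∑ x ∈ cube R, dl (y - x) := Finset.sum_nonneg fun x _ => dl_nonneg _
    have h1 : ∃ i, y i ∉ Finset.Icc (-(R : ℤ)) R := by
      by_contra hc
      push Not at hc
      exact hy (Fintype.mem_piFinset.2 hc)
    obtain ⟨i, hi⟩ := h1
    have h2 : (R : ℝ) ^ 2 ≤ (y i : ℝ) ^ 2 := by
      have h3 : (R : ℤ) ^ 2 ≤ (y i) ^ 2 := by
        rw [Finset.mem_Icc, not_and_or, not_le, not_le] at hi
        rcases hi with hi | hi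
        · nlinarith
        · nlinarith
      exact_mod_cast h3
    have h3 : 1 ≤ (y i : ℝ) ^ 2 / (R : ℝ) ^ 2 := by
      rw [le_div_iff₀ hR']; linarith
    have h4 : (y i : ℝ) ^ 2 / (R : ℝ) ^ 2 ≤ ∑ i : Fin 4, ((y i : ℝ)) ^ 2 / (R : ℝ) ^ 2 :=
      Finset.single_le_sum (f := fun i => ((y i : ℝ)) ^ 2 / (R : ℝ) ^ 2)
        (fun i _ => by positivity) (Finset.mem_univ i)
    linarith

theorem sum_G (I : Finset ℕ) (R : ℕ) (hR : 1 ≤ R) :
    ∑ s ∈ I, (Y.a s - ∑ i : Fin 4, Y.M (coord i) s / (R : ℝ) ^ 2) ≤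
      ∑ x ∈ cube R, G Y I x := by
  unfold G
  rw [Finset.sum_comm]
  refine Finset.sum_le_sum fun s _ => ?_
  rw [← E_fsum]
  have h1 : Y.a s - ∑ i : Fin 4, Y.M (coord i) s / (R : ℝ) ^ 2 =
      Y.E s fun u => Y.sv u * (1 - ∑ i : Fin 4, ((Y.sm u i : ℝ)) ^ 2 / (R : ℝ) ^ 2) := by
    have h2 : (fun u => Y.sv u * (1 - ∑ i : Fin 4, ((Y.sm u i : ℝ)) ^ 2 / (R : ℝ) ^ 2)) =
        fun u => Y.sv u - ∑ i : Fin 4, (Y.sv u * Y.X2 (coord i) u) * ((R : ℝ) ^ 2)⁻¹ := by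
      funext u
      rw [mul_sub, mul_one, Finset.mul_sum]
      congr 1
      refine Finset.sum_congr rfl fun i _ => ?_
      unfold X2
      rw [coord_apply]
      ring
    rw [h2, E_fsub, E_fsum]
    unfold a
    congr 1
    refine Finset.sum_congr rfl fun i _ => ?_
    rw [E_mul_right]
    unfold M
    ring
  rw [h1]
  refine Y.E_mono fun u _ => ?_
  rw [← Finset.mul_sum]
  exact mul_le_mul_of_nonneg_left (cube_lower R hR _) (Y.sv_nonneg _)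

end VolAux

open VolAux in
theorem vol {S : Type} [Fintype S] (Y : Sys S (Fin 4 → ℤ)) {K B : ℝ} (hY : Y.Crit K B)
    (h : ∀ i : Fin 4, ∃ C : ℝ, ∀ n : ℕ, Y.M (coord i) n ≤ C * n) : False := by
  choose C hC using h
  obtain ⟨C0, hC0, hC0'⟩ : ∃ C0 : ℝ, 0 ≤ C0 ∧ ∀ i n, Y.M (coord i) n ≤ C0 * n := by
    refine ⟨∑ i, |C i|, Finset.sum_nonneg fun i _ => abs_nonneg _, fun i n => ?_⟩
    refine (hC i n).trans (mul_le_mul_of_nonneg_right ?_ (Nat.cast_nonneg n))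
    exact (le_abs_self _).trans (Finset.single_le_sum (f := fun i => |C i|)
      (fun i _ => abs_nonneg _) (Finset.mem_univ i))
  obtain ⟨D0, hD0⟩ := exists_nat_ge (16 * C0)
  obtain ⟨D, hD1, hD2⟩ : ∃ D : ℕ, 1 ≤ D ∧ 16 * C0 ≤ (D : ℝ) ^ 2 := by
    refine ⟨D0 + 1, by omega, ?_⟩
    push_cast
    have : (0 : ℝ) ≤ D0 := Nat.cast_nonneg _
    nlinarith
  have hDpos : (0 : ℝ) < D := by exact_mod_cast hD1
  have hDone : (1 : ℝ) ≤ D := by exact_mod_cast hD1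
  -- the lower bound of the dyadic part at the scales 2ρ
  have key : ∀ ρ : ℕ, 1 / (324 * (D : ℝ) ^ 4) ≤ Y.gb (2 * ρ) := by
    intro ρ
    have hp : (0 : ℝ) < 2 ^ ρ := by positivity
    have hp1 : (1 : ℝ) ≤ 2 ^ ρ := one_le_pow₀ (by norm_num)
    have hR1 : 1 ≤ D * 2 ^ ρ := Nat.one_le_iff_ne_zero.2 (by positivity)
    have h1 := sum_G_sq Y (Finset.Ico (2 ^ (2 * ρ)) (2 ^ (2 * ρ + 1))) (cube (D * 2 ^ ρ))
    have h2 := sum_G Y (Finset.Ico (2 ^ (2 * ρ)) (2 ^ (2 * ρ + 1))) (D * 2 ^ ρ) hR1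
    have h3 := sq_sum_le_card_mul_sum_sq (s := cube (D * 2 ^ ρ))
      (f := G Y (Finset.Ico (2 ^ (2 * ρ)) (2 ^ (2 * ρ + 1))))
    rw [card_cube] at h3
    have h4 : ((2 : ℝ) ^ ρ) ^ 2 / 2 ≤ ∑ s ∈ Finset.Ico (2 ^ (2 * ρ)) (2 ^ (2 * ρ + 1)),
        (Y.a s - ∑ i : Fin 4, Y.M (coord i) s / ((D * 2 ^ ρ : ℕ) : ℝ) ^ 2) := by
      have h5 : ∀ s ∈ Finset.Ico (2 ^ (2 * ρ)) (2 ^ (2 * ρ + 1)), (1 / 2 : ℝ) ≤
          Y.a s - ∑ i : Fin 4, Y.M (coord i) s / ((D * 2 ^ ρ : ℕ) : ℝ) ^ 2 := by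
        intro s hs
        rw [Finset.mem_Ico] at hs
        have h6 : (s : ℝ) ≤ 2 * (2 ^ ρ) ^ 2 := by
          have : s ≤ 2 * (2 ^ ρ) ^ 2 := by
            have e : 2 ^ (2 * ρ + 1) = 2 * (2 ^ ρ) ^ 2 := by rw [← pow_mul]; ring
            omega
          exact_mod_cast this
        have h7 : ∀ i : Fin 4, Y.M (coord i) s / ((D * 2 ^ ρ : ℕ) : ℝ) ^ 2 ≤ 1 / 8 := by
          intro i
          rw [div_le_iff₀ (by push_cast; positivity)]
          push_cast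
          have h8 := hC0' i s
          have h9 : C0 * s ≤ C0 * (2 * (2 ^ ρ) ^ 2) := mul_le_mul_of_nonneg_left h6 hC0
          have h10 : 16 * C0 * (2 ^ ρ) ^ 2 ≤ (D : ℝ) ^ 2 * (2 ^ ρ) ^ 2 :=
            mul_le_mul_of_nonneg_right hD2 (by positivity)
          nlinarith
        have h8 : ∑ i : Fin 4, Y.M (coord i) s / ((D * 2 ^ ρ : ℕ) : ℝ) ^ 2 ≤
            ∑ _i : Fin 4, (1 / 8 : ℝ) := Finset.sum_le_sum fun i _ => h7 i
        rw [Finset.sum_const, Finset.card_univ, Fintype.card_fin, nsmul_eq_mul] at h8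
        have h9 := hY.a_ge s
        have h10 : ((4 : ℕ) : ℝ) * (1 / 8) = 1 / 2 := by norm_num
        rw [h10] at h8
        linarith
      have h6 := Finset.sum_le_sum h5
      rw [Finset.sum_const, Nat.card_Ico, nsmul_eq_mul] at h6
      refine le_trans (le_of_eq ?_) h6
      have e : 2 ^ (2 * ρ + 1) - 2 ^ (2 * ρ) = (2 ^ ρ) ^ 2 := by
        rw [← pow_mul, pow_succ, mul_comm ρ 2]; omega
      rw [e]
      push_cast
      ring
    have h5 : (((2 : ℝ) ^ ρ) ^ 2 / 2) ^ 2 ≤ (((2 * (D * 2 ^ ρ) + 1) ^ 4 : ℕ) : ℝ) * Y.gb (2 * ρ) := by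
      have h6 : (((2 : ℝ) ^ ρ) ^ 2 / 2) ^ 2 ≤
          (∑ x ∈ cube (D * 2 ^ ρ), G Y (Finset.Ico (2 ^ (2 * ρ)) (2 ^ (2 * ρ + 1))) x) ^ 2 :=
        pow_le_pow_left₀ (by positivity) (h4.trans h2) 2
      refine h6.trans (h3.trans ?_)
      exact mul_le_mul_of_nonneg_left h1 (Nat.cast_nonneg _)
    push_cast at h5
    have hgb := Y.gb_nonneg (2 * ρ)
    have h6 : (2 * ((D : ℝ) * 2 ^ ρ) + 1) ^ 4 ≤ (3 * (D * 2 ^ ρ)) ^ 4 := by
      refine pow_le_pow_left₀ (by positivity) ?_ 4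
      nlinarith
    have h7 : (((2 : ℝ) ^ ρ) ^ 2 / 2) ^ 2 ≤ (3 * ((D : ℝ) * 2 ^ ρ)) ^ 4 * Y.gb (2 * ρ) :=
      h5.trans (mul_le_mul_of_nonneg_right h6 hgb)
    rw [div_le_iff₀ (by positivity)]
    have h8 : (((2 : ℝ) ^ ρ) ^ 2 / 2) ^ 2 = ((2 : ℝ) ^ ρ) ^ 4 * (1 / 4) := by ring
    have h9 : (3 * ((D : ℝ) * 2 ^ ρ)) ^ 4 * Y.gb (2 * ρ) =
        ((2 : ℝ) ^ ρ) ^ 4 * (81 * (D : ℝ) ^ 4 * Y.gb (2 * ρ)) := by ring
    rw [h8, h9] at h7
    have h10 := le_of_mul_le_mul_left h7 (by positivity)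
    linarith
  -- contradiction
  have hc : 0 < 1 / (324 * (D : ℝ) ^ 4) := by positivity
  obtain ⟨n, hn⟩ := exists_nat_gt (B / (1 / (324 * (D : ℝ) ^ 4)))
  rw [div_lt_iff₀ hc] at hn
  have h1 := Y.gb_sum_le hY (2 * n)
  have h2 : ∑ ρ ∈ range n, Y.gb (2 * ρ) ≤ ∑ r ∈ range (2 * n), Y.gb r := by
    have h3 : ∑ ρ ∈ range n, Y.gb (2 * ρ) =
        ∑ r ∈ (range n).map ⟨fun ρ => 2 * ρ, fun a b hab => by simpa using hab⟩, Y.gb r := by
      rw [Finset.sum_map]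
      rfl
    rw [h3]
    refine Finset.sum_le_sum_of_subset_of_nonneg ?_ fun r _ _ => Y.gb_nonneg r
    intro r hr
    rw [Finset.mem_map] at hr
    obtain ⟨ρ, hρ, rfl⟩ := hr
    rw [Finset.mem_range] at hρ ⊢
    show 2 * ρ < 2 * n
    omega
  have h3 : ∑ _ρ ∈ range n, 1 / (324 * (D : ℝ) ^ 4) ≤ ∑ ρ ∈ range n, Y.gb (2 * ρ) :=
    Finset.sum_le_sum fun ρ _ => key ρ
  rw [Finset.sum_const, Finset.card_range, nsmul_eq_mul] at h3
  linarith

end Sys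

end Pool.Agent.Bub4
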