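import Pool.Agent.Bub4.Defs

/-!
# Basic facts on laws, weighted sums over words, self-avoiding words
-/

set_option autoImplicit false

namespace Pool.Agent.Bub4

open Finset

section dl

variable {V : Type} [AddCommGroup V]

theorem dl_nonneg (x : V) : 0 ≤ dl x := by unfold dl; split_ifs <;> norm_num

theorem dl_le_one (x : V) : dl x ≤ 1 := by unfold dl; split_ifs <;> norm_num

@[simp] theorem dl_zero : dl (0 : V) = 1 := by simp [dl]

theorem dl_of_ne {x : V} (h : x ≠ 0) : dl x = 0 := by simp [dl, h]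

theorem dl_of_eq {x : V} (h : x = 0) : dl x = 1 := by simp [dl, h]

@[simp] theorem dl_neg (x : V) : dl (-x) = dl x := by
  by_cases h : x = 0
  · simp [h]
  · rw [dl_of_ne h, dl_of_ne (neg_ne_zero.2 h)]

theorem dl_sub_comm (x y : V) : dl (x - y) = dl (y - x) := by rw [← dl_neg, neg_sub]

/-- `f x * dl (x + y) = f (-y) * dl (x + y)` -/
theorem dl_subst (f : V → ℝ) (x y : V) : f x * dl (x + y) = f (-y) * dl (x + y) := by
  unfold dl
  split_ifs with h
  · rw [eq_neg_of_add_eq_zero_left h]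
  · simp

end dl

namespace Law

variable (p q : Law)

theorem card_pos : (0 : ℝ) < Fintype.card p.ι := by exact_mod_cast Fintype.card_pos

theorem ex_const (c : ℝ) : p.ex (fun _ => c) = c := by
  have := p.card_pos
  simp only [ex, Finset.sum_const, Finset.card_univ, nsmul_eq_mul]
  field_simp

theorem ex_add (f g : ℕ → ℝ) : p.ex (fun m => f m + g m) = p.ex f + p.ex g := by
  simp only [ex, Finset.sum_add_distrib, mul_add]

theorem ex_sub (f g : ℕ → ℝ) : p.ex (fun m => f m - g m) = p.ex f - p.ex g := by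
  simp only [ex, Finset.sum_sub_distrib, mul_sub]

theorem ex_mul_left (c : ℝ) (f : ℕ → ℝ) : p.ex (fun m => c * f m) = c * p.ex f := by
  simp only [ex, ← Finset.mul_sum]; ring

theorem ex_mul_right (c : ℝ) (f : ℕ → ℝ) : p.ex (fun m => f m * c) = p.ex f * c := by
  simp only [ex, ← Finset.sum_mul]; ring

theorem ex_neg (f : ℕ → ℝ) : p.ex (fun m => - f m) = - p.ex f := by
  simp only [ex, Finset.sum_neg_distrib, mul_neg]

theorem ex_sum {ι : Type} (s : Finset ι) (f : ι → ℕ → ℝ) :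
    p.ex (fun m => ∑ i ∈ s, f i m) = ∑ i ∈ s, p.ex (f i) := by
  simp only [ex]
  rw [Finset.sum_comm, Finset.mul_sum]

theorem ex_mono' {f g : ℕ → ℝ} (h : ∀ i, f (p.len i) ≤ g (p.len i)) : p.ex f ≤ p.ex g := by
  unfold ex
  refine mul_le_mul_of_nonneg_left (Finset.sum_le_sum fun i _ => h i) ?_
  exact inv_nonneg.2 p.card_pos.le

theorem ex_mono {f g : ℕ → ℝ} (h : ∀ m, f m ≤ g m) : p.ex f ≤ p.ex g := p.ex_mono' fun _ => h _

theorem ex_congr' {f g : ℕ → ℝ} (h : ∀ i, f (p.len i) = g (p.len i)) : p.ex f = p.ex g := by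
  unfold ex
  rw [Finset.sum_congr rfl fun i _ => h i]

theorem ex_congr {f g : ℕ → ℝ} (h : ∀ m, f m = g m) : p.ex f = p.ex g := p.ex_congr' fun _ => h _

theorem ex_nonneg' {f : ℕ → ℝ} (h : ∀ i, 0 ≤ f (p.len i)) : 0 ≤ p.ex f := by
  unfold ex
  exact mul_nonneg (inv_nonneg.2 p.card_pos.le) (Finset.sum_nonneg fun i _ => h i)

theorem ex_nonneg {f : ℕ → ℝ} (h : ∀ m, 0 ≤ f m) : 0 ≤ p.ex f := p.ex_nonneg' fun _ => h _

theorem ex_le' {f : ℕ → ℝ} {c : ℝ} (h : ∀ i, f (p.len i) ≤ c) : p.ex f ≤ c := by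
  have := p.ex_mono' (f := f) (g := fun _ => c) h
  rwa [ex_const] at this

theorem le_ex' {f : ℕ → ℝ} {c : ℝ} (h : ∀ i, c ≤ f (p.len i)) : c ≤ p.ex f := by
  have := p.ex_mono' (f := fun _ => c) (g := f) h
  rwa [ex_const] at this

theorem ex_le {f : ℕ → ℝ} {c : ℝ} (h : ∀ m, f m ≤ c) : p.ex f ≤ c := p.ex_le' fun _ => h _

theorem le_ex {f : ℕ → ℝ} {c : ℝ} (h : ∀ m, c ≤ f m) : c ≤ p.ex f := p.le_ex' fun _ => h _

theorem abs_ex (f : ℕ → ℝ) : |p.ex f| ≤ p.ex fun m => |f m| := by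
  rw [abs_le]
  constructor
  · rw [← ex_neg]
    exact p.ex_mono fun m => neg_abs_le _
  · exact p.ex_mono fun m => le_abs_self _

theorem ex_comm (f : ℕ → ℕ → ℝ) :
    p.ex (fun m => q.ex fun n => f m n) = q.ex fun n => p.ex fun m => f m n := by
  simp only [ex, Finset.mul_sum]
  rw [Finset.sum_comm]
  refine Finset.sum_congr rfl fun i _ => Finset.sum_congr rfl fun j _ => ?_
  ring

theorem ex_conv (f : ℕ → ℝ) : (p.conv q).ex f = p.ex fun m => q.ex fun n => f (m + n) := by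
  have h1 : (p.conv q).ex f = (Fintype.card (p.ι × q.ι) : ℝ)⁻¹ *
      ∑ i : p.ι × q.ι, f (p.len i.1 + q.len i.2) := rfl
  rw [h1]
  simp only [ex, Finset.mul_sum]
  rw [Fintype.sum_prod_type]
  refine Finset.sum_congr rfl fun i _ => Finset.sum_congr rfl fun j _ => ?_
  rw [Fintype.card_prod, Nat.cast_mul, mul_inv]
  ring

@[simp] theorem ex_dirac (n : ℕ) (f : ℕ → ℝ) : (dirac n).ex f = f n := by
  simp [ex, dirac]

theorem ex_unif (x y : ℕ) (f : ℕ → ℝ) :
    (unif x y).ex f = ((y : ℝ) + 1)⁻¹ * ∑ i ∈ range (y + 1), f (x + i) := by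
  have h1 : (unif x y).ex f = (Fintype.card (Fin (y + 1)) : ℝ)⁻¹ *
      ∑ i : Fin (y + 1), f (x + i) := rfl
  rw [h1, Finset.sum_range, Fintype.card_fin]
  push_cast
  rfl

theorem mul_ex (f g : ℕ → ℝ) : p.ex f * q.ex g = p.ex fun m => q.ex fun n => f m * g n := by
  rw [← ex_mul_right]
  exact p.ex_congr fun m => (q.ex_mul_left _ _).symm

variable {p q}

theorem Le.mono {M N : ℕ} (h : p.Le M) (h' : M ≤ N) : p.Le N := fun i => (h i).trans h'

theorem Le.conv {M N : ℕ} (h : p.Le M) (h' : q.Le N) : (p.conv q).Le (M + N) := fun i =>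
  Nat.add_le_add (h i.1) (h' i.2)

theorem le_dirac {n N : ℕ} (h : n ≤ N) : (dirac n).Le N := fun _ => h

theorem le_unif {x y N : ℕ} (h : x + y ≤ N) : (unif x y).Le N := by
  intro (i : Fin (y + 1))
  have h1 : (i : ℕ) < y + 1 := i.is_lt
  show x + (i : ℕ) ≤ N
  omega

theorem Dens.mono {D D' : ℝ} (h : p.Dens D) (h' : D ≤ D') : p.Dens D' := fun f N hf hN =>
  (h f N hf hN).trans (mul_le_mul_of_nonneg_right h' (Finset.sum_nonneg fun m _ => hf m))

theorem Dens.conv_left {D : ℝ} (hD : 0 ≤ D) (h : p.Dens D) : (p.conv q).Dens D := by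
  intro f N hf hN
  rw [ex_conv, ex_comm]
  refine q.ex_le' fun j => ?_
  have hle : p.Le (N - q.len j) := fun i => by
    have : p.len i + q.len j ≤ N := hN (i, j)
    omega
  refine (h (fun m => f (m + q.len j)) _ (fun m => hf _) hle).trans ?_
  refine mul_le_mul_of_nonneg_left ?_ hD
  have hj : q.len j ≤ N := by
    obtain ⟨i⟩ := p.ne
    have : p.len i + q.len j ≤ N := hN (i, j)
    omega
  have e1 : ∑ m ∈ range (N - q.len j + 1), f (m + q.len j) =
      ∑ m ∈ (range (N - q.len j + 1)).map (addRightEmbedding (q.len j)), f m := by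
    rw [Finset.sum_map]; rfl
  rw [e1]
  refine Finset.sum_le_sum_of_subset_of_nonneg ?_ fun m _ _ => hf m
  intro m hm
  rw [Finset.mem_map] at hm
  obtain ⟨a, ha, rfl⟩ := hm
  rw [Finset.mem_range] at ha ⊢
  simp only [addRightEmbedding_apply]
  omega

theorem Dens.conv_right {D : ℝ} (hD : 0 ≤ D) (h : q.Dens D) : (p.conv q).Dens D := by
  intro f N hf hN
  have h1 : (p.conv q).ex f = (q.conv p).ex f := by
    rw [ex_conv, ex_conv, ex_comm]
    simp only [Nat.add_comm]
  rw [h1]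
  refine Dens.conv_left hD h f N hf fun i => ?_
  have : p.len i.2 + q.len i.1 ≤ N := hN (i.2, i.1)
  show q.len i.1 + p.len i.2 ≤ N
  omega

theorem dens_unif (x y : ℕ) : (unif x y).Dens (((y : ℝ) + 1)⁻¹) := by
  intro f N hf hN
  rw [ex_unif]
  have hy : (0 : ℝ) ≤ ((y : ℝ) + 1)⁻¹ := by positivity
  refine mul_le_mul_of_nonneg_left ?_ hy
  have hxy : x + y ≤ N := by
    have := hN (Fin.last y)
    simpa [unif] using this
  have e1 : ∑ i ∈ range (y + 1), f (x + i) =
      ∑ m ∈ (range (y + 1)).map (addLeftEmbedding x), f m := by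
    rw [Finset.sum_map]; rfl
  rw [e1]
  refine Finset.sum_le_sum_of_subset_of_nonneg ?_ fun m _ _ => hf m
  intro m hm
  rw [Finset.mem_map] at hm
  obtain ⟨a, ha, rfl⟩ := hm
  rw [Finset.mem_range] at ha ⊢
  simp only [addLeftEmbedding_apply]
  omega

theorem dens_dirac (n : ℕ) : (dirac n).Dens 1 := by
  intro f N hf hN
  rw [ex_dirac, one_mul]
  have hn : n ≤ N := hN ()
  exact Finset.single_le_sum (f := f) (fun m _ => hf m) (Finset.mem_range.2 (by omega))

end Law

namespace Sys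

variable {S V : Type} [Fintype S] [AddCommGroup V] (Y : Sys S V)

/-! ### The functional `E` -/

@[simp] theorem E_zero (F : List S → ℝ) : Y.E 0 F = F [] := rfl

theorem E_succ (n : ℕ) (F : List S → ℝ) :
    Y.E (n + 1) F = Y.z * ∑ s, Y.E n (fun w => F (s :: w)) := rfl

theorem E_mono {n : ℕ} {F G : List S → ℝ} (h : ∀ w, w.length = n → F w ≤ G w) :
    Y.E n F ≤ Y.E n G := by
  induction n generalizing F G with
  | zero => exact h [] rfl
  | succ n ih =>
    rw [E_succ, E_succ]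
    refine mul_le_mul_of_nonneg_left (Finset.sum_le_sum fun s _ => ih fun w hw => ?_) Y.z_pos.le
    exact h (s :: w) (by simp [hw])

theorem E_congr {n : ℕ} {F G : List S → ℝ} (h : ∀ w, w.length = n → F w = G w) :
    Y.E n F = Y.E n G :=
  le_antisymm (Y.E_mono fun w hw => (h w hw).le) (Y.E_mono fun w hw => (h w hw).ge)

@[simp] theorem E_zero_fun (n : ℕ) : Y.E n (fun _ => 0) = 0 := by
  induction n with
  | zero => rfl
  | succ n ih => rw [E_succ]; simp [ih]

theorem E_nonneg {n : ℕ} {F : List S → ℝ} (h : ∀ w, w.length = n → 0 ≤ F w) : 0 ≤ Y.E n F := by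
  have := Y.E_mono (n := n) (F := fun _ => 0) (G := F) h
  rwa [E_zero_fun] at this

theorem E_nonneg' {n : ℕ} {F : List S → ℝ} (h : ∀ w, 0 ≤ F w) : 0 ≤ Y.E n F :=
  Y.E_nonneg fun w _ => h w

theorem E_mul_left (n : ℕ) (c : ℝ) (F : List S → ℝ) :
    Y.E n (fun w => c * F w) = c * Y.E n F := by
  induction n generalizing F with
  | zero => rfl
  | succ n ih =>
    rw [E_succ, E_succ]
    simp only [ih, ← Finset.mul_sum]
    ring

theorem E_mul_right (n : ℕ) (c : ℝ) (F : List S → ℝ) :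
    Y.E n (fun w => F w * c) = Y.E n F * c := by
  simp only [mul_comm _ c, E_mul_left]

theorem E_fadd (n : ℕ) (F G : List S → ℝ) :
    Y.E n (fun w => F w + G w) = Y.E n F + Y.E n G := by
  induction n generalizing F G with
  | zero => rfl
  | succ n ih =>
    rw [E_succ, E_succ, E_succ]
    simp only [ih, Finset.sum_add_distrib]
    ring

theorem E_fneg (n : ℕ) (F : List S → ℝ) : Y.E n (fun w => - F w) = - Y.E n F := by
  have := Y.E_mul_left n (-1) F
  simpa using this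

theorem E_fsub (n : ℕ) (F G : List S → ℝ) :
    Y.E n (fun w => F w - G w) = Y.E n F - Y.E n G := by
  simp only [sub_eq_add_neg, E_fadd, E_fneg]

theorem E_fsum {ι : Type} (n : ℕ) (s : Finset ι) (F : ι → List S → ℝ) :
    Y.E n (fun w => ∑ i ∈ s, F i w) = ∑ i ∈ s, Y.E n (F i) := by
  classical
  induction s using Finset.induction_on with
  | empty => simp
  | insert a s ha ih => simp only [Finset.sum_insert ha, E_fadd, ih]

theorem E_abs (n : ℕ) (F : List S → ℝ) : |Y.E n F| ≤ Y.E n fun w => |F w| := by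
  rw [abs_le]
  constructor
  · rw [← E_fneg]
    exact Y.E_mono fun w _ => neg_abs_le _
  · exact Y.E_mono fun w _ => le_abs_self _

theorem E_ex (n : ℕ) (p : Law) (F : List S → ℕ → ℝ) :
    Y.E n (fun w => p.ex (F w)) = p.ex fun m => Y.E n fun w => F w m := by
  simp only [Law.ex, E_mul_left, E_fsum]

/-- concatenation -/
theorem E_add (m n : ℕ) (F : List S → ℝ) :
    Y.E (m + n) F = Y.E m fun u => Y.E n fun w => F (u ++ w) := by
  induction m generalizing F with
  | zero => simp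
  | succ m ih =>
    rw [show m + 1 + n = (m + n) + 1 by ring, E_succ, E_succ]
    simp only [ih, List.cons_append]

theorem E_fsum_univ {ι : Type} [Fintype ι] (n : ℕ) (F : ι → List S → ℝ) :
    Y.E n (fun w => ∑ i, F i w) = ∑ i, Y.E n (F i) := Y.E_fsum n Finset.univ F

/-- Fubini -/
theorem E_comm (m n : ℕ) (F : List S → List S → ℝ) :
    Y.E m (fun u => Y.E n fun w => F u w) = Y.E n fun w => Y.E m fun u => F u w := by
  induction m generalizing F with
  | zero => rfl
  | succ m ih =>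
    simp only [E_succ, E_mul_left, E_fsum_univ]
    congr 1
    exact Finset.sum_congr rfl fun s _ => ih fun u w => F (s :: u) w

/-- the last letter -/
theorem E_succ' (n : ℕ) (F : List S → ℝ) :
    Y.E (n + 1) F = Y.z * ∑ s, Y.E n (fun w => F (w ++ [s])) := by
  rw [E_add]
  simp only [E_succ, E_zero, E_mul_left, E_fsum_univ]

theorem E_reverse (n : ℕ) (F : List S → ℝ) : Y.E n (fun w => F w.reverse) = Y.E n F := by
  induction n generalizing F with
  | zero => rfl
  | succ n ih =>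
    rw [E_succ, E_succ']
    congr 1
    refine Finset.sum_congr rfl fun s _ => ?_
    rw [← ih (fun w => F (w ++ [s]))]
    simp only [List.reverse_cons]

theorem E_neg (n : ℕ) (F : List S → ℝ) : Y.E n (fun w => F (w.map Y.neg)) = Y.E n F := by
  induction n generalizing F with
  | zero => rfl
  | succ n ih =>
    rw [E_succ, E_succ]
    congr 1
    simp only [List.map_cons]
    have h1 : ∀ s, Y.E n (fun w => F (Y.neg s :: w.map Y.neg)) = Y.E n (fun w => F (Y.neg s :: w)) :=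
      fun s => ih (fun w => F (Y.neg s :: w))
    simp only [h1]
    exact Fintype.sum_bijective Y.neg (Function.Involutive.bijective Y.neg_neg) _ _ fun s => rfl

/-- `E` as a finite sum -/
theorem E_eq (n : ℕ) (F : List S → ℝ) :
    Y.E n F = ∑ w : Fin n → S, Y.z ^ n * F (List.ofFn w) := by
  induction n generalizing F with
  | zero => simp
  | succ n ih =>
    rw [E_succ]
    simp only [ih]
    rw [← Equiv.sum_comp (Fin.consEquiv fun _ : Fin (n + 1) => S)]
    rw [Fintype.sum_prod_type, Finset.mul_sum]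
    refine Finset.sum_congr rfl fun s _ => ?_
    rw [Finset.mul_sum]
    refine Finset.sum_congr rfl fun w _ => ?_
    have h1 : List.ofFn ((Fin.consEquiv fun _ : Fin (n + 1) => S) (s, w)) = s :: List.ofFn w := by
      simp [Fin.consEquiv, List.ofFn_succ]
    rw [h1]
    ring

/-! ### Displacements and self-avoidance -/

@[simp] theorem sm_nil : Y.sm [] = 0 := rfl

@[simp] theorem sm_append (u w : List S) : Y.sm (u ++ w) = Y.sm u + Y.sm w := by
  simp [sm]

@[simp] theorem sm_cons (s : S) (w : List S) : Y.sm (s :: w) = Y.vec s + Y.sm w := by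
  simp [sm]

@[simp] theorem sm_reverse (u : List S) : Y.sm u.reverse = Y.sm u := by
  simp [sm, List.sum_reverse]

@[simp] theorem sm_neg (u : List S) : Y.sm (u.map Y.neg) = - Y.sm u := by
  induction u with
  | nil => simp
  | cons s u ih => simp only [List.map_cons, sm_cons, ih, Y.vec_neg]; abel

variable {Y}

theorem Saw.fac {u w : List S} (h : Y.Saw w) (h' : u <:+: w) : Y.Saw u := fun b hb hb' =>
  h b (hb.trans h') hb'

variable (Y)

theorem Saw_nil : Y.Saw [] := fun _ hb hb' => absurd (List.infix_nil.1 hb) hb'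

theorem Saw_reverse_iff {w : List S} : Y.Saw w.reverse ↔ Y.Saw w := by
  have key : ∀ w : List S, Y.Saw w → Y.Saw w.reverse := by
    intro w h b hb hb'
    have h1 : b.reverse <:+: w := by
      have := List.reverse_infix.2 hb
      rwa [List.reverse_reverse] at this
    have h2 := h b.reverse h1 (by simpa using hb')
    rwa [sm_reverse] at h2
  refine ⟨fun h => ?_, key w⟩
  have := key _ h
  rwa [List.reverse_reverse] at this

theorem Saw_neg_iff {w : List S} : Y.Saw (w.map Y.neg) ↔ Y.Saw w := by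
  have hnn : ∀ w : List S, (w.map Y.neg).map Y.neg = w := by
    intro w
    simp [List.map_map, Function.comp_def, Y.neg_neg]
  have key : ∀ w : List S, Y.Saw w → Y.Saw (w.map Y.neg) := by
    intro w h b hb hb'
    have h1 : b.map Y.neg <:+: w := by
      have := hb.map Y.neg
      rwa [hnn] at this
    have h2 := h (b.map Y.neg) h1 (by simpa using hb')
    rw [sm_neg] at h2
    simpa using h2
  refine ⟨fun h => ?_, key w⟩
  have := key _ h
  rwa [hnn] at this

theorem sv_nonneg (w : List S) : 0 ≤ Y.sv w := by unfold sv; split_ifs <;> norm_num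

theorem sv_le_one (w : List S) : Y.sv w ≤ 1 := by unfold sv; split_ifs <;> norm_num

theorem sv_of {w : List S} (h : Y.Saw w) : Y.sv w = 1 := by simp [sv, h]

theorem sv_of_not {w : List S} (h : ¬ Y.Saw w) : Y.sv w = 0 := by simp [sv, h]

@[simp] theorem sv_nil : Y.sv [] = 1 := Y.sv_of Y.Saw_nil

theorem sv_mul_self (w : List S) : Y.sv w * Y.sv w = Y.sv w := by
  unfold sv; split_ifs <;> norm_num

theorem sv_infix {u w : List S} (h : u <:+: w) : Y.sv w ≤ Y.sv u := by
  by_cases hw : Y.Saw w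
  · rw [Y.sv_of hw, Y.sv_of (hw.fac h)]
  · rw [Y.sv_of_not hw]; exact Y.sv_nonneg _

/-- if `u` is a factor of `w` then `sv w = sv w * sv u` -/
theorem sv_mul_infix {u w : List S} (h : u <:+: w) : Y.sv w * Y.sv u = Y.sv w := by
  by_cases hw : Y.Saw w
  · rw [Y.sv_of hw, Y.sv_of (hw.fac h)]; norm_num
  · rw [Y.sv_of_not hw]; norm_num

theorem sv_append_left (u w : List S) : Y.sv (u ++ w) ≤ Y.sv u :=
  Y.sv_infix (List.prefix_append u w).isInfix

theorem sv_append_right (u w : List S) : Y.sv (u ++ w) ≤ Y.sv w :=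
  Y.sv_infix (List.suffix_append u w).isInfix

theorem sv_append_le (u w : List S) : Y.sv (u ++ w) ≤ Y.sv u * Y.sv w := by
  by_cases hw : Y.Saw (u ++ w)
  · rw [Y.sv_of hw, Y.sv_of (hw.fac (List.prefix_append u w).isInfix),
      Y.sv_of (hw.fac (List.suffix_append u w).isInfix)]
    norm_num
  · rw [Y.sv_of_not hw]
    exact mul_nonneg (Y.sv_nonneg _) (Y.sv_nonneg _)

@[simp] theorem sv_reverse (w : List S) : Y.sv w.reverse = Y.sv w := by
  by_cases h : Y.Saw w
  · rw [Y.sv_of h, Y.sv_of (Y.Saw_reverse_iff.2 h)]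
  · rw [Y.sv_of_not h, Y.sv_of_not (fun h' => h (Y.Saw_reverse_iff.1 h'))]

@[simp] theorem sv_neg (w : List S) : Y.sv (w.map Y.neg) = Y.sv w := by
  by_cases h : Y.Saw w
  · rw [Y.sv_of h, Y.sv_of (Y.Saw_neg_iff.2 h)]
  · rw [Y.sv_of_not h, Y.sv_of_not (fun h' => h (Y.Saw_neg_iff.1 h'))]

/-! ### The sequences `a`, `b` and the kernel `k` -/

theorem a_nonneg (n : ℕ) : 0 ≤ Y.a n := Y.E_nonneg' Y.sv_nonneg

theorem a_add_le (m n : ℕ) : Y.a (m + n) ≤ Y.a m * Y.a n := by
  unfold a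
  rw [E_add, ← E_mul_right]
  refine Y.E_mono fun u _ => ?_
  rw [← E_mul_left]
  exact Y.E_mono fun w _ => Y.sv_append_le u w

theorem b_nonneg (s t : ℕ) : 0 ≤ Y.b s t :=
  Y.E_nonneg' fun _ => Y.E_nonneg' fun _ =>
    mul_nonneg (mul_nonneg (Y.sv_nonneg _) (Y.sv_nonneg _)) (dl_nonneg _)

theorem b_comm (s t : ℕ) : Y.b s t = Y.b t s := by
  unfold b
  rw [E_comm]
  refine Y.E_congr fun w _ => Y.E_congr fun u _ => ?_
  rw [add_comm (Y.sm u), mul_comm (Y.sv u)]

/-- `b` in terms of differences -/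
theorem b_eq_sub (s t : ℕ) :
    Y.b s t = Y.E s fun u => Y.E t fun w => Y.sv u * Y.sv w * dl (Y.sm u - Y.sm w) := by
  unfold b
  refine Y.E_congr fun u _ => ?_
  rw [← Y.E_neg t (fun w => Y.sv u * Y.sv w * dl (Y.sm u + Y.sm w))]
  refine Y.E_congr fun w _ => ?_
  rw [sv_neg, sm_neg, sub_eq_add_neg]

theorem b_le (s t : ℕ) : Y.b s t ≤ Y.a s * Y.a t := by
  unfold b a
  rw [← E_mul_right]
  refine Y.E_mono fun u _ => ?_
  rw [← E_mul_left]
  refine Y.E_mono fun w _ => ?_
  have h1 := mul_nonneg (Y.sv_nonneg u) (Y.sv_nonneg w)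
  have h2 := dl_le_one (Y.sm u + Y.sm w)
  nlinarith

theorem k_nonneg (m : ℕ) (ξ η : List S) : 0 ≤ Y.k m ξ η := Y.E_nonneg' fun _ => Y.sv_nonneg _

theorem k_nil_nil (m : ℕ) : Y.k m [] [] = Y.a m := by
  unfold k a
  exact Y.E_congr fun γ _ => by simp

theorem k_le (m : ℕ) (ξ η : List S) : Y.k m ξ η ≤ Y.sv ξ * Y.a m * Y.sv η := by
  unfold k a
  rw [← E_mul_left, ← E_mul_right]
  refine Y.E_mono fun γ _ => ?_
  have h1 := Y.sv_append_le (ξ ++ γ) η
  have h2 := mul_le_mul_of_nonneg_right (Y.sv_append_le ξ γ) (Y.sv_nonneg η)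
  linarith

theorem k_le_left (m : ℕ) (ξ η : List S) : Y.k m ξ η ≤ Y.k m ξ [] := by
  unfold k
  refine Y.E_mono fun γ _ => ?_
  rw [List.append_nil]
  exact Y.sv_append_left _ _

theorem k_le_right (m : ℕ) (ξ η : List S) : Y.k m ξ η ≤ Y.k m [] η := by
  unfold k
  refine Y.E_mono fun γ _ => ?_
  rw [List.nil_append, List.append_assoc]
  exact Y.sv_append_right _ _

theorem k_reverse (m : ℕ) (ξ η : List S) : Y.k m ξ η = Y.k m η.reverse ξ.reverse := by
  unfold k
  rw [← Y.E_reverse m (fun γ => Y.sv (η.reverse ++ γ ++ ξ.reverse))]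
  refine Y.E_congr fun γ _ => ?_
  rw [← Y.sv_reverse (ξ ++ γ ++ η)]
  simp [List.append_assoc]

theorem k_neg (m : ℕ) (ξ η : List S) : Y.k m (ξ.map Y.neg) (η.map Y.neg) = Y.k m ξ η := by
  unfold k
  rw [← Y.E_neg m]
  refine Y.E_congr fun γ _ => ?_
  rw [← List.map_append, ← List.map_append, sv_neg]

/-- one factor of the gap moved to the column -/
theorem k_add (m n : ℕ) (ξ η : List S) :
    Y.k (m + n) ξ η = Y.E n fun γ => Y.k m ξ (γ ++ η) := by
  unfold k
  rw [E_add, E_comm]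
  refine Y.E_congr fun γ _ => Y.E_congr fun γ' _ => ?_
  simp [List.append_assoc]

/-- one factor of the gap moved to the row -/
theorem k_add' (m n : ℕ) (ξ η : List S) :
    Y.k (m + n) ξ η = Y.E m fun γ => Y.k n (ξ ++ γ) η := by
  unfold k
  rw [E_add]
  refine Y.E_congr fun γ _ => Y.E_congr fun γ' _ => ?_
  simp [List.append_assoc]

/-- summing over the column -/
theorem E_k_col (m n : ℕ) (ξ : List S) : Y.E n (fun η => Y.k m ξ η) = Y.k (m + n) ξ [] := by
  rw [k_add]
  simp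

/-- summing over the row -/
theorem E_k_row (m n : ℕ) (η : List S) : Y.E n (fun ξ => Y.k m ξ η) = Y.k (n + m) [] η := by
  rw [k_add']
  simp

/-- submultiplicativity -/
theorem k_add_le (m n : ℕ) (ξ : List S) : Y.k (m + n) ξ [] ≤ Y.k m ξ [] * Y.a n := by
  rw [k_add]
  unfold a
  rw [← E_mul_left]
  refine Y.E_mono fun γ _ => ?_
  rw [List.append_nil]
  unfold k
  rw [← E_mul_right]
  refine Y.E_mono fun γ' _ => ?_
  rw [List.append_nil]
  exact Y.sv_append_le _ _

theorem kk_nonneg (p : Law) (ξ η : List S) : 0 ≤ Y.kk p ξ η := p.ex_nonneg fun m => Y.k_nonneg m ξ η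

theorem kk_dirac (m : ℕ) (ξ η : List S) : Y.kk (Law.dirac m) ξ η = Y.k m ξ η := by
  simp [kk]

theorem k_zero (ξ η : List S) : Y.k 0 ξ η = Y.sv (ξ ++ η) := by simp [k]

theorem kk_reverse (p : Law) (ξ η : List S) : Y.kk p ξ η = Y.kk p η.reverse ξ.reverse :=
  p.ex_congr fun m => Y.k_reverse m ξ η

theorem kk_neg (p : Law) (ξ η : List S) : Y.kk p (ξ.map Y.neg) (η.map Y.neg) = Y.kk p ξ η :=
  p.ex_congr fun m => Y.k_neg m ξ η

theorem kk_le_left (p : Law) (ξ η : List S) : Y.kk p ξ η ≤ Y.kk p ξ [] :=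
  p.ex_mono fun m => Y.k_le_left m ξ η

theorem kk_le_right (p : Law) (ξ η : List S) : Y.kk p ξ η ≤ Y.kk p [] η :=
  p.ex_mono fun m => Y.k_le_right m ξ η

/-- part of the gap moved to the column -/
theorem kk_conv (p r : Law) (ξ η : List S) :
    Y.kk (p.conv r) ξ η = r.ex fun m => Y.E m fun γ => Y.kk p ξ (γ ++ η) := by
  unfold kk
  rw [Law.ex_conv, Law.ex_comm]
  refine r.ex_congr fun m => ?_
  rw [E_ex]
  exact p.ex_congr fun n => Y.k_add n m ξ η

/-- part of the gap moved to the row -/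
theorem kk_conv' (r p : Law) (ξ η : List S) :
    Y.kk (r.conv p) ξ η = r.ex fun m => Y.E m fun γ => Y.kk p (ξ ++ γ) η := by
  unfold kk
  rw [Law.ex_conv]
  refine r.ex_congr fun m => ?_
  rw [E_ex]
  exact p.ex_congr fun n => Y.k_add' m n ξ η

theorem kk_congr {p q : Law} (h : ∀ f : ℕ → ℝ, p.ex f = q.ex f) (ξ η : List S) :
    Y.kk p ξ η = Y.kk q ξ η := h _

theorem kk_eq_sv_mul (p : Law) (ξ η : List S) : Y.kk p ξ η = Y.sv ξ * Y.kk p ξ η * Y.sv η := by
  unfold kk
  rw [← Law.ex_mul_left, ← Law.ex_mul_right]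
  refine p.ex_congr fun m => ?_
  unfold k
  rw [← E_mul_left, ← E_mul_right]
  refine Y.E_congr fun γ _ => ?_
  have h1 : ξ <:+: ξ ++ γ ++ η := by
    rw [List.append_assoc]; exact (List.prefix_append _ _).isInfix
  have h2 : η <:+: ξ ++ γ ++ η := (List.suffix_append _ _).isInfix
  rw [mul_comm (Y.sv ξ), Y.sv_mul_infix h1, Y.sv_mul_infix h2]

theorem mn_reverse (p : Law) (ξ ξ' η η' : List S) :
    Y.mn p ξ ξ' η η' = Y.mn p η.reverse η'.reverse ξ.reverse ξ'.reverse := by
  unfold mn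
  rw [Y.kk_reverse p ξ η, Y.kk_reverse p ξ' η', Y.kk_reverse p ξ η', Y.kk_reverse p ξ' η]
  ring

theorem mn_swap_rows (p : Law) (ξ ξ' η η' : List S) : Y.mn p ξ' ξ η η' = - Y.mn p ξ ξ' η η' := by
  unfold mn; ring

theorem mn_swap_cols (p : Law) (ξ ξ' η η' : List S) : Y.mn p ξ ξ' η' η = - Y.mn p ξ ξ' η η' := by
  unfold mn; ring

section Crit

variable {Y} {K B : ℝ} (hY : Y.Crit K B)

include hY

theorem Crit.one_le_K : 1 ≤ K := (hY.a_ge 0).trans (hY.a_le 0)

theorem Crit.K_pos : 0 < K := lt_of_lt_of_le one_pos hY.one_le_K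

theorem Crit.one_le_B : 1 ≤ B := by
  have h := hY.b_le 1
  simpa [b] using h

theorem Crit.k_le (m : ℕ) (ξ η : List S) : Y.k m ξ η ≤ K * Y.sv ξ * Y.sv η := by
  refine (Y.k_le m ξ η).trans ?_
  have h1 := hY.a_le m
  have h2 := mul_nonneg (Y.sv_nonneg ξ) (Y.sv_nonneg η)
  nlinarith

theorem Crit.kk_le (p : Law) (ξ η : List S) : Y.kk p ξ η ≤ K * Y.sv ξ * Y.sv η :=
  p.ex_le fun m => hY.k_le m ξ η

theorem Crit.kk_le_K (p : Law) (ξ η : List S) : Y.kk p ξ η ≤ K := by
  refine (hY.kk_le p ξ η).trans ?_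
  have h1 := Y.sv_nonneg ξ
  have h2 := Y.sv_nonneg η
  have h3 := Y.sv_le_one ξ
  have h4 := Y.sv_le_one η
  have h5 := hY.K_pos
  have h6 : Y.sv ξ * Y.sv η ≤ 1 := by nlinarith
  nlinarith

theorem Crit.kk_le_left (p : Law) (ξ η : List S) : Y.kk p ξ η ≤ K * Y.sv ξ := by
  refine (hY.kk_le p ξ η).trans ?_
  have h1 := mul_nonneg hY.K_pos.le (Y.sv_nonneg ξ)
  have h4 := Y.sv_le_one η
  nlinarith

theorem Crit.kk_le_right (p : Law) (ξ η : List S) : Y.kk p ξ η ≤ K * Y.sv η := by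
  refine (hY.kk_le p ξ η).trans ?_
  have h1 := mul_nonneg hY.K_pos.le (Y.sv_nonneg η)
  have h4 := Y.sv_le_one ξ
  nlinarith

omit hY in
theorem abs_mn_le (p : Law) (ξ ξ' η η' : List S) :
    |Y.mn p ξ ξ' η η'| ≤ Y.kk p ξ η * Y.kk p ξ' η' + Y.kk p ξ η' * Y.kk p ξ' η := by
  unfold mn
  have h1 := mul_nonneg (Y.kk_nonneg p ξ η) (Y.kk_nonneg p ξ' η')
  have h2 := mul_nonneg (Y.kk_nonneg p ξ η') (Y.kk_nonneg p ξ' η)
  rw [abs_le]
  constructor <;> linarith

end Crit

end Sys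

end Pool.Agent.Bub4
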